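import Pool.Agent.Helper31.SR.IntB

/-!
# Project MEI (M2), track B: the core statement from values at any finite set of vertices

`Dc V S lam` = `S` is the combination of the vertices `V` with the weights `lam`; `coreP_X` = the
core statement; `dc_cone` = the decomposition on a cone over a simplex between two levels of the
sum.
-/

set_option autoImplicit false

namespace Pool.Agent.Helper31.SR.IntC

open Set Metric MeasureTheory Filter Topology Helper93.MEI Helper80.CW Helper14.CW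
open Helper14.MEI2 Pool.Agent.Helper73.MEI Helper82.M2 Helper82.CW Helper41.MEI
open Pool.Agent.Helper31.SR Helper37.MEI
open Helper33.MEI (Wi)
open Helper78.MEI
open Helper13.PLM (StX stX)
open Pool.Agent.Helper31.SR.Sort (Dec coreP_sorted)
open Pool.Agent.Helper31.SR.IntB
open scoped RealInnerProductSpace

variable {ι : Type} [Fintype ι]

/-- `S` is a convex combination of the vertices -/
structure Dc (V : ι → Fin 4 → ℝ) (S : Fin 4 → ℝ) (lam : ι → ℝ) : Prop where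
  nn : ∀ v, 0 ≤ lam v
  one : ∑ v, lam v = 1
  eq : ∀ i, S i = ∑ v, lam v * V v i

/-- Jensen -/
theorem Dc.conv {V : ι → Fin 4 → ℝ} {S : Fin 4 → ℝ} {lam : ι → ℝ} (h : Dc V S lam)
    {C : Set (Fin 4 → ℝ)} (hV : ∀ v, V v ∈ C) {φ : (Fin 4 → ℝ) → ℝ} (hφ : ConvexOn ℝ C φ) :
    φ S ≤ ∑ v, lam v * φ (V v) := by
  have hS' : S = ∑ v, lam v • V v := by
    funext i
    rw [Finset.sum_apply, h.eq]
    rfl
  have h' := hφ.map_sum_le (t := Finset.univ) (w := lam) (p := V) (fun p _ => h.nn p) h.one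
    (fun p _ => hV p)
  rw [← hS'] at h'
  simpa only [smul_eq_mul] using h'

/-- a function which is affine on the vertices -/
theorem Dc.aff {V : ι → Fin 4 → ℝ} {S : Fin 4 → ℝ} {lam : ι → ℝ} (h : Dc V S lam) (c : ℝ)
    (d : Fin 4 → ℝ) : c + ∑ i, d i * S i = ∑ v, lam v * (c + ∑ i, d i * V v i) := by
  have e : ∀ v, lam v * (c + ∑ i, d i * V v i) =
      c * lam v + ∑ i, d i * (lam v * V v i) := by
    intro v
    rw [mul_add, Finset.mul_sum]
    congr 1
    · ring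
    · exact Finset.sum_congr rfl fun i _ => by ring
  rw [Finset.sum_congr rfl fun v _ => e v, Finset.sum_add_distrib, ← Finset.mul_sum, h.one,
    mul_one, Finset.sum_comm]
  congr 1
  refine Finset.sum_congr rfl fun i _ => ?_
  rw [← Finset.mul_sum, ← h.eq]

/-- positive parts of affine functions -/
theorem Dc.pos {V : ι → Fin 4 → ℝ} {S : Fin 4 → ℝ} {lam : ι → ℝ} (h : Dc V S lam) (c : ℝ)
    (d : Fin 4 → ℝ) : max (c + ∑ i, d i * S i) 0 ≤
      ∑ v, lam v * max (c + ∑ i, d i * V v i) 0 := by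
  refine max_le ?_ ?_
  · rw [h.aff c d]
    exact Finset.sum_le_sum fun v _ => mul_le_mul_of_nonneg_left (le_max_left _ _) (h.nn v)
  · exact Finset.sum_nonneg fun v _ => mul_nonneg (h.nn v) (le_max_right _ _)

/-- the four numbers of a state -/
theorem Dc.cube {V : ι → Fin 4 → ℝ} {S : Fin 4 → ℝ} {lam : ι → ℝ} (h : Dc V S lam)
    (hV : ∀ v i, 0 ≤ V v i) (i : Fin 4) : S i ^ 3 ≤ ∑ v, lam v * V v i ^ 3 := by
  have hco : Convex ℝ {v : Fin 4 → ℝ | ∀ i, 0 ≤ v i} := by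
    intro x hx y hy s t hs ht _ i
    simp only [Pi.add_apply, Pi.smul_apply, smul_eq_mul]
    exact add_nonneg (mul_nonneg hs (hx i)) (mul_nonneg ht (hy i))
  refine h.conv (C := {v | ∀ i, 0 ≤ v i}) (φ := fun v => v i ^ 3) (fun v i => hV v i) ⟨hco, ?_⟩
  intro x hx y hy s t hs ht hst
  have h := (convexOn_pow 3).2 (hx i : x i ∈ Set.Ici (0 : ℝ)) (hy i : y i ∈ Set.Ici (0 : ℝ))
    hs ht hst
  simpa using h

/-- what the sum of the faces must give at a state, constant and linear part free -/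
noncomputable def nd (c0 c1 : ℝ) (S : Fin 4 → ℝ) : ℝ := c0 + ∑ i, (c1 * S i + 0.501 * S i ^ 3)

theorem Dc.nd {V : ι → Fin 4 → ℝ} {S : Fin 4 → ℝ} {lam : ι → ℝ} (h : Dc V S lam)
    (hV : ∀ v i, 0 ≤ V v i) (c0 c1 : ℝ) :
    IntC.nd c0 c1 S ≤ ∑ v, lam v * IntC.nd c0 c1 (V v) := by
  have e0 : ∑ i, 0.501 * ∑ v, lam v * V v i ^ 3 =
      ∑ v, lam v * ∑ i, 0.501 * V v i ^ 3 := by
    simp only [Finset.mul_sum]
    rw [Finset.sum_comm]
    exact Finset.sum_congr rfl fun v _ => Finset.sum_congr rfl fun i _ => by ring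
  have e1 : ∑ v, lam v * IntC.nd c0 c1 (V v) =
      ∑ v, lam v * (c0 + ∑ i, c1 * V v i) + ∑ i, 0.501 * ∑ v, lam v * V v i ^ 3 := by
    rw [e0, ← Finset.sum_add_distrib]
    refine Finset.sum_congr rfl fun v _ => ?_
    unfold IntC.nd
    simp only [Fin.sum_univ_four]
    ring
  rw [e1, ← h.aff c0 fun _ => c1]
  have h1 : ∑ i, 0.501 * S i ^ 3 ≤ ∑ i, 0.501 * ∑ v, lam v * V v i ^ 3 :=
    Finset.sum_le_sum fun i _ => mul_le_mul_of_nonneg_left (h.cube hV i) (by norm_num)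
  have e2 : IntC.nd c0 c1 S = (c0 + ∑ i, c1 * S i) + ∑ i, 0.501 * S i ^ 3 := by
    unfold IntC.nd
    simp only [Fin.sum_univ_four]
    ring
  rw [e2]
  linarith

/-- **the core statement from any finite set of vertices.** `c0`, `c1` = constant and slope of the
small terms of the assembly on `P` (`c0 = 0` on cones with apex `0`). -/
theorem coreP_X {X κ c0 c1 : ℝ} (hκ : 0 ≤ κ) {P : (Fin 4 → ℝ) → Prop} (V : ι → Fin 4 → ℝ)
    (hV0 : ∀ v i, 0 ≤ V v i) (hP : ∀ S : Fin 4 → ℝ, (∀ i, 0 ≤ S i) → P S → ∃ lam, Dc V S lam)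
    (hc : ∀ S : Fin 4 → ℝ, (∀ i, 0 ≤ S i) → P S →
      1.85e-4 + (0.0039 + 4.08 * κ) * ∑ i, S i ≤ c0 + c1 * ∑ i, S i)
    (mm : Fin 4 → ι → ℝ) (b : ι → ℝ) (hnum : ∀ v, nd c0 c1 (V v) + b v ≤ ∑ i, mm i v)
    (H : ∀ (K : Set E3) (σ : Measure (E3 × E3)), IsFiniteMeasure σ →
      ∀ a c : Fin 4 → E3, CN K σ a c → EpsLe c X → ∀ S : Fin 4 → ℝ, Viol K a S → P S →
      ∀ lam, Dc V S lam →
      ∀ B : Fin 3 → Bool → OrthonormalBasis (Fin 3) ℝ E3,
      (∀ m e, Fr (fun i => a (pr m e i)) (B m e)) →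
      ∃ (l : Fin 3 → Bool → Bool → E3 × E3 → ℝ) (F : Fin 4 → ℝ) (q : Fin 4 → ι → ℝ),
        TL σ a B l 0 ∧ (∀ v, ∑ i, q i v ≤ b v) ∧
        (∀ i, LLs σ a l i + F i ≤ Wi a i K σ 3.83) ∧
        ∀ i, ∑ v, lam v * (mm i v - q i v) ≤ F i) :
    CoreP P X κ := by
  refine coreP_L hκ fun K σ hσ a c hC hX S hV hS B hB => ?_
  obtain ⟨lam, hlam⟩ := hP S hV.nn hS
  obtain ⟨l, F, q, hT, hk, hF, hm⟩ := H K σ hσ a c hC hX S hV hS lam hlam B hB
  refine ⟨l, 0, F, hT, hF, ?_⟩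
  have n1 := hlam.nd hV0 c0 c1
  have n2 : ∀ v, nd c0 c1 (V v) ≤ ∑ i, (mm i v - q i v) := by
    intro v
    rw [Finset.sum_sub_distrib]
    have h3 := hk v
    have := hnum v
    linarith
  have n3 : ∑ v, lam v * nd c0 c1 (V v) ≤ ∑ v, lam v * ∑ i, (mm i v - q i v) :=
    Finset.sum_le_sum fun v _ => mul_le_mul_of_nonneg_left (n2 v) (hlam.nn v)
  have n4 : ∑ v, lam v * ∑ i, (mm i v - q i v) = ∑ i, ∑ v, lam v * (mm i v - q i v) := by
    rw [Finset.sum_comm]
    exact Finset.sum_congr rfl fun v _ => Finset.mul_sum _ _ _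
  have n5 := Finset.sum_le_sum fun i (_ : i ∈ (Finset.univ : Finset (Fin 4))) => hm i
  have n6 : nd c0 c1 S ≤ ∑ i, F i := by linarith
  have n7 := hc S hV.nn hS
  have e1 : nd c0 c1 S = (c0 + c1 * ∑ i, S i) + ∑ i, 0.501 * S i ^ 3 := by
    unfold nd
    simp only [Fin.sum_univ_four]
    ring
  have e2 : 1.85e-4 + 0 + ∑ i, (0.0039 * S i + 0.501 * S i ^ 3) + 4.08 * κ * (∑ i, S i) =
      (1.85e-4 + (0.0039 + 4.08 * κ) * ∑ i, S i) + ∑ i, 0.501 * S i ^ 3 := by
    simp only [Fin.sum_univ_four]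
    ring
  rw [e2]
  linarith

/-- the vertices of a cone over the simplex with the vertices `T n` between two levels -/
noncomputable def VT (T : Fin 4 → Fin 4 → ℝ) (Xl Xu : ℝ) (v : Fin 2 × Fin 4) (i : Fin 4) : ℝ :=
  (if v.1 = 0 then Xl else Xu) * T v.2 i

theorem VT_nonneg {T : Fin 4 → Fin 4 → ℝ} (hT : ∀ n i, 0 ≤ T n i) {Xl Xu : ℝ} (h0 : 0 ≤ Xl)
    (h1 : Xl ≤ Xu) (v : Fin 2 × Fin 4) (i : Fin 4) : 0 ≤ VT T Xl Xu v i := by
  unfold VT
  split_ifs
  · exact mul_nonneg h0 (hT _ _)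
  · exact mul_nonneg (h0.trans h1) (hT _ _)

/-- **the decomposition on a cone**: `S = ∑ β n T n`, `β ≥ 0` -/
theorem dc_cone {T : Fin 4 → Fin 4 → ℝ} (h1 : ∀ n, ∑ i, T n i = 1) {Xl Xu : ℝ} (hXl : 0 ≤ Xl)
    {S β : Fin 4 → ℝ} (hβ : ∀ n, 0 ≤ β n) (hS : ∀ i, S i = ∑ n, β n * T n i)
    (hl : Xl ≤ ∑ i, S i) (hu : ∑ i, S i ≤ Xu) : ∃ lam, Dc (VT T Xl Xu) S lam := by
  have hsum : ∑ i, S i = ∑ n, β n := by
    rw [Finset.sum_congr rfl fun i _ => hS i, Finset.sum_comm]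
    refine Finset.sum_congr rfl fun n _ => ?_
    rw [← Finset.mul_sum, h1, mul_one]
  obtain ⟨s, hs⟩ : ∃ s, s = ∑ n, β n := ⟨_, rfl⟩
  rw [hsum, ← hs] at hl hu
  have hs0 : 0 ≤ s := hXl.trans hl
  rcases hs0.eq_or_lt with h0 | h0
  · have hX : Xl = 0 := by linarith
    have hz : ∀ n, β n = 0 := by
      intro n
      have h2 : β n ≤ ∑ n, β n := Finset.single_le_sum (fun k _ => hβ k) (Finset.mem_univ n)
      rw [← hs, ← h0] at h2
      exact le_antisymm h2 (hβ n)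
    refine ⟨fun v => if v = (0, 0) then 1 else 0, fun v => ?_, ?_, fun i => ?_⟩
    · show (0 : ℝ) ≤ if v = (0, 0) then 1 else 0
      split_ifs <;> norm_num
    · simp
    · rw [hS i, Finset.sum_eq_zero fun n _ => by rw [hz n, zero_mul]]
      symm
      refine Finset.sum_eq_zero fun v _ => ?_
      split_ifs with h
      · unfold VT
        rw [h, hX]
        simp
      · rw [zero_mul]
  · obtain ⟨θ, hθ0, hθ1, hθ⟩ : ∃ θ : ℝ, 0 ≤ θ ∧ θ ≤ 1 ∧ s = (1 - θ) * Xl + θ * Xu := by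
      rcases (hl.trans hu).eq_or_lt with h | h
      · exact ⟨1, zero_le_one, le_rfl, by linarith⟩
      · have h5 : 0 < Xu - Xl := by linarith
        refine ⟨(s - Xl) / (Xu - Xl), div_nonneg (by linarith) h5.le,
          (div_le_one h5).2 (by linarith), ?_⟩
        field_simp
        ring
    refine ⟨fun v => (if v.1 = 0 then 1 - θ else θ) * (β v.2 / s), fun v => ?_, ?_, fun i => ?_⟩
    · refine mul_nonneg ?_ (div_nonneg (hβ _) hs0)
      split_ifs <;> linarith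
    · rw [Fintype.sum_prod_type, Fin.sum_univ_two]
      simp only [if_true, one_ne_zero, if_false]
      rw [← Finset.sum_add_distrib]
      have : ∀ n, (1 - θ) * (β n / s) + θ * (β n / s) = β n / s := fun n => by ring
      rw [Finset.sum_congr rfl fun n _ => this n, ← Finset.sum_div, ← hs, div_self h0.ne']
    · rw [Fintype.sum_prod_type, Fin.sum_univ_two]
      unfold VT
      simp only [if_true, one_ne_zero, if_false]
      rw [← Finset.sum_add_distrib, hS i]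
      refine Finset.sum_congr rfl fun n _ => ?_
      have e : (1 - θ) * (β n / s) * (Xl * T n i) + θ * (β n / s) * (Xu * T n i) =
          ((1 - θ) * Xl + θ * Xu) / s * (β n * T n i) := by ring
      rw [e, ← hθ, div_self h0.ne', one_mul]

/-- `S` lies in the cone over the simplex `T` -/
def Cone (T : Fin 4 → Fin 4 → ℝ) (S : Fin 4 → ℝ) : Prop :=
  ∃ β : Fin 4 → ℝ, (∀ n, 0 ≤ β n) ∧ ∀ i, S i = ∑ n, β n * T n i

theorem Cone.dc {T : Fin 4 → Fin 4 → ℝ} (h1 : ∀ n, ∑ i, T n i = 1) {Xl Xu : ℝ} (hXl : 0 ≤ Xl)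
    {S : Fin 4 → ℝ} (h : Cone T S) (hl : Xl ≤ ∑ i, S i) (hu : ∑ i, S i ≤ Xu) :
    ∃ lam, Dc (VT T Xl Xu) S lam := by
  obtain ⟨β, h2, h3⟩ := h
  exact dc_cone h1 hXl h2 h3 hl hu

/-- the four vertices of the sorted states -/
noncomputable def TU : Fin 4 → Fin 4 → ℝ :=
  ![![1, 0, 0, 0], ![1 / 2, 1 / 2, 0, 0], ![1 / 3, 1 / 3, 1 / 3, 0], ![1 / 4, 1 / 4, 1 / 4, 1 / 4]]

theorem cone_dec {S : Fin 4 → ℝ} (hD : Dec S) (h3 : 0 ≤ S 3) : Cone TU S := by
  obtain ⟨a, b, c⟩ := hD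
  refine ⟨![S 0 - S 1, 2 * (S 1 - S 2), 3 * (S 2 - S 3), 4 * S 3], fun n => ?_, fun i => ?_⟩
  · fin_cases n <;> simp <;> linarith
  · fin_cases i <;> simp [TU, Fin.sum_univ_four] <;> ring

/-- **bisection of an edge of the simplex**: `T1` has the point `M = (1 - r) T a + r T b` at `a`,
`T2` has it at `b` -/
theorem Cone.split {T T1 T2 : Fin 4 → Fin 4 → ℝ} {S : Fin 4 → ℝ} (h : Cone T S) {a b : Fin 4}
    (hab : a ≠ b) {r : ℝ} (hr0 : 0 < r) (hr1 : r < 1)
    (h1 : ∀ i, T1 a i = (1 - r) * T a i + r * T b i) (h1' : ∀ n, n ≠ a → T1 n = T n)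
    (h2 : ∀ i, T2 b i = (1 - r) * T a i + r * T b i) (h2' : ∀ n, n ≠ b → T2 n = T n) :
    Cone T1 S ∨ Cone T2 S := by
  obtain ⟨β, hβ, hS⟩ := h
  have hr : (0 : ℝ) < 1 - r := by linarith
  have key : ∀ (f : Fin 4 → ℝ), ∑ n, f n = f a + f b +
      ∑ n ∈ (Finset.univ.erase a).erase b, f n := by
    intro f
    rw [← Finset.add_sum_erase _ f (Finset.mem_univ a),
      ← Finset.add_sum_erase _ f (show b ∈ Finset.univ.erase a by simp [hab.symm])]
    ring
  rcases le_total (β a * r) (β b * (1 - r)) with h | h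
  · -- keep `b`
    left
    refine ⟨fun n => if n = a then β a / (1 - r) else if n = b then β b - β a * r / (1 - r)
      else β n, fun n => ?_, fun i => ?_⟩
    · show 0 ≤ if n = a then β a / (1 - r) else if n = b then β b - β a * r / (1 - r) else β n
      split_ifs
      · exact div_nonneg (hβ a) hr.le
      · rw [sub_nonneg, div_le_iff₀ hr]
        exact h
      · exact hβ n
    · rw [hS i, key, key]
      simp only [if_true, if_neg hab.symm]
      rw [h1, h1' b hab.symm]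
      have : ∑ n ∈ (Finset.univ.erase a).erase b, β n * T n i =
          ∑ n ∈ (Finset.univ.erase a).erase b,
            (if n = a then β a / (1 - r) else if n = b then β b - β a * r / (1 - r)
              else β n) * T1 n i := by
        refine Finset.sum_congr rfl fun n hn => ?_
        simp only [Finset.mem_erase] at hn
        rw [if_neg hn.2.1, if_neg hn.1, h1' n hn.2.1]
      rw [this]
      field_simp
      ring
  · right
    refine ⟨fun n => if n = b then β b / r else if n = a then β a - β b * (1 - r) / r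
      else β n, fun n => ?_, fun i => ?_⟩
    · show 0 ≤ if n = b then β b / r else if n = a then β a - β b * (1 - r) / r else β n
      split_ifs
      · exact div_nonneg (hβ b) hr0.le
      · rw [sub_nonneg, div_le_iff₀ hr0]
        exact h
      · exact hβ n
    · rw [hS i, key, key]
      simp only [if_true, if_neg hab]
      rw [h2, h2' a hab]
      have : ∑ n ∈ (Finset.univ.erase a).erase b, β n * T n i =
          ∑ n ∈ (Finset.univ.erase a).erase b,
            (if n = b then β b / r else if n = a then β a - β b * (1 - r) / r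
              else β n) * T2 n i := by
        refine Finset.sum_congr rfl fun n hn => ?_
        simp only [Finset.mem_erase] at hn
        rw [if_neg hn.1, if_neg hn.2.1, h2' n hn.1]
      rw [this]
      field_simp
      ring

/-- the vertices of a cone with the apex `0` -/
noncomputable def VC (T : Fin 4 → Fin 4 → ℝ) (Xu : ℝ) : Option (Fin 4) → Fin 4 → ℝ
  | none, _ => 0
  | some n, i => Xu * T n i

theorem VC_nonneg {T : Fin 4 → Fin 4 → ℝ} (hT : ∀ n i, 0 ≤ T n i) {Xu : ℝ} (h1 : 0 ≤ Xu)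
    (v : Option (Fin 4)) (i : Fin 4) : 0 ≤ VC T Xu v i := by
  rcases v with _ | n
  · exact le_rfl
  · exact mul_nonneg h1 (hT _ _)

theorem Cone.dc0 {T : Fin 4 → Fin 4 → ℝ} (h1 : ∀ n, ∑ i, T n i = 1) {Xu : ℝ} (hXu : 0 < Xu)
    {S : Fin 4 → ℝ} (h : Cone T S) (hu : ∑ i, S i ≤ Xu) :
    ∃ lam, Dc (VC T Xu) S lam := by
  obtain ⟨β, hβ, hS⟩ := h
  have hsum : ∑ i, S i = ∑ n, β n := by
    rw [Finset.sum_congr rfl fun i _ => hS i, Finset.sum_comm]
    refine Finset.sum_congr rfl fun n _ => ?_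
    rw [← Finset.mul_sum, h1, mul_one]
  refine ⟨fun v => match v with
    | none => 1 - (∑ n, β n) / Xu
    | some n => β n / Xu, fun v => ?_, ?_, fun i => ?_⟩
  · rcases v with _ | n
    · show 0 ≤ 1 - (∑ n, β n) / Xu
      rw [sub_nonneg, div_le_one hXu, ← hsum]
      exact hu
    · exact div_nonneg (hβ n) hXu.le
  · rw [Fintype.sum_option]
    show 1 - (∑ n, β n) / Xu + ∑ n, β n / Xu = 1
    rw [← Finset.sum_div]
    ring
  · rw [Fintype.sum_option]
    show S i = (1 - (∑ n, β n) / Xu) * 0 + ∑ n, β n / Xu * (Xu * T n i)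
    rw [mul_zero, zero_add, hS i]
    refine Finset.sum_congr rfl fun n _ => ?_
    field_simp

/-- **the states between two sums from the cones of a cover** -/
theorem coreP_cones {X κ T0 Xu : ℝ} (L : List (Fin 4 → Fin 4 → ℝ))
    (hcov : ∀ S : Fin 4 → ℝ, Dec S → 0 ≤ S 3 → ∃ T ∈ L, Cone T S)
    (h : ∀ T ∈ L, CoreP (fun S => StX X S ∧ T0 ≤ ∑ i, S i ∧ ∑ i, S i ≤ Xu ∧ Dec S ∧ Cone T S)
      X κ) : CoreP (fun S => StX X S ∧ T0 ≤ ∑ i, S i ∧ ∑ i, S i ≤ Xu) X κ := by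
  refine coreP_sorted fun K σ hσ a c hC hX S hV hS i => ?_
  obtain ⟨T, hT, hc⟩ := hcov S hS.2 (hV.nn 3)
  exact h T hT K σ hσ a c hC hX S hV ⟨hS.1.1, hS.1.2.1, hS.1.2.2, hS.2, hc⟩ i

end Pool.Agent.Helper31.SR.IntC
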