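import Pool.Agent.Helper41.MEI.ArcS
import Pool.Agent.Helper78.MEI.Face2

/-!
# The arcs and the apex as loads of the face of the vertex `τ 0`

`idx i p` = the (edge, end) whose loss is charged to the vertex `i`, the other end being `p`; its
moment lies on the two other vertices.
-/

set_option autoImplicit false

namespace Pool.Agent.Helper31.SR

open Set Metric MeasureTheory Helper80.CW Helper82.CW Helper14.CW Helper93.MEI
open Helper14.MEI2 Pool.Agent.Helper52.MEI Pool.Agent.Helper73.MEI Helper37.MEI Helper41.MEI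
open Pool.Agent.Helper55.Mass (LN)
open scoped RealInnerProductSpace

/-- (edge, end) charged to `i`, other end `p` -/
def idx : Fin 4 → Fin 4 → Fin 3 × Bool × Bool
  | 0, 1 => (0, false, false)
  | 1, 0 => (0, false, true)
  | 2, 3 => (0, true, false)
  | 3, 2 => (0, true, true)
  | 0, 2 => (1, false, false)
  | 2, 0 => (1, false, true)
  | 1, 3 => (1, true, false)
  | 3, 1 => (1, true, true)
  | 0, 3 => (2, false, false)
  | 3, 0 => (2, false, true)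
  | 1, 2 => (2, true, false)
  | 2, 1 => (2, true, true)
  | _, _ => (0, false, false)

theorem idx_vx : ∀ i p : Fin 4, i ≠ p →
    vx (idx i p).1 (idx i p).2.1 (idx i p).2.2 = i ∧
      vx (idx i p).1 (idx i p).2.1 (!(idx i p).2.2) = p := by decide

theorem idx_pf : ∀ i p k : Fin 4, i ≠ p → k ≠ i → k ≠ p →
    pf (idx i p).1 (idx i p).2.1 2 = k ∨ pf (idx i p).1 (idx i p).2.1 3 = k := by decide

variable {a : Fin 4 → E3} {K : Set E3} {σ : Measure (E3 × E3)}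
  {l : Fin 3 → Bool → Bool → E3 × E3 → ℝ}

/-- level of the arc -/
noncomputable def aE (σ : Measure (E3 × E3)) (a : Fin 4 → E3)
    (l : Fin 3 → Bool → Bool → E3 × E3 → ℝ) (i p : Fin 4) : ℝ :=
  sL σ a l (idx i p).1 (idx i p).2.1 (idx i p).2.2

/-- mass of the arc -/
noncomputable def am (σ : Measure (E3 × E3)) (a : Fin 4 → E3)
    (l : Fin 3 → Bool → Bool → E3 × E3 → ℝ) (i p : Fin 4) : ℝ :=
  sm σ a l (idx i p).1 (idx i p).2.1 (idx i p).2.2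

/-- moment of the arc -/
noncomputable def aM (σ : Measure (E3 × E3)) (a : Fin 4 → E3)
    (l : Fin 3 → Bool → Bool → E3 × E3 → ℝ) (i p k : Fin 4) : ℝ :=
  sM σ a l (idx i p).1 (idx i p).2.1 (idx i p).2.2 k

theorem LLs_eq (i : Fin 4) :
    LLs σ a l i = ∑ p : Fin 4, if p = i then 0 else aE σ a l i p := by
  unfold LLs
  rw [Fintype.sum_prod_type, Fin.sum_univ_three, Fin.sum_univ_four]
  simp only [Fintype.sum_prod_type, Fintype.sum_bool]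
  fin_cases i <;> simp [vx, pf, aE, idx] <;> ring

/-- **the loss of the vertex `τ 0`** -/
theorem LLs_perm (τ : Equiv.Perm (Fin 4)) :
    LLs σ a l (τ 0) = aE σ a l (τ 0) (τ 1) + aE σ a l (τ 0) (τ 2) + aE σ a l (τ 0) (τ 3) := by
  rw [LLs_eq, ← Equiv.sum_comp τ, Fin.sum_univ_four]
  have h : ∀ k : Fin 4, k ≠ 0 → τ k ≠ τ 0 := fun k hk h => hk (τ.injective h)
  rw [if_pos rfl, if_neg (h 1 (by decide)), if_neg (h 2 (by decide)), if_neg (h 3 (by decide))]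
  ring

/-- columns of the arc opposite to the corner `l` in the face of `τ 0` -/
noncomputable def MA (σ : Measure (E3 × E3)) (a : Fin 4 → E3)
    (l : Fin 3 → Bool → Bool → E3 × E3 → ℝ) (τ : Equiv.Perm (Fin 4)) (p k : Fin 3) : ℝ :=
  pp (aM σ a l (τ 0) (τ p.succ) (τ k.succ))

theorem MA_nonneg (τ : Equiv.Perm (Fin 4)) (p k : Fin 3) : 0 ≤ MA σ a l τ p k := pp_nonneg _

/-- **the arc as a load of the face of `τ 0`** -/
theorem arc_load [IsFiniteMeasure σ] (ha : ∀ i j, i ≠ j → dist (a i) (a j) = 1)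
    (hl : Lok a l) (hK : IsCompact K) (hσ : ∀ᵐ z ∂σ, z.1 ∈ K ∧ z.2 ∈ K)
    (hp : ∀ x ∈ K, Pl a x) (hd : ∀ x ∈ K, ∀ y ∈ K, ‖x - y‖ ≤ 1) (τ : Equiv.Perm (Fin 4))
    {q : E3} (hq : q ∈ K) (p : Fin 3) :
    Load (fun i => a (τ i)) q (aE σ a l (τ 0) (τ p.succ)) (am σ a l (τ 0) (τ p.succ))
      (MA σ a l τ p) := by
  have hne : τ 0 ≠ τ p.succ := fun h => (Fin.succ_ne_zero p) (τ.injective h).symm
  have hv := idx_vx (τ 0) (τ p.succ) hne
  have h1 := arc_cpl ha hl hK hσ hp (idx (τ 0) (τ p.succ)).1 (idx (τ 0) (τ p.succ)).2.1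
    (idx (τ 0) (τ p.succ)).2.2 (r := q) (fun z hz => hd z hz q hq)
  rw [hv.1, ← Equiv.sum_comp τ, Fin.sum_univ_four] at h1
  have y0 : yv a (τ 0) (τ 0) q = 0 := by
    unfold yv
    rw [sub_self, inner_zero_right]
  rw [y0, mul_zero, zero_add] at h1
  have hy : ∀ k : Fin 4, k ≠ 0 → 0 ≤ yv a (τ 0) (τ k) q := fun k hk =>
    yv_nonneg (hp q hq) fun h => hk (τ.injective h).symm
  have e : ∀ k : Fin 4, yv (fun i => a (τ i)) 0 k q = yv a (τ 0) (τ k) q := fun k => rfl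
  have m1 := mul_le_mul_of_nonneg_right (le_pp (sM σ a l (idx (τ 0) (τ p.succ)).1
    (idx (τ 0) (τ p.succ)).2.1 (idx (τ 0) (τ p.succ)).2.2 (τ 1))) (hy 1 (by decide))
  have m2 := mul_le_mul_of_nonneg_right (le_pp (sM σ a l (idx (τ 0) (τ p.succ)).1
    (idx (τ 0) (τ p.succ)).2.1 (idx (τ 0) (τ p.succ)).2.2 (τ 2))) (hy 2 (by decide))
  have m3 := mul_le_mul_of_nonneg_right (le_pp (sM σ a l (idx (τ 0) (τ p.succ)).1
    (idx (τ 0) (τ p.succ)).2.1 (idx (τ 0) (τ p.succ)).2.2 (τ 3))) (hy 3 (by decide))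
  unfold Load
  rw [e, e, e]
  refine h1.trans ?_
  show _ ≤ 2 * (pp (aM σ a l (τ 0) (τ p.succ) (τ 1)) * yv a (τ 0) (τ 1) q +
    pp (aM σ a l (τ 0) (τ p.succ) (τ 2)) * yv a (τ 0) (τ 2) q +
    pp (aM σ a l (τ 0) (τ p.succ) (τ 3)) * yv a (τ 0) (τ 3) q)
  unfold aM
  linarith

/-- the two columns of an arc -/
theorem MA_le [IsFiniteMeasure σ] (ha : ∀ i j, i ≠ j → dist (a i) (a j) = 1) (hl : Lok a l)
    (h : PM K σ) (hull : ∀ p, (∀ q ∈ K, ‖p - q‖ ≤ 1) → p ∈ K) (hp : ∀ x ∈ K, Pl a x)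
    {B : Fin 3 → Bool → OrthonormalBasis (Fin 3) ℝ E3}
    (hB : ∀ m e, Fr (fun i => a (pr m e i)) (B m e)) {S : Fin 4 → ℝ} (hS0 : ∀ i, 0 ≤ S i)
    (hQ : ∀ i, ∀ q ∈ K, Qv a i q ≤ S i) {T : ℝ} (hT : ∀ i, S i ≤ T) (hT1 : T ≤ 3 / 16)
    (τ : Equiv.Perm (Fin 4)) {p k : Fin 3} (hk : k ≠ p) :
    MA σ a l τ p k ≤ Helper21.Mom.Mbar T := by
  have hne : τ 0 ≠ τ p.succ := fun h => (Fin.succ_ne_zero p) (τ.injective h).symm
  have h1 : τ k.succ ≠ τ 0 := fun h => (Fin.succ_ne_zero k) (τ.injective h)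
  have h2 : τ k.succ ≠ τ p.succ := fun h => hk (Fin.succ_injective _ (τ.injective h))
  unfold MA aM
  rcases idx_pf (τ 0) (τ p.succ) (τ k.succ) hne h1 h2 with h3 | h3
  · have := sM_Mbar ha hl h hull hp hB hS0 hQ hT hT1 (idx (τ 0) (τ p.succ)).1
      (idx (τ 0) (τ p.succ)).2.1 (idx (τ 0) (τ p.succ)).2.2 (k := 2) (Or.inl rfl)
    rwa [h3] at this
  · have := sM_Mbar ha hl h hull hp hB hS0 hQ hT hT1 (idx (τ 0) (τ p.succ)).1
      (idx (τ 0) (τ p.succ)).2.1 (idx (τ 0) (τ p.succ)).2.2 (k := 3) (Or.inr rfl)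
    rwa [h3] at this

/-- the third column vanishes for violations at most `.026` -/
theorem MA_third [IsFiniteMeasure σ] (ha : ∀ i j, i ≠ j → dist (a i) (a j) = 1)
    (hK : IsCompact K) (hσ : ∀ᵐ z ∂σ, z.1 ∈ K ∧ z.2 ∈ K) (hp : ∀ x ∈ K, Pl a x)
    (τ : Equiv.Perm (Fin 4)) (hQ : ∀ x ∈ K, Qv a (τ 0) x ≤ 0.026) (p : Fin 3) :
    MA σ a (l2 a) τ p p = 0 := by
  have hne : τ 0 ≠ τ p.succ := fun h => (Fin.succ_ne_zero p) (τ.injective h).symm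
  have hv := idx_vx (τ 0) (τ p.succ) hne
  have h1 := sM_third_zero ha hK hσ hp (idx (τ 0) (τ p.succ)).1 (idx (τ 0) (τ p.succ)).2.1
    (idx (τ 0) (τ p.succ)).2.2 (by rw [hv.1]; exact hQ)
  rw [hv.2] at h1
  exact h1

/-- the third column in general -/
theorem MA_third' [IsFiniteMeasure σ] (ha : ∀ i j, i ≠ j → dist (a i) (a j) = 1)
    (hK : IsCompact K) (hσ : ∀ᵐ z ∂σ, z.1 ∈ K ∧ z.2 ∈ K) (hp : ∀ x ∈ K, Pl a x)
    (τ : Equiv.Perm (Fin 4)) {S : ℝ} (hS : S ≤ 3 / 20) (hQ : ∀ x ∈ K, Qv a (τ 0) x ≤ S)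
    {W : ℝ} (hW : ∀ m e i, ∫ z in EE a m e, wt (ap a m e) i z.1 ∂σ ≤ W) (p : Fin 3) :
    MA σ a (l2 a) τ p p ≤ 16 / 9 * pp (√S - 0.1623) ^ 2 * W := by
  have hne : τ 0 ≠ τ p.succ := fun h => (Fin.succ_ne_zero p) (τ.injective h).symm
  have hv := idx_vx (τ 0) (τ p.succ) hne
  have h1 := sM_third ha hK hσ hp hS (idx (τ 0) (τ p.succ)).1 (idx (τ 0) (τ p.succ)).2.1
    (idx (τ 0) (τ p.succ)).2.2 (by rw [hv.1]; exact hQ)
  rw [hv.2] at h1
  have w0 := hW (idx (τ 0) (τ p.succ)).1 (idx (τ 0) (τ p.succ)).2.1 false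
  have w1 := hW (idx (τ 0) (τ p.succ)).1 (idx (τ 0) (τ p.succ)).2.1 true
  have h2 : (0 : ℝ) ≤ 8 / 9 * pp (√S - 0.1623) ^ 2 := by positivity
  refine h1.trans ?_
  have := mul_le_mul_of_nonneg_left (add_le_add w0 w1) h2
  linarith

/-- level against mass -/
theorem aE_le [IsFiniteMeasure σ] (ha : ∀ i j, i ≠ j → dist (a i) (a j) = 1) (hl : Lok a l)
    (hK : IsCompact K) (hσ : ∀ᵐ z ∂σ, z.1 ∈ K ∧ z.2 ∈ K) (hp : ∀ x ∈ K, Pl a x) {i p : Fin 4}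
    (hip : i ≠ p) {S : ℝ} (hQ : ∀ x ∈ K, Qv a i x ≤ S) : aE σ a l i p ≤ S * am σ a l i p := by
  have hv := idx_vx i p hip
  exact sL_le ha hl hK hσ hp (idx i p).1 (idx i p).2.1 (idx i p).2.2 (by rw [hv.1]; exact hQ)

theorem aE_nonneg [IsFiniteMeasure σ] (hl : Lok a l) (i p : Fin 4) : 0 ≤ aE σ a l i p :=
  sL_nonneg hl _ _ _

theorem am_nonneg [IsFiniteMeasure σ] (hl : Lok a l) (i p : Fin 4) : 0 ≤ am σ a l i p :=
  sm_nonneg hl _ _ _

/-- **the apex as a load** -/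
theorem apex_load {a : Fin 4 → E3} (g : Gram4 (al a)) {z q : E3} (hzq : ‖z - q‖ ≤ 1)
    (hq : Pl a q) {N : Fin 3 → Fin 3 → ℝ} {ζ : Fin 3 → ℝ}
    (hζ : ∀ k, b3 a z k ≤ ζ k + LN N ζ k) :
    Load a q (Qv a 0 z) 1 (fun k => ζ k + LN N ζ k) := Load.pt g hzq hq hζ

end Pool.Agent.Helper31.SR
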