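import Pool.Agent.Helper31.SR.PcM
import Pool.Agent.Helper41.MEI.ArcX
import Pool.Agent.Helper93.MEI.Blk6

/-!
# Project MEI (M2): the moments of the arcs with the bulk terms

`sgB_blk`: helper93's signed moments in helper41's form; `MA_blk` for levels of sum at most `.0904`;
`momP_blk`: on a piece.
-/

set_option autoImplicit false

namespace Pool.Agent.Helper31.SR.MomA

open Set Metric MeasureTheory Helper80.CW Helper82.CW Helper14.CW Helper93.MEI Helper82.M2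
open Helper14.MEI2 Pool.Agent.Helper73.MEI Helper37.MEI Helper41.MEI
open Helper78.MEI
open Helper41.ArcV (SgB MA_of_signed)
open Pool.Agent.Helper31.SR Pool.Agent.Helper31.SR.PcN
open scoped RealInnerProductSpace ENNReal

section
variable {a : Fin 4 → E3} {K : Set E3} {σ : Measure (E3 × E3)}

/-- signed moments with the bulk terms, slab parameter `t`, bulk parameter `θ` -/
theorem sgB_blk [IsFiniteMeasure σ] (h : PM K σ)
    (ha : ∀ i j, i ≠ j → dist (a i) (a j) = 1)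
    (hull : ∀ p, (∀ q ∈ K, ‖p - q‖ ≤ 1) → p ∈ K) (hp : ∀ x ∈ K, Pl a x)
    {B : Fin 3 → Bool → OrthonormalBasis (Fin 3) ℝ E3}
    (hB : ∀ m e, Fr (fun i => a (pr m e i)) (B m e)) {S : Fin 4 → ℝ} (hS0 : ∀ i, 0 ≤ S i)
    (hQ : ∀ i, ∀ q ∈ K, Qv a i q ≤ S i) {t θ : ℝ} (t0 : 0 ≤ t) (t1 : t ≤ 3 / 10)
    (u0 : 0 ≤ θ) (u1 : θ ≤ 1) :
    SgB σ a S (0.03561 - (θ * (2 - θ) * 0.003487 + θ ^ 2 * (3 - 2 * θ) * 0.0008877)
        + (0.2942 * t ^ 3 - 0.14 * t ^ 4 + 0.1157 * t ^ 5)) (0.2986 - 0.5798 * t) 0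
      (0.07317 + 0.02322 * θ + 0.00823 * θ ^ 2) (0.05728 + 0.01992 * θ + 0.00734 * θ ^ 2) := by
  intro m e i k k' hk
  have h1 := Helper93.MEI.Blk.mom_wt2 h ha hull hp hB hS0 hQ t0 t1 u0 u1 m e i hk
  refine h1.trans (le_of_eq ?_)
  cases i
  · show _ = _ + (0.07317 + 0.02322 * θ + 0.00823 * θ ^ 2) * S (pf m e 0) +
      (0.05728 + 0.01992 * θ + 0.00734 * θ ^ 2) * S (pf m e 1)
    simp only [Bool.false_eq_true, if_false]
    ring
  · show _ = _ + (0.07317 + 0.02322 * θ + 0.00823 * θ ^ 2) * S (pf m e 1) +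
      (0.05728 + 0.01992 * θ + 0.00734 * θ ^ 2) * S (pf m e 0)
    simp only [if_true]
    ring

/-- **the columns of the arcs**, any admissible losses; `k` the column, `j` the other end -/
theorem MA_blk {c : Fin 4 → E3} {S : Fin 4 → ℝ} {l : Fin 3 → Bool → Bool → E3 × E3 → ℝ}
    [IsFiniteMeasure σ] (hC : CN K σ a c) (hV : Viol K a S)
    (hT : S 0 + S 1 + S 2 + S 3 ≤ 0.0904) (hl : Lok a l) (τ : Equiv.Perm (Fin 4))
    {p k j : Fin 3} (hk : k ≠ p) (hj : j ≠ p) (hjk : j ≠ k) :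
    MA σ a l τ p k ≤ 0.0336054 + 0.3438 * S (τ j.succ) + 0.0631 * S (τ k.succ) +
      0.13593 * S (τ 0) + 0.11585 * S (τ p.succ) := by
  obtain ⟨B, hB⟩ := frames hC.ha
  have h1 := sgB_blk (t := 0) (θ := 1) hC.pm hC.ha hC.hull hC.hp hB hV.nn
    (fun i q hq => hV.le i q hq) le_rfl (by norm_num) zero_le_one le_rfl
  have h2 := MA_of_signed hC.ha hl hC.pm hC.hull hC.hp hB hV.nn (fun i q hq => hV.le i q hq) hT
    h1 τ hk hj hjk
  refine h2.trans ?_
  have s0 := hV.nn (τ 0)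
  have s1 := hV.nn (τ p.succ)
  have s2 := hV.nn (τ k.succ)
  have s3 := hV.nn (τ j.succ)
  norm_num at h2 ⊢
  linarith

end

/-- **the moments of the arcs on the range `Σ S ≤ T`**, `T ≤ .0904` -/
theorem momP_blk {ρ T X : ℝ} {P : (Fin 4 → ℝ) → Prop} (hP : ∀ S, P S → ∑ i, S i ≤ T)
    (hT : T ≤ 0.0904) (hρ : 0.0336054 + 0.3438 * T ≤ ρ) : MomP ρ X P := by
  intro K σ hσ a c hC hX S hV hS τ p k hk
  obtain ⟨j, hj, hjk⟩ : ∃ j : Fin 3, j ≠ p ∧ j ≠ k := by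
    revert hk
    fin_cases p <;> fin_cases k <;> decide
  have hs := hP S hS
  have hs' := hs
  rw [Fin.sum_univ_four] at hs'
  have h1 := MA_blk hC hV (hs'.trans hT) (l2_ok hC.ha) τ hk hj hjk
  have hτ : S (τ 0) + S (τ 1) + S (τ 2) + S (τ 3) = ∑ i, S i := by
    rw [← Equiv.sum_comp τ S, Fin.sum_univ_four]
  have h3 := Helper41.ArcT.sum3 (fun r => S (τ r.succ)) p k j hk.symm hjk.symm hj
  have h3' : S (τ p.succ) + S (τ k.succ) + S (τ j.succ) = S (τ 1) + S (τ 2) + S (τ 3) := h3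
  have a0 := hV.nn (τ 0)
  have a1 := hV.nn (τ p.succ)
  have a2 := hV.nn (τ k.succ)
  have a3 := hV.nn (τ j.succ)
  linarith

end Pool.Agent.Helper31.SR.MomA
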