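import Mathlib

/-!
# Project MEI (M2), milestone A: the arithmetic of one face, `Σ S ≤ .0108`, no strips

Roles: `i` the largest coordinate of the apex, `j` the second, `l` the third. `Nkm` = leak of the
node `m` into the coordinate `k`.
-/

set_option autoImplicit false

namespace Pool.Agent.Helper31.SR.MilN

/-- Young -/
theorem young {a w n L : ℝ} (ha : 0 < a) (hw : 1 ≤ 4 * a * w) : -(w * L ^ 2) ≤ a * n ^ 2 - n * L := by
  have h1 : 0 ≤ (2 * a * n - L) ^ 2 := sq_nonneg _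
  have h2 : L ^ 2 ≤ 4 * a * w * L ^ 2 := by
    have := mul_le_mul_of_nonneg_right hw (sq_nonneg L)
    linarith
  have h3 : 0 ≤ 4 * a * (a * n ^ 2 - n * L + w * L ^ 2) := by nlinarith
  have h4 : 0 < 4 * a := by linarith
  have := nonneg_of_mul_nonneg_right h3 h4
  linarith

/-- a column from below -/
theorem colR {n R : ℝ} (hn1 : n ≤ 0.11) (h : n ^ 2 * (1 - n / 2) / 2 ≤ R) : 0.4725 * n ^ 2 ≤ R := by
  refine le_trans ?_ h
  nlinarith [mul_nonneg (sq_nonneg n) (sub_nonneg.2 hn1)]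

/-- a column from above -/
theorem colS {n s : ℝ} (hn1 : n ≤ 0.11) (h : n ^ 2 * (1 - n) / 2 ≤ s) : n ^ 2 ≤ 2.2472 * s := by
  nlinarith [mul_nonneg (sq_nonneg n) (sub_nonneg.2 hn1)]

/-- all the leaks -/
theorem total_leak {s Si Sj Sl ni nj nl : ℝ} (hX : s + (Si + Sj + Sl) ≤ 0.0108)
    (a1 : ni ^ 2 ≤ 2.2472 * s) (a2 : nj ^ 2 ≤ 2.2472 * s) (a3 : nl ^ 2 ≤ 2.2472 * s)
    (b1 : ni ^ 2 ≤ 2.2472 * Si) (b2 : nj ^ 2 ≤ 2.2472 * Sj) (b3 : nl ^ 2 ≤ 2.2472 * Sl) :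
    ni + nj + nl ≤ 0.234 := by
  have h1 : (ni + nj + nl) ^ 2 ≤ 3 * (ni ^ 2 + nj ^ 2 + nl ^ 2) := by
    nlinarith [sq_nonneg (ni - nj), sq_nonneg (ni - nl), sq_nonneg (nj - nl)]
  have h2 : (ni + nj + nl) ^ 2 ≤ 0.234 ^ 2 := by
    refine h1.trans ?_
    norm_num
    linarith
  exact (abs_le_of_sq_le_sq' h2 (by norm_num)).2

/-- **the value of a face against the quadratic price** -/
theorem arith {s Si Sj Sl Ri Rj Rl Nij Nil Nji Njl Nli Nlj : ℝ}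
    (hs : 0 ≤ s) (hSi : 0 ≤ Si) (hSj : 0 ≤ Sj) (hSl : 0 ≤ Sl)
    (hRi : 0 ≤ Ri) (hRj : 0 ≤ Rj) (hRl : 0 ≤ Rl)
    (hNij : 0 ≤ Nij) (hNil : 0 ≤ Nil) (hNji : 0 ≤ Nji) (hNjl : 0 ≤ Njl) (hNli : 0 ≤ Nli)
    (hNlj : 0 ≤ Nlj)
    (hT : (Nji + Nli) + (Nij + Nlj) + (Nil + Njl) ≤ 0.234)
    (ri : 0.4725 * (Nji + Nli) ^ 2 ≤ Ri) (rj : 0.4725 * (Nij + Nlj) ^ 2 ≤ Rj)
    (rl : 0.4725 * (Nil + Njl) ^ 2 ≤ Rl) :
    0.26647 * s - (3.222 * s ^ 2 + 3.333 * s * (Si + Sj + Sl)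
        + 0.148 * (Si ^ 2 + Sj ^ 2 + Sl ^ 2) + 0.776 * (Si + Sj + Sl) ^ 2) ≤
      (Ri * (2.04 * (0.2132 * (1 - (Nij + Nil)) - (0.1673 * (Nji + Nli) + 0.0933 * (Njl + Nlj))))
        + Rj * (2.04 * (0.2132 * (1 - (Nji + Njl)) -
          (0.1673 * (Nij + Nlj) + 0.0933 * (Nil + Nli))))
        + Rl * (2.04 * (0.2132 * (1 - (Nli + Nlj)) -
          (0.1673 * (Nil + Njl) + 0.0933 * (Nij + Nji))))
        - 2.04 * (Si * (0.1673 * (Nji + Nli) + 0.0933 * (Njl + Nlj))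
          + Sj * (0.1673 * (Nij + Nlj) + 0.0933 * (Nil + Nli))
          + Sl * (0.1673 * (Nil + Njl) + 0.0933 * (Nij + Nji))))
      + (0.2667 - 0.5388 * ((Nji + Nli) + (Nij + Nlj) + (Nil + Njl))) *
        ((1 - 0.00083) * s - 1.0027 * Ri - 0.2287 * Rj)
      - 2 * 0.043 * (Ri + Rj + Rl) := by
  obtain ⟨ni, hni⟩ : ∃ n, n = Nji + Nli := ⟨_, rfl⟩
  obtain ⟨nj, hnj⟩ : ∃ n, n = Nij + Nlj := ⟨_, rfl⟩
  obtain ⟨nl, hnl⟩ : ∃ n, n = Nil + Njl := ⟨_, rfl⟩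
  obtain ⟨T, hTd⟩ : ∃ T, T = ni + nj + nl := ⟨_, rfl⟩
  have eT : (Nji + Nli) + (Nij + Nlj) + (Nil + Njl) = T := by rw [hTd, hni, hnj, hnl]
  rw [eT] at hT ⊢
  -- coefficients of the residual values
  have xi : 0.0815 ≤ 2.04 * (0.2132 * (1 - (Nij + Nil)) -
      (0.1673 * (Nji + Nli) + 0.0933 * (Njl + Nlj))) - (0.2667 - 0.5388 * T) * 1.0027
      - 2 * 0.043 := by
    rw [← eT]
    linarith
  have xj : 0.2149 ≤ 2.04 * (0.2132 * (1 - (Nji + Njl)) -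
      (0.1673 * (Nij + Nlj) + 0.0933 * (Nil + Nli))) - (0.2667 - 0.5388 * T) * 0.2287
      - 2 * 0.043 := by
    rw [← eT] at hT ⊢
    linarith
  have xl : 0.2471 ≤ 2.04 * (0.2132 * (1 - (Nli + Nlj)) -
      (0.1673 * (Nil + Njl) + 0.0933 * (Nij + Nji))) - 2 * 0.043 := by
    rw [← eT] at hT
    linarith
  have xi' := mul_le_mul_of_nonneg_right xi hRi
  have xj' := mul_le_mul_of_nonneg_right xj hRj
  have xl' := mul_le_mul_of_nonneg_right xl hRl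
  -- the caps
  have si : Si * (0.1673 * (Nji + Nli) + 0.0933 * (Njl + Nlj)) ≤
      Si * (0.1673 * ni + 0.0933 * (nj + nl)) :=
    mul_le_mul_of_nonneg_left (by rw [hni, hnj, hnl]; linarith) hSi
  have sj : Sj * (0.1673 * (Nij + Nlj) + 0.0933 * (Nil + Nli)) ≤
      Sj * (0.1673 * nj + 0.0933 * (ni + nl)) :=
    mul_le_mul_of_nonneg_left (by rw [hni, hnj, hnl]; linarith) hSj
  have sl : Sl * (0.1673 * (Nil + Njl) + 0.0933 * (Nij + Nji)) ≤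
      Sl * (0.1673 * nl + 0.0933 * (ni + nj)) :=
    mul_le_mul_of_nonneg_left (by rw [hni, hnj, hnl]; linarith) hSl
  rw [← hni] at ri
  rw [← hnj] at rj
  rw [← hnl] at rl
  have hT0 : 0 ≤ T := by
    rw [← eT]
    linarith
  have gs : (0.5388 * T) * ((1 - 0.00083) * s) ≤ 0.5388 * T * s := by
    have := mul_nonneg hT0 hs
    nlinarith
  -- Young
  have yi := young (a := 0.0815 * 0.4725) (w := 6.4925) (n := ni)
    (L := 0.5388 * s + 0.341292 * Si + 0.190332 * (Sj + Sl)) (by norm_num) (by norm_num)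
  have yj := young (a := 0.2149 * 0.4725) (w := 2.4623) (n := nj)
    (L := 0.5388 * s + 0.341292 * Sj + 0.190332 * (Si + Sl)) (by norm_num) (by norm_num)
  have yl := young (a := 0.2471 * 0.4725) (w := 2.1415) (n := nl)
    (L := 0.5388 * s + 0.341292 * Sl + 0.190332 * (Si + Sj)) (by norm_num) (by norm_num)
  have fin : 6.4925 * (0.5388 * s + 0.341292 * Si + 0.190332 * (Sj + Sl)) ^ 2
      + 2.4623 * (0.5388 * s + 0.341292 * Sj + 0.190332 * (Si + Sl)) ^ 2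
      + 2.1415 * (0.5388 * s + 0.341292 * Sl + 0.190332 * (Si + Sj)) ^ 2 ≤
      3.222 * s ^ 2 + 3.333 * s * (Si + Sj + Sl)
        + 0.148 * (Si ^ 2 + Sj ^ 2 + Sl ^ 2) + 0.776 * (Si + Sj + Sl) ^ 2 := by
    have p1 := mul_nonneg hs hSi
    have p2 := mul_nonneg hs hSj
    have p3 := mul_nonneg hs hSl
    have p4 := mul_nonneg hSi hSj
    have p5 := mul_nonneg hSi hSl
    have p6 := mul_nonneg hSj hSl
    have p7 := mul_self_nonneg s
    have p8 := mul_self_nonneg Si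
    have p9 := mul_self_nonneg Sj
    have p10 := mul_self_nonneg Sl
    nlinarith
  nlinarith
end Pool.Agent.Helper31.SR.MilN
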