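import Pool.Agent.Helper78.MEI.End5

/-!
# Project MEI (M2): assembly of the regimes from quadratic prices

`FaceQ l A cc ca cb cd X P`: per face, the value is at least
`cc s - ca s ^ 2 - cb s (S_1 + S_2 + S_3) - cd (S_1 ^ 2 + S_2 ^ 2 + S_3 ^ 2)` for all states in `P`.
`quad_sum`: the sum of the four faces; `coreP_quad`: the core statement.
-/

set_option autoImplicit false

namespace Pool.Agent.Helper31.SR.RegII

open Set Metric MeasureTheory Filter Topology Helper93.MEI Helper80.CW Helper14.CW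
open Helper14.MEI2 Pool.Agent.Helper73.MEI Helper82.M2 Helper82.CW Helper41.MEI
open Helper33.MEI (Wi)
open Helper78.MEI
open scoped RealInnerProductSpace

/-- quadratic price of the face `i` -/
def FQ (cc ca cb cd : ℝ) (S : Fin 4 → ℝ) (i : Fin 4) : ℝ :=
  cc * S i - ca * S i ^ 2 - cb * S i * (∑ k, S k - S i) - cd * (∑ k, S k ^ 2 - S i ^ 2)

/-- the statement per face -/
def FaceQ (l : (Fin 4 → E3) → Fin 3 → Bool → Bool → E3 × E3 → ℝ) (A cc ca cb cd X : ℝ)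
    (P : (Fin 4 → ℝ) → Prop) : Prop :=
  ∀ (K : Set E3) (σ : Measure (E3 × E3)), IsFiniteMeasure σ →
    ∀ a c : Fin 4 → E3, CN K σ a c → EpsLe c X → ∀ S : Fin 4 → ℝ, Viol K a S → P S →
    ∀ i : Fin 4, LLs σ a (l a) i + FQ cc ca cb cd S i ≤ Wi a i K σ A

/-- permutations with a prescribed first value -/
theorem exists_perm (i : Fin 4) : ∃ τ : Equiv.Perm (Fin 4), τ 0 = i :=
  ⟨Equiv.swap 0 i, Equiv.swap_apply_left 0 i⟩

/-- per face from the statement for all permutations -/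
theorem faceQ_of_perm {l : (Fin 4 → E3) → Fin 3 → Bool → Bool → E3 × E3 → ℝ}
    {A cc ca cb cd X : ℝ} {P : (Fin 4 → ℝ) → Prop}
    (H : ∀ (K : Set E3) (σ : Measure (E3 × E3)), IsFiniteMeasure σ →
      ∀ a c : Fin 4 → E3, CN K σ a c → EpsLe c X → ∀ S : Fin 4 → ℝ, Viol K a S → P S →
      ∀ τ : Equiv.Perm (Fin 4), LLs σ a (l a) (τ 0) +
        (cc * S (τ 0) - ca * S (τ 0) ^ 2 - cb * S (τ 0) * (S (τ 1) + S (τ 2) + S (τ 3))
          - cd * (S (τ 1) ^ 2 + S (τ 2) ^ 2 + S (τ 3) ^ 2)) ≤ Wi a (τ 0) K σ A) :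
    FaceQ l A cc ca cb cd X P := by
  intro K σ hσ a c hC hX S hV hP i
  obtain ⟨τ, rfl⟩ := exists_perm i
  have h1 := H K σ hσ a c hC hX S hV hP τ
  have e1 : ∑ k, S k = S (τ 0) + S (τ 1) + S (τ 2) + S (τ 3) := by
    rw [← Equiv.sum_comp τ S, Fin.sum_univ_four]
  have e2 : ∑ k, S k ^ 2 = S (τ 0) ^ 2 + S (τ 1) ^ 2 + S (τ 2) ^ 2 + S (τ 3) ^ 2 := by
    rw [← Equiv.sum_comp τ fun k => S k ^ 2, Fin.sum_univ_four]
  unfold FQ
  rw [e1, e2]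
  refine le_trans (le_of_eq ?_) h1
  ring

/-- **the sum of the four prices** -/
theorem quad_sum {cc ca cb cd c0 c1 c3 κ : ℝ} {S : Fin 4 → ℝ} (hS : ∀ i, 0 ≤ S i)
    (h3 : 0 ≤ c3)
    (k1 : c0 + c1 * (∑ i, S i) + c3 * (∑ i, S i) ^ 3 + 4.08 * κ * (∑ i, S i) ≤
      cc * (∑ i, S i) - (ca + 3 * cd) * (∑ i, S i) ^ 2)
    (k2 : c0 + c1 * (∑ i, S i) + c3 * (∑ i, S i) ^ 3 + 4.08 * κ * (∑ i, S i) ≤
      cc * (∑ i, S i) - (ca + 3 * cd + 3 * cb) / 4 * (∑ i, S i) ^ 2) :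
    c0 + ∑ i, (c1 * S i + c3 * S i ^ 3) + 4.08 * κ * (∑ i, S i) ≤
      ∑ i, FQ cc ca cb cd S i := by
  have s0 := hS 0
  have s1 := hS 1
  have s2 := hS 2
  have s3 := hS 3
  have e0 : ∑ i, S i = S 0 + S 1 + S 2 + S 3 := Fin.sum_univ_four _
  have e1 : ∑ i, (c1 * S i + c3 * S i ^ 3) = c1 * (S 0 + S 1 + S 2 + S 3) +
      c3 * (S 0 ^ 3 + S 1 ^ 3 + S 2 ^ 3 + S 3 ^ 3) := by
    rw [Fin.sum_univ_four]
    ring
  have e2 : ∑ i, FQ cc ca cb cd S i = cc * (S 0 + S 1 + S 2 + S 3)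
      - cb * (S 0 + S 1 + S 2 + S 3) ^ 2
      - (ca + 3 * cd - cb) * (S 0 ^ 2 + S 1 ^ 2 + S 2 ^ 2 + S 3 ^ 2) := by
    unfold FQ
    simp only [Fin.sum_univ_four]
    ring
  rw [e0] at k1 k2 ⊢
  rw [e1, e2]
  obtain ⟨x, hx⟩ : ∃ x, x = S 0 := ⟨_, rfl⟩
  obtain ⟨y, hy⟩ : ∃ y, y = S 1 := ⟨_, rfl⟩
  obtain ⟨z, hz⟩ : ∃ z, z = S 2 := ⟨_, rfl⟩
  obtain ⟨w, hw⟩ : ∃ w, w = S 3 := ⟨_, rfl⟩
  rw [← hx] at s0
  rw [← hy] at s1
  rw [← hz] at s2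
  rw [← hw] at s3
  rw [← hx, ← hy, ← hz, ← hw] at k1 k2 ⊢
  have q1 : x ^ 2 + y ^ 2 + z ^ 2 + w ^ 2 ≤ (x + y + z + w) ^ 2 := by
    have := mul_nonneg s0 s1
    have := mul_nonneg s0 s2
    have := mul_nonneg s0 s3
    have := mul_nonneg s1 s2
    have := mul_nonneg s1 s3
    have := mul_nonneg s2 s3
    nlinarith
  have q2 : (x + y + z + w) ^ 2 / 4 ≤ x ^ 2 + y ^ 2 + z ^ 2 + w ^ 2 := by
    nlinarith [sq_nonneg (x - y), sq_nonneg (x - z), sq_nonneg (x - w), sq_nonneg (y - z),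
      sq_nonneg (y - w), sq_nonneg (z - w)]
  have q3 : x ^ 3 + y ^ 3 + z ^ 3 + w ^ 3 ≤ (x + y + z + w) ^ 3 := by
    have hT : 0 ≤ x + y + z + w := by linarith
    have b : ∀ u : ℝ, 0 ≤ u → u ≤ x + y + z + w → u ^ 3 ≤ (x + y + z + w) * u ^ 2 := by
      intro u hu hu2
      have := mul_le_mul_of_nonneg_right hu2 (sq_nonneg u)
      calc u ^ 3 = u * u ^ 2 := by ring
        _ ≤ _ := this
    have b0 := b x s0 (by linarith)
    have b1 := b y s1 (by linarith)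
    have b2 := b z s2 (by linarith)
    have b3 := b w s3 (by linarith)
    have b4 := mul_le_mul_of_nonneg_left q1 hT
    calc x ^ 3 + y ^ 3 + z ^ 3 + w ^ 3 ≤ (x + y + z + w) * (x ^ 2 + y ^ 2 + z ^ 2 + w ^ 2) := by
          linarith
      _ ≤ (x + y + z + w) * (x + y + z + w) ^ 2 := b4
      _ = _ := by ring
  have q4 := mul_le_mul_of_nonneg_left q3 h3
  obtain ⟨T, hT⟩ : ∃ T, T = x + y + z + w := ⟨_, rfl⟩
  rw [← hT] at q1 q2 q4 k1 k2 ⊢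
  obtain ⟨q, hq⟩ : ∃ q, q = x ^ 2 + y ^ 2 + z ^ 2 + w ^ 2 := ⟨_, rfl⟩
  rw [← hq] at q1 q2 ⊢
  rcases le_total 0 (ca + 3 * cd - cb) with h | h
  · have := mul_le_mul_of_nonneg_left q1 h
    linarith
  · have := mul_le_mul_of_nonpos_left q2 h
    linarith

/-- the two inequalities of `quad_sum` on an interval, from the two end points -/
theorem quad_int {c0 c1 c3 κ cc e T0 T1 T : ℝ} (h0 : 0 < T0) (hT0 : T0 ≤ T) (hT1 : T ≤ T1)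
    (h3 : 0 ≤ c3) (he : 0 ≤ e)
    (k0 : c0 + (c1 + 4.08 * κ) * T0 + (c3 * T1 ^ 2 + e * T1 - cc) * T0 ≤ 0)
    (hc : c1 + 4.08 * κ + c3 * T1 ^ 2 + e * T1 ≤ cc) :
    c0 + c1 * T + c3 * T ^ 3 + 4.08 * κ * T ≤ cc * T - e * T ^ 2 := by
  have hT : 0 ≤ T := h0.le.trans hT0
  have a1 : c3 * T ^ 3 ≤ c3 * T1 ^ 2 * T := by
    have := pow_le_pow_left₀ hT hT1 2
    have := mul_le_mul_of_nonneg_right this hT
    have := mul_le_mul_of_nonneg_left this h3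
    calc c3 * T ^ 3 = c3 * (T ^ 2 * T) := by ring
      _ ≤ c3 * (T1 ^ 2 * T) := this
      _ = _ := by ring
  have a2 : e * T ^ 2 ≤ e * T1 * T := by
    have := mul_le_mul_of_nonneg_right hT1 hT
    have := mul_le_mul_of_nonneg_left this he
    calc e * T ^ 2 = e * (T * T) := by ring
      _ ≤ e * (T1 * T) := this
      _ = _ := by ring
  have a3 : (cc - (c1 + 4.08 * κ + c3 * T1 ^ 2 + e * T1)) * T0 ≤
      (cc - (c1 + 4.08 * κ + c3 * T1 ^ 2 + e * T1)) * T :=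
    mul_le_mul_of_nonneg_left hT0 (by linarith)
  nlinarith

/-- **core statement, regime II** (assembly `Asm c0 c1 c3`), from the quadratic prices -/
theorem coreP_quad {c0 c1 c3 : ℝ} (hA : Asm c0 c1 c3) {P : (Fin 4 → ℝ) → Prop}
    {X κ cc ca cb cd T0 T1 : ℝ} (hκ : 0 ≤ κ) (h3 : 0 ≤ c3)
    (hF : FaceQ l2 3.83 cc ca cb cd X P)
    (hT : ∀ (K : Set E3) (σ : Measure (E3 × E3)), IsFiniteMeasure σ →
      ∀ a c : Fin 4 → E3, CN K σ a c → EpsLe c X → ∀ S : Fin 4 → ℝ, Viol K a S → P S →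
      T0 ≤ ∑ i, S i ∧ ∑ i, S i ≤ T1) (h0 : 0 < T0)
    (he1 : 0 ≤ ca + 3 * cd) (he2 : 0 ≤ (ca + 3 * cd + 3 * cb) / 4)
    (k1 : c0 + (c1 + 4.08 * κ) * T0 + (c3 * T1 ^ 2 + (ca + 3 * cd) * T1 - cc) * T0 ≤ 0)
    (hc1 : c1 + 4.08 * κ + c3 * T1 ^ 2 + (ca + 3 * cd) * T1 ≤ cc)
    (k2 : c0 + (c1 + 4.08 * κ) * T0 +
      (c3 * T1 ^ 2 + (ca + 3 * cd + 3 * cb) / 4 * T1 - cc) * T0 ≤ 0)
    (hc2 : c1 + 4.08 * κ + c3 * T1 ^ 2 + (ca + 3 * cd + 3 * cb) / 4 * T1 ≤ cc) :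
    CoreP P X κ := by
  refine coreP_K hA hκ fun K σ hσ a c hC hX S hV hP =>
    ⟨FQ cc ca cb cd S, hF K σ hσ a c hC hX S hV hP, ?_⟩
  obtain ⟨t0, t1⟩ := hT K σ hσ a c hC hX S hV hP
  exact quad_sum hV.nn h3 (quad_int h0 t0 t1 h3 he1 k1 hc1)
    (quad_int h0 t0 t1 h3 he2 k2 hc2)

end Pool.Agent.Helper31.SR.RegII
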