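import Pool.Agent.Helper73.MEI.FV3
import Pool.Agent.Helper73.MEI.SidePhi
import Pool.Agent.Helper55.MEI.Tent3
import Pool.Agent.Helper97.MEI.AsmFin
import Pool.Agent.Helper31.SR.RegII
import Pool.Agent.Helper31.SR.MilN

/-!
# Project MEI (M2), milestone A: regime II for `Σ S ≤ .0108`

`WOK` = the cost of the second order term on a range (open input), `MomOK` = the moments of the
arcs (open input); `coreP_A` = the core statement on the range.
-/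

set_option autoImplicit false

namespace Pool.Agent.Helper31.SR.MilA

open Set Metric MeasureTheory Helper80.CW Helper82.CW Helper14.CW Helper93.MEI Helper82.M2
open Helper14.MEI2 Pool.Agent.Helper52.MEI Pool.Agent.Helper73.MEI Helper37.MEI Helper41.MEI
open Helper33.MEI (Wi)
open Pool.Agent.Helper55.Mass (LN vv B0 B0_ge)
open Pool.Agent.Helper55.Apex (nc)
open Pool.Agent.Helper55.ApexP (PN alP)
open Pool.Agent.Helper55.TentL (apex_lin)
open Pool.Agent.Helper73.MEI.SideP (flP TN QN share_ok det_ge)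
open Pool.Agent.Helper73.MEI.ArCor
open Pool.Agent.Helper73.MEI.ZEl
open Pool.Agent.Helper96.Kap (kap)
open Pool.Agent.Helper31.SR Pool.Agent.Helper31.SR.MilN Pool.Agent.Helper31.SR.RegII
open Helper78.MEI
open Helper75.MEI2 (mu vt Qf)
open scoped RealInnerProductSpace ENNReal

/-- the moments of the arcs `l2` on the range `Σ S ≤ T` -/
def MomOK (T ρ : ℝ) : Prop :=
  ∀ (K : Set E3) (σ : Measure (E3 × E3)), IsFiniteMeasure σ →
    ∀ a c : Fin 4 → E3, CN K σ a c → ∀ S : Fin 4 → ℝ, Viol K a S → ∑ i, S i ≤ T →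
    ∀ (τ : Equiv.Perm (Fin 4)) (p k : Fin 3), k ≠ p → MA σ a (l2 a) τ p k ≤ ρ

/-- **the cost of the second order term on the range `Σ S ≤ T`** is at most
`w1 S_0 + w2 (S_1 + S_2 + S_3)`, without strips, arcs on the share `φ` -/
def WOK (T ρ w1 w2 : ℝ) : Prop :=
  ∀ (K : Set E3) (σ : Measure (E3 × E3)), IsFiniteMeasure σ →
    ∀ a c : Fin 4 → E3, CN K σ a c → ∀ S : Fin 4 → ℝ, Viol K a S → ∑ i, S i ≤ T →
    ∀ z : Fin 4 → Fin 4 → E3, CV a K z → ∀ τ : Equiv.Perm (Fin 4),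
    (∀ p k, k ≠ p → MA σ a (l2 a) τ p k ≤ ρ) →
    ∀ x ∈ K, (Qv a (τ 0) x = S (τ 0) ∨ S (τ 0) = 0) →
    ∀ N : Fin 3 → Fin 3 → ℝ, N = NM (fun i => a (τ i)) (fun i j => z (τ i) (τ j)) →
    ∀ R : Fin 3 → ℝ, R = RM (fun i => a (τ i)) (fun i j => z (τ i) (τ j)) →
    ∀ ζp : Fin 3 → ℝ, (∀ k, 0 < ζp k) → (∀ k, zc (fun i => a (τ i)) N x k ≤ ζp k) →
    ∀ φ lam : ℝ, 0 < φ → 0 ≤ lam → lam ≤ 1 - φ →
    (∀ p, ρ ≤ φ * (2.04 * Pool.Agent.Helper55.Mass.Id (flP (PN N) p))) →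
    WCost a K τ 2.04
      (GM 2.04 N (zc (fun i => a (τ i)) N x) ζp lam (fun p t => φ * flP (PN N) p t)
        (fun p t => kap N (vv t) p) (fun _ => 0) (MB σ a (l2 a) τ)
        (fun p => aE σ a (l2 a) (τ 0) (τ p.succ)) R (fun k => S (τ k.succ)) (S (τ 0)))
      (DM 2.04 N (zc (fun i => a (τ i)) N x) ζp lam (fun p t => φ * flP (PN N) p t)
        (fun p t => kap N (vv t) p) (fun _ => 0) (MB σ a (l2 a) τ)
        (fun j => 1 / qM (fun i => a (τ i)) (fun i j => z (τ i) (τ j)) j)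
        (fun p => am σ a (l2 a) (τ 0) (τ p.succ)))
      (w1 * S (τ 0) + w2 * (S (τ 1) + S (τ 2) + S (τ 3)))

/-- the numbers of the range -/
theorem rngA : Rng 0.0108 0.0735 0.948 0.11 1.0549 0.0057 0.00305 0.00083 1.0027 1.2314 1.2292
    0.12 where
  X1 := by norm_num
  rm0 := by norm_num
  rmX := by norm_num
  qm0 := by norm_num
  qmr := by norm_num
  nb0 := by norm_num
  nbq := by norm_num
  nb3 := by norm_num
  ρq := by norm_num
  Rbq := by norm_num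
  gg0 := by norm_num
  gR := by norm_num
  k1X := by norm_num
  k12X := by norm_num
  k12k := by norm_num
  t21 := by norm_num
  t2X := by norm_num
  δt := by norm_num
  hε := by norm_num
  ng := by norm_num

/-- the corner terms by roles -/
theorem corP_role (A' : ℝ) (N : Fin 3 → Fin 3 → ℝ) (R S : Fin 3 → ℝ) {i j : Fin 3}
    (hij : i ≠ j) : ∃ l : Fin 3, i ≠ l ∧ j ≠ l ∧
    (∀ f : Fin 3 → ℝ, f 0 + f 1 + f 2 = f i + f j + f l) ∧
    corP A' N R S =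
      R i * (A' * (0.2132 * (1 - (N i j + N i l)) -
        (0.1673 * (N j i + N l i) + 0.0933 * (N j l + N l j))))
      + R j * (A' * (0.2132 * (1 - (N j i + N j l)) -
        (0.1673 * (N i j + N l j) + 0.0933 * (N i l + N l i))))
      + R l * (A' * (0.2132 * (1 - (N l i + N l j)) -
        (0.1673 * (N i l + N j l) + 0.0933 * (N i j + N j i))))
      - A' * (S i * (0.1673 * (N j i + N l i) + 0.0933 * (N j l + N l j))
        + S j * (0.1673 * (N i j + N l j) + 0.0933 * (N i l + N l i))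
        + S l * (0.1673 * (N i l + N j l) + 0.0933 * (N i j + N j i))) := by
  have r0 : rowN N 0 = N 0 1 + N 0 2 := rfl
  have r1 : rowN N 1 = N 1 2 + N 1 0 := rfl
  have r2 : rowN N 2 = N 2 0 + N 2 1 := rfl
  have w0 : wN N 0 = 0.1673 * (N 1 0 + N 2 0) + 0.0933 * (N 1 2 + N 2 1) := rfl
  have w1 : wN N 1 = 0.1673 * (N 2 1 + N 0 1) + 0.0933 * (N 2 0 + N 0 2) := rfl
  have w2 : wN N 2 = 0.1673 * (N 0 2 + N 1 2) + 0.0933 * (N 0 1 + N 1 0) := rfl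
  fin_cases i <;> fin_cases j <;> first
    | exact absurd rfl hij
    | skip
  · refine ⟨2, by decide, by decide, fun f => rfl, ?_⟩
    show corP A' N R S = R 0 * (A' * (0.2132 * (1 - (N 0 1 + N 0 2)) -
        (0.1673 * (N 1 0 + N 2 0) + 0.0933 * (N 1 2 + N 2 1))))
      + R 1 * (A' * (0.2132 * (1 - (N 1 0 + N 1 2)) -
        (0.1673 * (N 0 1 + N 2 1) + 0.0933 * (N 0 2 + N 2 0))))
      + R 2 * (A' * (0.2132 * (1 - (N 2 0 + N 2 1)) -
        (0.1673 * (N 0 2 + N 1 2) + 0.0933 * (N 0 1 + N 1 0))))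
      - A' * (S 0 * (0.1673 * (N 1 0 + N 2 0) + 0.0933 * (N 1 2 + N 2 1))
        + S 1 * (0.1673 * (N 0 1 + N 2 1) + 0.0933 * (N 0 2 + N 2 0))
        + S 2 * (0.1673 * (N 0 2 + N 1 2) + 0.0933 * (N 0 1 + N 1 0)))
    unfold corP
    rw [r0, r1, r2, w0, w1, w2]
    ring
  · refine ⟨1, by decide, by decide, fun f => by show f 0 + f 1 + f 2 = f 0 + f 2 + f 1; ring, ?_⟩
    show corP A' N R S = R 0 * (A' * (0.2132 * (1 - (N 0 2 + N 0 1)) -
        (0.1673 * (N 2 0 + N 1 0) + 0.0933 * (N 2 1 + N 1 2))))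
      + R 2 * (A' * (0.2132 * (1 - (N 2 0 + N 2 1)) -
        (0.1673 * (N 0 2 + N 1 2) + 0.0933 * (N 0 1 + N 1 0))))
      + R 1 * (A' * (0.2132 * (1 - (N 1 0 + N 1 2)) -
        (0.1673 * (N 0 1 + N 2 1) + 0.0933 * (N 0 2 + N 2 0))))
      - A' * (S 0 * (0.1673 * (N 2 0 + N 1 0) + 0.0933 * (N 2 1 + N 1 2))
        + S 2 * (0.1673 * (N 0 2 + N 1 2) + 0.0933 * (N 0 1 + N 1 0))
        + S 1 * (0.1673 * (N 0 1 + N 2 1) + 0.0933 * (N 0 2 + N 2 0)))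
    unfold corP
    rw [r0, r1, r2, w0, w1, w2]
    ring
  · refine ⟨2, by decide, by decide, fun f => by show f 0 + f 1 + f 2 = f 1 + f 0 + f 2; ring, ?_⟩
    show corP A' N R S = R 1 * (A' * (0.2132 * (1 - (N 1 0 + N 1 2)) -
        (0.1673 * (N 0 1 + N 2 1) + 0.0933 * (N 0 2 + N 2 0))))
      + R 0 * (A' * (0.2132 * (1 - (N 0 1 + N 0 2)) -
        (0.1673 * (N 1 0 + N 2 0) + 0.0933 * (N 1 2 + N 2 1))))
      + R 2 * (A' * (0.2132 * (1 - (N 2 1 + N 2 0)) -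
        (0.1673 * (N 1 2 + N 0 2) + 0.0933 * (N 1 0 + N 0 1))))
      - A' * (S 1 * (0.1673 * (N 0 1 + N 2 1) + 0.0933 * (N 0 2 + N 2 0))
        + S 0 * (0.1673 * (N 1 0 + N 2 0) + 0.0933 * (N 1 2 + N 2 1))
        + S 2 * (0.1673 * (N 1 2 + N 0 2) + 0.0933 * (N 1 0 + N 0 1)))
    unfold corP
    rw [r0, r1, r2, w0, w1, w2]
    ring
  · refine ⟨0, by decide, by decide, fun f => by show f 0 + f 1 + f 2 = f 1 + f 2 + f 0; ring, ?_⟩
    show corP A' N R S = R 1 * (A' * (0.2132 * (1 - (N 1 2 + N 1 0)) -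
        (0.1673 * (N 2 1 + N 0 1) + 0.0933 * (N 2 0 + N 0 2))))
      + R 2 * (A' * (0.2132 * (1 - (N 2 1 + N 2 0)) -
        (0.1673 * (N 1 2 + N 0 2) + 0.0933 * (N 1 0 + N 0 1))))
      + R 0 * (A' * (0.2132 * (1 - (N 0 1 + N 0 2)) -
        (0.1673 * (N 1 0 + N 2 0) + 0.0933 * (N 1 2 + N 2 1))))
      - A' * (S 1 * (0.1673 * (N 2 1 + N 0 1) + 0.0933 * (N 2 0 + N 0 2))
        + S 2 * (0.1673 * (N 1 2 + N 0 2) + 0.0933 * (N 1 0 + N 0 1))
        + S 0 * (0.1673 * (N 1 0 + N 2 0) + 0.0933 * (N 1 2 + N 2 1)))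
    unfold corP
    rw [r0, r1, r2, w0, w1, w2]
    ring
  · refine ⟨1, by decide, by decide, fun f => by show f 0 + f 1 + f 2 = f 2 + f 0 + f 1; ring, ?_⟩
    show corP A' N R S = R 2 * (A' * (0.2132 * (1 - (N 2 0 + N 2 1)) -
        (0.1673 * (N 0 2 + N 1 2) + 0.0933 * (N 0 1 + N 1 0))))
      + R 0 * (A' * (0.2132 * (1 - (N 0 2 + N 0 1)) -
        (0.1673 * (N 2 0 + N 1 0) + 0.0933 * (N 2 1 + N 1 2))))
      + R 1 * (A' * (0.2132 * (1 - (N 1 2 + N 1 0)) -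
        (0.1673 * (N 2 1 + N 0 1) + 0.0933 * (N 2 0 + N 0 2))))
      - A' * (S 2 * (0.1673 * (N 0 2 + N 1 2) + 0.0933 * (N 0 1 + N 1 0))
        + S 0 * (0.1673 * (N 2 0 + N 1 0) + 0.0933 * (N 2 1 + N 1 2))
        + S 1 * (0.1673 * (N 2 1 + N 0 1) + 0.0933 * (N 2 0 + N 0 2)))
    unfold corP
    rw [r0, r1, r2, w0, w1, w2]
    ring
  · refine ⟨0, by decide, by decide, fun f => by show f 0 + f 1 + f 2 = f 2 + f 1 + f 0; ring, ?_⟩
    show corP A' N R S = R 2 * (A' * (0.2132 * (1 - (N 2 1 + N 2 0)) -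
        (0.1673 * (N 1 2 + N 0 2) + 0.0933 * (N 1 0 + N 0 1))))
      + R 1 * (A' * (0.2132 * (1 - (N 1 2 + N 1 0)) -
        (0.1673 * (N 2 1 + N 0 1) + 0.0933 * (N 2 0 + N 0 2))))
      + R 0 * (A' * (0.2132 * (1 - (N 0 2 + N 0 1)) -
        (0.1673 * (N 2 0 + N 1 0) + 0.0933 * (N 2 1 + N 1 2))))
      - A' * (S 2 * (0.1673 * (N 1 2 + N 0 2) + 0.0933 * (N 1 0 + N 0 1))
        + S 1 * (0.1673 * (N 2 1 + N 0 1) + 0.0933 * (N 2 0 + N 0 2))
        + S 0 * (0.1673 * (N 2 0 + N 1 0) + 0.0933 * (N 2 1 + N 1 2)))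
    unfold corP
    rw [r0, r1, r2, w0, w1, w2]
    ring

/-- the price of a face -/
def PrA (S : Fin 4 → ℝ) (τ : Equiv.Perm (Fin 4)) : ℝ :=
  3.222 * S (τ 0) ^ 2 + 3.333 * S (τ 0) * (S (τ 1) + S (τ 2) + S (τ 3))
    + 0.148 * (S (τ 1) ^ 2 + S (τ 2) ^ 2 + S (τ 3) ^ 2)
    + 0.776 * (S (τ 1) + S (τ 2) + S (τ 3)) ^ 2

theorem phi_num {T Q C : ℝ} (hT0 : 0 ≤ T) (hT : T ≤ 0.234) (hQ : Q ≤ 0.11 * T)
    (hC : C = 35 / 48 + 9 / 16 * T + 5 / 12 * Q) (hC0 : 0 ≤ C) :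
    22.6276 * 0.043 * C ^ 2 / (2.04 * (1 - T ^ 2 / 4)) ≤ 0.2536 + 0.49 * T := by
  have hD : 0 < 2.04 * (1 - T ^ 2 / 4) := by nlinarith
  rw [div_le_iff₀ hD]
  have h1 : C ≤ 0.729167 + 0.608334 * T := by
    rw [hC]
    linarith
  have h2 : C ^ 2 ≤ (0.729167 + 0.608334 * T) ^ 2 := pow_le_pow_left₀ hC0 h1 2
  have h3 : 0 ≤ T * (0.234 - T) := mul_nonneg hT0 (by linarith)
  have h4 : 0 ≤ T ^ 2 * (0.234 - T) := mul_nonneg (sq_nonneg T) (by linarith)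
  nlinarith

theorem r_num {s : ℝ} (h0 : 0 ≤ s) (h1 : s ≤ 0.0108) :
    3 / 2 * (1 + s) - 3 / 8 * (1 + s - 0.0108) ^ 2 ≤ (1.0683 : ℝ) ^ 2 := by
  nlinarith

theorem V_num {s : ℝ} (h0 : 0 ≤ s) :
    1 / 2 * (1 + s) - (1 + s - 0.0108) ^ 2 / 8 ≤ (0.12 + (1 + s - 0.0108) / 2) ^ 2 := by
  nlinarith

theorem g_num {U I : ℝ} (hU0 : 0 ≤ U) (hU1 : U ≤ 0.234) (h : 0.1752 - 0.2387 * U ≤ I) :
    0.2667 - 0.5388 * U ≤ 2.04 * ((1 - (0.2536 + 0.49 * U)) * I) := by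
  have h1 : 0 ≤ 1 - (0.2536 + 0.49 * U) := by linarith
  have h2 := mul_le_mul_of_nonneg_left h h1
  nlinarith

/-- **the face of the vertex `τ 0`** -/
theorem face_A {K : Set E3} {σ : Measure (E3 × E3)} [IsFiniteMeasure σ] {a c : Fin 4 → E3}
    (h : CN K σ a c) {S : Fin 4 → ℝ} (v : Viol K a S) {w1 w2 T : ℝ} (hT : T ≤ 0.0108)
    (hM : MomOK T 0.043) (hW : WOK T 0.043 w1 w2) (hS : ∑ i, S i ≤ T)
    (τ : Equiv.Perm (Fin 4)) :
    LLs σ a (l2 a) (τ 0) + (0.26647 * S (τ 0) - PrA S τ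
      - (w1 * S (τ 0) + w2 * (S (τ 1) + S (τ 2) + S (τ 3)))) ≤ Wi a (τ 0) K σ 3.83 := by
  obtain ⟨z, hz⟩ := cv_exists h
  have h' := h.perm τ
  have v' := viol_perm v τ
  have hz' := hz.perm τ
  have hSum : S (τ 0) + (S (τ 1) + S (τ 2) + S (τ 3)) ≤ T := by
    have : ∑ k, S k = S (τ 0) + S (τ 1) + S (τ 2) + S (τ 3) := by
      rw [← Equiv.sum_comp τ S, Fin.sum_univ_four]
    linarith
  have hX : S (τ 0) + (S (τ 1) + S (τ 2) + S (τ 3)) ≤ 0.0108 := hSum.trans hT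
  have s0 : 0 ≤ S (τ 0) := v.nn _
  have s1 : 0 ≤ S (τ 1) := v.nn _
  have s2 : 0 ≤ S (τ 2) := v.nn _
  have s3 : 0 ≤ S (τ 3) := v.nn _
  have hl := l2_ok (a := a) h.ha
  have hρM : ∀ p k, k ≠ p → MA σ a (l2 a) τ p k ≤ 0.043 := hM K σ inferInstance a c h S v hS τ
  have h3 : ∀ p, MA σ a (l2 a) τ p p = 0 := MA_third h.ha h.cpt
    (h.pm.ae.mono fun z hz => ⟨hz.1, hz.2.1⟩) h.hp τ
    (fun x hx => (v.le (τ 0) x hx).trans (by linarith))
  -- the apex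
  obtain ⟨x, hx, hxs⟩ : ∃ x ∈ K, (Qv a (τ 0) x = S (τ 0) ∨ S (τ 0) = 0) := by
    rcases v.att (τ 0) with h0 | ⟨x, hx, hxe⟩
    · obtain ⟨x, hx⟩ := h.ne
      exact ⟨x, hx, Or.inr h0⟩
    · exact ⟨x, hx, Or.inl hxe⟩
  obtain ⟨N, hN⟩ : ∃ N, N = NM (fun i => a (τ i)) (fun i j => z (τ i) (τ j)) := ⟨_, rfl⟩
  obtain ⟨R, hR⟩ : ∃ R, R = RM (fun i => a (τ i)) (fun i j => z (τ i) (τ j)) := ⟨_, rfl⟩
  have hN0 : ∀ k m, 0 ≤ N k m := fun k m => by
    rw [hN]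
    exact NM_nonneg h' v' hz' k m
  have hd : ∀ k, N k k = 0 := fun k => by
    rw [hN]
    exact NM_diag k
  have hcol : ∀ m, nc N m ≤ 9 / 10 := fun m => by
    rw [hN]
    exact nc_le h' v' hz' m
  have hc : (9 / 10 : ℝ) < 1 := by norm_num
  have hR0 : ∀ j, 0 ≤ R j := fun j => by
    rw [hR]
    exact RM_nonneg h' v' hz' j
  have C := cols rngA h' v' hz' hX
  rw [← hN, ← hR] at C
  -- the leaks
  have e0 : nc N 0 = N 1 0 + N 2 0 := by
    have := hd 0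
    unfold nc
    linarith
  have e1 : nc N 1 = N 0 1 + N 2 1 := by
    have := hd 1
    unfold nc
    linarith
  have e2 : nc N 2 = N 0 2 + N 1 2 := by
    have := hd 2
    unfold nc
    linarith
  have cS : ∀ k, nc N k ^ 2 ≤ 2.2472 * S (τ 0) := fun k => colS (C k).2.1 (C k).2.2.2.2.2.2.2.2.1
  have cS' : ∀ k, nc N k ^ 2 ≤ 2.2472 * S (τ k.succ) := fun k =>
    colS (C k).2.1 (C k).2.2.2.2.2.2.2.2.2
  have hTT : nc N 0 + nc N 1 + nc N 2 ≤ 0.234 :=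
    total_leak (s := S (τ 0)) (Si := S (τ 1)) (Sj := S (τ 2)) (Sl := S (τ 3)) hX
      (cS 0) (cS 1) (cS 2) (cS' 0) (cS' 1) (cS' 2)
  have hTN : TN N = nc N 0 + nc N 1 + nc N 2 := rfl
  have hTTe : Pool.Agent.Helper55.TentL.TT N = nc N 0 + nc N 1 + nc N 2 := by
    rw [e0, e1, e2]
    unfold Pool.Agent.Helper55.TentL.TT
    ring
  have n0 := Pool.Agent.Helper73.MEI.SideP.nc_nonneg hN0 0
  have n1 := Pool.Agent.Helper73.MEI.SideP.nc_nonneg hN0 1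
  have n2 := Pool.Agent.Helper73.MEI.SideP.nc_nonneg hN0 2
  obtain ⟨U, hU⟩ : ∃ U, U = nc N 0 + nc N 1 + nc N 2 := ⟨_, rfl⟩
  have hU0 : 0 ≤ U := by linarith
  have hU1 : U ≤ 0.234 := by rw [hU]; exact hTT
  -- the share
  have hQN : QN N ≤ 0.11 * U := by
    have m0 := mul_le_mul_of_nonneg_left (C 0).2.1 n0
    have m1 := mul_le_mul_of_nonneg_left (C 1).2.1 n1
    have m2 := mul_le_mul_of_nonneg_left (C 2).2.1 n2
    rw [hU]
    unfold QN
    nlinarith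
  have hQN0 : 0 ≤ QN N := by
    unfold QN
    positivity
  obtain ⟨φ, hφ⟩ : ∃ φ : ℝ, φ = 0.2536 + 0.49 * U := ⟨_, rfl⟩
  have hφ0 : 0 < φ := by rw [hφ]; positivity
  have hφ1 : φ ≤ 1 := by rw [hφ]; linarith
  have hshare : ∀ p, 0.043 ≤ φ * (2.04 * Pool.Agent.Helper55.Mass.Id (flP (PN N) p)) := by
    intro p
    have hDd : 1 - U ^ 2 / 4 ≤ (PN N).det := by
      have := det_ge hN0 hd
      rwa [hTN, ← hU] at this
    have hD : 0 < 1 - U ^ 2 / 4 := by nlinarith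
    have hCC : 35 / 48 + 9 / 16 * TN N + 5 / 12 * QN N ≤ 35 / 48 + 9 / 16 * U + 5 / 12 * QN N := by
      rw [hTN, ← hU]
    have k1 := share_ok hN0 hd hc hcol (A' := 2.04) (ρ := 0.043)
      (C := 35 / 48 + 9 / 16 * U + 5 / 12 * QN N) (D := 1 - U ^ 2 / 4) (by norm_num)
      (by norm_num) hD hDd hCC p
    refine k1.trans ?_
    have k2 := phi_num (Q := QN N) (C := 35 / 48 + 9 / 16 * U + 5 / 12 * QN N) hU0 hU1 hQN rfl
      (by positivity)
    rw [hφ]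
    refine mul_le_mul_of_nonneg_right k2 ?_
    have := (Pool.Agent.Helper73.MEI.SideP.flN_pos hN0 hd hc hcol p).le
    positivity
  -- the moments
  have eA : (3.83 / 2 + 1 / 8 : ℝ) = 2.04 := by norm_num
  have main := face_numM (A := 3.83) rngA h v hz τ hX (by norm_num) hl
    (δ3 := fun _ => 0) (dE := fun _ => 0) (dm := fun _ => 0) (fun p => (h3 p).le)
    (fun _ => le_rfl) (fun _ => le_rfl) (fun _ => by norm_num) (ρ := 0.043) (by norm_num)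
    hρM hx hxs hN hR (κ := fun _ => 0) (fun _ => le_rfl) (fun _ => by norm_num)
    (fun p => by
      unfold Pool.Agent.Helper55.Mass.Id
      refine mul_nonneg (by positivity) (setIntegral_nonneg
        Pool.Agent.Helper55.Sx.Sim_meas fun t ht => ?_)
      exact div_nonneg (Pool.Agent.Helper96.Kap.kap_nonneg hN0 hc hcol
        (fun k => Pool.Agent.Helper55.Mass.vv_nonneg ht k) p) (by positivity))
    hφ0 hφ1 (fun p => by
      rw [eA]
      have := hshare p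
      linarith)
  obtain ⟨i, j, hij, key⟩ := main
  rw [eA] at key
  obtain ⟨l, hil, hjl, hf, hcor⟩ := corP_role 2.04 N R (fun k => S (τ k.succ)) hij
  have hWc : ∀ ζp : Fin 3 → ℝ, (∀ k, 0 < ζp k) → (∀ k, zc (fun i => a (τ i)) N x k ≤ ζp k) →
      ∀ lam, 0 ≤ lam → lam ≤ 1 - φ → WCost a K τ 2.04
        (GM 2.04 N (zc (fun i => a (τ i)) N x) ζp lam (fun p t => φ * flP (PN N) p t)
          (fun p t => kap N (vv t) p) (fun p => 2.04 * 0 / 0.043) (MB σ a (l2 a) τ)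
          (fun p => aE σ a (l2 a) (τ 0) (τ p.succ) - 0) R (fun k => S (τ k.succ)) (S (τ 0)))
        (DM 2.04 N (zc (fun i => a (τ i)) N x) ζp lam (fun p t => φ * flP (PN N) p t)
          (fun p t => kap N (vv t) p) (fun p => 2.04 * 0 / 0.043) (MB σ a (l2 a) τ)
          (fun j => 1 / qM (fun i => a (τ i)) (fun i j => z (τ i) (τ j)) j)
          (fun p => am σ a (l2 a) (τ 0) (τ p.succ) - 0))
        (w1 * S (τ 0) + w2 * (S (τ 1) + S (τ 2) + S (τ 3))) := by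
    intro ζp p1 p2 lam q1 q2
    have := hW K σ inferInstance a c h S v hS z hz τ hρM x hx hxs N hN R hR ζp p1 p2 φ lam hφ0
      q1 q2 hshare
    simpa only [mul_zero, zero_div, sub_zero] using this
  have harc : arcP 2.04 0.043 (fun _ => 0) R (fun k => S (τ k.succ)) =
      2 * 0.043 * (R i + R j + R l) := by
    rw [← hf R]
    have q : ∀ k, pp (0.043 * R k - 2.04 * 0 * (R k + S (τ k.succ))) = 0.043 * R k := by
      intro k
      rw [mul_zero, zero_mul, sub_zero]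
      exact max_eq_left (mul_nonneg (by norm_num) (hR0 k))
    unfold arcP
    rw [q 0, q 1, q 2]
    ring
  have hcols : ∀ m, nc N m = N i m + N j m + N l m := fun m => hf (fun k => N k m)
  have ni : nc N i = N j i + N l i := by rw [hcols, hd i, zero_add]
  have nj : nc N j = N i j + N l j := by rw [hcols, hd j, add_zero]
  have nl : nc N l = N i l + N j l := by rw [hcols, hd l, add_zero]
  have eU : (N j i + N l i) + (N i j + N l j) + (N i l + N j l) = U := by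
    rw [← ni, ← nj, ← nl, hU, hf (nc N)]
  have Ci := colR (C i).2.1 (C i).2.2.2.2.2.1
  have Cj := colR (C j).2.1 (C j).2.2.2.2.2.1
  have Cl := colR (C l).2.1 (C l).2.2.2.2.2.1
  rw [ni] at Ci
  rw [nj] at Cj
  rw [nl] at Cl
  have ar := arith (s := S (τ 0)) (Si := S (τ i.succ)) (Sj := S (τ j.succ)) (Sl := S (τ l.succ))
    s0 (v.nn _) (v.nn _) (v.nn _) (hR0 i) (hR0 j) (hR0 l) (hN0 i j) (hN0 i l) (hN0 j i)
    (hN0 j l) (hN0 l i) (hN0 l j) (by rw [eU]; exact hU1) Ci Cj Cl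
  rw [eU] at ar
  have f1 : S (τ i.succ) + S (τ j.succ) + S (τ l.succ) = S (τ 1) + S (τ 2) + S (τ 3) :=
    (hf (fun k => S (τ k.succ))).symm
  have f2 : S (τ i.succ) ^ 2 + S (τ j.succ) ^ 2 + S (τ l.succ) ^ 2 =
      S (τ 1) ^ 2 + S (τ 2) ^ 2 + S (τ 3) ^ 2 := (hf (fun k => S (τ k.succ) ^ 2)).symm
  rw [f1, f2] at ar
  have hPr : PrA S τ = 3.222 * S (τ 0) ^ 2 + 3.333 * S (τ 0) * (S (τ 1) + S (τ 2) + S (τ 3))
    + 0.148 * (S (τ 1) ^ 2 + S (τ 2) ^ 2 + S (τ 3) ^ 2)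
    + 0.776 * (S (τ 1) + S (τ 2) + S (τ 3)) ^ 2 := rfl
  rcases hxs with hxs | hxs
  · -- the apex
    have cx := coords (a := fun i => a (τ i)) h'.ha (h'.hp x hx) (S := fun k => S (τ k.succ))
      (v'.le 1 x hx) (v'.le 2 x hx) (v'.le 3 x hx)
    have hq : Qv (fun i => a (τ i)) 0 x = S (τ 0) := hxs
    rw [hq] at cx
    obtain ⟨cf, -, ⟨cc0, cc1, cc2⟩⟩ := cx
    obtain ⟨u, hu⟩ : ∃ u, u = b3 (fun i => a (τ i)) x := ⟨_, rfl⟩
    have u0 : u 0 = bar (fun i => a (τ i)) 1 x := by rw [hu]; rfl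
    have u1 : u 1 = bar (fun i => a (τ i)) 2 x := by rw [hu]; rfl
    have u2 : u 2 = bar (fun i => a (τ i)) 3 x := by rw [hu]; rfl
    rw [← u0, ← u1, ← u2] at cf cc0 cc1 cc2
    have hQf : Helper75.MEI2.Qf u = 1 + S (τ 0) := by
      unfold Helper75.MEI2.Qf
      linarith
    have S1X : S (τ 1) ≤ 0.0108 := by linarith
    have S2X : S (τ 2) ≤ 0.0108 := by linarith
    have S3X : S (τ 3) ≤ 0.0108 := by linarith
    have hcap : ∀ k, S (τ 0) - 0.0108 ≤ u k + (u 0 + u 1 + u 2) - 1 := by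
      intro k
      fin_cases k
      · have : S (τ 0) - S (τ 1) ≤ u 0 + (u 0 + u 1 + u 2) - 1 := cc0
        show S (τ 0) - 0.0108 ≤ u 0 + (u 0 + u 1 + u 2) - 1
        linarith
      · have : S (τ 0) - S (τ 2) ≤ u 1 + (u 0 + u 1 + u 2) - 1 := cc1
        show S (τ 0) - 0.0108 ≤ u 1 + (u 0 + u 1 + u 2) - 1
        linarith
      · have : S (τ 0) - S (τ 3) ≤ u 2 + (u 0 + u 1 + u 2) - 1 := cc2
        show S (τ 0) - 0.0108 ≤ u 2 + (u 0 + u 1 + u 2) - 1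
        linarith
    have S0X : S (τ 0) ≤ 0.0108 := by linarith
    obtain ⟨ζp, p1, p2, p3⟩ := apex_lin hN0 hd hc hcol (u := u) (s := S (τ 0)) (C := 0.0108)
      (r := 1.0683) (V := 0.12) (x0 := 0.1752) (x1 := 0.2387) hQf s0 (by linarith) hcap
      (by norm_num) (by norm_num) (by norm_num) (r_num s0 S0X) (by norm_num) (V_num s0)
      (by norm_num) (by norm_num) (by norm_num)
    have p2' : ∀ k, zc (fun i => a (τ i)) N x k ≤ ζp k := fun k => by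
      have := p2 k
      rw [hu] at this
      exact this
    rw [hTTe, ← hU] at p3
    have hg0 : 0 ≤ 0.2667 - 0.5388 * U := by linarith
    have hg : 0.2667 - 0.5388 * U ≤ 2.04 * ((1 - φ) * Pool.Agent.Helper55.Mass.Id (alP N ζp)) := by
      rw [hφ]
      exact g_num hU0 hU1 p3
    have fin := key ζp p1 p2' (1 - φ) (by linarith) le_rfl (0.2667 - 0.5388 * U) hg0 hg
      (w1 * S (τ 0) + w2 * (S (τ 1) + S (τ 2) + S (τ 3))) (hWc ζp p1 p2')
    rw [harc, hcor] at fin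
    have e4 : (1.2314 - 1.0027 : ℝ) = 0.2287 := by norm_num
    rw [e4] at fin
    rw [hPr]
    linarith
  · -- no violation
    have hR00 : ∀ k, R k = 0 := fun k => by
      have := (C k).2.2.1
      rw [hxs, mul_zero] at this
      exact le_antisymm this (hR0 k)
    have p1 : ∀ k, 0 < max (zc (fun i => a (τ i)) N x k) 0 + 1 := fun k => by
      have := le_max_right (zc (fun i => a (τ i)) N x k) 0
      linarith
    have p2 : ∀ k, zc (fun i => a (τ i)) N x k ≤ max (zc (fun i => a (τ i)) N x k) 0 + 1 :=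
      fun k => by
        have := le_max_left (zc (fun i => a (τ i)) N x k) 0
        linarith
    have fin := key (fun k => max (zc (fun i => a (τ i)) N x k) 0 + 1) p1 p2 0 le_rfl
      (by linarith) 0 le_rfl (by simp)
      (w1 * S (τ 0) + w2 * (S (τ 1) + S (τ 2) + S (τ 3))) (fun lam q1 q2 =>
        hWc _ p1 p2 lam q1 (by linarith))
    rw [harc, hcor] at fin
    rw [hPr]
    have r1 := hR00 i
    have r2 := hR00 j
    have r3 := hR00 l
    rw [r1, r2, r3, hxs] at ar fin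
    rw [hxs]
    linarith

/-- the sum of the four prices -/
theorem PrA_sum {S : Fin 4 → ℝ} (hS : ∀ i, 0 ≤ S i) {τ : Fin 4 → Equiv.Perm (Fin 4)}
    (hτ : ∀ i, τ i 0 = i) : ∑ i, PrA S (τ i) ≤ 6 * (∑ i, S i) ^ 2 := by
  have e1 : ∀ i, S (τ i 1) + S (τ i 2) + S (τ i 3) = ∑ k, S k - S i := fun i => by
    have : ∑ k, S k = S (τ i 0) + S (τ i 1) + S (τ i 2) + S (τ i 3) := by
      rw [← Equiv.sum_comp (τ i) S, Fin.sum_univ_four]
    rw [this, hτ i]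
    ring
  have e2 : ∀ i, S (τ i 1) ^ 2 + S (τ i 2) ^ 2 + S (τ i 3) ^ 2 = ∑ k, S k ^ 2 - S i ^ 2 :=
    fun i => by
      have : ∑ k, S k ^ 2 = S (τ i 0) ^ 2 + S (τ i 1) ^ 2 + S (τ i 2) ^ 2 + S (τ i 3) ^ 2 := by
        rw [← Equiv.sum_comp (τ i) (fun k => S k ^ 2), Fin.sum_univ_four]
      rw [this, hτ i]
      ring
  have e3 : ∀ i, PrA S (τ i) = 3.222 * S i ^ 2 + 3.333 * S i * (∑ k, S k - S i)
      + 0.148 * (∑ k, S k ^ 2 - S i ^ 2) + 0.776 * (∑ k, S k - S i) ^ 2 := fun i => by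
    unfold PrA
    rw [e1 i, e2 i, hτ i]
  rw [Finset.sum_congr rfl fun i _ => e3 i]
  have s0 := hS 0
  have s1 := hS 1
  have s2 := hS 2
  have s3 := hS 3
  simp only [Fin.sum_univ_four]
  obtain ⟨x, hx⟩ : ∃ x, x = S 0 := ⟨_, rfl⟩
  obtain ⟨y, hy⟩ : ∃ y, y = S 1 := ⟨_, rfl⟩
  obtain ⟨z, hz⟩ : ∃ z, z = S 2 := ⟨_, rfl⟩
  obtain ⟨w, hw⟩ : ∃ w, w = S 3 := ⟨_, rfl⟩
  rw [← hx] at s0 ⊢
  rw [← hy] at s1 ⊢
  rw [← hz] at s2 ⊢
  rw [← hw] at s3 ⊢
  have p1 := mul_nonneg s0 s1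
  have p2 := mul_nonneg s0 s2
  have p3 := mul_nonneg s0 s3
  have p4 := mul_nonneg s1 s2
  have p5 := mul_nonneg s1 s3
  have p6 := mul_nonneg s2 s3
  have q1 := mul_self_nonneg x
  have q2 := mul_self_nonneg y
  have q3 := mul_self_nonneg z
  have q4 := mul_self_nonneg w
  nlinarith

/-- **MILESTONE A, regime II**: the core statement on `T0 ≤ Σ S ≤ T1 ≤ .0108` from the moments
of the arcs and the cost of the second order term -/
theorem coreP_A {T0 T1 w1 w2 X κ : ℝ} (hT0 : 0 < T0) (hT1 : T1 ≤ 0.0108) (hκ : 0 ≤ κ)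
    (hM : MomOK T1 0.043) (hW : WOK T1 0.043 w1 w2)
    (k0 : 1.85e-4 + (0.0039 + 4.08 * κ + 0.00006 + 6 * T1 + (w1 + 3 * w2) - 0.26647) * T0 ≤ 0)
    (k1 : 0.0039 + 4.08 * κ + 0.00006 + 6 * T1 + (w1 + 3 * w2) ≤ 0.26647) :
    CoreP (fun S => T0 ≤ ∑ i, S i ∧ ∑ i, S i ≤ T1) X κ := by
  refine coreP_K Helper97.MEI.asm_97 hκ fun K σ hσ a c hC hX S hV hP => ?_
  choose τ hτ using exists_perm
  refine ⟨fun i => 0.26647 * S i - PrA S (τ i) - (w1 * S i + w2 * (∑ k, S k - S i)),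
    fun i => ?_, ?_⟩
  · have h1 := face_A hC hV hT1 hM hW hP.2 (τ i)
    have e1 : S (τ i 1) + S (τ i 2) + S (τ i 3) = ∑ k, S k - S i := by
      have : ∑ k, S k = S (τ i 0) + S (τ i 1) + S (τ i 2) + S (τ i 3) := by
        rw [← Equiv.sum_comp (τ i) S, Fin.sum_univ_four]
      rw [this, hτ i]
      ring
    rw [e1, hτ i] at h1
    exact h1
  · obtain ⟨h0, h1⟩ := hP
    have hs := PrA_sum hV.nn hτ
    obtain ⟨T, hT⟩ : ∃ T, T = ∑ i, S i := ⟨_, rfl⟩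
    have e : ∑ i, (0.26647 * S i - PrA S (τ i) - (w1 * S i + w2 * (∑ k, S k - S i))) =
        0.26647 * T - ∑ i, PrA S (τ i) - (w1 + 3 * w2) * T := by
      rw [hT]
      simp only [Fin.sum_univ_four]
      ring
    have h3 : ∑ i, (0.0039 * S i + 0.501 * S i ^ 3) ≤ 0.0039 * T + 0.00006 * T := by
      have : ∀ i, 0.0039 * S i + 0.501 * S i ^ 3 ≤ (0.0039 + 0.00006) * S i := fun i => by
        have hi : S i ≤ ∑ j, S j := Finset.single_le_sum (f := S) (fun j _ => hV.nn j)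
          (Finset.mem_univ i)
        have h4 : S i ≤ 0.0108 := by linarith
        have h5 := hV.nn i
        have h6 : S i ^ 2 ≤ 0.0108 ^ 2 := pow_le_pow_left₀ h5 h4 2
        have h7 := mul_le_mul_of_nonneg_right h6 h5
        nlinarith
      refine (Finset.sum_le_sum fun i _ => this i).trans (le_of_eq ?_)
      rw [← Finset.mul_sum, ← hT]
      ring
    rw [e]
    rw [← hT] at h0 h1 hs ⊢
    have hT00 : 0 ≤ T := hT0.le.trans h0
    have h5 : 6 * T ^ 2 ≤ 6 * T1 * T := by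
      have := mul_le_mul_of_nonneg_right h1 hT00
      nlinarith
    have h6 : (0.26647 - (0.0039 + 4.08 * κ + 0.00006 + 6 * T1 + (w1 + 3 * w2))) * T0 ≤
        (0.26647 - (0.0039 + 4.08 * κ + 0.00006 + 6 * T1 + (w1 + 3 * w2))) * T :=
      mul_le_mul_of_nonneg_left h0 (by linarith)
    nlinarith

end Pool.Agent.Helper31.SR.MilA
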