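import Pool.Agent.Helper78.MEI.End6
import Pool.Agent.Helper73.MEI.MA2
import Pool.Agent.Helper31.SR.MilA

/-!
# Project MEI (M2): the end of a range

`EqM` = minimal volume and the equality case; `window_of_core` = the theorem outside of a window of
circumradii from the core statement on the states; `windowA` = the numbers `X = .0104`,
circumradius at least `.6119`; `pieces` = finitely many ranges of `Σ S`.
-/

set_option autoImplicit false

namespace Pool.Agent.Helper31.SR.EndA

open Set Metric MeasureTheory Helper80.CW Helper82.CW Helper14.CW Helper93.MEI Helper82.M2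
open Helper14.MEI2 Pool.Agent.Helper73.MEI Helper37.MEI Helper41.MEI
open Helper33.MEI (Wi)
open Helper78.MEI
open Helper13.PLM (StX stX)
open Pool.Agent.Helper31.SR Pool.Agent.Helper31.SR.MilA
open scoped RealInnerProductSpace ENNReal

/-- the volume of `K` is at least that of the two bodies of Meissner, with equality exactly
for them -/
def EqM (K : Set E3) : Prop :=
  ENNReal.ofReal Helper96.MEI.VMe ≤ volume K ∧
    (volume K = ENNReal.ofReal Helper96.MEI.VMe ↔
      ∃ a : Fin 4 → E3, (∀ i j, i ≠ j → dist (a i) (a j) = 1) ∧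
      ∃ c : Fin 3 → Bool, K = Helper96.MEI.MB a c)

/-- **the end**: from the core statement on the states that occur -/
theorem window_of_core {R R' X κ : ℝ} (hκ : 0 < κ) (h60 : 0.6026 ≤ R') (hRR : R' < R)
    (hX : 0 ≤ X) (hX1 : X ≤ 0.1774) (hRX : 1 / 4 + 1 / (4 * (2 + X)) ≤ R' ^ 2)
    (hcore : CoreP (StX X) X κ) : ∀ K : Set E3, IsCompact K → Convex ℝ K → Width1 K →
    (¬ ∃ x, K ⊆ closedBall x R) → EqM K :=
  fun K hK hc hw hno => loc_explicit hκ h60 hRR hX (by linarith) hRX (coreX_of_st hX1 hcore)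
    K hK hc hw hno

/-- **pieces of the range of `Σ S`**: `T 0 = τ`, `T n` above all the sums that occur -/
theorem pieces {X κ τ : ℝ} (T : ℕ → ℝ) (n : ℕ) (h0 : T 0 = τ) (hn : X + 0.00032 ≤ T n)
    (hI : CoreP (fun S => StX X S ∧ ∑ i, S i ≤ τ) X κ)
    (hj : ∀ j < n, CoreP (fun S => StX X S ∧ T j ≤ ∑ i, S i ∧ ∑ i, S i ≤ T (j + 1)) X κ) :
    CoreP (StX X) X κ := by
  intro K σ hσ a c hC hE S hV hS i
  by_cases h : ∑ i, S i ≤ τ
  · exact hI K σ hσ a c hC hE S hV ⟨hS, h⟩ i
  · have key : ∀ m ≤ n, (∃ j < n, T j ≤ ∑ i, S i ∧ ∑ i, S i ≤ T (j + 1)) ∨ T m ≤ ∑ i, S i := by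
      intro m
      induction m with
      | zero => intro _; exact Or.inr (by rw [h0]; exact (not_le.1 h).le)
      | succ m ih =>
        intro hm
        rcases ih (by omega) with h1 | h1
        · exact Or.inl h1
        · rcases le_total (∑ i, S i) (T (m + 1)) with h2 | h2
          · exact Or.inl ⟨m, by omega, h1, h2⟩
          · exact Or.inr h2
    rcases key n le_rfl with ⟨j, hjn, h1, h2⟩ | h1
    · exact hj j hjn K σ hσ a c hC hE S hV ⟨hS, h1, h2⟩ i
    · have hsum : ∑ i, S i = T n := le_antisymm (hS.sum.trans hn) h1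
      rcases Nat.eq_zero_or_pos n with h3 | h3
      · exact absurd (by rw [hsum, h3, h0]) h
      · obtain ⟨m, rfl⟩ : ∃ m, n = m + 1 := ⟨n - 1, by omega⟩
        have h4 : T m ≤ ∑ i, S i ∨ ∑ i, S i ≤ T m := le_total _ _
        rcases h4 with h4 | h4
        · exact hj m (by omega) K σ hσ a c hC hE S hV ⟨hS, h4, hsum.le⟩ i
        · -- `T m ≥ T (m + 1)`: use the first piece that contains the sum
          rcases key m (by omega) with ⟨j, hjn, h5, h6⟩ | h5
          · exact hj j hjn K σ hσ a c hC hE S hV ⟨hS, h5, h6⟩ i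
          · exact hj m (by omega) K σ hσ a c hC hE S hV ⟨hS, h5, hsum.le⟩ i

/-- **milestone A**: circumradius at least `.6119` -/
theorem windowA {κ : ℝ} (hκ : 0 < κ) (hcore : CoreP (StX 0.0104) 0.0104 κ) :
    ∀ K : Set E3, IsCompact K → Convex ℝ K → Width1 K →
    (¬ ∃ x, K ⊆ closedBall x 0.6119) → EqM K :=
  window_of_core (R' := 0.61185) hκ (by norm_num) (by norm_num) (by norm_num) (by norm_num)
    (by norm_num) hcore

/-- **milestone A, all inputs**: regime I up to `Σ S ≤ .0018`, the moments `.043`, the costs of the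
second order term on `Σ S ≤ .0032`, `.0058`, `.0108` -/
theorem milestoneA {wa wb wc va vb vc : ℝ}
    (hI : CoreP (fun S => StX 0.0104 S ∧ ∑ i, S i ≤ 0.0018) 0.0104 1e-5)
    (hM : MomOK 0.0108 0.043)
    (hWa : MilA.WOK 0.0032 0.043 wa va) (ha : wa + 3 * va ≤ 0.14)
    (hWb : MilA.WOK 0.0058 0.043 wb vb) (hb : wb + 3 * vb ≤ 0.169)
    (hWc : MilA.WOK 0.0108 0.043 wc vc) (hc : wc + 3 * vc ≤ 0.165) :
    ∀ K : Set E3, IsCompact K → Convex ℝ K → Width1 K →
    (¬ ∃ x, K ⊆ closedBall x 0.6119) → EqM K := by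
  have hM' : ∀ T ≤ 0.0108, MomOK T 0.043 := fun T hT K σ hσ a c hC S hV hS =>
    hM K σ hσ a c hC S hV (hS.trans hT)
  have pa := coreP_A (T0 := 0.0018) (T1 := 0.0032) (X := 0.0104) (κ := 1e-5) (by norm_num)
    (by norm_num) (by norm_num) (hM' _ (by norm_num)) hWa (by linarith) (by linarith)
  have pb := coreP_A (T0 := 0.0032) (T1 := 0.0058) (X := 0.0104) (κ := 1e-5) (by norm_num)
    (by norm_num) (by norm_num) (hM' _ (by norm_num)) hWb (by linarith) (by linarith)
  have pc := coreP_A (T0 := 0.0058) (T1 := 0.0108) (X := 0.0104) (κ := 1e-5) (by norm_num)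
    (by norm_num) (by norm_num) (hM' _ (by norm_num)) hWc (by linarith) (by linarith)
  refine windowA (κ := 1e-5) (by norm_num) (pieces (τ := 0.0018)
    (fun j => if j = 0 then 0.0018 else if j = 1 then 0.0032 else if j = 2 then 0.0058 else 0.0108)
    3 (by simp) (by norm_num) hI fun j hj => ?_)
  have h3 : j = 0 ∨ j = 1 ∨ j = 2 := by omega
  rcases h3 with rfl | rfl | rfl
  · exact pa.mono le_rfl fun S hS => by simpa using hS.2
  · exact pb.mono le_rfl fun S hS => by simpa using hS.2
  · exact pc.mono le_rfl fun S hS => by simpa using hS.2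

end Pool.Agent.Helper31.SR.EndA
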