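import Pool.Agent.Helper73.MEI.MA3
import Pool.Agent.Helper97.MEI.AsmFin
import Pool.Agent.Helper31.SR.EndA

/-!
# Project MEI (M2), milestone A: the numbers of the pieces of the small range

For every piece `T0 ≤ Σ S ≤ T1`: the numbers of `face_fv` and the budget of the cost of the second
order term (form `WOKG` of helper73's `coreP_smallG`).
-/

set_option autoImplicit false

namespace Pool.Agent.Helper31.SR.PcN

open Set Metric MeasureTheory Helper80.CW Helper82.CW Helper14.CW Helper93.MEI Helper82.M2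
open Helper14.MEI2 Pool.Agent.Helper73.MEI Helper37.MEI Helper41.MEI
open Helper33.MEI (Wi)
open Helper78.MEI
open Helper13.PLM (StX stX)
open Pool.Agent.Helper73.MEI.ArCor
open Pool.Agent.Helper31.SR Pool.Agent.Helper31.SR.EndA
open scoped RealInnerProductSpace ENNReal

/-- the moments of the arcs `l2` at most `ρ` on the states with `P` -/
def MomP (ρ X : ℝ) (P : (Fin 4 → ℝ) → Prop) : Prop :=
  ∀ (K : Set E3) (σ : Measure (E3 × E3)), IsFiniteMeasure σ →
    ∀ a c : Fin 4 → E3, CN K σ a c → EpsLe c X → ∀ S : Fin 4 → ℝ, Viol K a S → P S →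
    ∀ (τ : Equiv.Perm (Fin 4)) (p k : Fin 3), k ≠ p → MA σ a (l2 a) τ p k ≤ ρ

/-- the form of `coreP_small` in the form of `coreP_smallG` -/
theorem wokg_of_wok {ρ w1 w2 X : ℝ} {P : (Fin 4 → ℝ) → Prop}
    (h : Pool.Agent.Helper73.MEI.ArCor.WOK ρ w1 w2 0 X P) : WOKG ρ 0 w1 w2 0 0 0 X P := by
  intro K σ hσ a c hC hX S hV hP z hz τ x hx hxs N hN R hR ζp h1 h2 lam h3 h4
  have := h K σ hσ a c hC hX S hV hP z hz τ x hx hxs N hN R hR ζp h1 h2 lam h3 h4
  have e : 0 + w1 * S (τ 0) + w2 * (S (τ 1) + S (τ 2) + S (τ 3))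
      + lkC N 0 0 0 (fun k => S (τ k.succ)) (S (τ 0)) =
      w1 * S (τ 0) + w2 * (S (τ 1) + S (τ 2) + S (τ 3))
      + 0 * lkS N (fun k => S (τ k.succ)) (S (τ 0)) := by
    unfold lkC
    ring
  rw [e]
  exact this

theorem asm_a : Asm 0.000185 0.0039 0.501 := by
  have h := Helper97.MEI.asm_97
  norm_num at h ⊢
  exact h

theorem small_of_sum {S : Fin 4 → ℝ} (h0 : ∀ i, 0 ≤ S i) {T b : ℝ} (hT : ∑ i, S i ≤ T)
    (hb : T ≤ b) (i : Fin 4) : S i ≤ b :=
  (Finset.single_le_sum (fun k _ => h0 k) (Finset.mem_univ i)).trans (hT.trans hb)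

/-- numbers of the range `Σ S ≤ 0.0035` -/
theorem rng_a : Rng 0.0035 0.04184 0.97041 0.06098 1.0305 0.0018034 0.0009327 0.000183 1.00088 1.22689 1.22618 0.11484 where
  X1 := by norm_num
  rm0 := by norm_num
  rmX := by norm_num
  qm0 := by norm_num
  qmr := by norm_num
  nb0 := by norm_num
  nbq := by norm_num
  nb3 := by norm_num
  ρq := by norm_num
  Rbq := by norm_num
  gg0 := by norm_num
  gR := by norm_num
  k1X := by norm_num
  k12X := by norm_num
  k12k := by norm_num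
  t21 := by norm_num
  t2X := by norm_num
  δt := by norm_num
  hε := by norm_num
  ng := by norm_num

theorem apx_a : Apx 0.0035 0.97041 0.12933 2.04 0.043 1.061897 0.114836 0.176288 0.239425 0.268428 0.5052 where
  X3 := by norm_num
  Tm0 := by norm_num
  Tm2 := by norm_num
  TmX := by norm_num
  r0 := by norm_num
  rX := by norm_num
  V0 := by norm_num
  VX := by norm_num
  x00 := by norm_num
  x0r := by norm_num
  x1r := by norm_num
  xT := by norm_num
  phi := by norm_num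
  line := by
    intro T h0 h1
    have hb : 0 ≤ 0.12933 - T := by linarith
    have b0 := pow_nonneg hb 5
    have b1 := mul_nonneg h0 (pow_nonneg hb 4)
    have b2 := mul_nonneg (pow_nonneg h0 2) (pow_nonneg hb 3)
    have b3 := mul_nonneg (pow_nonneg h0 3) (pow_nonneg hb 2)
    have b4 := mul_nonneg (pow_nonneg h0 4) hb
    have b5 := pow_nonneg h0 5
    linarith

theorem sml_a : Sml 2.04 0.043 0.268428 0.5052 1.00088 (1.22689 - 1.00088) 0.000183 0.06098 0.12933 0 0.080263 0.246778 6.4255 2.0899 where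
  A0 := by norm_num
  g10 := by norm_num
  k1g := by norm_num
  k2g := by norm_num
  ε0 := by norm_num
  nb1 := by norm_num
  w30 := by norm_num
  w3A := by norm_num
  hC1 := by norm_num
  C10 := by norm_num
  hC2 := by norm_num
  hC2' := by norm_num
  C20 := by norm_num
  hK1 := by norm_num
  hK2 := by norm_num
  K20 := by norm_num
  K12 := by norm_num
  gT := by norm_num

/-- **the piece `0.002 ≤ Σ S ≤ 0.0035`**: `w1 + 3 w2 + 4 w0 / 0.002 ≤ 0.1611` -/
theorem piece_a {X w0 w1 w2 : ℝ} (hM : MomP 0.043 X (fun S => StX X S ∧ 0.002 ≤ ∑ i, S i ∧ ∑ i, S i ≤ 0.0035))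
    (hW : WOKG 0.043 w0 w1 w2 0 0 0 X (fun S => StX X S ∧ 0.002 ≤ ∑ i, S i ∧ ∑ i, S i ≤ 0.0035)) (hw0 : 0 ≤ w0)
    (hw : w1 + 3 * w2 + 4 * w0 / 0.002 ≤ 0.1611) :
    CoreP (fun S => StX X S ∧ 0.002 ≤ ∑ i, S i ∧ ∑ i, S i ≤ 0.0035) X 0.00001 := by
  have h0 : 4 * w0 / 0.002 * 0.002 = 4 * w0 := by
    rw [div_mul_cancel₀ _ (by norm_num)]
  have hd : 0 ≤ 4 * w0 / 0.002 := by positivity
  have e0 := mul_le_mul_of_nonneg_right hw (show (0 : ℝ) ≤ 0.002 by norm_num)
  have e1 := mul_le_mul_of_nonneg_right hw (show (0 : ℝ) ≤ 0.0035 by norm_num)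
  have e2 := mul_le_mul_of_nonneg_left (show (0.002 : ℝ) ≤ 0.0035 by norm_num) hd
  exact coreP_smallG (c0 := 0.000185) (c1 := 0.0039) (c3 := 0.501) (T0 := 0.002)
    (e := 5.407) asm_a (by norm_num) (by norm_num) (by norm_num) le_rfl le_rfl le_rfl
    (fun K σ hσ a c hC hX S hV hP => ⟨hP.2.1, hP.2.2, fun i => small_of_sum hV.nn hP.2.2 (by norm_num) i⟩)
    hM hW rng_a apx_a sml_a (by norm_num) (by norm_num) (by norm_num) (by norm_num)
    (by linarith) (by linarith)

/-- numbers of the range `Σ S ≤ 0.006` -/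
theorem rng_b : Rng 0.006 0.05478 0.96126 0.0806 1.04031 0.003121 0.0016341 0.000367 1.0015 1.22842 1.2272 0.1166 where
  X1 := by norm_num
  rm0 := by norm_num
  rmX := by norm_num
  qm0 := by norm_num
  qmr := by norm_num
  nb0 := by norm_num
  nbq := by norm_num
  nb3 := by norm_num
  ρq := by norm_num
  Rbq := by norm_num
  gg0 := by norm_num
  gR := by norm_num
  k1X := by norm_num
  k12X := by norm_num
  k12k := by norm_num
  t21 := by norm_num
  t2X := by norm_num
  δt := by norm_num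
  hε := by norm_num
  ng := by norm_num

theorem apx_b : Apx 0.006 0.96126 0.17094 2.04 0.043 1.06278 0.116593 0.176141 0.2395 0.268205 0.50524 where
  X3 := by norm_num
  Tm0 := by norm_num
  Tm2 := by norm_num
  TmX := by norm_num
  r0 := by norm_num
  rX := by norm_num
  V0 := by norm_num
  VX := by norm_num
  x00 := by norm_num
  x0r := by norm_num
  x1r := by norm_num
  xT := by norm_num
  phi := by norm_num
  line := by
    intro T h0 h1
    have hb : 0 ≤ 0.17094 - T := by linarith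
    have b0 := pow_nonneg hb 5
    have b1 := mul_nonneg h0 (pow_nonneg hb 4)
    have b2 := mul_nonneg (pow_nonneg h0 2) (pow_nonneg hb 3)
    have b3 := mul_nonneg (pow_nonneg h0 3) (pow_nonneg hb 2)
    have b4 := mul_nonneg (pow_nonneg h0 4) hb
    have b5 := pow_nonneg h0 5
    linarith

theorem sml_b : Sml 2.04 0.043 0.268205 0.50524 1.0015 (1.22842 - 1.0015) 0.000367 0.0806 0.17094 0 0.08032 0.233318 6.4866 2.233 where
  A0 := by norm_num
  g10 := by norm_num
  k1g := by norm_num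
  k2g := by norm_num
  ε0 := by norm_num
  nb1 := by norm_num
  w30 := by norm_num
  w3A := by norm_num
  hC1 := by norm_num
  C10 := by norm_num
  hC2 := by norm_num
  hC2' := by norm_num
  C20 := by norm_num
  hK1 := by norm_num
  hK2 := by norm_num
  K20 := by norm_num
  K12 := by norm_num
  gT := by norm_num

/-- **the piece `0.0035 ≤ Σ S ≤ 0.006`**: `w1 + 3 w2 + 4 w0 / 0.0035 ≤ 0.1918` -/
theorem piece_b {X w0 w1 w2 : ℝ} (hM : MomP 0.043 X (fun S => StX X S ∧ 0.0035 ≤ ∑ i, S i ∧ ∑ i, S i ≤ 0.006))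
    (hW : WOKG 0.043 w0 w1 w2 0 0 0 X (fun S => StX X S ∧ 0.0035 ≤ ∑ i, S i ∧ ∑ i, S i ≤ 0.006)) (hw0 : 0 ≤ w0)
    (hw : w1 + 3 * w2 + 4 * w0 / 0.0035 ≤ 0.1918) :
    CoreP (fun S => StX X S ∧ 0.0035 ≤ ∑ i, S i ∧ ∑ i, S i ≤ 0.006) X 0.00001 := by
  have h0 : 4 * w0 / 0.0035 * 0.0035 = 4 * w0 := by
    rw [div_mul_cancel₀ _ (by norm_num)]
  have hd : 0 ≤ 4 * w0 / 0.0035 := by positivity
  have e0 := mul_le_mul_of_nonneg_right hw (show (0 : ℝ) ≤ 0.0035 by norm_num)
  have e1 := mul_le_mul_of_nonneg_right hw (show (0 : ℝ) ≤ 0.006 by norm_num)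
  have e2 := mul_le_mul_of_nonneg_left (show (0.0035 : ℝ) ≤ 0.006 by norm_num) hd
  exact coreP_smallG (c0 := 0.000185) (c1 := 0.0039) (c3 := 0.501) (T0 := 0.0035)
    (e := 5.548) asm_a (by norm_num) (by norm_num) (by norm_num) le_rfl le_rfl le_rfl
    (fun K σ hσ a c hC hX S hV hP => ⟨hP.2.1, hP.2.2, fun i => small_of_sum hV.nn hP.2.2 (by norm_num) i⟩)
    hM hW rng_b apx_b sml_b (by norm_num) (by norm_num) (by norm_num) (by norm_num)
    (by linarith) (by linarith)

/-- numbers of the range `Σ S ≤ 0.0075` -/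
theorem rng_c0 : Rng 0.0075 0.06124 0.95669 0.09053 1.04528 0.0039198 0.0020656 0.000495 1.00188 1.22933 1.22781 0.11766 where
  X1 := by norm_num
  rm0 := by norm_num
  rmX := by norm_num
  qm0 := by norm_num
  qmr := by norm_num
  nb0 := by norm_num
  nbq := by norm_num
  nb3 := by norm_num
  ρq := by norm_num
  Rbq := by norm_num
  gg0 := by norm_num
  gR := by norm_num
  k1X := by norm_num
  k12X := by norm_num
  k12k := by norm_num
  t21 := by norm_num
  t2X := by norm_num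
  δt := by norm_num
  hε := by norm_num
  ng := by norm_num

theorem apx_c0 : Apx 0.0075 0.95669 0.19203 2.04 0.043 1.063309 0.117646 0.176054 0.239547 0.268072 0.50523 where
  X3 := by norm_num
  Tm0 := by norm_num
  Tm2 := by norm_num
  TmX := by norm_num
  r0 := by norm_num
  rX := by norm_num
  V0 := by norm_num
  VX := by norm_num
  x00 := by norm_num
  x0r := by norm_num
  x1r := by norm_num
  xT := by norm_num
  phi := by norm_num
  line := by
    intro T h0 h1
    have hb : 0 ≤ 0.19203 - T := by linarith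
    have b0 := pow_nonneg hb 5
    have b1 := mul_nonneg h0 (pow_nonneg hb 4)
    have b2 := mul_nonneg (pow_nonneg h0 2) (pow_nonneg hb 3)
    have b3 := mul_nonneg (pow_nonneg h0 3) (pow_nonneg hb 2)
    have b4 := mul_nonneg (pow_nonneg h0 4) hb
    have b5 := pow_nonneg h0 5
    linarith

theorem sml_c0 : Sml 2.04 0.043 0.268072 0.50523 1.00188 (1.22933 - 1.00188) 0.000495 0.09053 0.19203 0 0.080352 0.226502 6.5177 2.3122 where
  A0 := by norm_num
  g10 := by norm_num
  k1g := by norm_num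
  k2g := by norm_num
  ε0 := by norm_num
  nb1 := by norm_num
  w30 := by norm_num
  w3A := by norm_num
  hC1 := by norm_num
  C10 := by norm_num
  hC2 := by norm_num
  hC2' := by norm_num
  C20 := by norm_num
  hK1 := by norm_num
  hK2 := by norm_num
  K20 := by norm_num
  K12 := by norm_num
  gT := by norm_num

/-- **the piece `0.006 ≤ Σ S ≤ 0.0075`**: `w1 + 3 w2 + 4 w0 / 0.006 ≤ 0.1971` -/
theorem piece_c0 {X w0 w1 w2 : ℝ} (hM : MomP 0.043 X (fun S => StX X S ∧ 0.006 ≤ ∑ i, S i ∧ ∑ i, S i ≤ 0.0075))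
    (hW : WOKG 0.043 w0 w1 w2 0 0 0 X (fun S => StX X S ∧ 0.006 ≤ ∑ i, S i ∧ ∑ i, S i ≤ 0.0075)) (hw0 : 0 ≤ w0)
    (hw : w1 + 3 * w2 + 4 * w0 / 0.006 ≤ 0.1971) :
    CoreP (fun S => StX X S ∧ 0.006 ≤ ∑ i, S i ∧ ∑ i, S i ≤ 0.0075) X 0.00001 := by
  have h0 : 4 * w0 / 0.006 * 0.006 = 4 * w0 := by
    rw [div_mul_cancel₀ _ (by norm_num)]
  have hd : 0 ≤ 4 * w0 / 0.006 := by positivity
  have e0 := mul_le_mul_of_nonneg_right hw (show (0 : ℝ) ≤ 0.006 by norm_num)
  have e1 := mul_le_mul_of_nonneg_right hw (show (0 : ℝ) ≤ 0.0075 by norm_num)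
  have e2 := mul_le_mul_of_nonneg_left (show (0.006 : ℝ) ≤ 0.0075 by norm_num) hd
  exact coreP_smallG (c0 := 0.000185) (c1 := 0.0039) (c3 := 0.501) (T0 := 0.006)
    (e := 5.625) asm_a (by norm_num) (by norm_num) (by norm_num) le_rfl le_rfl le_rfl
    (fun K σ hσ a c hC hX S hV hP => ⟨hP.2.1, hP.2.2, fun i => small_of_sum hV.nn hP.2.2 (by norm_num) i⟩)
    hM hW rng_c0 apx_c0 sml_c0 (by norm_num) (by norm_num) (by norm_num) (by norm_num)
    (by linarith) (by linarith)

/-- numbers of the range `Σ S ≤ 0.0082` -/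
theorem rng_c : Rng 0.0082 0.06404 0.95471 0.09487 1.04744 0.0042945 0.0022696 0.000559 1.00205 1.22976 1.22809 0.11815 where
  X1 := by norm_num
  rm0 := by norm_num
  rmX := by norm_num
  qm0 := by norm_num
  qmr := by norm_num
  nb0 := by norm_num
  nbq := by norm_num
  nb3 := by norm_num
  ρq := by norm_num
  Rbq := by norm_num
  gg0 := by norm_num
  gR := by norm_num
  k1X := by norm_num
  k12X := by norm_num
  k12k := by norm_num
  t21 := by norm_num
  t2X := by norm_num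
  δt := by norm_num
  hε := by norm_num
  ng := by norm_num

theorem apx_c : Apx 0.0082 0.95471 0.20121 2.04 0.043 1.063556 0.118138 0.176013 0.239568 0.26801 0.50525 where
  X3 := by norm_num
  Tm0 := by norm_num
  Tm2 := by norm_num
  TmX := by norm_num
  r0 := by norm_num
  rX := by norm_num
  V0 := by norm_num
  VX := by norm_num
  x00 := by norm_num
  x0r := by norm_num
  x1r := by norm_num
  xT := by norm_num
  phi := by norm_num
  line := by
    intro T h0 h1
    have hb : 0 ≤ 0.20121 - T := by linarith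
    have b0 := pow_nonneg hb 5
    have b1 := mul_nonneg h0 (pow_nonneg hb 4)
    have b2 := mul_nonneg (pow_nonneg h0 2) (pow_nonneg hb 3)
    have b3 := mul_nonneg (pow_nonneg h0 3) (pow_nonneg hb 2)
    have b4 := mul_nonneg (pow_nonneg h0 4) hb
    have b5 := pow_nonneg h0 5
    linarith

theorem sml_c : Sml 2.04 0.043 0.26801 0.50525 1.00205 (1.22976 - 1.00205) 0.000559 0.09487 0.20121 0 0.080368 0.223536 6.5312 2.3482 where
  A0 := by norm_num
  g10 := by norm_num
  k1g := by norm_num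
  k2g := by norm_num
  ε0 := by norm_num
  nb1 := by norm_num
  w30 := by norm_num
  w3A := by norm_num
  hC1 := by norm_num
  C10 := by norm_num
  hC2 := by norm_num
  hC2' := by norm_num
  C20 := by norm_num
  hK1 := by norm_num
  hK2 := by norm_num
  K20 := by norm_num
  K12 := by norm_num
  gT := by norm_num

/-- **the piece `0.006 ≤ Σ S ≤ 0.0082`**: `w1 + 3 w2 + 4 w0 / 0.006 ≤ 0.1949` -/
theorem piece_c {X w0 w1 w2 : ℝ} (hM : MomP 0.043 X (fun S => StX X S ∧ 0.006 ≤ ∑ i, S i ∧ ∑ i, S i ≤ 0.0082))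
    (hW : WOKG 0.043 w0 w1 w2 0 0 0 X (fun S => StX X S ∧ 0.006 ≤ ∑ i, S i ∧ ∑ i, S i ≤ 0.0082)) (hw0 : 0 ≤ w0)
    (hw : w1 + 3 * w2 + 4 * w0 / 0.006 ≤ 0.1949) :
    CoreP (fun S => StX X S ∧ 0.006 ≤ ∑ i, S i ∧ ∑ i, S i ≤ 0.0082) X 0.00001 := by
  have h0 : 4 * w0 / 0.006 * 0.006 = 4 * w0 := by
    rw [div_mul_cancel₀ _ (by norm_num)]
  have hd : 0 ≤ 4 * w0 / 0.006 := by positivity
  have e0 := mul_le_mul_of_nonneg_right hw (show (0 : ℝ) ≤ 0.006 by norm_num)
  have e1 := mul_le_mul_of_nonneg_right hw (show (0 : ℝ) ≤ 0.0082 by norm_num)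
  have e2 := mul_le_mul_of_nonneg_left (show (0.006 : ℝ) ≤ 0.0082 by norm_num) hd
  exact coreP_smallG (c0 := 0.000185) (c1 := 0.0039) (c3 := 0.501) (T0 := 0.006)
    (e := 5.659) asm_a (by norm_num) (by norm_num) (by norm_num) le_rfl le_rfl le_rfl
    (fun K σ hσ a c hC hX S hV hP => ⟨hP.2.1, hP.2.2, fun i => small_of_sum hV.nn hP.2.2 (by norm_num) i⟩)
    hM hW rng_c apx_c sml_c (by norm_num) (by norm_num) (by norm_num) (by norm_num)
    (by linarith) (by linarith)

/-- numbers of the range `Σ S ≤ 0.01072` -/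
theorem rng_d : Rng 0.01072 0.07322 0.94822 0.10921 1.05461 0.0056527 0.0030167 0.00081 1.00268 1.2313 1.22912 0.11992 where
  X1 := by norm_num
  rm0 := by norm_num
  rmX := by norm_num
  qm0 := by norm_num
  qmr := by norm_num
  nb0 := by norm_num
  nbq := by norm_num
  nb3 := by norm_num
  ρq := by norm_num
  Rbq := by norm_num
  gg0 := by norm_num
  gR := by norm_num
  k1X := by norm_num
  k12X := by norm_num
  k12k := by norm_num
  t21 := by norm_num
  t2X := by norm_num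
  δt := by norm_num
  hε := by norm_num
  ng := by norm_num

theorem apx_d : Apx 0.01072 0.94822 0.23163 2.04 0.043 1.064444 0.119906 0.175866 0.239644 0.267786 0.50524 where
  X3 := by norm_num
  Tm0 := by norm_num
  Tm2 := by norm_num
  TmX := by norm_num
  r0 := by norm_num
  rX := by norm_num
  V0 := by norm_num
  VX := by norm_num
  x00 := by norm_num
  x0r := by norm_num
  x1r := by norm_num
  xT := by norm_num
  phi := by norm_num
  line := by
    intro T h0 h1
    have hb : 0 ≤ 0.23163 - T := by linarith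
    have b0 := pow_nonneg hb 5
    have b1 := mul_nonneg h0 (pow_nonneg hb 4)
    have b2 := mul_nonneg (pow_nonneg h0 2) (pow_nonneg hb 3)
    have b3 := mul_nonneg (pow_nonneg h0 3) (pow_nonneg hb 2)
    have b4 := mul_nonneg (pow_nonneg h0 4) hb
    have b5 := pow_nonneg h0 5
    linarith

theorem sml_d : Sml 2.04 0.043 0.267786 0.50524 1.00268 (1.2313 - 1.00268) 0.00081 0.10921 0.23163 0 0.080424 0.213719 6.5762 2.4747 where
  A0 := by norm_num
  g10 := by norm_num
  k1g := by norm_num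
  k2g := by norm_num
  ε0 := by norm_num
  nb1 := by norm_num
  w30 := by norm_num
  w3A := by norm_num
  hC1 := by norm_num
  C10 := by norm_num
  hC2 := by norm_num
  hC2' := by norm_num
  C20 := by norm_num
  hK1 := by norm_num
  hK2 := by norm_num
  K20 := by norm_num
  K12 := by norm_num
  gT := by norm_num

/-- **the piece `0.0082 ≤ Σ S ≤ 0.01072`**: `w1 + 3 w2 + 4 w0 / 0.0082 ≤ 0.1843` -/
theorem piece_d {X w0 w1 w2 : ℝ} (hM : MomP 0.043 X (fun S => StX X S ∧ 0.0082 ≤ ∑ i, S i ∧ ∑ i, S i ≤ 0.01072))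
    (hW : WOKG 0.043 w0 w1 w2 0 0 0 X (fun S => StX X S ∧ 0.0082 ≤ ∑ i, S i ∧ ∑ i, S i ≤ 0.01072)) (hw0 : 0 ≤ w0)
    (hw : w1 + 3 * w2 + 4 * w0 / 0.0082 ≤ 0.1843) :
    CoreP (fun S => StX X S ∧ 0.0082 ≤ ∑ i, S i ∧ ∑ i, S i ≤ 0.01072) X 0.00001 := by
  have h0 : 4 * w0 / 0.0082 * 0.0082 = 4 * w0 := by
    rw [div_mul_cancel₀ _ (by norm_num)]
  have hd : 0 ≤ 4 * w0 / 0.0082 := by positivity
  have e0 := mul_le_mul_of_nonneg_right hw (show (0 : ℝ) ≤ 0.0082 by norm_num)
  have e1 := mul_le_mul_of_nonneg_right hw (show (0 : ℝ) ≤ 0.01072 by norm_num)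
  have e2 := mul_le_mul_of_nonneg_left (show (0.0082 : ℝ) ≤ 0.01072 by norm_num) hd
  exact coreP_smallG (c0 := 0.000185) (c1 := 0.0039) (c3 := 0.501) (T0 := 0.0082)
    (e := 5.778) asm_a (by norm_num) (by norm_num) (by norm_num) le_rfl le_rfl le_rfl
    (fun K σ hσ a c hC hX S hV hP => ⟨hP.2.1, hP.2.2, fun i => small_of_sum hV.nn hP.2.2 (by norm_num) i⟩)
    hM hW rng_d apx_d sml_d (by norm_num) (by norm_num) (by norm_num) (by norm_num)
    (by linarith) (by linarith)

end Pool.Agent.Helper31.SR.PcN
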