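import Pool.Agent.Helper73.MEI.MA3
import Pool.Agent.Helper97.MEI.AsmFin
import Pool.Agent.Helper31.SR.PcN

/-!
# Project MEI (M2), milestone A: the numbers of the pieces of the small range

For every piece `T0 ≤ Σ S ≤ T1`: the numbers of `face_fv` and the budget of the cost of the second
order term (form `WOKG` of helper73's `coreP_smallG`).
-/

set_option autoImplicit false

namespace Pool.Agent.Helper31.SR.PcR

open Set Metric MeasureTheory Helper80.CW Helper82.CW Helper14.CW Helper93.MEI Helper82.M2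
open Helper14.MEI2 Pool.Agent.Helper73.MEI Helper37.MEI Helper41.MEI
open Helper33.MEI (Wi)
open Helper78.MEI
open Helper13.PLM (StX stX)
open Pool.Agent.Helper73.MEI.ArCor
open Pool.Agent.Helper31.SR Pool.Agent.Helper31.SR.EndA Pool.Agent.Helper31.SR.PcN
open scoped RealInnerProductSpace ENNReal

/-- numbers of the range `Σ S ≤ 0.006` -/
theorem rng_a6 : Rng 0.006 0.05478 0.96126 0.0806 1.04031 0.003121 0.0016341 0.000367 1.0015 1.22842 1.2272 0.1166 where
  X1 := by norm_num
  rm0 := by norm_num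
  rmX := by norm_num
  qm0 := by norm_num
  qmr := by norm_num
  nb0 := by norm_num
  nbq := by norm_num
  nb3 := by norm_num
  ρq := by norm_num
  Rbq := by norm_num
  gg0 := by norm_num
  gR := by norm_num
  k1X := by norm_num
  k12X := by norm_num
  k12k := by norm_num
  t21 := by norm_num
  t2X := by norm_num
  δt := by norm_num
  hε := by norm_num
  ng := by norm_num

theorem apx_a6 : Apx 0.006 0.96126 0.17094 2.04 0.036 1.06278 0.116593 0.176141 0.2395 0.283038 0.5025 where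
  X3 := by norm_num
  Tm0 := by norm_num
  Tm2 := by norm_num
  TmX := by norm_num
  r0 := by norm_num
  rX := by norm_num
  V0 := by norm_num
  VX := by norm_num
  x00 := by norm_num
  x0r := by norm_num
  x1r := by norm_num
  xT := by norm_num
  phi := by norm_num
  line := by
    intro T h0 h1
    have hb : 0 ≤ 0.17094 - T := by linarith
    have b0 := pow_nonneg hb 5
    have b1 := mul_nonneg h0 (pow_nonneg hb 4)
    have b2 := mul_nonneg (pow_nonneg h0 2) (pow_nonneg hb 3)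
    have b3 := mul_nonneg (pow_nonneg h0 3) (pow_nonneg hb 2)
    have b4 := mul_nonneg (pow_nonneg h0 4) hb
    have b5 := pow_nonneg h0 5
    linarith

theorem sml_a6 : Sml 2.04 0.036 0.283038 0.5025 1.0015 (1.22842 - 1.0015) 0.000367 0.0806 0.17094 0 0.079465 0.243846 6.5563 2.1366 where
  A0 := by norm_num
  g10 := by norm_num
  k1g := by norm_num
  k2g := by norm_num
  ε0 := by norm_num
  nb1 := by norm_num
  w30 := by norm_num
  w3A := by norm_num
  hC1 := by norm_num
  C10 := by norm_num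
  hC2 := by norm_num
  hC2' := by norm_num
  C20 := by norm_num
  hK1 := by norm_num
  hK2 := by norm_num
  K20 := by norm_num
  K12 := by norm_num
  gT := by norm_num

/-- **the piece `0.002 ≤ Σ S ≤ 0.006`**: `w1 + 3 w2 + 4 w0 / 0.002 ≤ 0.1755` -/
theorem piece_a6 {X w0 w1 w2 : ℝ} (hM : MomP 0.036 X (fun S => StX X S ∧ 0.002 ≤ ∑ i, S i ∧ ∑ i, S i ≤ 0.006))
    (hW : WOKG 0.036 w0 w1 w2 0 0 0 X (fun S => StX X S ∧ 0.002 ≤ ∑ i, S i ∧ ∑ i, S i ≤ 0.006)) (hw0 : 0 ≤ w0)
    (hw : w1 + 3 * w2 + 4 * w0 / 0.002 ≤ 0.1755) :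
    CoreP (fun S => StX X S ∧ 0.002 ≤ ∑ i, S i ∧ ∑ i, S i ≤ 0.006) X 0.00001 := by
  have h0 : 4 * w0 / 0.002 * 0.002 = 4 * w0 := by
    rw [div_mul_cancel₀ _ (by norm_num)]
  have hd : 0 ≤ 4 * w0 / 0.002 := by positivity
  have e0 := mul_le_mul_of_nonneg_right hw (show (0 : ℝ) ≤ 0.002 by norm_num)
  have e1 := mul_le_mul_of_nonneg_right hw (show (0 : ℝ) ≤ 0.006 by norm_num)
  have e2 := mul_le_mul_of_nonneg_left (show (0.002 : ℝ) ≤ 0.006 by norm_num) hd
  exact coreP_smallG (c0 := 0.000185) (c1 := 0.0039) (c3 := 0.501) (T0 := 0.002)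
    (e := 5.49) asm_a (by norm_num) (by norm_num) (by norm_num) le_rfl le_rfl le_rfl
    (fun K σ hσ a c hC hX S hV hP => ⟨hP.2.1, hP.2.2, fun i => small_of_sum hV.nn hP.2.2 (by norm_num) i⟩)
    hM hW rng_a6 apx_a6 sml_a6 (by norm_num) (by norm_num) (by norm_num) (by norm_num)
    (by linarith) (by linarith)

/-- numbers of the range `Σ S ≤ 0.0068` -/
theorem rng_a68 : Rng 0.0068 0.05831 0.95876 0.08601 1.04302 0.0035463 0.0018633 0.000434 1.0017 1.22891 1.22752 0.11716 where
  X1 := by norm_num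
  rm0 := by norm_num
  rmX := by norm_num
  qm0 := by norm_num
  qmr := by norm_num
  nb0 := by norm_num
  nbq := by norm_num
  nb3 := by norm_num
  ρq := by norm_num
  Rbq := by norm_num
  gg0 := by norm_num
  gR := by norm_num
  k1X := by norm_num
  k12X := by norm_num
  k12k := by norm_num
  t21 := by norm_num
  t2X := by norm_num
  δt := by norm_num
  hε := by norm_num
  ng := by norm_num

theorem apx_a68 : Apx 0.0068 0.95876 0.18246 2.04 0.036 1.063062 0.117155 0.176095 0.239526 0.282964 0.50252 where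
  X3 := by norm_num
  Tm0 := by norm_num
  Tm2 := by norm_num
  TmX := by norm_num
  r0 := by norm_num
  rX := by norm_num
  V0 := by norm_num
  VX := by norm_num
  x00 := by norm_num
  x0r := by norm_num
  x1r := by norm_num
  xT := by norm_num
  phi := by norm_num
  line := by
    intro T h0 h1
    have hb : 0 ≤ 0.18246 - T := by linarith
    have b0 := pow_nonneg hb 5
    have b1 := mul_nonneg h0 (pow_nonneg hb 4)
    have b2 := mul_nonneg (pow_nonneg h0 2) (pow_nonneg hb 3)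
    have b3 := mul_nonneg (pow_nonneg h0 3) (pow_nonneg hb 2)
    have b4 := mul_nonneg (pow_nonneg h0 4) hb
    have b5 := pow_nonneg h0 5
    linarith

theorem sml_a68 : Sml 2.04 0.036 0.282964 0.50252 1.0017 (1.22891 - 1.0017) 0.000434 0.08601 0.18246 0 0.079482 0.240111 6.5735 2.176 where
  A0 := by norm_num
  g10 := by norm_num
  k1g := by norm_num
  k2g := by norm_num
  ε0 := by norm_num
  nb1 := by norm_num
  w30 := by norm_num
  w3A := by norm_num
  hC1 := by norm_num
  C10 := by norm_num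
  hC2 := by norm_num
  hC2' := by norm_num
  C20 := by norm_num
  hK1 := by norm_num
  hK2 := by norm_num
  K20 := by norm_num
  K12 := by norm_num
  gT := by norm_num

/-- **the piece `0.002 ≤ Σ S ≤ 0.0068`**: `w1 + 3 w2 + 4 w0 / 0.002 ≤ 0.1753` -/
theorem piece_a68 {X w0 w1 w2 : ℝ} (hM : MomP 0.036 X (fun S => StX X S ∧ 0.002 ≤ ∑ i, S i ∧ ∑ i, S i ≤ 0.0068))
    (hW : WOKG 0.036 w0 w1 w2 0 0 0 X (fun S => StX X S ∧ 0.002 ≤ ∑ i, S i ∧ ∑ i, S i ≤ 0.0068)) (hw0 : 0 ≤ w0)
    (hw : w1 + 3 * w2 + 4 * w0 / 0.002 ≤ 0.1753) :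
    CoreP (fun S => StX X S ∧ 0.002 ≤ ∑ i, S i ∧ ∑ i, S i ≤ 0.0068) X 0.00001 := by
  have h0 : 4 * w0 / 0.002 * 0.002 = 4 * w0 := by
    rw [div_mul_cancel₀ _ (by norm_num)]
  have hd : 0 ≤ 4 * w0 / 0.002 := by positivity
  have e0 := mul_le_mul_of_nonneg_right hw (show (0 : ℝ) ≤ 0.002 by norm_num)
  have e1 := mul_le_mul_of_nonneg_right hw (show (0 : ℝ) ≤ 0.0068 by norm_num)
  have e2 := mul_le_mul_of_nonneg_left (show (0.002 : ℝ) ≤ 0.0068 by norm_num) hd
  exact coreP_smallG (c0 := 0.000185) (c1 := 0.0039) (c3 := 0.501) (T0 := 0.002)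
    (e := 5.529) asm_a (by norm_num) (by norm_num) (by norm_num) le_rfl le_rfl le_rfl
    (fun K σ hσ a c hC hX S hV hP => ⟨hP.2.1, hP.2.2, fun i => small_of_sum hV.nn hP.2.2 (by norm_num) i⟩)
    hM hW rng_a68 apx_a68 sml_a68 (by norm_num) (by norm_num) (by norm_num) (by norm_num)
    (by linarith) (by linarith)

/-- numbers of the range `Σ S ≤ 0.0082` -/
theorem rng_b82 : Rng 0.0082 0.06404 0.95471 0.09487 1.04744 0.0042945 0.0022696 0.000559 1.00205 1.22976 1.22809 0.11815 where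
  X1 := by norm_num
  rm0 := by norm_num
  rmX := by norm_num
  qm0 := by norm_num
  qmr := by norm_num
  nb0 := by norm_num
  nbq := by norm_num
  nb3 := by norm_num
  ρq := by norm_num
  Rbq := by norm_num
  gg0 := by norm_num
  gR := by norm_num
  k1X := by norm_num
  k12X := by norm_num
  k12k := by norm_num
  t21 := by norm_num
  t2X := by norm_num
  δt := by norm_num
  hε := by norm_num
  ng := by norm_num

theorem apx_b82 : Apx 0.0082 0.95471 0.20121 2.04 0.0366 1.063556 0.118138 0.176013 0.239568 0.281562 0.50277 where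
  X3 := by norm_num
  Tm0 := by norm_num
  Tm2 := by norm_num
  TmX := by norm_num
  r0 := by norm_num
  rX := by norm_num
  V0 := by norm_num
  VX := by norm_num
  x00 := by norm_num
  x0r := by norm_num
  x1r := by norm_num
  xT := by norm_num
  phi := by norm_num
  line := by
    intro T h0 h1
    have hb : 0 ≤ 0.20121 - T := by linarith
    have b0 := pow_nonneg hb 5
    have b1 := mul_nonneg h0 (pow_nonneg hb 4)
    have b2 := mul_nonneg (pow_nonneg h0 2) (pow_nonneg hb 3)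
    have b3 := mul_nonneg (pow_nonneg h0 3) (pow_nonneg hb 2)
    have b4 := mul_nonneg (pow_nonneg h0 4) hb
    have b5 := pow_nonneg h0 5
    linarith

theorem sml_b82 : Sml 2.04 0.0366 0.281562 0.50277 1.00205 (1.22976 - 1.00205) 0.000559 0.09487 0.20121 0 0.079588 0.233137 6.5952 2.2515 where
  A0 := by norm_num
  g10 := by norm_num
  k1g := by norm_num
  k2g := by norm_num
  ε0 := by norm_num
  nb1 := by norm_num
  w30 := by norm_num
  w3A := by norm_num
  hC1 := by norm_num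
  C10 := by norm_num
  hC2 := by norm_num
  hC2' := by norm_num
  C20 := by norm_num
  hK1 := by norm_num
  hK2 := by norm_num
  K20 := by norm_num
  K12 := by norm_num
  gT := by norm_num

/-- **the piece `0.006 ≤ Σ S ≤ 0.0082`**: `w1 + 3 w2 + 4 w0 / 0.006 ≤ 0.2089` -/
theorem piece_b82 {X w0 w1 w2 : ℝ} (hM : MomP 0.0366 X (fun S => StX X S ∧ 0.006 ≤ ∑ i, S i ∧ ∑ i, S i ≤ 0.0082))
    (hW : WOKG 0.0366 w0 w1 w2 0 0 0 X (fun S => StX X S ∧ 0.006 ≤ ∑ i, S i ∧ ∑ i, S i ≤ 0.0082)) (hw0 : 0 ≤ w0)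
    (hw : w1 + 3 * w2 + 4 * w0 / 0.006 ≤ 0.2089) :
    CoreP (fun S => StX X S ∧ 0.006 ≤ ∑ i, S i ∧ ∑ i, S i ≤ 0.0082) X 0.00001 := by
  have h0 : 4 * w0 / 0.006 * 0.006 = 4 * w0 := by
    rw [div_mul_cancel₀ _ (by norm_num)]
  have hd : 0 ≤ 4 * w0 / 0.006 := by positivity
  have e0 := mul_le_mul_of_nonneg_right hw (show (0 : ℝ) ≤ 0.006 by norm_num)
  have e1 := mul_le_mul_of_nonneg_right hw (show (0 : ℝ) ≤ 0.0082 by norm_num)
  have e2 := mul_le_mul_of_nonneg_left (show (0.006 : ℝ) ≤ 0.0082 by norm_num) hd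
  exact coreP_smallG (c0 := 0.000185) (c1 := 0.0039) (c3 := 0.501) (T0 := 0.006)
    (e := 5.6) asm_a (by norm_num) (by norm_num) (by norm_num) le_rfl le_rfl le_rfl
    (fun K σ hσ a c hC hX S hV hP => ⟨hP.2.1, hP.2.2, fun i => small_of_sum hV.nn hP.2.2 (by norm_num) i⟩)
    hM hW rng_b82 apx_b82 sml_b82 (by norm_num) (by norm_num) (by norm_num) (by norm_num)
    (by linarith) (by linarith)

/-- numbers of the range `Σ S ≤ 0.0087` -/
theorem rng_b87 : Rng 0.0087 0.06596 0.95335 0.09785 1.04894 0.0045629 0.0024163 0.000606 1.00218 1.23007 1.2283 0.1185 where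
  X1 := by norm_num
  rm0 := by norm_num
  rmX := by norm_num
  qm0 := by norm_num
  qmr := by norm_num
  nb0 := by norm_num
  nbq := by norm_num
  nb3 := by norm_num
  ρq := by norm_num
  Rbq := by norm_num
  gg0 := by norm_num
  gR := by norm_num
  k1X := by norm_num
  k12X := by norm_num
  k12k := by norm_num
  t21 := by norm_num
  t2X := by norm_num
  δt := by norm_num
  hε := by norm_num
  ng := by norm_num

theorem apx_b87 : Apx 0.0087 0.95335 0.20755 2.04 0.0366 1.063732 0.118489 0.175984 0.239583 0.281516 0.50279 where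
  X3 := by norm_num
  Tm0 := by norm_num
  Tm2 := by norm_num
  TmX := by norm_num
  r0 := by norm_num
  rX := by norm_num
  V0 := by norm_num
  VX := by norm_num
  x00 := by norm_num
  x0r := by norm_num
  x1r := by norm_num
  xT := by norm_num
  phi := by norm_num
  line := by
    intro T h0 h1
    have hb : 0 ≤ 0.20755 - T := by linarith
    have b0 := pow_nonneg hb 5
    have b1 := mul_nonneg h0 (pow_nonneg hb 4)
    have b2 := mul_nonneg (pow_nonneg h0 2) (pow_nonneg hb 3)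
    have b3 := mul_nonneg (pow_nonneg h0 3) (pow_nonneg hb 2)
    have b4 := mul_nonneg (pow_nonneg h0 4) hb
    have b5 := pow_nonneg h0 5
    linarith

theorem sml_b87 : Sml 2.04 0.0366 0.281516 0.50279 1.00218 (1.23007 - 1.00218) 0.000606 0.09785 0.20755 0 0.079598 0.231085 6.6047 2.2751 where
  A0 := by norm_num
  g10 := by norm_num
  k1g := by norm_num
  k2g := by norm_num
  ε0 := by norm_num
  nb1 := by norm_num
  w30 := by norm_num
  w3A := by norm_num
  hC1 := by norm_num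
  C10 := by norm_num
  hC2 := by norm_num
  hC2' := by norm_num
  C20 := by norm_num
  hK1 := by norm_num
  hK2 := by norm_num
  K20 := by norm_num
  K12 := by norm_num
  gT := by norm_num

/-- **the piece `0.006 ≤ Σ S ≤ 0.0087`**: `w1 + 3 w2 + 4 w0 / 0.006 ≤ 0.2071` -/
theorem piece_b87 {X w0 w1 w2 : ℝ} (hM : MomP 0.0366 X (fun S => StX X S ∧ 0.006 ≤ ∑ i, S i ∧ ∑ i, S i ≤ 0.0087))
    (hW : WOKG 0.0366 w0 w1 w2 0 0 0 X (fun S => StX X S ∧ 0.006 ≤ ∑ i, S i ∧ ∑ i, S i ≤ 0.0087)) (hw0 : 0 ≤ w0)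
    (hw : w1 + 3 * w2 + 4 * w0 / 0.006 ≤ 0.2071) :
    CoreP (fun S => StX X S ∧ 0.006 ≤ ∑ i, S i ∧ ∑ i, S i ≤ 0.0087) X 0.00001 := by
  have h0 : 4 * w0 / 0.006 * 0.006 = 4 * w0 := by
    rw [div_mul_cancel₀ _ (by norm_num)]
  have hd : 0 ≤ 4 * w0 / 0.006 := by positivity
  have e0 := mul_le_mul_of_nonneg_right hw (show (0 : ℝ) ≤ 0.006 by norm_num)
  have e1 := mul_le_mul_of_nonneg_right hw (show (0 : ℝ) ≤ 0.0087 by norm_num)
  have e2 := mul_le_mul_of_nonneg_left (show (0.006 : ℝ) ≤ 0.0087 by norm_num) hd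
  exact coreP_smallG (c0 := 0.000185) (c1 := 0.0039) (c3 := 0.501) (T0 := 0.006)
    (e := 5.623) asm_a (by norm_num) (by norm_num) (by norm_num) le_rfl le_rfl le_rfl
    (fun K σ hσ a c hC hX S hV hP => ⟨hP.2.1, hP.2.2, fun i => small_of_sum hV.nn hP.2.2 (by norm_num) i⟩)
    hM hW rng_b87 apx_b87 sml_b87 (by norm_num) (by norm_num) (by norm_num) (by norm_num)
    (by linarith) (by linarith)

/-- numbers of the range `Σ S ≤ 0.0107` -/
theorem rng_d107 : Rng 0.0107 0.07315 0.94827 0.1091 1.05456 0.0056419 0.0030107 0.000808 1.00268 1.23128 1.22911 0.11991 where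
  X1 := by norm_num
  rm0 := by norm_num
  rmX := by norm_num
  qm0 := by norm_num
  qmr := by norm_num
  nb0 := by norm_num
  nbq := by norm_num
  nb3 := by norm_num
  ρq := by norm_num
  Rbq := by norm_num
  gg0 := by norm_num
  gR := by norm_num
  k1X := by norm_num
  k12X := by norm_num
  k12k := by norm_num
  t21 := by norm_num
  t2X := by norm_num
  δt := by norm_num
  hε := by norm_num
  ng := by norm_num

theorem apx_d107 : Apx 0.0107 0.94827 0.23141 2.04 0.0373 1.064437 0.119892 0.175867 0.239643 0.279848 0.50308 where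
  X3 := by norm_num
  Tm0 := by norm_num
  Tm2 := by norm_num
  TmX := by norm_num
  r0 := by norm_num
  rX := by norm_num
  V0 := by norm_num
  VX := by norm_num
  x00 := by norm_num
  x0r := by norm_num
  x1r := by norm_num
  xT := by norm_num
  phi := by norm_num
  line := by
    intro T h0 h1
    have hb : 0 ≤ 0.23141 - T := by linarith
    have b0 := pow_nonneg hb 5
    have b1 := mul_nonneg h0 (pow_nonneg hb 4)
    have b2 := mul_nonneg (pow_nonneg h0 2) (pow_nonneg hb 3)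
    have b3 := mul_nonneg (pow_nonneg h0 3) (pow_nonneg hb 2)
    have b4 := mul_nonneg (pow_nonneg h0 4) hb
    have b5 := pow_nonneg h0 5
    linarith

theorem sml_d107 : Sml 2.04 0.0373 0.279848 0.50308 1.00268 (1.23128 - 1.00268) 0.000808 0.1091 0.23141 0 0.07973 0.222321 6.633 2.3788 where
  A0 := by norm_num
  g10 := by norm_num
  k1g := by norm_num
  k2g := by norm_num
  ε0 := by norm_num
  nb1 := by norm_num
  w30 := by norm_num
  w3A := by norm_num
  hC1 := by norm_num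
  C10 := by norm_num
  hC2 := by norm_num
  hC2' := by norm_num
  C20 := by norm_num
  hK1 := by norm_num
  hK2 := by norm_num
  K20 := by norm_num
  K12 := by norm_num
  gT := by norm_num

/-- **the piece `0.0082 ≤ Σ S ≤ 0.0107`**: `w1 + 3 w2 + 4 w0 / 0.0082 ≤ 0.1971` -/
theorem piece_d107 {X w0 w1 w2 : ℝ} (hM : MomP 0.0373 X (fun S => StX X S ∧ 0.0082 ≤ ∑ i, S i ∧ ∑ i, S i ≤ 0.0107))
    (hW : WOKG 0.0373 w0 w1 w2 0 0 0 X (fun S => StX X S ∧ 0.0082 ≤ ∑ i, S i ∧ ∑ i, S i ≤ 0.0107)) (hw0 : 0 ≤ w0)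
    (hw : w1 + 3 * w2 + 4 * w0 / 0.0082 ≤ 0.1971) :
    CoreP (fun S => StX X S ∧ 0.0082 ≤ ∑ i, S i ∧ ∑ i, S i ≤ 0.0107) X 0.00001 := by
  have h0 : 4 * w0 / 0.0082 * 0.0082 = 4 * w0 := by
    rw [div_mul_cancel₀ _ (by norm_num)]
  have hd : 0 ≤ 4 * w0 / 0.0082 := by positivity
  have e0 := mul_le_mul_of_nonneg_right hw (show (0 : ℝ) ≤ 0.0082 by norm_num)
  have e1 := mul_le_mul_of_nonneg_right hw (show (0 : ℝ) ≤ 0.0107 by norm_num)
  have e2 := mul_le_mul_of_nonneg_left (show (0.0082 : ℝ) ≤ 0.0107 by norm_num) hd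
  exact coreP_smallG (c0 := 0.000185) (c1 := 0.0039) (c3 := 0.501) (T0 := 0.0082)
    (e := 5.718) asm_a (by norm_num) (by norm_num) (by norm_num) le_rfl le_rfl le_rfl
    (fun K σ hσ a c hC hX S hV hP => ⟨hP.2.1, hP.2.2, fun i => small_of_sum hV.nn hP.2.2 (by norm_num) i⟩)
    hM hW rng_d107 apx_d107 sml_d107 (by norm_num) (by norm_num) (by norm_num) (by norm_num)
    (by linarith) (by linarith)

/-- numbers of the range `Σ S ≤ 0.0135` -/
theorem rng_d135 : Rng 0.0135 0.08216 0.9419 0.12336 1.06169 0.0071664 0.0038631 0.001125 1.00338 1.23299 1.23025 0.12188 where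
  X1 := by norm_num
  rm0 := by norm_num
  rmX := by norm_num
  qm0 := by norm_num
  qmr := by norm_num
  nb0 := by norm_num
  nbq := by norm_num
  nb3 := by norm_num
  ρq := by norm_num
  Rbq := by norm_num
  gg0 := by norm_num
  gR := by norm_num
  k1X := by norm_num
  k12X := by norm_num
  k12k := by norm_num
  t21 := by norm_num
  t2X := by norm_num
  δt := by norm_num
  hε := by norm_num
  ng := by norm_num

theorem apx_d135 : Apx 0.0135 0.9419 0.26168 2.04 0.0383 1.065423 0.121854 0.175704 0.239726 0.277474 0.50346 where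
  X3 := by norm_num
  Tm0 := by norm_num
  Tm2 := by norm_num
  TmX := by norm_num
  r0 := by norm_num
  rX := by norm_num
  V0 := by norm_num
  VX := by norm_num
  x00 := by norm_num
  x0r := by norm_num
  x1r := by norm_num
  xT := by norm_num
  phi := by norm_num
  line := by
    intro T h0 h1
    have hb : 0 ≤ 0.26168 - T := by linarith
    have b0 := pow_nonneg hb 5
    have b1 := mul_nonneg h0 (pow_nonneg hb 4)
    have b2 := mul_nonneg (pow_nonneg h0 2) (pow_nonneg hb 3)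
    have b3 := mul_nonneg (pow_nonneg h0 3) (pow_nonneg hb 2)
    have b4 := mul_nonneg (pow_nonneg h0 4) hb
    have b5 := pow_nonneg h0 5
    linarith

theorem sml_d135 : Sml 2.04 0.0383 0.277474 0.50346 1.00338 (1.23299 - 1.00338) 0.001125 0.12336 0.26168 0 0.079916 0.211055 6.6679 2.5248 where
  A0 := by norm_num
  g10 := by norm_num
  k1g := by norm_num
  k2g := by norm_num
  ε0 := by norm_num
  nb1 := by norm_num
  w30 := by norm_num
  w3A := by norm_num
  hC1 := by norm_num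
  C10 := by norm_num
  hC2 := by norm_num
  hC2' := by norm_num
  C20 := by norm_num
  hK1 := by norm_num
  hK2 := by norm_num
  K20 := by norm_num
  K12 := by norm_num
  gT := by norm_num

/-- **the piece `0.0107 ≤ Σ S ≤ 0.0135`**: `w1 + 3 w2 + 4 w0 / 0.0107 ≤ 0.1804` -/
theorem piece_d135 {X w0 w1 w2 : ℝ} (hM : MomP 0.0383 X (fun S => StX X S ∧ 0.0107 ≤ ∑ i, S i ∧ ∑ i, S i ≤ 0.0135))
    (hW : WOKG 0.0383 w0 w1 w2 0 0 0 X (fun S => StX X S ∧ 0.0107 ≤ ∑ i, S i ∧ ∑ i, S i ≤ 0.0135)) (hw0 : 0 ≤ w0)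
    (hw : w1 + 3 * w2 + 4 * w0 / 0.0107 ≤ 0.1804) :
    CoreP (fun S => StX X S ∧ 0.0107 ≤ ∑ i, S i ∧ ∑ i, S i ≤ 0.0135) X 0.00001 := by
  have h0 : 4 * w0 / 0.0107 * 0.0107 = 4 * w0 := by
    rw [div_mul_cancel₀ _ (by norm_num)]
  have hd : 0 ≤ 4 * w0 / 0.0107 := by positivity
  have e0 := mul_le_mul_of_nonneg_right hw (show (0 : ℝ) ≤ 0.0107 by norm_num)
  have e1 := mul_le_mul_of_nonneg_right hw (show (0 : ℝ) ≤ 0.0135 by norm_num)
  have e2 := mul_le_mul_of_nonneg_left (show (0.0107 : ℝ) ≤ 0.0135 by norm_num) hd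
  exact coreP_smallG (c0 := 0.000185) (c1 := 0.0039) (c3 := 0.501) (T0 := 0.0107)
    (e := 5.849) asm_a (by norm_num) (by norm_num) (by norm_num) le_rfl le_rfl le_rfl
    (fun K σ hσ a c hC hX S hV hP => ⟨hP.2.1, hP.2.2, fun i => small_of_sum hV.nn hP.2.2 (by norm_num) i⟩)
    hM hW rng_d135 apx_d135 sml_d135 (by norm_num) (by norm_num) (by norm_num) (by norm_num)
    (by linarith) (by linarith)

end Pool.Agent.Helper31.SR.PcR
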