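import Pool.Agent.Helper31.SR.MilB
import Pool.Agent.Helper31.SR.PcR
import Pool.Agent.Helper31.SR.MomA
import Pool.Agent.Helper13.PLM.SumY

/-!
# Project MEI (M2): the window theorems with the sharp bound of `Σ S`

`window_B`; the circumradii `.6121`, `.612`, `.61193`, `.61183`, `.6094`, `.608`.
-/

set_option autoImplicit false

namespace Pool.Agent.Helper31.SR.MilG

open Set Metric MeasureTheory Helper80.CW Helper82.CW Helper14.CW Helper93.MEI Helper82.M2
open Helper14.MEI2 Pool.Agent.Helper73.MEI Helper37.MEI Helper41.MEI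
open Helper33.MEI (Wi)
open Helper78.MEI
open Helper13.PLM (StX stX SumB coreP_sumB)
open Pool.Agent.Helper73.MEI.ArCor
open Pool.Agent.Helper31.SR Pool.Agent.Helper31.SR.EndA Pool.Agent.Helper31.SR.PcN
open Pool.Agent.Helper31.SR.PcM Pool.Agent.Helper31.SR.MilF Pool.Agent.Helper31.SR.MilB
open Pool.Agent.Helper31.SR.PcR Pool.Agent.Helper31.SR.MomA
open scoped RealInnerProductSpace ENNReal

/-- the window statement -/
def Win (R : ℝ) : Prop := ∀ K : Set E3, IsCompact K → Convex ℝ K → Width1 K →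
  (¬ ∃ x, K ⊆ closedBall x R) → EqM K

/-- **the window theorem from a low range and one high range**, sharp bound of the sum -/
theorem window_B {R R' X κ T0 B : ℝ} (hκ : 0 < κ) (h60 : 0.6026 ≤ R') (hRR : R' < R)
    (hX : 0 ≤ X) (hX1 : X ≤ 0.1774) (hRX : 1 / 4 + 1 / (4 * (2 + X)) ≤ R' ^ 2)
    (hB : SumB X B)
    (hI : CoreP (fun S => StX X S ∧ ∑ i, S i ≤ T0) X κ)
    (hII : CoreP (Pc X T0 B) X κ) : Win R := by
  refine window_of_core hκ h60 hRR hX hX1 hRX (coreP_sumB hB fun K σ hσ a c hC hE S hV hS i => ?_)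
  rcases le_total (∑ i, S i) T0 with h | h
  · exact hI K σ hσ a c hC hE S hV ⟨hS.1, h⟩ i
  · exact hII K σ hσ a c hC hE S hV ⟨hS.1, h, hS.2⟩ i

theorem CoreP.pc {X κ a b b' : ℝ} (h : CoreP (Pc X a b) X κ) (hb : b' ≤ b) :
    CoreP (Pc X a b') X κ :=
  h.mono le_rfl fun _ hS => ⟨hS.1, hS.2.1, hS.2.2.trans hb⟩

/-- the cost of the second order term on a piece is within the budget `b`, moments `ρ` -/
def WR (X ρ T0 T1 b : ℝ) : Prop :=
  ∃ w0 w1 w2 : ℝ, 0 ≤ w0 ∧ w1 + 3 * w2 + 4 * w0 / T0 ≤ b ∧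
    WOKG ρ w0 w1 w2 0 0 0 X (Pc X T0 T1)

theorem momPr {X ρ T0 T1 : ℝ} (hT : T1 ≤ 0.0904) (hρ : 0.0336054 + 0.3438 * T1 ≤ ρ) :
    MomP ρ X (Pc X T0 T1) := momP_blk (T := T1) (fun _ h => h.2.2) hT hρ

theorem pc_a6 {X : ℝ} (h : WR X 0.036 0.002 0.006 0.1755) : CoreP (Pc X 0.002 0.006) X 0.00001 := by
  obtain ⟨a0, a1, a2, a3, a4, a5⟩ := h
  exact piece_a6 (momPr (by norm_num) (by norm_num)) a5 a3 a4

theorem pc_a68 {X : ℝ} (h : WR X 0.036 0.002 0.0068 0.1753) :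
    CoreP (Pc X 0.002 0.0068) X 0.00001 := by
  obtain ⟨a0, a1, a2, a3, a4, a5⟩ := h
  exact piece_a68 (momPr (by norm_num) (by norm_num)) a5 a3 a4

theorem pc_b82 {X : ℝ} (h : WR X 0.0366 0.006 0.0082 0.2089) :
    CoreP (Pc X 0.006 0.0082) X 0.00001 := by
  obtain ⟨a0, a1, a2, a3, a4, a5⟩ := h
  exact piece_b82 (momPr (by norm_num) (by norm_num)) a5 a3 a4

theorem pc_b87 {X : ℝ} (h : WR X 0.0366 0.006 0.0087 0.2071) :
    CoreP (Pc X 0.006 0.0087) X 0.00001 := by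
  obtain ⟨a0, a1, a2, a3, a4, a5⟩ := h
  exact piece_b87 (momPr (by norm_num) (by norm_num)) a5 a3 a4

theorem pc_d107 {X : ℝ} (h : WR X 0.0373 0.0082 0.0107 0.1971) :
    CoreP (Pc X 0.0082 0.0107) X 0.00001 := by
  obtain ⟨a0, a1, a2, a3, a4, a5⟩ := h
  exact piece_d107 (momPr (by norm_num) (by norm_num)) a5 a3 a4

theorem pc_d135 {X : ℝ} (h : WR X 0.0383 0.0107 0.0135 0.1804) :
    CoreP (Pc X 0.0107 0.0135) X 0.00001 := by
  obtain ⟨a0, a1, a2, a3, a4, a5⟩ := h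
  exact piece_d135 (momPr (by norm_num) (by norm_num)) a5 a3 a4

/-- the low range -/
def LowI (X : ℝ) : Prop := CoreP (fun S => StX X S ∧ ∑ i, S i ≤ 0.002) X 0.00001

/-- **circumradius at least `.6121`** (table 1 only, `Σ S ≤ .006`) -/
theorem win_6121 (hI : LowI 0.00608) (ha : WR 0.00608 0.036 0.002 0.006 0.1755) : Win 0.6121 :=
  window_B (R' := 0.612064) (κ := 0.00001) (by norm_num) (by norm_num) (by norm_num)
    (by norm_num) (by norm_num) (by norm_num)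
    (Helper13.PLM.sumB_00608.mono le_rfl (by norm_num)) hI (pc_a6 ha)

/-- **circumradius at least `.612`** (tables 1 and 2, `Σ S ≤ .0082`) -/
theorem win_612 (hI : LowI 0.00833) (ha : WR 0.00833 0.036 0.002 0.006 0.1755)
    (hb : WR 0.00833 0.0366 0.006 0.0082 0.2089) : Win 0.612 :=
  window_B (R' := 0.61195) (κ := 0.00001) (by norm_num) (by norm_num) (by norm_num)
    (by norm_num) (by norm_num) (by norm_num) Helper13.PLM.sumB_00833 hI
    (join (pc_a6 ha) (pc_b82 hb))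

/-- **circumradius at least `.61193`** (`Σ S ≤ .0087`) -/
theorem win_61193 (hI : LowI 0.00884) (ha : WR 0.00884 0.036 0.002 0.006 0.1755)
    (hb : WR 0.00884 0.0366 0.006 0.0087 0.2071) : Win 0.61193 :=
  window_B (R' := 0.611924) (κ := 0.00001) (by norm_num) (by norm_num) (by norm_num)
    (by norm_num) (by norm_num) (by norm_num) Helper13.PLM.sumB_00884 hI
    (join (pc_a6 ha) (pc_b87 hb))

/-- **circumradius at least `.6094`** (`X = .0604`, `Σ S ≤ .05848`) -/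
theorem win_6094 {κ T0 : ℝ} (hκ : 0 < κ)
    (hI : CoreP (fun S => StX 0.0604 S ∧ ∑ i, S i ≤ T0) 0.0604 κ)
    (hII : CoreP (Pc 0.0604 T0 0.05848) 0.0604 κ) : Win 0.6094 :=
  window_B (R' := 0.609374) hκ (by norm_num) (by norm_num) (by norm_num)
    (by norm_num) (by norm_num) Helper13.PLM.sumB_0604 hI hII

/-- **circumradius at least `.608`** (`X = .0904`, `Σ S ≤ .08734`) -/
theorem win_608 {κ T0 : ℝ} (hκ : 0 < κ)
    (hI : CoreP (fun S => StX 0.0904 S ∧ ∑ i, S i ≤ T0) 0.0904 κ)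
    (hII : CoreP (Pc 0.0904 T0 0.08734) 0.0904 κ) : Win 0.608 :=
  window_B (R' := 0.607944) hκ (by norm_num) (by norm_num) (by norm_num)
    (by norm_num) (by norm_num) Helper13.PLM.sumB_0904 hI hII

end Pool.Agent.Helper31.SR.MilG
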