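import Pool.Agent.Helper31.SR.IntD
import Pool.Agent.Helper31.SR.MilG
import Pool.Agent.Helper13.PLM.OneBig2
import Pool.Agent.Helper13.PLM.SumZ

/-!
# Project MEI (M2), track B: a piece from its four face rows, covers, window theorem

`RowP` = the row of a face on a piece; `coreP_rows`; `PB` = the states of a piece; bisection of
edges and levels, root cones; `window_Y`.
-/

set_option autoImplicit false

namespace Pool.Agent.Helper31.SR.PcB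

open Set Metric MeasureTheory Filter Topology Helper93.MEI Helper80.CW Helper14.CW
open Helper14.MEI2 Pool.Agent.Helper73.MEI Helper82.M2 Helper82.CW Helper41.MEI
open Pool.Agent.Helper31.SR Helper37.MEI
open Helper33.MEI (Wi)
open Helper78.MEI
open Helper13.PLM (StX stX StY SumB OneB coreP_stY)
open Pool.Agent.Helper31.SR.Sort
open Pool.Agent.Helper31.SR.IntB Pool.Agent.Helper31.SR.IntC Pool.Agent.Helper31.SR.IntD
open Pool.Agent.Helper31.SR.EndA Pool.Agent.Helper31.SR.MilG Pool.Agent.Helper31.SR.MilF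
open scoped RealInnerProductSpace

variable {ι : Type} [Fintype ι]

/-- **the row of the face of `i`** on a piece with the vertices `V`: values `m` at the vertices -/
def RowP (X : ℝ) (P : (Fin 4 → ℝ) → Prop) (V : ι → Fin 4 → ℝ) (i : Fin 4) (m : ι → ℝ) : Prop :=
  ∀ (K : Set E3) (σ : Measure (E3 × E3)), IsFiniteMeasure σ →
    ∀ a c : Fin 4 → E3, CN K σ a c → EpsLe c X → ∀ S : Fin 4 → ℝ, Viol K a S → P S →
    ∀ lam, Dc V S lam → ∃ F : ℝ, LLs σ a (l2 a) i + F ≤ Wi a i K σ 3.83 ∧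
      ∑ v, lam v * m v ≤ F

theorem RowP.mono {X : ℝ} {P P' : (Fin 4 → ℝ) → Prop} {V : ι → Fin 4 → ℝ} {i : Fin 4}
    {m m' : ι → ℝ} (h : RowP X P V i m) (hP : ∀ S, P' S → P S) (hm : ∀ v, m' v ≤ m v) :
    RowP X P' V i m' := by
  intro K σ hσ a c hC hX S hV hS lam hl
  obtain ⟨F, h1, h2⟩ := h K σ hσ a c hC hX S hV (hP S hS) lam hl
  exact ⟨F, h1, (Finset.sum_le_sum fun v _ =>
    mul_le_mul_of_nonneg_left (hm v) (hl.nn v)).trans h2⟩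

/-- **the core statement on a piece from the four rows** (no couplings) -/
theorem coreP_rows {X κ c0 c1 : ℝ} (hκ : 0 ≤ κ) {P : (Fin 4 → ℝ) → Prop} (V : ι → Fin 4 → ℝ)
    (hV0 : ∀ v i, 0 ≤ V v i) (hP : ∀ S : Fin 4 → ℝ, P S → ∃ lam, Dc V S lam)
    (hc : ∀ S : Fin 4 → ℝ, P S →
      1.85e-4 + (0.0039 + 4.08 * κ) * ∑ i, S i ≤ c0 + c1 * ∑ i, S i)
    (m : Fin 4 → ι → ℝ) (hnum : ∀ v, nd c0 c1 (V v) ≤ ∑ i, m i v)
    (h : ∀ i, RowP X P V i (m i)) : CoreP P X κ := by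
  refine coreP_X hκ V hV0 (fun S _ hS => hP S hS) (fun S _ hS => hc S hS) m (fun _ => 0)
    (fun v => by rw [add_zero]; exact hnum v) fun K σ hσ a c hC hX S hV hS lam hl B hB => ?_
  choose F h1 h2 using fun i => h i K σ hσ a c hC hX S hV hS lam hl
  refine ⟨l2 a, F, fun _ _ => 0, TL_l2 hC.pm hC.ha hB, fun v => by simp, h1, fun i => ?_⟩
  simpa using h2 i

/-- the states of a piece -/
structure PB (X B β T0 : ℝ) (T : Fin 4 → Fin 4 → ℝ) (Xl Xu : ℝ) (S : Fin 4 → ℝ) : Prop where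
  st : StY X B β S
  dec : Dec S
  lo : T0 ≤ ∑ i, S i
  cone : ConeL T Xl Xu S

/-- two levels -/
theorem PB.dc {X B β T0 : ℝ} {T : Fin 4 → Fin 4 → ℝ} {Xl Xu : ℝ} (hXl : 0 ≤ Xl) {S : Fin 4 → ℝ}
    (h : PB X B β T0 T Xl Xu S) : ∃ lam, Dc (VT T Xl Xu) S lam := h.cone.dc hXl

/-- apex `0` -/
theorem PB.dc0 {X B β T0 : ℝ} {T : Fin 4 → Fin 4 → ℝ} {Xl Xu : ℝ} (hXu : 0 < Xu) {S : Fin 4 → ℝ}
    (h : PB X B β T0 T Xl Xu S) : ∃ lam, Dc (VC T Xu) S lam := h.cone.dc0 hXu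

/-- **a piece with two levels** -/
theorem piece_VT {X κ B β T0 Xl Xu : ℝ} {T : Fin 4 → Fin 4 → ℝ} (hκ : 0 ≤ κ) (h0 : 0 ≤ Xl)
    (h1 : Xl ≤ Xu) (hT : ∀ n i, 0 ≤ T n i) (m : Fin 4 → Fin 2 × Fin 4 → ℝ)
    (hnum : ∀ v, nd 1.85e-4 (0.0039 + 4.08 * κ) (VT T Xl Xu v) ≤ ∑ i, m i v)
    (h : ∀ i, RowP X (PB X B β T0 T Xl Xu) (VT T Xl Xu) i (m i)) :
    CoreP (PB X B β T0 T Xl Xu) X κ :=
  coreP_rows hκ (VT T Xl Xu) (VT_nonneg hT h0 h1) (fun _ hS => hS.dc h0) (fun _ _ => le_rfl) m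
    hnum h

/-- **a piece with the apex `0`** -/
theorem piece_VC {X κ B β T0 Xl Xu : ℝ} {T : Fin 4 → Fin 4 → ℝ} (hκ : 0 ≤ κ) (hXu : 0 < Xu)
    (hT0 : 0 < T0) (hT : ∀ n i, 0 ≤ T n i) (m : Fin 4 → Option (Fin 4) → ℝ)
    (hnum : ∀ v, nd 0 (1.85e-4 / T0 + (0.0039 + 4.08 * κ)) (VC T Xu v) ≤ ∑ i, m i v)
    (h : ∀ i, RowP X (PB X B β T0 T Xl Xu) (VC T Xu) i (m i)) :
    CoreP (PB X B β T0 T Xl Xu) X κ :=
  coreP_rows hκ (VC T Xu) (VC_nonneg hT hXu.le) (fun _ hS => hS.dc0 hXu) (fun S hS => by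
    have h1 : 1.85e-4 ≤ 1.85e-4 / T0 * ∑ i, S i := by
      rw [div_mul_eq_mul_div, le_div_iff₀ hT0]
      exact mul_le_mul_of_nonneg_left hS.lo (by norm_num)
    rw [add_mul, zero_add]
    linarith) m hnum h

/-- **bisection of an edge** -/
theorem PB.split {X κ B β T0 Xl Xu : ℝ} {T T1 T2 : Fin 4 → Fin 4 → ℝ}
    (k1 : CoreP (PB X B β T0 T1 Xl Xu) X κ) (k2 : CoreP (PB X B β T0 T2 Xl Xu) X κ)
    {a b : Fin 4} (hab : a ≠ b) {r : ℝ} (hr0 : 0 < r) (hr1 : r < 1)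
    (h1 : ∀ i, T1 a i = (1 - r) * T a i + r * T b i) (h1' : ∀ n, n ≠ a → T1 n = T n)
    (h2 : ∀ i, T2 b i = (1 - r) * T a i + r * T b i) (h2' : ∀ n, n ≠ b → T2 n = T n) :
    CoreP (PB X B β T0 T Xl Xu) X κ := by
  intro K σ hσ a' c' hC hE S hV hS i
  rcases hS.cone.split hab hr0 hr1 h1 h1' h2 h2' with h | h
  · exact k1 K σ hσ a' c' hC hE S hV ⟨hS.st, hS.dec, hS.lo, h⟩ i
  · exact k2 K σ hσ a' c' hC hE S hV ⟨hS.st, hS.dec, hS.lo, h⟩ i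

/-- **a middle level** -/
theorem PB.level {X κ B β T0 Xl Xu : ℝ} {T : Fin 4 → Fin 4 → ℝ} (Xm : ℝ)
    (k1 : CoreP (PB X B β T0 T Xl Xm) X κ) (k2 : CoreP (PB X B β T0 T Xm Xu) X κ) :
    CoreP (PB X B β T0 T Xl Xu) X κ := by
  intro K σ hσ a' c' hC hE S hV hS i
  rcases hS.cone.level Xm with h | h
  · exact k1 K σ hσ a' c' hC hE S hV ⟨hS.st, hS.dec, hS.lo, h⟩ i
  · exact k2 K σ hσ a' c' hC hE S hV ⟨hS.st, hS.dec, hS.lo, h⟩ i

theorem stY_perm {X B β : ℝ} {S : Fin 4 → ℝ} (h : StY X B β S) (π : Equiv.Perm (Fin 4)) :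
    StY X B β fun i => S (π i) :=
  ⟨stX_perm h.1 π, by rw [Equiv.sum_comp π S]; exact h.sumB, fun i => h.one _⟩

/-- the states with the bounds of the sum and of the largest violation, sorted -/
theorem coreP_sortY {X κ B β T0 : ℝ}
    (h : CoreP (fun S => (StY X B β S ∧ T0 ≤ ∑ i, S i) ∧ Dec S) X κ) :
    CoreP (fun S => StY X B β S ∧ T0 ≤ ∑ i, S i) X κ := by
  refine CoreP.sort (fun S π hS => ?_) h
  exact ⟨stY_perm hS.1 π, by rw [Equiv.sum_comp π S]; exact hS.2⟩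

/-- **one root cone** -/
theorem coreP_TU {X κ B β T0 : ℝ} (h : CoreP (PB X B β T0 TU T0 B) X κ) :
    CoreP (fun S => StY X B β S ∧ T0 ≤ ∑ i, S i) X κ := by
  refine coreP_sortY fun K σ hσ a c hC hE S hV hS i => ?_
  exact h K σ hσ a c hC hE S hV ⟨hS.1.1, hS.2, hS.1.2,
    coneL_dec hS.2 (hV.nn 3) hS.1.2 hS.1.1.sumB⟩ i

/-- **four root cones** -/
theorem coreP_R {X κ B β T0 b : ℝ} (hb : 1 / 2 < b) (hb1 : b < 1) (hβ : β ≤ b * B)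
    (h0 : CoreP (PB X B β T0 (R0 b) T0 B) X κ) (h1 : CoreP (PB X B β T0 (R1 b) T0 B) X κ)
    (h2 : CoreP (PB X B β T0 (R2 b) T0 B) X κ) (h3 : CoreP (PB X B β T0 (R3 b) T0 B) X κ) :
    CoreP (fun S => StY X B β S ∧ T0 ≤ ∑ i, S i) X κ := by
  refine coreP_sortY fun K σ hσ a c hC hE S hV hS i => ?_
  rcases coneL_roots hS.2 (hV.nn 3) hb hb1 hS.1.2 hS.1.1.sumB
    ((hS.1.1.one 0).trans hβ) with h | h | h | h
  · exact h0 K σ hσ a c hC hE S hV ⟨hS.1.1, hS.2, hS.1.2, h⟩ i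
  · exact h1 K σ hσ a c hC hE S hV ⟨hS.1.1, hS.2, hS.1.2, h⟩ i
  · exact h2 K σ hσ a c hC hE S hV ⟨hS.1.1, hS.2, hS.1.2, h⟩ i
  · exact h3 K σ hσ a c hC hE S hV ⟨hS.1.1, hS.2, hS.1.2, h⟩ i

/-- **the window theorem**: low range, middle range (track A), high range (track B) -/
theorem window_Y {R R' X κ T0 T1 B β : ℝ} (hκ : 0 < κ) (h60 : 0.6026 ≤ R') (hRR : R' < R)
    (hX : 0 ≤ X) (hX1 : X ≤ 0.1774) (hRX : 1 / 4 + 1 / (4 * (2 + X)) ≤ R' ^ 2)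
    (hB : SumB X B) (hO : OneB X β)
    (hI : CoreP (fun S => StX X S ∧ ∑ i, S i ≤ T0) X κ)
    (hII : CoreP (Pc X T0 T1) X κ)
    (hIII : CoreP (fun S => StY X B β S ∧ T1 ≤ ∑ i, S i) X κ) : Win R := by
  refine window_of_core hκ h60 hRR hX hX1 hRX (coreP_stY hX1 hB hO
    fun K σ hσ a c hC hE S hV hS i => ?_)
  rcases le_total (∑ i, S i) T0 with h | h
  · exact hI K σ hσ a c hC hE S hV ⟨hS.1, h⟩ i
  · rcases le_total (∑ i, S i) T1 with h' | h'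
    · exact hII K σ hσ a c hC hE S hV ⟨hS.1, h, h'⟩ i
    · exact hIII K σ hσ a c hC hE S hV ⟨hS.2, h'⟩ i

/-- **circumradius at least `.6109`**: `X = .0304` -/
theorem win_6109 {κ T0 T1 : ℝ} (hκ : 0 < κ)
    (hI : CoreP (fun S => StX 0.0304 S ∧ ∑ i, S i ≤ T0) 0.0304 κ)
    (hII : CoreP (Pc 0.0304 T0 T1) 0.0304 κ)
    (hIII : CoreP (fun S => StY 0.0304 0.0296 0.025 S ∧ T1 ≤ ∑ i, S i) 0.0304 κ) : Win 0.61085 :=
  window_Y (R' := 0.610843) hκ (by norm_num) (by norm_num) (by norm_num)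
    (by norm_num) (by norm_num) Helper13.PLM.sumB_0304 Helper13.PLM.oneB_0304 hI hII hIII

/-- **circumradius at least `.6104`**: `X = .0404` -/
theorem win_6104 {κ T0 T1 : ℝ} (hκ : 0 < κ)
    (hI : CoreP (fun S => StX 0.0404 S ∧ ∑ i, S i ≤ T0) 0.0404 κ)
    (hII : CoreP (Pc 0.0404 T0 T1) 0.0404 κ)
    (hIII : CoreP (fun S => StY 0.0404 0.03924 0.0327 S ∧ T1 ≤ ∑ i, S i) 0.0404 κ) : Win 0.61036 :=
  window_Y (R' := 0.61035) hκ (by norm_num) (by norm_num) (by norm_num)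
    (by norm_num) (by norm_num) Helper13.PLM.sumB_0404 Helper13.PLM.oneB_0404 hI hII hIII

end Pool.Agent.Helper31.SR.PcB
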