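import Pool.Agent.Helper31.SR.FI

/-!
# Arcs with a positive third column

`2 δ y_p ≤ 2 δ √w ≤ κ w + δ² / κ`: the third column `δ` of an arc costs `δ² / κ` of the level and
`κ` of the mass. With this every violation is allowed in the face theorem.
-/

set_option autoImplicit false

namespace Pool.Agent.Helper31.SR

open Set Metric MeasureTheory Helper80.CW Helper82.CW Helper14.CW Helper93.MEI Helper82.M2
open Helper14.MEI2 Pool.Agent.Helper52.MEI Pool.Agent.Helper73.MEI Helper37.MEI Helper41.MEI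
open Helper33.MEI (Wi Dl tx M3)
open Helper78.MEI
open Pool.Agent.Helper55.Mass (LN vv B0)
open Pool.Agent.Helper55.Sx (Sim)
open Pool.Agent.Helper55.Apex (nc)
open Pool.Agent.Helper55.ApexP (PN alP)
open Pool.Agent.Helper55.Fill (rr)
open Pool.Agent.Helper73.MEI.SideP (flP flP_meas flP_nonneg flP_zero flP_pair)
open Helper75.MEI2 (mu vt)
open scoped RealInnerProductSpace

variable {a : Fin 4 → E3} {K : Set E3} {S : Fin 4 → ℝ} {σ : Measure (E3 × E3)}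
  {c : Fin 4 → E3} {z : Fin 4 → Fin 4 → E3} {l : Fin 3 → Bool → Bool → E3 × E3 → ℝ}

/-- **removing a column**: the column `p` of a load is at most `δ` -/
theorem load_drop {a : Fin 4 → E3} (ha : ∀ i j, i ≠ j → dist (a i) (a j) = 1) {q : E3}
    (hq : Pl a q) {L m δ κ : ℝ} {M : Fin 3 → ℝ} (hL : Load a q L m M) {p : Fin 3}
    (hδ : M p ≤ δ) (hδ0 : 0 ≤ δ) (hκ : 0 < κ) :
    Load a q (L - δ ^ 2 / κ) (m - κ) (fun k => if k = p then 0 else M k) := by
  have hy : ∀ k : Fin 3, 0 ≤ yv a 0 k.succ q := fun k =>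
    yv_nonneg hq (Fin.succ_ne_zero k).symm
  have hyle : ∀ k : Fin 3, yv a 0 k.succ q ≤ ‖a 0 - q‖ := fun k => by
    have h1 := real_inner_le_norm (a 0 - q) (a 0 - a k.succ)
    have h2 : ‖a 0 - a k.succ‖ = 1 := by
      rw [← dist_eq_norm]
      exact ha _ _ (Fin.succ_ne_zero k).symm
    rw [h2, mul_one] at h1
    exact h1
  have key : 2 * (M p * yv a 0 p.succ q) ≤ κ * ‖a 0 - q‖ ^ 2 + δ ^ 2 / κ := by
    have h1 := mul_le_mul_of_nonneg_right hδ (hy p)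
    have h2 := mul_le_mul_of_nonneg_left (hyle p) hδ0
    have h3 : 0 ≤ (κ * ‖a 0 - q‖ - δ) ^ 2 / κ := by positivity
    have h4 : (κ * ‖a 0 - q‖ - δ) ^ 2 / κ =
        κ * ‖a 0 - q‖ ^ 2 + δ ^ 2 / κ - 2 * (δ * ‖a 0 - q‖) := by
      field_simp
      ring
    linarith
  unfold Load at hL ⊢
  fin_cases p
  · have k : 2 * (M 0 * yv a 0 1 q) ≤ κ * ‖a 0 - q‖ ^ 2 + δ ^ 2 / κ := key
    simp
    linarith
  · have k : 2 * (M 1 * yv a 0 2 q) ≤ κ * ‖a 0 - q‖ ^ 2 + δ ^ 2 / κ := key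
    simp
    linarith
  · have k : 2 * (M 2 * yv a 0 3 q) ≤ κ * ‖a 0 - q‖ ^ 2 + δ ^ 2 / κ := key
    simp
    linarith

/-- the two main columns of an arc -/
noncomputable def MB (σ : Measure (E3 × E3)) (a : Fin 4 → E3)
    (l : Fin 3 → Bool → Bool → E3 × E3 → ℝ) (τ : Equiv.Perm (Fin 4)) (p k : Fin 3) : ℝ :=
  if k = p then 0 else MA σ a l τ p k

theorem MB_nonneg (τ : Equiv.Perm (Fin 4)) (p k : Fin 3) : 0 ≤ MB σ a l τ p k := by
  unfold MB
  split_ifs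
  · exact le_rfl
  · exact MA_nonneg τ p k

theorem MB_diag (τ : Equiv.Perm (Fin 4)) (p : Fin 3) : MB σ a l τ p p = 0 := by
  unfold MB
  rw [if_pos rfl]

/-- **the arc as a load with two columns, any violation** -/
theorem arc_load2 [IsFiniteMeasure σ] (ha : ∀ i j, i ≠ j → dist (a i) (a j) = 1)
    (hl : Lok a l) (hK : IsCompact K) (hσ : ∀ᵐ z ∂σ, z.1 ∈ K ∧ z.2 ∈ K)
    (hp : ∀ x ∈ K, Pl a x) (hd : ∀ x ∈ K, ∀ y ∈ K, ‖x - y‖ ≤ 1) (τ : Equiv.Perm (Fin 4))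
    {q : E3} (hq : q ∈ K) (p : Fin 3) {δ κ : ℝ} (hδ : MA σ a l τ p p ≤ δ) (hκ : 0 < κ) :
    Load (fun i => a (τ i)) q (aE σ a l (τ 0) (τ p.succ) - δ ^ 2 / κ)
      (am σ a l (τ 0) (τ p.succ) - κ) (MB σ a l τ p) := by
  have ha' : ∀ i j, i ≠ j → dist (a (τ i)) (a (τ j)) = 1 :=
    fun i j hij => ha _ _ fun h => hij (τ.injective h)
  have hq' : Pl (fun i => a (τ i)) q := Pl_perm τ (hp q hq)
  exact load_drop ha' hq' (arc_load ha hl hK hσ hp hd τ hq p) hδ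
    ((MA_nonneg τ p p).trans hδ) hκ

end Pool.Agent.Helper31.SR
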