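import Pool.Agent.Helper31.SR.Inp
import Pool.Agent.Helper31.SR.Arc
import Pool.Agent.Helper78.MEI.FaceS
import Pool.Agent.Helper73.MEI.SideN

/-!
# The face theorem with all loads of a placed body

Nodes = contact points, apex = any point of the body, arcs = losses `l` of the vertex, all on the
uniform share. Left open: the numbers (plane, residual masses, share) and the cost of `w`.
-/

set_option autoImplicit false

namespace Pool.Agent.Helper31.SR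

open Set Metric MeasureTheory Helper80.CW Helper82.CW Helper14.CW Helper93.MEI Helper82.M2
open Helper14.MEI2 Pool.Agent.Helper52.MEI Pool.Agent.Helper73.MEI Helper37.MEI Helper41.MEI
open Helper33.MEI (Wi Dl tx M3)
open Helper78.MEI
open Pool.Agent.Helper55.Mass (LN vv B0)
open Pool.Agent.Helper55.Sx (Sim)
open Pool.Agent.Helper55.Apex (nc)
open Pool.Agent.Helper55.ApexP (PN alP)
open Pool.Agent.Helper55.Fill (rr)
open Pool.Agent.Helper73.MEI.SideP (flP flP_meas flP_nonneg flP_zero flP_pair)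
open Helper75.MEI2 (mu vt)
open scoped RealInnerProductSpace

variable {a : Fin 4 → E3} {K : Set E3} {S : Fin 4 → ℝ} {σ : Measure (E3 × E3)}
  {c : Fin 4 → E3} {z : Fin 4 → Fin 4 → E3}

theorem viol_perm (v : Viol K a S) (τ : Equiv.Perm (Fin 4)) :
    Viol K (fun i => a (τ i)) (fun i => S (τ i)) where
  nn _ := v.nn _
  le _ x hx := v.le _ x hx
  att _ := v.att _

/-! ### numbers of the matrix -/

theorem NM_diag (k : Fin 3) : NM a z k k = 0 := by
  unfold NM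
  rw [if_pos rfl]

section
variable (h : CN K σ a c) (v : Viol K a S) (hz : CV a K z)
include h v hz

theorem r2_le_all : r2 (Y a z 0 1 2) (Y a z 0 1 3) ≤ S 0 ∧ r2 (Y a z 0 1 2) (Y a z 0 1 3) ≤ S 1 ∧
    r2 (Y a z 0 2 1) (Y a z 0 2 3) ≤ S 0 ∧ r2 (Y a z 0 2 1) (Y a z 0 2 3) ≤ S 2 ∧
    r2 (Y a z 0 3 1) (Y a z 0 3 2) ≤ S 0 ∧ r2 (Y a z 0 3 1) (Y a z 0 3 2) ≤ S 3 := by
  obtain ⟨n1, n2, n3⟩ := norm_z_eq hz (gram_of_dist h.ha)
  rw [← n1, ← n2, ← n3]
  exact ⟨norm_z_le hz h.ha v (by decide), norm_z_le' hz h.ha v (by decide),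
    norm_z_le hz h.ha v (by decide), norm_z_le' hz h.ha v (by decide),
    norm_z_le hz h.ha v (by decide), norm_z_le' hz h.ha v (by decide)⟩

theorem qM_ge (j : Fin 3) : 69 / 100 ≤ qM a z j := by
  obtain ⟨e0, e1, e2⟩ := qM_eq hz (gram_of_dist h.ha)
  obtain ⟨s1, _, s2, _, s3, _⟩ := r2_le_all h v hz
  have hS := v.le_ap h 0
  fin_cases j
  · show 69 / 100 ≤ qM a z 0
    rw [e0]
    exact qq_ge s1 hS
  · show 69 / 100 ≤ qM a z 1
    rw [e1]
    exact qq_ge s2 hS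
  · show 69 / 100 ≤ qM a z 2
    rw [e2]
    exact qq_ge s3 hS

theorem NM_nonneg (k j : Fin 3) : 0 ≤ NM a z k j := by
  have hq := qM_ge h v hz j
  unfold NM
  split_ifs
  · exact le_rfl
  · exact div_nonneg (le_max_left _ _) (by
      show 0 ≤ qM a z j
      linarith)

theorem RM_nonneg (j : Fin 3) : 0 ≤ RM a z j := by
  have hq := qM_ge h v hz j
  unfold RM
  exact div_nonneg (sq_nonneg _) (by linarith)

/-- column sums of the matrix of the leaks -/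
theorem nc_eq : nc (NM a z) 0 = lk (Y a z 0 1 2) (Y a z 0 1 3) + lk (Y a z 0 1 3) (Y a z 0 1 2) ∧
    nc (NM a z) 1 = lk (Y a z 0 2 1) (Y a z 0 2 3) + lk (Y a z 0 2 3) (Y a z 0 2 1) ∧
    nc (NM a z) 2 = lk (Y a z 0 3 1) (Y a z 0 3 2) + lk (Y a z 0 3 2) (Y a z 0 3 1) := by
  obtain ⟨n10, n20, n01, n21, n02, n12⟩ := NM_eq hz (gram_of_dist h.ha)
  unfold nc
  rw [NM_diag, NM_diag, NM_diag, n10, n20, n01, n21, n02, n12]
  exact ⟨by ring, by ring, by ring⟩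

omit h v hz in
/-- column sum against the length: `nu ≤ √2 r / q` -/
theorem lk_add_le {y y' r : ℝ} (hy : 0 ≤ y) (hy' : 0 ≤ y') (hr0 : 0 ≤ r) (hr : r2 y y' ≤ r ^ 2)
    (hq : 0 < qq y y') : lk y y' + lk y' y ≤ √2 * r / qq y y' := by
  have h1 := lk_add hy hy' hr0 hr
  unfold lk
  rw [qq_comm y' y, ← add_div]
  exact div_le_div_of_nonneg_right h1 hq.le

omit h v hz in
theorem lk_add_lt {y y' s : ℝ} (hy : 0 ≤ y) (hy' : 0 ≤ y') (hs : r2 y y' ≤ s)
    (hs1 : s ≤ 3 / 16) : lk y y' + lk y' y ≤ 9 / 10 := by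
  have hq := qq_ge hs hs1
  have h1 := lk_add_le (r := 0.4331) hy hy' (by norm_num) (by norm_num at hs hs1 ⊢; linarith)
    (by linarith)
  have h2 : √2 ≤ 1.4143 := by
    rw [show (1.4143 : ℝ) = √(1.4143 ^ 2) from (Real.sqrt_sq (by norm_num)).symm]
    exact Real.sqrt_le_sqrt (by norm_num)
  refine h1.trans ?_
  rw [div_le_iff₀ (by linarith)]
  nlinarith

theorem nc_le (m : Fin 3) : nc (NM a z) m ≤ 9 / 10 := by
  obtain ⟨e0, e1, e2⟩ := nc_eq h v hz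
  obtain ⟨s1, _, s2, _, s3, _⟩ := r2_le_all h v hz
  have hS := v.le_ap h 0
  have y := fun {i j k : Fin 4} (hij : i ≠ j) (hik : i ≠ k) => Y_nonneg hz h.hp hij hik
  fin_cases m
  · show nc (NM a z) 0 ≤ 9 / 10
    rw [e0]
    exact lk_add_lt (y (by decide) (by decide)) (y (by decide) (by decide)) s1 hS
  · show nc (NM a z) 1 ≤ 9 / 10
    rw [e1]
    exact lk_add_lt (y (by decide) (by decide)) (y (by decide) (by decide)) s2 hS
  · show nc (NM a z) 2 ≤ 9 / 10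
    rw [e2]
    exact lk_add_lt (y (by decide) (by decide)) (y (by decide) (by decide)) s3 hS

end

/-- **the face of the vertex `τ 0`, all loads inserted** -/
theorem face_inst [IsFiniteMeasure σ] (h : CN K σ a c) (v : Viol K a S) (hz : CV a K z)
    (τ : Equiv.Perm (Fin 4)) {A : ℝ} (hA : 7 / 2 ≤ A)
    {l : Fin 3 → Bool → Bool → E3 × E3 → ℝ} (hl : Lok a l)
    (hthird : ∀ p, MA σ a l τ p p = 0)
    {ρ : ℝ} (hMρ : ∀ p k, MA σ a l τ p k ≤ ρ)
    {x : E3} (hx : x ∈ K)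
    {N : Fin 3 → Fin 3 → ℝ} (hNd : N = NM (fun i => a (τ i)) (fun i j => z (τ i) (τ j)))
    {R : Fin 3 → ℝ} (hRd : R = RM (fun i => a (τ i)) (fun i j => z (τ i) (τ j)))
    {ζ ζp : Fin 3 → ℝ} (hζp : ∀ k, 0 < ζp k) (hζ : ∀ k, ζ k ≤ ζp k)
    (hb : ∀ k, b3 (fun i => a (τ i)) x k ≤ ζ k + LN N ζ k)
    {φ lam : ℝ} (hφ0 : 0 ≤ φ) (hφ1 : φ ≤ 1) (hl0 : 0 ≤ lam) (hl1 : lam ≤ 1)
    (hF : ∀ p, ρ ≤
      φ * ((A / 2 + 1 / 8) * Pool.Agent.Helper55.Mass.Id (flP (PN N) p)))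
    {H r : Fin 3 → ℝ}
    (hH : ∀ j, H j + (N 0 j * H 0 + N 1 j * H 1 + N 2 j * H 2) = R j)
    (hr : ∀ k, Pool.Agent.Helper55.Mass.Id (fun t => rr N (vv t) k) ≤ r k)
    {νn νa : Fin 3 → ℝ} {νz : ℝ} (hνn0 : ∀ j, 0 ≤ νn j)
    (hνn : ∀ j, 1 + nc N j - 1 / qM (fun i => a (τ i)) (fun i j => z (τ i) (τ j)) j ≤ νn j)
    (hνz : (∑ k, (ζ k + LN N ζ k)) - 1 +
      (pp (-ζ 0) * νn 0 + pp (-ζ 1) * νn 1 + pp (-ζ 2) * νn 2) ≤ νz)
    (hνa : ∀ p, (∑ k, (MA σ a l τ p k + LN N (MA σ a l τ p) k)) -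
      am σ a l (τ 0) (τ p.succ) ≤ νa p)
    {D W ω : ℝ × ℝ → ℝ} {C2 : ℝ}
    (hD : ∀ t ∈ Dl, vv t 0 * νn 0 + vv t 1 * νn 1 + vv t 2 * νn 2
      + lam * (1 - φ) * alP N ζp t * νz
      + ∑ p, flP (PN N) p t / ((A / 2 + 1 / 8) *
        Pool.Agent.Helper55.Mass.Id (flP (PN N) p)) * νa p ≤ D t)
    (hω : AEStronglyMeasurable ω (volume.restrict Dl)) (hωC : ∀ t ∈ Dl, |ω t| ≤ C2)
    {s : ℝ × ℝ → ℝ} (hs : ∀ t ∈ Dl, 0 ≤ s t)
    (own : ∀ p ∈ K, tx (fun i => a (τ i)) p ∈ Dl →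
      Qv a (τ 0) p ≤ s (tx (fun i => a (τ i)) p))
    (hW : ∀ t ∈ Dl, ∀ q ∈ K,
      Yt (fun i => a (τ i)) t q / √(Helper33.MEI.mt t) - ‖a (τ 0) - q‖ ^ 2 ≤ s t →
      ‖a (τ 0) - q‖ ^ 2 ≤ W t) (hW2 : ∀ t ∈ Dl, W t < 2)
    (hcost : ∀ t ∈ Dl, cost (A / 2 + 1 / 8)
      (Gd N (alS N ζp (flP (PN N)) (fun p => Pool.Agent.Helper55.Mass.Id (flP (PN N) p))
        (A / 2 + 1 / 8) φ lam)
        (zS ζ (MA σ a l τ)) (fun m => match m with
          | none => Qv a (τ 0) x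
          | some p => aE σ a l (τ 0) (τ p.succ)) R (fun k => S (τ k.succ)) t /
            √(Helper33.MEI.mt t))
      (1 - (1 - D t) / √(Helper33.MEI.mt t)) (W t) ≤ ω t) :
    LLs σ a l (τ 0)
      + (A / 2 + 1 / 8) * (B0 * (H 0 + H 1 + H 2)
        - (r 0 * max (S (τ 1) + H 0) 0 + r 1 * max (S (τ 2) + H 1) 0
          + r 2 * max (S (τ 3) + H 2) 0)
        + lam * (1 - φ) * Pool.Agent.Helper55.Mass.Id (alP N ζp) *
          (Qv a (τ 0) x - (ζ 0 * R 0 + ζ 1 * R 1 + ζ 2 * R 2)))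
      - 2 * ρ * (R 0 + R 1 + R 2)
      - (√2)⁻¹ * ∫ t in Dl, ω t * M3 t ≤ Wi a (τ 0) K σ A := by
  have h' := h.perm τ
  have v' := viol_perm v τ
  have hz' := hz.perm τ
  have hN : ∀ k m, 0 ≤ N k m := fun k m => by
    rw [hNd]
    exact NM_nonneg h' v' hz' k m
  have hR0 : ∀ j, 0 ≤ R j := fun j => by
    rw [hRd]
    exact RM_nonneg h' v' hz' j
  have hd : ∀ k, N k k = 0 := fun k => by
    rw [hNd]
    exact NM_diag k
  have hcol : ∀ m, nc N m ≤ 9 / 10 := fun m => by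
    rw [hNd]
    exact nc_le h' v' hz' m
  have hc : (9 / 10 : ℝ) < 1 := by norm_num
  have hgr := gram_of_dist h'.ha
  have hF0 : ∀ p, 0 < Pool.Agent.Helper55.Mass.Id (flP (PN N) p) := fun p => by
    have h1 := Pool.Agent.Helper73.MEI.SideP.flN_mass hN hd hc hcol p
    have h2 := Pool.Agent.Helper55.ApexP.PN_det_pos hN hd hc hcol
    have h3 := Pool.Agent.Helper73.MEI.SideP.mbN_ge hN p
    refine lt_of_lt_of_le ?_ h1
    have h4 : 0 < Pool.Agent.Helper73.MEI.SideP.mbN N p := by linarith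
    positivity
  have key := face_share (f := flP (PN N)) (ρ := ρ) (M := MA σ a l τ)
    (R := R) (S := fun k => S (τ k.succ)) (μ := fun j => 1 / qM (fun i => a (τ i))
      (fun i j => z (τ i) (τ j)) j) (H := H) (r := r)
    (E := fun p => aE σ a l (τ 0) (τ p.succ)) (sm := fun p => am σ a l (τ 0) (τ p.succ))
    (s0 := Qv a (τ 0) x) (ζ := ζ) (ζp := ζp) (νn := νn) (νa := νa) (νz := νz)
    (D := D) (W := W) (ω := ω) (s := s)
    h.pm h.ha h.hp h.hull (fun i q hq => h.ap hq i) τ hA hN hd hc hcol hζp hζ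
    (fun p => flP_meas p) (fun p t => flP_nonneg p t)
    (fun p t ht => flP_zero (by push Not at ht; exact ht) p)
    (fun t ht k => by
      obtain ⟨p0, p1, p2⟩ := flP_pair (P := PN N) ht
      fin_cases k
      · simp only [Fin.zero_eta]
        linarith
      · simp only [Fin.mk_one]
        linarith
      · simp only [Fin.reduceFinMk]
        linarith)
    hφ0 hφ1 hl0 hl1 hF0 hF (fun p k => MA_nonneg τ p k) hthird hMρ hH hr
    (fun q hq j => by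
      rw [hRd, hNd]
      exact Pt_load hz' h' v' hq j)
    (fun q hq => apex_load hgr (h.hd x hx q hq) (h'.hp q hq) hb)
    (fun q hq p => arc_load h.ha hl h.cpt h.pm.mem h.hp h.hd τ hq p)
    (fun q hq => ⟨v.le _ q hq, v.le _ q hq, v.le _ q hq⟩)
    hνn0 hνn hνz hνa hD hω hωC hs own hW hW2 hcost
  have hL := LLs_perm (σ := σ) (a := a) (l := l) τ
  have hMR : ∀ p, MA σ a l τ p 0 * R 0 + MA σ a l τ p 1 * R 1 + MA σ a l τ p 2 * R 2 ≤
      ρ * (R 0 + R 1 + R 2) - ρ * R p := by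
    intro p
    have m0 := mul_le_mul_of_nonneg_right (hMρ p 0) (hR0 0)
    have m1 := mul_le_mul_of_nonneg_right (hMρ p 1) (hR0 1)
    have m2 := mul_le_mul_of_nonneg_right (hMρ p 2) (hR0 2)
    have ht := hthird p
    fin_cases p
    · simp only [Fin.zero_eta] at *
      rw [ht]
      linarith
    · simp only [Fin.mk_one] at *
      rw [ht]
      linarith
    · simp only [Fin.reduceFinMk] at *
      rw [ht]
      linarith
  have g0 := hMR 0
  have g1 := hMR 1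
  have g2 := hMR 2
  have e1 : τ (Fin.succ 0) = τ 1 := rfl
  have e2 : τ (Fin.succ 1) = τ 2 := rfl
  have e3 : τ (Fin.succ 2) = τ 3 := rfl
  beta_reduce at key
  rw [e1, e2, e3] at key
  rw [hL]
  linarith only [key, g0, g1, g2]

end Pool.Agent.Helper31.SR
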