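import Pool.Agent.Helper31.SR.MilH
import Pool.Agent.Helper82.M2.Win

/-!
# Project MEI (M2): the statement of the hand-in from a window theorem

`full_of_win`; `full_6121`, `full_612`, `full_61193` from the tables.
-/

set_option autoImplicit false

namespace Pool.Agent.Helper31.SR.FinA

open Set Metric Finset MeasureTheory Filter Helper80.CW Helper82.CW Helper14.CW Helper93.MEI
open Helper82.M2 Pool.Agent.Helper31.SR.MilG Pool.Agent.Helper31.SR.MilH
open scoped RealInnerProductSpace Topology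

/-- **the statement of the hand-in from a window theorem** -/
theorem full_of_win {R : ℝ} (hW : Win R) {K : Set E3} (hK : IsCompact K) (hc : Convex ℝ K)
    (hw : Width1 K) :
    (((∃ x, K ⊆ closedBall x 0.6042) ∨ ¬ ∃ x, K ⊆ closedBall x R) →
      ENNReal.ofReal Helper96.MEI.VMe ≤ volume K ∧
      (volume K = ENNReal.ofReal Helper96.MEI.VMe ↔
        ∃ a : Fin 4 → E3, (∀ i j, i ≠ j → dist (a i) (a j) = 1) ∧
        ∃ c : Fin 3 → Bool, K = Helper96.MEI.MB a c)) ∧
    (volume K ≤ ENNReal.ofReal Helper96.MEI.VMe →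
      (∀ x : E3, ¬ K ⊆ closedBall x 0.6042) ∧
      ∃ p : Fin 4 → E3, (∀ i, p i ∈ K) ∧
        (∑ i, ∑ j, (if i < j then 1 - dist (p i) (p j) ^ 2 else 0) ≤ 0.1729) ∧
        ∀ i j, i ≠ j → 0.9094 < dist (p i) (p j)) := by
  refine ⟨fun h => ?_, near6042 hK hc hw⟩
  rcases h with ⟨x, hx⟩ | h
  · obtain ⟨h1, h2⟩ := concl_far2 hK hc hw hx
    exact ⟨h1.le, h2⟩
  · exact hW K hK hc hw h

/-- the conclusion at once from table J and table 1 -/
theorem full_6121 (hI : WL) (ha : WR 0.00608 0.036 0.002 0.006 0.1755) {K : Set E3}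
    (hK : IsCompact K) (hc : Convex ℝ K) (hw : Width1 K)
    (h : (∃ x, K ⊆ closedBall x 0.6042) ∨ ¬ ∃ x, K ⊆ closedBall x 0.6121) :
    ENNReal.ofReal Helper96.MEI.VMe ≤ volume K ∧
      (volume K = ENNReal.ofReal Helper96.MEI.VMe ↔
        ∃ a : Fin 4 → E3, (∀ i j, i ≠ j → dist (a i) (a j) = 1) ∧
        ∃ c : Fin 3 → Bool, K = Helper96.MEI.MB a c) :=
  (full_of_win (winF_6121 hI ha) hK hc hw).1 h

/-- the conclusion at once from table J and tables 1, 2 -/
theorem full_612 (hI : WL) (ha : WR 0.00833 0.036 0.002 0.006 0.1755)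
    (hb : WR 0.00833 0.0366 0.006 0.0082 0.2089) {K : Set E3}
    (hK : IsCompact K) (hc : Convex ℝ K) (hw : Width1 K)
    (h : (∃ x, K ⊆ closedBall x 0.6042) ∨ ¬ ∃ x, K ⊆ closedBall x 0.612) :
    ENNReal.ofReal Helper96.MEI.VMe ≤ volume K ∧
      (volume K = ENNReal.ofReal Helper96.MEI.VMe ↔
        ∃ a : Fin 4 → E3, (∀ i j, i ≠ j → dist (a i) (a j) = 1) ∧
        ∃ c : Fin 3 → Bool, K = Helper96.MEI.MB a c) :=
  (full_of_win (winF_612 hI ha hb) hK hc hw).1 h

end Pool.Agent.Helper31.SR.FinA
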