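import Pool.Agent.Helper31.SR.FinA

/-!
# Project MEI: the whole theorem from the far range, the top range and the near range

`eqM_of_lt`; `concl_of_top`: bodies in a ball of radius `0.6042` (far, complete), bodies in a ball
of radius `R1` (top), bodies in no ball of radius `R1` (near, `Win R1`).
-/

set_option autoImplicit false

namespace Pool.Agent.Helper31.SR.FinT

open Set Metric Finset MeasureTheory Filter Helper80.CW Helper82.CW Helper14.CW Helper93.MEI
open Helper82.M2 Pool.Agent.Helper31.SR.MilG Pool.Agent.Helper31.SR.EndA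
open scoped RealInnerProductSpace Topology

/-- a larger volume gives the conclusion -/
theorem eqM_of_lt {K : Set E3} (hK : IsCompact K) (hc : Convex ℝ K) (hw : Width1 K)
    (h2 : ENNReal.ofReal Helper96.MEI.VMe < volume K) : EqM K := by
  refine ⟨h2.le, fun h => absurd h h2.ne', ?_⟩
  rintro ⟨a, ha, c, hac⟩
  have h5 : ∀ i, a i ∈ K := fun i => by
    rw [hac]; exact Helper96.MEI.mem_MB ha c i
  exact (Helper96.MEI.class_T_iff hK hc hw h5 ha).2.2 ⟨c, hac⟩

/-- bodies whose circumradius lies in `(R0, R1]` have larger volume -/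
def Top (R0 R1 : ℝ) : Prop := ∀ K : Set E3, IsCompact K → Convex ℝ K → Width1 K →
  (¬ ∃ x, K ⊆ closedBall x R0) → (∃ x, K ⊆ closedBall x R1) →
  ENNReal.ofReal Helper96.MEI.VMe < volume K

theorem Top.trans {R0 R1 R2 : ℝ} (h : Top R0 R1) (h' : Top R1 R2) : Top R0 R2 := by
  intro K hK hc hw h0 h2
  by_cases h1 : ∃ x, K ⊆ closedBall x R1
  · exact h K hK hc hw h0 h1
  · exact h' K hK hc hw h1 h2

/-- the near range grows by a top range -/
theorem Win.top {R1 R2 : ℝ} (hW : Win R2) (h : Top R1 R2) : Win R1 := by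
  intro K hK hc hw h1
  by_cases h2 : ∃ x, K ⊆ closedBall x R2
  · exact eqM_of_lt hK hc hw (h K hK hc hw h1 h2)
  · exact hW K hK hc hw h2

/-- **the whole theorem** -/
theorem concl_of_top {R1 : ℝ} (hT : Top 0.6042 R1) (hW : Win R1) : Helper96.MEI.Concl := by
  intro K hK hc hw
  by_cases h : ∃ x, K ⊆ closedBall x 0.6042
  · obtain ⟨x, hx⟩ := h
    obtain ⟨h1, h2⟩ := concl_far2 hK hc hw hx
    exact ⟨h1.le, h2⟩
  · exact Win.top hW hT K hK hc hw h

end Pool.Agent.Helper31.SR.FinT
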