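import Pool.Agent.Helper52.MEI.Contact
import Pool.Agent.Helper52.MEI.LoadW
import Pool.Agent.Helper82.M2.NearR

/-!
# Inputs of the face certificates from the core data

For the contact vector `z` of the pair `i, j` and the two free coordinates
`y = ⟪z, a i - a k⟫`, `y' = ⟪z, a i - a l⟫`: all numbers of the node `a j - z` of the face opposite
to `a i`; the numbers of the point where the violation is attained.
-/

set_option autoImplicit false

namespace Pool.Agent.Helper31.SR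

open Set Metric MeasureTheory Helper80.CW Helper82.CW Helper14.CW Helper93.MEI Helper82.M2
open Pool.Agent.Helper52.MEI Pool.Agent.Helper73.MEI
open scoped RealInnerProductSpace

/-! ### numbers of a contact vector -/

/-- squared length of the contact vector -/
noncomputable def r2 (y y' : ℝ) : ℝ := 3 / 2 * (y ^ 2 + y' ^ 2) - y * y'

/-- own coordinate of the contact node -/
noncomputable def qq (y y' : ℝ) : ℝ := 1 - (y + y') / 2

/-- normalised leak of the contact node on the coordinate of `y` -/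
noncomputable def lk (y y' : ℝ) : ℝ := max 0 ((3 * y - y') / 2) / qq y y'

theorem r2_comm (y y' : ℝ) : r2 y y' = r2 y' y := by unfold r2; ring

theorem qq_comm (y y' : ℝ) : qq y y' = qq y' y := by unfold qq; ring

theorem r2_ge (y y' : ℝ) : (y + y') ^ 2 / 2 ≤ r2 y y' := by
  unfold r2
  nlinarith [sq_nonneg (y - y')]

theorem r2_nonneg (y y' : ℝ) : 0 ≤ r2 y y' := le_trans (by positivity) (r2_ge y y')

/-- `y + y' ≤ √2 r` -/
theorem add_le {y y' r : ℝ} (hr0 : 0 ≤ r) (hr : r2 y y' ≤ r ^ 2) : y + y' ≤ √2 * r := by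
  have h1 := r2_ge y y'
  have h2 : (y + y') ^ 2 ≤ (√2 * r) ^ 2 := by
    rw [mul_pow, Real.sq_sqrt (by norm_num)]
    linarith
  exact (abs_le_of_sq_le_sq' h2 (by positivity)).2

theorem qq_ge {y y' s : ℝ} (hs : r2 y y' ≤ s) (hs1 : s ≤ 3 / 16) : 69 / 100 ≤ qq y y' := by
  have h1 := r2_ge y y'
  unfold qq
  nlinarith [sq_nonneg (y + y' - 0.6)]

theorem qq_pos {y y' s : ℝ} (hs : r2 y y' ≤ s) (hs1 : s ≤ 3 / 16) : 0 < qq y y' := by
  have := qq_ge hs hs1
  linarith

theorem lk_nonneg {y y' : ℝ} (hq : 0 < qq y y') : 0 ≤ lk y y' :=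
  div_nonneg (le_max_left _ _) hq.le

/-- the sum of the squares of the two leaks -/
theorem lk_sq_add {y y' : ℝ} (hy : 0 ≤ y) (hy' : 0 ≤ y') :
    (max 0 ((3 * y - y') / 2)) ^ 2 + (max 0 ((3 * y' - y) / 2)) ^ 2 ≤ 3 / 2 * r2 y y' := by
  unfold r2
  rcases le_total 0 ((3 * y - y') / 2) with h1 | h1 <;>
  rcases le_total 0 ((3 * y' - y) / 2) with h2 | h2
  · rw [max_eq_right h1, max_eq_right h2]
    nlinarith [mul_nonneg h1 h2]
  · rw [max_eq_right h1, max_eq_left h2]
    nlinarith [sq_nonneg y']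
  · rw [max_eq_left h1, max_eq_right h2]
    nlinarith [sq_nonneg y]
  · rw [max_eq_left h1, max_eq_left h2]
    have := mul_nonneg hy hy'
    nlinarith [sq_nonneg (y - y')]

/-- the sum of the two leaks -/
theorem lk_add {y y' r : ℝ} (hy : 0 ≤ y) (hy' : 0 ≤ y') (hr0 : 0 ≤ r) (hr : r2 y y' ≤ r ^ 2) :
    max 0 ((3 * y - y') / 2) + max 0 ((3 * y' - y) / 2) ≤ √2 * r := by
  have h0 := add_le hr0 hr
  have h15 : ∀ u v : ℝ, 0 ≤ u → 0 ≤ v → r2 u v ≤ r ^ 2 → (3 * u - v) / 2 ≤ √2 * r := by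
    intro u v hu hv h
    have h2 : ((3 * u - v) / 2) ^ 2 ≤ (√2 * r) ^ 2 := by
      rw [mul_pow, Real.sq_sqrt (by norm_num)]
      unfold r2 at h
      nlinarith [sq_nonneg v, sq_nonneg u, sq_nonneg (3 * u - v)]
    exact (abs_le_of_sq_le_sq' h2 (by positivity)).2
  rcases le_total 0 ((3 * y - y') / 2) with h1 | h1 <;>
  rcases le_total 0 ((3 * y' - y) / 2) with h2 | h2
  · rw [max_eq_right h1, max_eq_right h2]
    linarith
  · rw [max_eq_right h1, max_eq_left h2, add_zero]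
    exact h15 y y' hy hy' hr
  · rw [max_eq_left h1, max_eq_right h2, zero_add]
    exact h15 y' y hy' hy (by rw [r2_comm]; exact hr)
  · rw [max_eq_left h1, max_eq_left h2, add_zero]
    positivity

/-- one leak -/
theorem lk_one {y y' r : ℝ} (hr0 : 0 ≤ r) (hr : r2 y y' ≤ r ^ 2) :
    max 0 ((3 * y - y') / 2) ≤ √(3 / 2) * r := by
  refine max_le (by positivity) ?_
  have h2 : ((3 * y - y') / 2) ^ 2 ≤ (√(3 / 2) * r) ^ 2 := by
    rw [mul_pow, Real.sq_sqrt (by norm_num)]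
    unfold r2 at hr
    nlinarith [sq_nonneg y']
  exact (abs_le_of_sq_le_sq' h2 (by positivity)).2

/-- the leaks are bounded by the square of the sum: `r² ≥ (leaks)² / 2` -/
theorem leak_sum_sq {y y' : ℝ} (hy : 0 ≤ y) (hy' : 0 ≤ y') :
    (max 0 ((3 * y - y') / 2) + max 0 ((3 * y' - y) / 2)) ^ 2 / 2 ≤ r2 y y' := by
  have h := lk_add hy hy' (Real.sqrt_nonneg (r2 y y')) (by
    rw [Real.sq_sqrt (r2_nonneg y y')])
  have h0 : 0 ≤ max 0 ((3 * y - y') / 2) + max 0 ((3 * y' - y) / 2) :=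
    add_nonneg (le_max_left _ _) (le_max_left _ _)
  have h1 := pow_le_pow_left₀ h0 h 2
  rw [mul_pow, Real.sq_sqrt (by norm_num), Real.sq_sqrt (r2_nonneg y y')] at h1
  linarith

/-! ### the contact nodes of a body -/

variable {a : Fin 4 → E3} {K : Set E3} {S : Fin 4 → ℝ} {σ : Measure (E3 × E3)}
  {c : Fin 4 → E3}

/-- free coordinate of the contact vector -/
noncomputable def Y (a : Fin 4 → E3) (z : Fin 4 → Fin 4 → E3) (i j k : Fin 4) : ℝ :=
  ⟪z i j, a i - a k⟫

/-- all contact vectors -/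
structure CV (a : Fin 4 → E3) (K : Set E3) (z : Fin 4 → Fin 4 → E3) : Prop where
  sym : ∀ i j, z i j = z j i
  ct : ∀ i j, i ≠ j → Ct a K i j (z i j)

theorem cv_exists (h : CN K σ a c) : ∃ z, CV a K z := by
  obtain ⟨z, h1, h2⟩ := contacts h.cpt h.w1 h.ha h.near.sup
  exact ⟨z, h1, h2⟩

section
variable {z : Fin 4 → Fin 4 → E3} (hz : CV a K z)
include hz

theorem CV.perm (τ : Equiv.Perm (Fin 4)) :
    CV (fun i => a (τ i)) K (fun i j => z (τ i) (τ j)) where
  sym i j := hz.sym _ _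
  ct i j hij := by
    have h := hz.ct (τ i) (τ j) fun h => hij (τ.injective h)
    exact ⟨h.perp, h.mem1, h.mem2⟩

theorem Y_sym {i j k : Fin 4} (hij : i ≠ j) : Y a z i j k = Y a z j i k := by
  have h := (hz.ct i j hij).perp
  unfold Y
  rw [hz.sym j i]
  have e : a i - a k = (a i - a j) + (a j - a k) := by abel
  rw [e, inner_add_right, h, zero_add]

theorem Y_nonneg (hp : ∀ x ∈ K, Pl a x) {i j k : Fin 4} (hij : i ≠ j) (hik : i ≠ k) :
    0 ≤ Y a z i j k := (hz.ct i j hij).y_nonneg hp hik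

theorem norm_z (g : Gram4 (al a)) {i j k l : Fin 4} (hij : i ≠ j) (hik : i ≠ k)
    (hil : i ≠ l) (hjk : j ≠ k) (hjl : j ≠ l) (hkl : k ≠ l) :
    ‖z i j‖ ^ 2 = r2 (Y a z i j k) (Y a z i j l) :=
  (hz.ct i j hij).norm_sq g hij hik hil hjk hjl hkl

theorem norm_z_le (ha : ∀ i j, i ≠ j → dist (a i) (a j) = 1) (v : Viol K a S) {i j : Fin 4}
    (hij : i ≠ j) : ‖z i j‖ ^ 2 ≤ S i := by
  rw [← (hz.ct i j hij).Qv_eq (ha i j hij)]
  exact v.le i _ (hz.ct i j hij).mem2

theorem norm_z_le' (ha : ∀ i j, i ≠ j → dist (a i) (a j) = 1) (v : Viol K a S) {i j : Fin 4}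
    (hij : i ≠ j) : ‖z i j‖ ^ 2 ≤ S j := by
  rw [hz.sym i j]
  exact norm_z_le hz ha v hij.symm

end

/-! ### the face of the vertex `0` -/

/-- the three contact nodes of the face of the vertex `0` -/
noncomputable def Pt (a : Fin 4 → E3) (z : Fin 4 → Fin 4 → E3) (j : Fin 3) : E3 :=
  a j.succ - z 0 j.succ

/-- the matrix of the leaks of the face of the vertex `0` -/
noncomputable def NM (a : Fin 4 → E3) (z : Fin 4 → Fin 4 → E3) (k j : Fin 3) : ℝ :=
  if k = j then 0 else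
    max 0 (bar a k.succ (Pt a z j)) / bar a j.succ (Pt a z j)

/-- own coordinate of the node `j` -/
noncomputable def qM (a : Fin 4 → E3) (z : Fin 4 → Fin 4 → E3) (j : Fin 3) : ℝ :=
  bar a j.succ (Pt a z j)

/-- normalised value of the node `j` -/
noncomputable def RM (a : Fin 4 → E3) (z : Fin 4 → Fin 4 → E3) (j : Fin 3) : ℝ :=
  ‖z 0 j.succ‖ ^ 2 / qM a z j

section
variable {z : Fin 4 → Fin 4 → E3} (hz : CV a K z)
include hz

theorem qM_eq (g : Gram4 (al a)) :
    qM a z 0 = qq (Y a z 0 1 2) (Y a z 0 1 3) ∧ qM a z 1 = qq (Y a z 0 2 1) (Y a z 0 2 3) ∧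
      qM a z 2 = qq (Y a z 0 3 1) (Y a z 0 3 2) := by
  have h1 := (hz.ct 0 1 (by decide)).bars g (k := 2) (l := 3) (by decide) (by decide) (by decide)
    (by decide) (by decide) (by decide)
  have h2 := (hz.ct 0 2 (by decide)).bars g (k := 1) (l := 3) (by decide) (by decide) (by decide)
    (by decide) (by decide) (by decide)
  have h3 := (hz.ct 0 3 (by decide)).bars g (k := 1) (l := 2) (by decide) (by decide) (by decide)
    (by decide) (by decide) (by decide)
  exact ⟨h1.2.1, h2.2.1, h3.2.1⟩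

theorem NM_eq (g : Gram4 (al a)) :
    NM a z 1 0 = lk (Y a z 0 1 2) (Y a z 0 1 3) ∧ NM a z 2 0 = lk (Y a z 0 1 3) (Y a z 0 1 2) ∧
    NM a z 0 1 = lk (Y a z 0 2 1) (Y a z 0 2 3) ∧ NM a z 2 1 = lk (Y a z 0 2 3) (Y a z 0 2 1) ∧
    NM a z 0 2 = lk (Y a z 0 3 1) (Y a z 0 3 2) ∧ NM a z 1 2 = lk (Y a z 0 3 2) (Y a z 0 3 1) := by
  have h1 := (hz.ct 0 1 (by decide)).bars g (k := 2) (l := 3) (by decide) (by decide) (by decide)
    (by decide) (by decide) (by decide)
  have h2 := (hz.ct 0 2 (by decide)).bars g (k := 1) (l := 3) (by decide) (by decide) (by decide)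
    (by decide) (by decide) (by decide)
  have h3 := (hz.ct 0 3 (by decide)).bars g (k := 1) (l := 2) (by decide) (by decide) (by decide)
    (by decide) (by decide) (by decide)
  have b12 : bar a 2 (Pt a z 0) = (3 * Y a z 0 1 2 - Y a z 0 1 3) / 2 := h1.2.2.1
  have b13 : bar a 3 (Pt a z 0) = (3 * Y a z 0 1 3 - Y a z 0 1 2) / 2 := h1.2.2.2
  have b11 : bar a 1 (Pt a z 0) = qq (Y a z 0 1 2) (Y a z 0 1 3) := h1.2.1
  have b21 : bar a 1 (Pt a z 1) = (3 * Y a z 0 2 1 - Y a z 0 2 3) / 2 := h2.2.2.1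
  have b23 : bar a 3 (Pt a z 1) = (3 * Y a z 0 2 3 - Y a z 0 2 1) / 2 := h2.2.2.2
  have b22 : bar a 2 (Pt a z 1) = qq (Y a z 0 2 1) (Y a z 0 2 3) := h2.2.1
  have b31 : bar a 1 (Pt a z 2) = (3 * Y a z 0 3 1 - Y a z 0 3 2) / 2 := h3.2.2.1
  have b32 : bar a 2 (Pt a z 2) = (3 * Y a z 0 3 2 - Y a z 0 3 1) / 2 := h3.2.2.2
  have b33 : bar a 3 (Pt a z 2) = qq (Y a z 0 3 1) (Y a z 0 3 2) := h3.2.1
  have e0 : ((0 : Fin 3).succ : Fin 4) = 1 := rfl
  have e1 : ((1 : Fin 3).succ : Fin 4) = 2 := rfl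
  have e2 : ((2 : Fin 3).succ : Fin 4) = 3 := rfl
  unfold NM lk
  rw [if_neg (by decide), if_neg (by decide), if_neg (by decide), if_neg (by decide),
    if_neg (by decide), if_neg (by decide), e0, e1, e2, b12, b13, b11, b21, b23, b22, b31, b32,
    b33, qq_comm (Y a z 0 1 3), qq_comm (Y a z 0 2 3), qq_comm (Y a z 0 3 2)]
  exact ⟨rfl, rfl, rfl, rfl, rfl, rfl⟩

theorem norm_z_eq (g : Gram4 (al a)) :
    ‖z 0 1‖ ^ 2 = r2 (Y a z 0 1 2) (Y a z 0 1 3) ∧ ‖z 0 2‖ ^ 2 = r2 (Y a z 0 2 1) (Y a z 0 2 3) ∧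
      ‖z 0 3‖ ^ 2 = r2 (Y a z 0 3 1) (Y a z 0 3 2) :=
  ⟨norm_z hz g (by decide) (by decide) (by decide) (by decide) (by decide) (by decide),
    norm_z hz g (by decide) (by decide) (by decide) (by decide) (by decide) (by decide),
    norm_z hz g (by decide) (by decide) (by decide) (by decide) (by decide) (by decide)⟩

/-- **the normalised load of a contact node** -/
theorem Pt_load (h : CN K σ a c) (v : Viol K a S) {q : E3} (hq : q ∈ K) (j : Fin 3) :
    Load a q (RM a z j) (1 / qM a z j) (fun k => (if k = j then 1 else 0) + NM a z k j) := by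
  have hj : (0 : Fin 4) ≠ j.succ := (Fin.succ_ne_zero j).symm
  have hPK : Pt a z j ∈ K := (hz.ct 0 j.succ hj).mem2
  have g := gram_of_dist h.ha
  have hpos : 0 < qM a z j := by
    obtain ⟨e0, e1, e2⟩ := qM_eq hz g
    obtain ⟨n1, n2, n3⟩ := norm_z_eq hz g
    have s1 := norm_z_le hz h.ha v (i := 0) (j := 1) (by decide)
    have s2 := norm_z_le hz h.ha v (i := 0) (j := 2) (by decide)
    have s3 := norm_z_le hz h.ha v (i := 0) (j := 3) (by decide)
    have hS := v.le_ap h 0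
    fin_cases j
    · show 0 < qM a z 0
      rw [e0]
      exact qq_pos (n1 ▸ s1) hS
    · show 0 < qM a z 1
      rw [e1]
      exact qq_pos (n2 ▸ s2) hS
    · show 0 < qM a z 2
      rw [e2]
      exact qq_pos (n3 ▸ s3) hS
  have h1 := Load.pt g (h.hd _ hPK q hq) (h.hp q hq)
    (M := fun k => if k = j then qM a z j else max 0 (bar a k.succ (Pt a z j))) (by
      intro k
      have e : b3 a (Pt a z j) k = bar a k.succ (Pt a z j) := by
        fin_cases k <;> rfl
      rw [e]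
      split_ifs with hk
      · rw [hk]
        exact le_rfl
      · exact le_max_right _ _)
  have h2 := Load.smul (c := 1 / qM a z j) (by positivity) h1
  have h3 : Qv a 0 (Pt a z j) = ‖z 0 j.succ‖ ^ 2 := (hz.ct 0 j.succ hj).Qv_eq (h.ha 0 _ hj)
  rw [h3] at h2
  have e1 : 1 / qM a z j * ‖z 0 j.succ‖ ^ 2 = RM a z j := by
    unfold RM
    ring
  have e2 : (fun k => 1 / qM a z j * (if k = j then qM a z j else
      max 0 (bar a k.succ (Pt a z j)))) = fun k => (if k = j then 1 else 0) + NM a z k j := by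
    funext k
    unfold NM
    split_ifs with hk
    · rw [add_zero]
      field_simp
    · unfold qM
      ring
  rw [e1, e2, mul_one] at h2
  exact h2

end

end Pool.Agent.Helper31.SR
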