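import Pool.Agent.Helper78.MEI.End6

/-!
# Project MEI (M2): the violations may be taken in decreasing order
-/

set_option autoImplicit false

namespace Pool.Agent.Helper31.SR.Sort

open Set Metric MeasureTheory Helper80.CW Helper82.CW Helper14.CW Helper93.MEI Helper82.M2
open Helper14.MEI2 Pool.Agent.Helper73.MEI Helper41.MEI
open Helper78.MEI
open Helper13.PLM (StX stX)
open scoped RealInnerProductSpace

/-- decreasing order -/
def Dec (S : Fin 4 → ℝ) : Prop := S 1 ≤ S 0 ∧ S 2 ≤ S 1 ∧ S 3 ≤ S 2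

theorem exists_sort (S : Fin 4 → ℝ) : ∃ π : Equiv.Perm (Fin 4), Dec fun i => S (π i) := by
  have h := Tuple.monotone_sort (fun i => -S i)
  refine ⟨Tuple.sort (fun i => -S i), ?_, ?_, ?_⟩
  · have := h (show (0 : Fin 4) ≤ 1 by decide)
    simp only [Function.comp] at this
    linarith
  · have := h (show (1 : Fin 4) ≤ 2 by decide)
    simp only [Function.comp] at this
    linarith
  · have := h (show (2 : Fin 4) ≤ 3 by decide)
    simp only [Function.comp] at this
    linarith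

theorem epsLe_perm {c : Fin 4 → E3} {X : ℝ} (h : EpsLe c X) (π : Equiv.Perm (Fin 4)) :
    EpsLe (fun i => c (π i)) X := by
  unfold EpsLe at h ⊢
  refine le_trans (le_of_eq ?_) h
  rw [← Equiv.sum_comp π (fun i => ∑ j, (if i = j then 0 else 1 - ‖c i - c j‖ ^ 2))]
  refine Finset.sum_congr rfl fun i _ => ?_
  rw [← Equiv.sum_comp π (fun j => (if π i = j then 0 else 1 - ‖c (π i) - c j‖ ^ 2))]
  refine Finset.sum_congr rfl fun j _ => ?_
  by_cases hij : i = j
  · rw [if_pos hij, if_pos (by rw [hij])]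
  · rw [if_neg hij, if_neg fun h => hij (π.injective h)]

theorem viol_perm' {K : Set E3} {a : Fin 4 → E3} {S : Fin 4 → ℝ} (v : Viol K a S)
    (π : Equiv.Perm (Fin 4)) : Viol K (fun i => a (π i)) (fun i => S (π i)) where
  nn _ := v.nn _
  le _ := v.le _
  att _ := v.att _

/-- **sorted states are enough** -/
theorem CoreP.sort {P : (Fin 4 → ℝ) → Prop} {X κ : ℝ}
    (hP : ∀ (S : Fin 4 → ℝ) (π : Equiv.Perm (Fin 4)), P S → P fun i => S (π i))
    (h : CoreP (fun S => P S ∧ Dec S) X κ) : CoreP P X κ := by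
  intro K σ hσ a c hC hE S hV hS i
  obtain ⟨π, hπ⟩ := exists_sort S
  have h1 := h K σ hσ _ _ (hC.perm π) (epsLe_perm hE π) _ (viol_perm' hV π) ⟨hP S π hS, hπ⟩
    (π.symm i)
  simpa using h1

/-- the sum and the states that occur are symmetric -/
theorem stX_perm {X : ℝ} {S : Fin 4 → ℝ} (h : StX X S) (π : Equiv.Perm (Fin 4)) :
    StX X fun i => S (π i) := by
  have e : ∑ i, S (π i) = ∑ i, S i := Equiv.sum_comp π S
  exact ⟨fun i => h.nn _, fun i => h.lt _, by rw [e]; exact h.sum, fun h1 => by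
    rw [e] at h1 ⊢
    exact h.sum' h1, fun i k hik => h.two _ _ fun h2 => hik (π.injective h2)⟩

/-- **the states between two sums**, sorted -/
theorem coreP_sorted {X κ T0 T1 : ℝ}
    (h : CoreP (fun S => (StX X S ∧ T0 ≤ ∑ i, S i ∧ ∑ i, S i ≤ T1) ∧ Dec S) X κ) :
    CoreP (fun S => StX X S ∧ T0 ≤ ∑ i, S i ∧ ∑ i, S i ≤ T1) X κ := by
  refine CoreP.sort (fun S π hS => ?_) h
  have e : ∑ i, S (π i) = ∑ i, S i := Equiv.sum_comp π S
  exact ⟨stX_perm hS.1 π, by rw [e]; exact hS.2.1, by rw [e]; exact hS.2.2⟩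

end Pool.Agent.Helper31.SR.Sort
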