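import Pool.Agent.Helper78.MEI.TC5
import Pool.Agent.Helper47.MEI.Vtx
import Pool.Agent.Helper31.SR.Sort

/-!
# Project MEI (M2), track B: the core statement from values at the vertices of the states

`coreP_V`: the faces are bounded from below by a convex combination of numbers at the eight
vertices (sorted states, `Xl ≤ Σ S ≤ X`) minus prices of the couplings `κ`; the prices of a pair
of opposite edges are a bilinear form in the couplings.
-/

set_option autoImplicit false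

namespace Pool.Agent.Helper31.SR.IntB

open Set Metric MeasureTheory Filter Topology Helper93.MEI Helper80.CW Helper14.CW
open Helper14.MEI2 Pool.Agent.Helper73.MEI Helper82.M2 Helper82.CW Helper41.MEI
open Pool.Agent.Helper31.SR Helper37.MEI
open Helper33.MEI (Wi)
open Helper78.MEI
open Helper13.PLM (StX stX)
open Helper47.MEI.Vtx (Vx)
open Pool.Agent.Helper31.SR.Sort (Dec coreP_sorted)
open scoped RealInnerProductSpace

/-- what the sum of the faces must give at a state -/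
noncomputable def need (κ ε : ℝ) (S : Fin 4 → ℝ) : ℝ :=
  1.85e-4 + ε + ∑ i, (0.0039 * S i + 0.501 * S i ^ 3) + 4.08 * κ * ∑ i, S i

/-- the eight weights of a sorted state -/
structure Dcp (S : Fin 4 → ℝ) (Xl Xu : ℝ) (lam : Fin 2 → Fin 4 → ℝ) : Prop where
  nn : ∀ e n, 0 ≤ lam e n
  one : ∑ e, ∑ n, lam e n = 1
  eq : ∀ i, S i = ∑ e, ∑ n, lam e n * Vx Xl Xu e n i
  mul : ∀ a b, a ≠ b → S a * S b ≤
    ∑ e, ∑ n, lam e n * (Vx Xl Xu e n a * Vx Xl Xu e n b) + Xu ^ 2 / 16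
  sq : ∀ a, S a ^ 2 ≤ ∑ e, ∑ n, lam e n * Vx Xl Xu e n a ^ 2
  cube : ∀ a, S a ^ 3 ≤ ∑ e, ∑ n, lam e n * Vx Xl Xu e n a ^ 3
  pos : ∀ (c : ℝ) (d : Fin 4 → ℝ), max 0 (c + ∑ i, d i * S i) ≤
    ∑ e, ∑ n, lam e n * max 0 (c + ∑ i, d i * Vx Xl Xu e n i)

theorem exists_dcp {S : Fin 4 → ℝ} {Xl Xu : ℝ} (hD : Dec S) (h3 : 0 ≤ S 3) (hXl : 0 ≤ Xl)
    (hl : Xl ≤ ∑ i, S i) (hu : ∑ i, S i ≤ Xu) : ∃ lam, Dcp S Xl Xu lam := by
  obtain ⟨lam, a1, a2, a3, a4, a5, a6, a7, -⟩ :=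
    Helper47.MEI.Vtx.vtx hD.1 hD.2.1 hD.2.2 h3 hXl hl hu
  exact ⟨lam, a1, a2, a3, a4, a5, a6, a7⟩

theorem need_dcp {κ ε Xl Xu : ℝ} {S : Fin 4 → ℝ} {lam : Fin 2 → Fin 4 → ℝ}
    (h : Dcp S Xl Xu lam) :
    need κ ε S ≤ ∑ e, ∑ n, lam e n * need κ ε (Vx Xl Xu e n) := by
  have e1 : ∑ e, ∑ n, lam e n * need κ ε (Vx Xl Xu e n) =
      (1.85e-4 + ε) * ∑ e, ∑ n, lam e n
        + ∑ i, (0.0039 * (∑ e, ∑ n, lam e n * Vx Xl Xu e n i)
          + 0.501 * ∑ e, ∑ n, lam e n * Vx Xl Xu e n i ^ 3)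
        + 4.08 * κ * ∑ i, ∑ e, ∑ n, lam e n * Vx Xl Xu e n i := by
    unfold need
    simp only [Fin.sum_univ_two, Fin.sum_univ_four]
    ring
  rw [e1, h.one]
  unfold need
  have h1 : ∀ i, 0.0039 * S i + 0.501 * S i ^ 3 ≤
      0.0039 * (∑ e, ∑ n, lam e n * Vx Xl Xu e n i)
          + 0.501 * ∑ e, ∑ n, lam e n * Vx Xl Xu e n i ^ 3 := by
    intro i
    have := h.cube i
    rw [← h.eq i]
    linarith
  have h2 := Finset.sum_le_sum fun i (_ : i ∈ (Finset.univ : Finset (Fin 4))) => h1 i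
  have h3 : ∑ i, ∑ e, ∑ n, lam e n * Vx Xl Xu e n i = ∑ i, S i :=
    Finset.sum_congr rfl fun i _ => (h.eq i).symm
  rw [h3]
  linarith

/-- the position of the vertex `i` in the pair `m`: edge and end -/
def pos : Fin 3 → Fin 4 → Bool × Bool
  | 0 => ![(false, false), (false, true), (true, false), (true, true)]
  | 1 => ![(false, false), (true, false), (false, true), (true, true)]
  | 2 => ![(false, false), (true, false), (true, true), (false, true)]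

theorem vx_pos : ∀ m i, vx m (pos m i).1 (pos m i).2 = i := by decide

theorem pos_idx : ∀ i p : Fin 4, i ≠ p → pos (idx i p).1 i = (idx i p).2 := by decide

/-- a sum over the vertices is a sum over the edges and ends of a pair -/
theorem sum_pos (m : Fin 3) (f : Bool → Bool → ℝ) :
    ∑ i, f (pos m i).1 (pos m i).2 = ∑ e, ∑ b, f e b := by
  fin_cases m <;> simp [pos, Fin.sum_univ_four] <;> ring

/-- **the price of the couplings for the face of the vertex `i`**: `k m e b` the coupling,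
`g m e b c` the price of the moment of the arc `(m, e, b)` in the column of `(m, !e, c)` -/
noncomputable def pen (k : Fin 3 → Bool → Bool → ℝ) (g : Fin 3 → Bool → Bool → Bool → ℝ)
    (i : Fin 4) : ℝ :=
  ∑ m, ∑ c, (1 - k m (pos m i).1 (pos m i).2) * k m (!(pos m i).1) c *
    g m (pos m i).1 (pos m i).2 c

/-- the bilinear form of a pair -/
noncomputable def bil (k : Bool → Bool → ℝ) (g : Bool → Bool → Bool → ℝ) : ℝ :=
  ∑ e, ∑ b, ∑ c, (1 - k e b) * k (!e) c * g e b c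

theorem sum_pen (k : Fin 3 → Bool → Bool → ℝ) (g : Fin 3 → Bool → Bool → Bool → ℝ) :
    ∑ i, pen k g i = ∑ m, bil (k m) (g m) := by
  unfold pen bil
  rw [Finset.sum_comm]
  refine Finset.sum_congr rfl fun m _ => ?_
  exact sum_pos m fun e b => ∑ c, (1 - k m e b) * k m (!e) c * g m e b c

/-- the couplings of a pair: caps `up` and the two sum rows `lo` -/
structure Poly (up : Bool → Bool → ℝ) (lo : Bool → ℝ) (k : Bool → Bool → ℝ) : Prop where
  nn : ∀ e b, 0 ≤ k e b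
  le : ∀ e b, k e b ≤ up e b
  sum : ∀ e, lo e ≤ k e false + k e true

/-- **the core statement from the vertices, any penalties.** `mm i e n` = the value of the face
of `i` at the vertex `(e, n)` without couplings, `q i e n` the penalty (it may depend on the
state), `b e n` = the bound of the sum of the penalties. -/
theorem coreP_W {X κ Xl Xu : ℝ} (hκ : 0 ≤ κ) (hXl : 0 ≤ Xl)
    (mm : Fin 4 → Fin 2 → Fin 4 → ℝ) (b : Fin 2 → Fin 4 → ℝ)
    (hnum : ∀ e n, need κ 0 (Vx Xl Xu e n) + b e n ≤ ∑ i, mm i e n)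
    (H : ∀ (K : Set E3) (σ : Measure (E3 × E3)), IsFiniteMeasure σ →
      ∀ a c : Fin 4 → E3, CN K σ a c → EpsLe c X → ∀ S : Fin 4 → ℝ, Viol K a S →
      StX X S → Xl ≤ ∑ i, S i → ∑ i, S i ≤ Xu → Dec S →
      ∀ lam, Dcp S Xl Xu lam →
      ∀ B : Fin 3 → Bool → OrthonormalBasis (Fin 3) ℝ E3,
      (∀ m e, Fr (fun i => a (pr m e i)) (B m e)) →
      ∃ (l : Fin 3 → Bool → Bool → E3 × E3 → ℝ) (F : Fin 4 → ℝ)
        (q : Fin 4 → Fin 2 → Fin 4 → ℝ),
        TL σ a B l 0 ∧ (∀ e n, ∑ i, q i e n ≤ b e n) ∧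
        (∀ i, LLs σ a l i + F i ≤ Wi a i K σ 3.83) ∧
        ∀ i, ∑ e, ∑ n, lam e n * (mm i e n - q i e n) ≤ F i) :
    CoreP (fun S => StX X S ∧ Xl ≤ ∑ i, S i ∧ ∑ i, S i ≤ Xu) X κ := by
  refine coreP_sorted (coreP_L hκ fun K σ hσ a c hC hX S hV hS B hB => ?_)
  obtain ⟨⟨hSt, h1, h2⟩, hD⟩ := hS
  obtain ⟨lam, hlam⟩ := exists_dcp hD (hV.nn 3) hXl h1 h2
  obtain ⟨l, F, q, hT, hk, hF, hm⟩ := H K σ hσ a c hC hX S hV hSt h1 h2 hD lam hlam B hB
  refine ⟨l, 0, F, hT, hF, ?_⟩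
  have n1 : need κ 0 S ≤ ∑ e, ∑ n, lam e n * need κ 0 (Vx Xl Xu e n) := need_dcp hlam
  have n2 : ∀ e n, need κ 0 (Vx Xl Xu e n) ≤ ∑ i, (mm i e n - q i e n) := by
    intro e n
    rw [Finset.sum_sub_distrib]
    have h3 := hk e n
    have := hnum e n
    linarith
  have n3 : ∑ e, ∑ n, lam e n * need κ 0 (Vx Xl Xu e n) ≤
      ∑ e, ∑ n, lam e n * ∑ i, (mm i e n - q i e n) :=
    Finset.sum_le_sum fun e _ => Finset.sum_le_sum fun n _ =>
      mul_le_mul_of_nonneg_left (n2 e n) (hlam.nn e n)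
  have n4 : ∑ e, ∑ n, lam e n * ∑ i, (mm i e n - q i e n) =
      ∑ i, ∑ e, ∑ n, lam e n * (mm i e n - q i e n) := by
    simp only [Fin.sum_univ_two, Fin.sum_univ_four]
    ring
  have n5 := Finset.sum_le_sum fun i (_ : i ∈ (Finset.univ : Finset (Fin 4))) => hm i
  have n6 : need κ 0 S ≤ ∑ i, F i := by linarith
  unfold need at n6
  exact n6

/-- **the core statement from the vertices, bilinear prices of the couplings.** `mm i e n` = the
value of the face of `i` at the vertex `(e, n)` without couplings, `g` = the prices of the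
couplings, `b` = the maxima of the bilinear forms of the pairs. -/
theorem coreP_V {X κ Xl Xu : ℝ} (hκ : 0 ≤ κ) (hXl : 0 ≤ Xl)
    (up : Fin 3 → Bool → Bool → ℝ) (lo : Fin 3 → Bool → ℝ)
    (mm : Fin 4 → Fin 2 → Fin 4 → ℝ)
    (g : Fin 2 → Fin 4 → Fin 3 → Bool → Bool → Bool → ℝ) (b : Fin 3 → Fin 2 → Fin 4 → ℝ)
    (hpoly : ∀ m e n, ∀ k, Poly (up m) (lo m) k → bil k (g e n m) ≤ b m e n)
    (hnum : ∀ e n, need κ 0 (Vx Xl Xu e n) + ∑ m, b m e n ≤ ∑ i, mm i e n)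
    (H : ∀ (K : Set E3) (σ : Measure (E3 × E3)), IsFiniteMeasure σ →
      ∀ a c : Fin 4 → E3, CN K σ a c → EpsLe c X → ∀ S : Fin 4 → ℝ, Viol K a S →
      StX X S → Xl ≤ ∑ i, S i → ∑ i, S i ≤ Xu → Dec S →
      ∀ lam, Dcp S Xl Xu lam →
      ∀ B : Fin 3 → Bool → OrthonormalBasis (Fin 3) ℝ E3,
      (∀ m e, Fr (fun i => a (pr m e i)) (B m e)) →
      ∃ (l : Fin 3 → Bool → Bool → E3 × E3 → ℝ) (F : Fin 4 → ℝ) (k : Fin 3 → Bool → Bool → ℝ),
        TL σ a B l 0 ∧ (∀ m, Poly (up m) (lo m) (k m)) ∧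
        (∀ i, LLs σ a l i + F i ≤ Wi a i K σ 3.83) ∧
        ∀ i, ∑ e, ∑ n, lam e n * (mm i e n - pen k (g e n) i) ≤ F i) :
    CoreP (fun S => StX X S ∧ Xl ≤ ∑ i, S i ∧ ∑ i, S i ≤ Xu) X κ := by
  refine coreP_W hκ hXl mm (fun e n => ∑ m, b m e n) hnum
    fun K σ hσ a c hC hX S hV hSt h1 h2 hD lam hlam B hB => ?_
  obtain ⟨l, F, k, hT, hk, hF, hm⟩ := H K σ hσ a c hC hX S hV hSt h1 h2 hD lam hlam B hB
  refine ⟨l, F, fun i e n => pen k (g e n) i, hT, fun e n => ?_, hF, hm⟩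
  rw [sum_pen]
  exact Finset.sum_le_sum fun m _ => hpoly m e n (k m) (hk m)

end Pool.Agent.Helper31.SR.IntB
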