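import Pool.Agent.Helper31.SR.IntC

/-!
# Project MEI (M2), track B: cones with a bound of the sum of the coefficients

`ConeL`, its vertices, bisection, levels, and the corner cut off by a bound of the largest
violation.
-/

set_option autoImplicit false

namespace Pool.Agent.Helper31.SR.IntD

open Set Metric MeasureTheory Filter Topology Helper93.MEI Helper80.CW Helper14.CW
open Helper14.MEI2 Pool.Agent.Helper73.MEI Helper82.M2 Helper82.CW Helper41.MEI
open Pool.Agent.Helper31.SR Helper37.MEI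
open Helper78.MEI
open Helper13.PLM (StX stX)
open Pool.Agent.Helper31.SR.Sort (Dec coreP_sorted)
open Pool.Agent.Helper31.SR.IntB Pool.Agent.Helper31.SR.IntC
open scoped RealInnerProductSpace

/-- `S` lies in the cone over the simplex `T`, the sum of the coefficients in `[Xl, Xu]` -/
def ConeL (T : Fin 4 → Fin 4 → ℝ) (Xl Xu : ℝ) (S : Fin 4 → ℝ) : Prop :=
  ∃ β : Fin 4 → ℝ, (∀ n, 0 ≤ β n) ∧ (∀ i, S i = ∑ n, β n * T n i) ∧ Xl ≤ ∑ n, β n ∧
    ∑ n, β n ≤ Xu

/-- two levels -/
theorem ConeL.dc {T : Fin 4 → Fin 4 → ℝ} {Xl Xu : ℝ} (hXl : 0 ≤ Xl) {S : Fin 4 → ℝ}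
    (h : ConeL T Xl Xu S) : ∃ lam, Dc (VT T Xl Xu) S lam := by
  obtain ⟨β, hβ, hS, hl, hu⟩ := h
  obtain ⟨s, hs⟩ : ∃ s, s = ∑ n, β n := ⟨_, rfl⟩
  rw [← hs] at hl hu
  have hs0 : 0 ≤ s := hXl.trans hl
  rcases hs0.eq_or_lt with h0 | h0
  · have hX : Xl = 0 := by linarith
    have hz : ∀ n, β n = 0 := by
      intro n
      have h2 : β n ≤ ∑ n, β n := Finset.single_le_sum (fun k _ => hβ k) (Finset.mem_univ n)
      rw [← hs, ← h0] at h2
      exact le_antisymm h2 (hβ n)
    refine ⟨fun v => if v = (0, 0) then 1 else 0, fun v => ?_, ?_, fun i => ?_⟩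
    · show (0 : ℝ) ≤ if v = (0, 0) then 1 else 0
      split_ifs <;> norm_num
    · simp
    · rw [hS i, Finset.sum_eq_zero fun n _ => by rw [hz n, zero_mul]]
      symm
      refine Finset.sum_eq_zero fun v _ => ?_
      split_ifs with h
      · unfold VT
        rw [h, hX]
        simp
      · rw [zero_mul]
  · obtain ⟨θ, hθ0, hθ1, hθ⟩ : ∃ θ : ℝ, 0 ≤ θ ∧ θ ≤ 1 ∧ s = (1 - θ) * Xl + θ * Xu := by
      rcases (hl.trans hu).eq_or_lt with h | h
      · exact ⟨1, zero_le_one, le_rfl, by linarith⟩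
      · have h5 : 0 < Xu - Xl := by linarith
        refine ⟨(s - Xl) / (Xu - Xl), div_nonneg (by linarith) h5.le,
          (div_le_one h5).2 (by linarith), ?_⟩
        field_simp
        ring
    refine ⟨fun v => (if v.1 = 0 then 1 - θ else θ) * (β v.2 / s), fun v => ?_, ?_, fun i => ?_⟩
    · refine mul_nonneg ?_ (div_nonneg (hβ _) hs0)
      split_ifs <;> linarith
    · rw [Fintype.sum_prod_type, Fin.sum_univ_two]
      simp only [if_true, one_ne_zero, if_false]
      rw [← Finset.sum_add_distrib]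
      have : ∀ n, (1 - θ) * (β n / s) + θ * (β n / s) = β n / s := fun n => by ring
      rw [Finset.sum_congr rfl fun n _ => this n, ← Finset.sum_div, ← hs, div_self h0.ne']
    · rw [Fintype.sum_prod_type, Fin.sum_univ_two]
      unfold VT
      simp only [if_true, one_ne_zero, if_false]
      rw [← Finset.sum_add_distrib, hS i]
      refine Finset.sum_congr rfl fun n _ => ?_
      have e : (1 - θ) * (β n / s) * (Xl * T n i) + θ * (β n / s) * (Xu * T n i) =
          ((1 - θ) * Xl + θ * Xu) / s * (β n * T n i) := by ring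
      rw [e, ← hθ, div_self h0.ne', one_mul]

/-- apex `0` -/
theorem ConeL.dc0 {T : Fin 4 → Fin 4 → ℝ} {Xl Xu : ℝ} (hXu : 0 < Xu) {S : Fin 4 → ℝ}
    (h : ConeL T Xl Xu S) : ∃ lam, Dc (VC T Xu) S lam := by
  obtain ⟨β, hβ, hS, -, hu⟩ := h
  refine ⟨fun v => match v with
    | none => 1 - (∑ n, β n) / Xu
    | some n => β n / Xu, fun v => ?_, ?_, fun i => ?_⟩
  · rcases v with _ | n
    · show 0 ≤ 1 - (∑ n, β n) / Xu
      rw [sub_nonneg, div_le_one hXu]
      exact hu
    · exact div_nonneg (hβ n) hXu.le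
  · rw [Fintype.sum_option]
    show 1 - (∑ n, β n) / Xu + ∑ n, β n / Xu = 1
    rw [← Finset.sum_div]
    ring
  · rw [Fintype.sum_option]
    show S i = (1 - (∑ n, β n) / Xu) * 0 + ∑ n, β n / Xu * (Xu * T n i)
    rw [mul_zero, zero_add, hS i]
    refine Finset.sum_congr rfl fun n _ => ?_
    field_simp

/-- the sorted states -/
theorem coneL_dec {S : Fin 4 → ℝ} (hD : Dec S) (h3 : 0 ≤ S 3) {Xl Xu : ℝ}
    (hl : Xl ≤ ∑ i, S i) (hu : ∑ i, S i ≤ Xu) : ConeL TU Xl Xu S := by
  obtain ⟨a, b, c⟩ := hD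
  have e : ∑ n, (![S 0 - S 1, 2 * (S 1 - S 2), 3 * (S 2 - S 3), 4 * S 3] : Fin 4 → ℝ) n =
      ∑ i, S i := by
    simp only [Fin.sum_univ_four]
    show (S 0 - S 1) + 2 * (S 1 - S 2) + 3 * (S 2 - S 3) + 4 * S 3 = _
    ring
  refine ⟨![S 0 - S 1, 2 * (S 1 - S 2), 3 * (S 2 - S 3), 4 * S 3], fun n => ?_, fun i => ?_,
    by rw [e]; exact hl, by rw [e]; exact hu⟩
  · fin_cases n <;> simp <;> linarith
  · fin_cases i <;> simp [TU, Fin.sum_univ_four] <;> ring

/-- a middle level -/
theorem ConeL.level {T : Fin 4 → Fin 4 → ℝ} {Xl Xu : ℝ} (Xm : ℝ) {S : Fin 4 → ℝ}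
    (h : ConeL T Xl Xu S) : ConeL T Xl Xm S ∨ ConeL T Xm Xu S := by
  obtain ⟨β, hβ, hS, hl, hu⟩ := h
  rcases le_total (∑ n, β n) Xm with h | h
  · exact Or.inl ⟨β, hβ, hS, hl, h⟩
  · exact Or.inr ⟨β, hβ, hS, h, hu⟩

/-- **bisection of an edge of the simplex**: `T1` has the point `M = (1 - r) T a + r T b` at `a`,
`T2` has it at `b` -/
theorem ConeL.split {T T1 T2 : Fin 4 → Fin 4 → ℝ} {Xl Xu : ℝ} {S : Fin 4 → ℝ}
    (h : ConeL T Xl Xu S) {a b : Fin 4}
    (hab : a ≠ b) {r : ℝ} (hr0 : 0 < r) (hr1 : r < 1)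
    (h1 : ∀ i, T1 a i = (1 - r) * T a i + r * T b i) (h1' : ∀ n, n ≠ a → T1 n = T n)
    (h2 : ∀ i, T2 b i = (1 - r) * T a i + r * T b i) (h2' : ∀ n, n ≠ b → T2 n = T n) :
    ConeL T1 Xl Xu S ∨ ConeL T2 Xl Xu S := by
  obtain ⟨β, hβ, hS, hl, hu⟩ := h
  have hr : (0 : ℝ) < 1 - r := by linarith
  have key : ∀ (f : Fin 4 → ℝ), ∑ n, f n = f a + f b +
      ∑ n ∈ (Finset.univ.erase a).erase b, f n := by
    intro f
    rw [← Finset.add_sum_erase _ f (Finset.mem_univ a),
      ← Finset.add_sum_erase _ f (show b ∈ Finset.univ.erase a by simp [hab.symm])]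
    ring
  rcases le_total (β a * r) (β b * (1 - r)) with h | h
  · -- keep `b`
    left
    have es : ∑ n, (fun n => if n = a then β a / (1 - r) else if n = b then
        β b - β a * r / (1 - r) else β n) n = ∑ n, β n := by
      rw [key, key]
      simp only [if_true, if_neg hab.symm]
      have : ∑ n ∈ (Finset.univ.erase a).erase b, (if n = a then β a / (1 - r) else
          if n = b then β b - β a * r / (1 - r) else β n) =
          ∑ n ∈ (Finset.univ.erase a).erase b, β n := by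
        refine Finset.sum_congr rfl fun n hn => ?_
        simp only [Finset.mem_erase] at hn
        rw [if_neg hn.2.1, if_neg hn.1]
      rw [this]
      field_simp
      ring
    refine ⟨fun n => if n = a then β a / (1 - r) else if n = b then β b - β a * r / (1 - r)
      else β n, fun n => ?_, fun i => ?_, by rw [es]; exact hl, by rw [es]; exact hu⟩
    · show 0 ≤ if n = a then β a / (1 - r) else if n = b then β b - β a * r / (1 - r) else β n
      split_ifs
      · exact div_nonneg (hβ a) hr.le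
      · rw [sub_nonneg, div_le_iff₀ hr]
        exact h
      · exact hβ n
    · rw [hS i, key, key]
      simp only [if_true, if_neg hab.symm]
      rw [h1, h1' b hab.symm]
      have : ∑ n ∈ (Finset.univ.erase a).erase b, β n * T n i =
          ∑ n ∈ (Finset.univ.erase a).erase b,
            (if n = a then β a / (1 - r) else if n = b then β b - β a * r / (1 - r)
              else β n) * T1 n i := by
        refine Finset.sum_congr rfl fun n hn => ?_
        simp only [Finset.mem_erase] at hn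
        rw [if_neg hn.2.1, if_neg hn.1, h1' n hn.2.1]
      rw [this]
      field_simp
      ring
  · right
    have es : ∑ n, (fun n => if n = b then β b / r else if n = a then β a - β b * (1 - r) / r
        else β n) n = ∑ n, β n := by
      rw [key, key]
      simp only [if_true, if_neg hab]
      have : ∑ n ∈ (Finset.univ.erase a).erase b, (if n = b then β b / r else
          if n = a then β a - β b * (1 - r) / r else β n) =
          ∑ n ∈ (Finset.univ.erase a).erase b, β n := by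
        refine Finset.sum_congr rfl fun n hn => ?_
        simp only [Finset.mem_erase] at hn
        rw [if_neg hn.1, if_neg hn.2.1]
      rw [this]
      field_simp
      ring
    refine ⟨fun n => if n = b then β b / r else if n = a then β a - β b * (1 - r) / r
      else β n, fun n => ?_, fun i => ?_, by rw [es]; exact hl, by rw [es]; exact hu⟩
    · show 0 ≤ if n = b then β b / r else if n = a then β a - β b * (1 - r) / r else β n
      split_ifs
      · exact div_nonneg (hβ b) hr0.le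
      · rw [sub_nonneg, div_le_iff₀ hr0]
        exact h
      · exact hβ n
    · rw [hS i, key, key]
      simp only [if_true, if_neg hab]
      rw [h2, h2' a hab]
      have : ∑ n ∈ (Finset.univ.erase a).erase b, β n * T n i =
          ∑ n ∈ (Finset.univ.erase a).erase b,
            (if n = b then β b / r else if n = a then β a - β b * (1 - r) / r
              else β n) * T2 n i := by
        refine Finset.sum_congr rfl fun n hn => ?_
        simp only [Finset.mem_erase] at hn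
        rw [if_neg hn.1, if_neg hn.2.1, h2' n hn.1]
      rw [this]
      field_simp
      ring

/-- **the corner cut off by `S_0 ≤ b Xu`**: the row `U_1` becomes `b U_1` -/
theorem ConeL.cap {T T' : Fin 4 → Fin 4 → ℝ} {Xl Xu b : ℝ} {S : Fin 4 → ℝ}
    (h : ConeL T Xl Xu S) (hb : 0 < b) (hb1 : b ≤ 1) (h0 : T 0 0 = 1) (hn : ∀ n, n ≠ 0 → T n 0 = b)
    (h1 : ∀ i, T' 0 i = b * T 0 i) (h1' : ∀ n, n ≠ 0 → T' n = T n) (hS0 : S 0 ≤ b * Xu) :
    ConeL T' Xl Xu S := by
  obtain ⟨β, hβ, hS, hl, hu⟩ := h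
  have e0 : S 0 = β 0 + b * (β 1 + β 2 + β 3) := by
    rw [hS 0, Fin.sum_univ_four, h0, hn 1 (by decide), hn 2 (by decide), hn 3 (by decide)]
    ring
  have b0 := hβ 0
  rw [Fin.sum_univ_four] at hl hu
  have hq : β 0 ≤ β 0 / b := by
    rw [le_div_iff₀ hb]
    nlinarith
  refine ⟨fun n => if n = 0 then β 0 / b else β n, fun n => ?_, fun i => ?_, ?_, ?_⟩
  · show 0 ≤ if n = 0 then β 0 / b else β n
    split_ifs
    · exact div_nonneg (hβ 0) hb.le
    · exact hβ n
  · rw [hS i, Fin.sum_univ_four, Fin.sum_univ_four]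
    have e1 : ((1 : Fin 4) = 0) = False := by decide
    have e2 : ((2 : Fin 4) = 0) = False := by decide
    have e3 : ((3 : Fin 4) = 0) = False := by decide
    simp only [if_true, e1, e2, e3, if_false]
    rw [h1, h1' 1 (by decide), h1' 2 (by decide), h1' 3 (by decide)]
    field_simp
  · rw [Fin.sum_univ_four]
    show Xl ≤ β 0 / b + β 1 + β 2 + β 3
    linarith
  · rw [Fin.sum_univ_four]
    show β 0 / b + β 1 + β 2 + β 3 ≤ Xu
    have h3 : b * (β 0 / b) = β 0 := mul_div_cancel₀ _ hb.ne'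
    have h4 : b * (β 0 / b + β 1 + β 2 + β 3) ≤ b * Xu := by
      have : b * (β 0 / b + β 1 + β 2 + β 3) = b * (β 0 / b) + b * (β 1 + β 2 + β 3) := by ring
      rw [this, h3]
      linarith
    exact le_of_mul_le_mul_left h4 hb

/-- more states -/
theorem ConeL.mono {T : Fin 4 → Fin 4 → ℝ} {Xl Xu Xl' Xu' : ℝ} {S : Fin 4 → ℝ}
    (h : ConeL T Xl Xu S) (h1 : Xl' ≤ Xl) (h2 : Xu ≤ Xu') : ConeL T Xl' Xu' S := by
  obtain ⟨β, hβ, hS, hl, hu⟩ := h
  exact ⟨β, hβ, hS, h1.trans hl, hu.trans h2⟩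

/-- the states with a bound of the largest violation: the four root cones, `E_n` the point of the
edge `U_1 U_n` with first coordinate `b` -/
noncomputable def R0 (b : ℝ) : Fin 4 → Fin 4 → ℝ :=
  ![![b, 0, 0, 0], ![b, 1 - b, 0, 0], ![b, (1 - b) / 2, (1 - b) / 2, 0],
    ![b, (1 - b) / 3, (1 - b) / 3, (1 - b) / 3]]

noncomputable def R1 (b : ℝ) : Fin 4 → Fin 4 → ℝ :=
  ![![b, (1 - b) / 3, (1 - b) / 3, (1 - b) / 3], ![b, 1 - b, 0, 0],
    ![b, (1 - b) / 2, (1 - b) / 2, 0], ![1 / 4, 1 / 4, 1 / 4, 1 / 4]]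

noncomputable def R2 (b : ℝ) : Fin 4 → Fin 4 → ℝ :=
  ![![b, (1 - b) / 2, (1 - b) / 2, 0], ![b, 1 - b, 0, 0], ![1 / 3, 1 / 3, 1 / 3, 0],
    ![1 / 4, 1 / 4, 1 / 4, 1 / 4]]

noncomputable def R3 (b : ℝ) : Fin 4 → Fin 4 → ℝ :=
  ![![b, 1 - b, 0, 0], ![1 / 2, 1 / 2, 0, 0], ![1 / 3, 1 / 3, 1 / 3, 0],
    ![1 / 4, 1 / 4, 1 / 4, 1 / 4]]

/-- **the four root cones** -/
theorem coneL_roots {S : Fin 4 → ℝ} (hD : Dec S) (h3 : 0 ≤ S 3) {Xl Xu b : ℝ} (hb : 1 / 2 < b)
    (hb1 : b < 1) (hl : Xl ≤ ∑ i, S i) (hu : ∑ i, S i ≤ Xu) (h0 : S 0 ≤ b * Xu) :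
    ConeL (R0 b) Xl Xu S ∨ ConeL (R1 b) Xl Xu S ∨ ConeL (R2 b) Xl Xu S ∨
      ConeL (R3 b) Xl Xu S := by
  have h := coneL_dec hD h3 hl hu
  -- the edge `U_1 U_2`
  rcases h.split (T1 := R3 b) (T2 := ![![1, 0, 0, 0], ![b, 1 - b, 0, 0], ![1 / 3, 1 / 3, 1 / 3, 0],
      ![1 / 4, 1 / 4, 1 / 4, 1 / 4]]) (a := 0) (b := 1) (by decide) (r := 2 * (1 - b))
      (by linarith) (by linarith)
      (fun i => by fin_cases i <;> simp [R3, TU] <;> ring)
      (fun n hn => by fin_cases n <;> first | exact absurd rfl hn | simp [R0, R1, R2, R3, TU])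
      (fun i => by fin_cases i <;> simp [TU] <;> ring)
      (fun n hn => by fin_cases n <;> first | exact absurd rfl hn | simp [R0, R1, R2, R3, TU]) with h | h
  · exact Or.inr (Or.inr (Or.inr h))
  -- the edge `U_1 U_3`
  rcases h.split (T1 := R2 b) (T2 := ![![1, 0, 0, 0], ![b, 1 - b, 0, 0],
      ![b, (1 - b) / 2, (1 - b) / 2, 0], ![1 / 4, 1 / 4, 1 / 4, 1 / 4]]) (a := 0) (b := 2)
      (by decide) (r := 3 / 2 * (1 - b)) (by linarith) (by linarith)
      (fun i => by fin_cases i <;> simp [R2] <;> ring)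
      (fun n hn => by fin_cases n <;> first | exact absurd rfl hn | simp [R0, R1, R2, R3, TU])
      (fun i => by fin_cases i <;> simp <;> ring)
      (fun n hn => by fin_cases n <;> first | exact absurd rfl hn | simp [R0, R1, R2, R3, TU]) with h | h
  · exact Or.inr (Or.inr (Or.inl h))
  -- the edge `U_1 U_4`
  rcases h.split (T1 := R1 b) (T2 := ![![1, 0, 0, 0], ![b, 1 - b, 0, 0],
      ![b, (1 - b) / 2, (1 - b) / 2, 0], ![b, (1 - b) / 3, (1 - b) / 3, (1 - b) / 3]])
      (a := 0) (b := 3)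
      (by decide) (r := 4 / 3 * (1 - b)) (by linarith) (by linarith)
      (fun i => by fin_cases i <;> simp [R1] <;> ring)
      (fun n hn => by fin_cases n <;> first | exact absurd rfl hn | simp [R0, R1, R2, R3, TU])
      (fun i => by fin_cases i <;> simp <;> ring)
      (fun n hn => by fin_cases n <;> first | exact absurd rfl hn | simp [R0, R1, R2, R3, TU]) with h | h
  · exact Or.inr (Or.inl h)
  left
  refine h.cap (T' := R0 b) (b := b) (by linarith) hb1.le (by simp)
    (fun n hn => by fin_cases n <;> first | exact absurd rfl hn | simp [R0, R1, R2, R3, TU])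
    (fun i => by fin_cases i <;> simp [R0])
    (fun n hn => by fin_cases n <;> first | exact absurd rfl hn | simp [R0, R1, R2, R3, TU]) h0

end Pool.Agent.Helper31.SR.IntD
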