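import Pool.Agent.Helper31.SR.MilF
import Pool.Agent.Helper31.SR.IntC

/-!
# Project MEI (M2), track B: the window theorem from the core statements of the pieces

`window_T`: any number of pieces; instances for the circumradii `.6094`, `.608`, `.6066`.
-/

set_option autoImplicit false

namespace Pool.Agent.Helper31.SR.MilB

open Set Metric MeasureTheory Helper80.CW Helper82.CW Helper14.CW Helper93.MEI Helper82.M2
open Helper14.MEI2 Pool.Agent.Helper73.MEI Helper37.MEI Helper41.MEI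
open Helper33.MEI (Wi)
open Helper78.MEI
open Helper13.PLM (StX stX)
open Pool.Agent.Helper73.MEI.ArCor
open Pool.Agent.Helper31.SR Pool.Agent.Helper31.SR.EndA Pool.Agent.Helper31.SR.PcN
open Pool.Agent.Helper31.SR.PcM Pool.Agent.Helper31.SR.MilF
open scoped RealInnerProductSpace ENNReal

/-- two neighbouring ranges -/
theorem join {X κ a b c : ℝ} (h1 : CoreP (Pc X a b) X κ) (h2 : CoreP (Pc X b c) X κ) :
    CoreP (Pc X a c) X κ := by
  intro K σ hσ a' c' hC hE S hV hS i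
  rcases le_total (∑ i, S i) b with h | h
  · exact h1 K σ hσ a' c' hC hE S hV ⟨hS.1, hS.2.1, h⟩ i
  · exact h2 K σ hσ a' c' hC hE S hV ⟨hS.1, h, hS.2.2⟩ i

/-- **the window theorem from a low range and one high range** -/
theorem window_T {R R' X κ T0 T1 : ℝ} (hκ : 0 < κ) (h60 : 0.6026 ≤ R') (hRR : R' < R)
    (hX : 0 ≤ X) (hX1 : X ≤ 0.1774) (hRX : 1 / 4 + 1 / (4 * (2 + X)) ≤ R' ^ 2)
    (hT : X + 0.00032 ≤ T1)
    (hI : CoreP (fun S => StX X S ∧ ∑ i, S i ≤ T0) X κ)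
    (hII : CoreP (Pc X T0 T1) X κ) : ∀ K : Set E3, IsCompact K → Convex ℝ K → Width1 K →
    (¬ ∃ x, K ⊆ closedBall x R) → EqM K := by
  refine window_of_core hκ h60 hRR hX hX1 hRX fun K σ hσ a c hC hE S hV hS i => ?_
  rcases le_total (∑ i, S i) T0 with h | h
  · exact hI K σ hσ a c hC hE S hV ⟨hS, h⟩ i
  · exact hII K σ hσ a c hC hE S hV ⟨hS, h, hS.sum.trans hT⟩ i

/-- circumradius at least `.6094`: `X = .06`, `Σ S ≤ .0604` -/
theorem window_6094 {κ T0 : ℝ} (hκ : 0 < κ)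
    (hI : CoreP (fun S => StX 0.06 S ∧ ∑ i, S i ≤ T0) 0.06 κ)
    (hII : CoreP (Pc 0.06 T0 0.0604) 0.06 κ) : ∀ K : Set E3, IsCompact K → Convex ℝ K →
    Width1 K → (¬ ∃ x, K ⊆ closedBall x 0.6094) → EqM K :=
  window_T (R' := 0.609393) hκ (by norm_num) (by norm_num) (by norm_num) (by norm_num)
    (by norm_num) (by norm_num) hI hII

/-- circumradius at least `.608`: `X = .09`, `Σ S ≤ .0904` -/
theorem window_608 {κ T0 : ℝ} (hκ : 0 < κ)
    (hI : CoreP (fun S => StX 0.09 S ∧ ∑ i, S i ≤ T0) 0.09 κ)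
    (hII : CoreP (Pc 0.09 T0 0.0904) 0.09 κ) : ∀ K : Set E3, IsCompact K → Convex ℝ K →
    Width1 K → (¬ ∃ x, K ⊆ closedBall x 0.608) → EqM K :=
  window_T (R' := 0.607963) hκ (by norm_num) (by norm_num) (by norm_num) (by norm_num)
    (by norm_num) (by norm_num) hI hII

/-- circumradius at least `.6066`: `X = .12`, `Σ S ≤ .1204` -/
theorem window_6066 {κ T0 : ℝ} (hκ : 0 < κ)
    (hI : CoreP (fun S => StX 0.12 S ∧ ∑ i, S i ≤ T0) 0.12 κ)
    (hII : CoreP (Pc 0.12 T0 0.1204) 0.12 κ) : ∀ K : Set E3, IsCompact K → Convex ℝ K →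
    Width1 K → (¬ ∃ x, K ⊆ closedBall x 0.6066) → EqM K :=
  window_T (R' := 0.606569) hκ (by norm_num) (by norm_num) (by norm_num) (by norm_num)
    (by norm_num) (by norm_num) hI hII

/-- the low pieces of track A in one range -/
theorem low_pieces {X : ℝ} (ha : WB X 0.002 0.0035 0.1611) (hb : WB X 0.0035 0.006 0.1918)
    (hc : WB X 0.006 0.0082 0.1949) : CoreP (Pc X 0.002 0.0082) X 0.00001 := by
  obtain ⟨a0, a1, a2, a3, a4, a5⟩ := ha
  obtain ⟨b0, b1, b2, b3, b4, b5⟩ := hb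
  obtain ⟨c0, c1, c2, c3, c4, c5⟩ := hc
  exact join (join (piece_a (momPc (by norm_num)) a5 a3 a4) (piece_b (momPc (by norm_num)) b5 b3 b4))
    (piece_c (momPc (by norm_num)) c5 c3 c4)

end Pool.Agent.Helper31.SR.MilB
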