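import Pool.Agent.Helper31.SR.PcM

/-!
# Project MEI (M2), track A: the window theorem from the open inputs

Open: the core statement of regime I (`Σ S ≤ .002`) and the costs of the second order term on the
pieces (`WOKG`, `ρ = .043`).
-/

set_option autoImplicit false

namespace Pool.Agent.Helper31.SR.MilF

open Set Metric MeasureTheory Helper80.CW Helper82.CW Helper14.CW Helper93.MEI Helper82.M2
open Helper14.MEI2 Pool.Agent.Helper73.MEI Helper37.MEI Helper41.MEI
open Helper33.MEI (Wi)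
open Helper78.MEI
open Helper13.PLM (StX stX)
open Pool.Agent.Helper73.MEI.ArCor
open Pool.Agent.Helper31.SR Pool.Agent.Helper31.SR.EndA Pool.Agent.Helper31.SR.PcN
open Pool.Agent.Helper31.SR.PcM
open scoped RealInnerProductSpace ENNReal

/-- the states of a piece -/
def Pc (X T0 T1 : ℝ) (S : Fin 4 → ℝ) : Prop := StX X S ∧ T0 ≤ ∑ i, S i ∧ ∑ i, S i ≤ T1

/-- the cost of the second order term on the piece is within the budget `b` -/
def WB (X T0 T1 b : ℝ) : Prop :=
  ∃ w0 w1 w2 : ℝ, 0 ≤ w0 ∧ w1 + 3 * w2 + 4 * w0 / T0 ≤ b ∧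
    WOKG 0.043 w0 w1 w2 0 0 0 X (Pc X T0 T1)

theorem momPc {X T0 T1 : ℝ} (hT : T1 ≤ 0.0144) : MomP 0.043 X (Pc X T0 T1) :=
  momP (T := T1) (fun _ h => h.2.2) (by linarith) (by linarith)

/-- **track A, circumradius at least `.612`** (`X = .00788`) -/
theorem window_612 {X : ℝ} (hX : X = 0.00788)
    (hI : CoreP (fun S => StX X S ∧ ∑ i, S i ≤ 0.002) X 1e-5)
    (ha : WB X 0.002 0.0035 0.1611) (hb : WB X 0.0035 0.006 0.1918)
    (hc : WB X 0.006 0.0082 0.1949) :
    ∀ K : Set E3, IsCompact K → Convex ℝ K → Width1 K →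
    (¬ ∃ x, K ⊆ closedBall x 0.612) → EqM K := by
  obtain ⟨a0, a1, a2, a3, a4, a5⟩ := ha
  obtain ⟨b0, b1, b2, b3, b4, b5⟩ := hb
  obtain ⟨c0, c1, c2, c3, c4, c5⟩ := hc
  have pa := piece_a (X := X) (momPc (by norm_num)) a5 a3 a4
  have pb := piece_b (X := X) (momPc (by norm_num)) b5 b3 b4
  have pc := piece_c (X := X) (momPc (by norm_num)) c5 c3 c4
  subst hX
  refine window_of_core (R' := 0.611973) (X := 0.00788) (κ := 1e-5) (by norm_num) (by norm_num)
    (by norm_num) (by norm_num) (by norm_num) (by norm_num) (pieces (τ := 0.002)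
    (fun j => if j = 0 then 0.002 else if j = 1 then 0.0035 else if j = 2 then 0.006 else 0.0082)
    3 (by simp) (by norm_num) hI fun j hj => ?_)
  have h3 : j = 0 ∨ j = 1 ∨ j = 2 := by omega
  rcases h3 with rfl | rfl | rfl
  · exact pa.mono le_rfl fun S hS => by simpa using hS
  · exact pb.mono le_rfl fun S hS => by simpa using hS
  · exact pc.mono le_rfl fun S hS => by simpa using hS

/-- **track A, circumradius at least `.6119`** (`X = .0104`) -/
theorem window_6119 {X : ℝ} (hX : X = 0.0104)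
    (hI : CoreP (fun S => StX X S ∧ ∑ i, S i ≤ 0.002) X 1e-5)
    (ha : WB X 0.002 0.0035 0.1611) (hb : WB X 0.0035 0.006 0.1918)
    (hc : WB X 0.006 0.0082 0.1949) (hd : WB X 0.0082 0.01072 0.1843) :
    ∀ K : Set E3, IsCompact K → Convex ℝ K → Width1 K →
    (¬ ∃ x, K ⊆ closedBall x 0.6119) → EqM K := by
  obtain ⟨a0, a1, a2, a3, a4, a5⟩ := ha
  obtain ⟨b0, b1, b2, b3, b4, b5⟩ := hb
  obtain ⟨c0, c1, c2, c3, c4, c5⟩ := hc
  obtain ⟨d0, d1, d2, d3, d4, d5⟩ := hd
  have pa := piece_a (X := X) (momPc (by norm_num)) a5 a3 a4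
  have pb := piece_b (X := X) (momPc (by norm_num)) b5 b3 b4
  have pc := piece_c (X := X) (momPc (by norm_num)) c5 c3 c4
  have pd := piece_d (X := X) (momPc (by norm_num)) d5 d3 d4
  subst hX
  refine window_of_core (R' := 0.61185) (X := 0.0104) (κ := 1e-5) (by norm_num) (by norm_num)
    (by norm_num) (by norm_num) (by norm_num) (by norm_num) (pieces (τ := 0.002)
    (fun j => if j = 0 then 0.002 else if j = 1 then 0.0035 else if j = 2 then 0.006
      else if j = 3 then 0.0082 else 0.01072)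
    4 (by simp) (by norm_num) hI fun j hj => ?_)
  have h3 : j = 0 ∨ j = 1 ∨ j = 2 ∨ j = 3 := by omega
  rcases h3 with rfl | rfl | rfl | rfl
  · exact pa.mono le_rfl fun S hS => by simpa using hS
  · exact pb.mono le_rfl fun S hS => by simpa using hS
  · exact pc.mono le_rfl fun S hS => by simpa using hS
  · exact pd.mono le_rfl fun S hS => by simpa using hS

end Pool.Agent.Helper31.SR.MilF
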