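import Pool.Agent.Helper31.SR.MilG
import Pool.Agent.Helper23.MEI.RegJ

/-!
# Project MEI (M2), track A: the window theorems from the costs of the second order term

`lowI_of_WJ`; `winF_6121`, `winF_61204`, `winF_612`, `winF_61193`, `winF_61183`, `winF_6117`.
-/

set_option autoImplicit false

namespace Pool.Agent.Helper31.SR.MilH

open Set Metric MeasureTheory Helper80.CW Helper82.CW Helper14.CW Helper93.MEI Helper82.M2
open Helper14.MEI2 Pool.Agent.Helper73.MEI Helper37.MEI Helper41.MEI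
open Helper33.MEI (Wi)
open Helper78.MEI
open Helper13.PLM (StX stX SumB coreP_sumB)
open Pool.Agent.Helper73.MEI.ArCor
open Pool.Agent.Helper31.SR Pool.Agent.Helper31.SR.EndA Pool.Agent.Helper31.SR.PcN
open Pool.Agent.Helper31.SR.PcM Pool.Agent.Helper31.SR.MilF Pool.Agent.Helper31.SR.MilB
open Pool.Agent.Helper31.SR.PcR Pool.Agent.Helper31.SR.MomA Pool.Agent.Helper31.SR.MilG
open Pool.Agent.Helper23.MEI.J (WJ coreP_smallJ)
open scoped RealInnerProductSpace ENNReal

/-- fewer states -/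
theorem WJ.mono {T w1 w2 : ℝ} {P P' : (Fin 4 → ℝ) → Prop} (h : WJ T w1 w2 P)
    (hP : ∀ S, P' S → P S) : WJ T w1 w2 P' := fun K σ hσ a c hC S hV hS =>
  h K σ hσ a c hC S hV (hP S hS)

/-- the low range from the cost of the second order term in regime I -/
theorem lowI_of_WJ {X w1 w2 : ℝ} {P : (Fin 4 → ℝ) → Prop} (W : WJ 0.002 w1 w2 P)
    (hP : ∀ S, StX X S → P S) (hw : w1 + 3 * w2 ≤ 0.15765) : LowI X :=
  coreP_smallJ le_rfl (WJ.mono W hP) (by norm_num) (by linarith)

/-- the cost of the second order term in regime I, for some weights within the budget -/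
def WL : Prop := ∃ w1 w2 : ℝ, w1 + 3 * w2 ≤ 0.15765 ∧ WJ 0.002 w1 w2 fun _ => True

theorem WL.low (h : WL) (X : ℝ) : LowI X := by
  obtain ⟨w1, w2, h1, h2⟩ := h
  exact lowI_of_WJ h2 (fun _ _ => trivial) h1

/-- the cost on a piece, all states, any bound of the shell radii -/
def WS (ρ T0 T1 b : ℝ) : Prop :=
  ∃ w0 w1 w2 : ℝ, 0 ≤ w0 ∧ w1 + 3 * w2 + 4 * w0 / T0 ≤ b ∧
    ∀ X, WOKG ρ w0 w1 w2 0 0 0 X (Pc X T0 T1)

theorem WS.wr {ρ T0 T1 b : ℝ} (h : WS ρ T0 T1 b) (X : ℝ) : WR X ρ T0 T1 b := by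
  obtain ⟨w0, w1, w2, h0, h1, h2⟩ := h
  exact ⟨w0, w1, w2, h0, h1, h2 X⟩

/-- **circumradius at least `.6121`** (tables J and 1, `Σ S ≤ .006`) -/
theorem winF_6121 (hI : WL) (ha : WR 0.00608 0.036 0.002 0.006 0.1755) : Win 0.6121 :=
  win_6121 (hI.low _) ha

/-- **circumradius at least `.61204`** (tables J and 1, `Σ S ≤ .0068`) -/
theorem winF_61204 (hI : WL) (ha : WR 0.0069 0.036 0.002 0.0068 0.1753) : Win 0.61204 :=
  window_B (R' := 0.61203) (κ := 0.00001) (by norm_num) (by norm_num) (by norm_num)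
    (by norm_num) (by norm_num) (by norm_num) Helper13.PLM.sumB_0069 (hI.low _) (pc_a68 ha)

/-- **circumradius at least `.612`** (tables J, 1 and 2, `Σ S ≤ .0082`) -/
theorem winF_612 (hI : WL) (ha : WR 0.00833 0.036 0.002 0.006 0.1755)
    (hb : WR 0.00833 0.0366 0.006 0.0082 0.2089) : Win 0.612 :=
  win_612 (hI.low _) ha hb

/-- **circumradius at least `.61193`** (`Σ S ≤ .0087`) -/
theorem winF_61193 (hI : WL) (ha : WR 0.00884 0.036 0.002 0.006 0.1755)
    (hb : WR 0.00884 0.0366 0.006 0.0087 0.2071) : Win 0.61193 :=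
  win_61193 (hI.low _) ha hb

/-- **circumradius at least `.61183`** (`Σ S ≤ .0107`) -/
theorem winF_61183 (hI : WL) (ha : WR 0.01089 0.036 0.002 0.006 0.1755)
    (hb : WR 0.01089 0.0366 0.006 0.0082 0.2089)
    (hd : WR 0.01089 0.0373 0.0082 0.0107 0.1971) : Win 0.61183 :=
  window_B (R' := 0.61182) (κ := 0.00001) (by norm_num) (by norm_num) (by norm_num)
    (by norm_num) (by norm_num) (by norm_num) Helper13.PLM.sumB_01089 (hI.low _)
    (join (join (pc_a6 ha) (pc_b82 hb)) (pc_d107 hd))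

/-- **circumradius at least `.6117`** (`Σ S ≤ .0135`) -/
theorem winF_6117 (hI : WL) (ha : WR 0.01377 0.036 0.002 0.006 0.1755)
    (hb : WR 0.01377 0.0366 0.006 0.0082 0.2089)
    (hd : WR 0.01377 0.0373 0.0082 0.0107 0.1971)
    (he : WR 0.01377 0.0383 0.0107 0.0135 0.1804) : Win 0.6117 :=
  window_B (R' := 0.61168) (κ := 0.00001) (by norm_num) (by norm_num) (by norm_num)
    (by norm_num) (by norm_num) (by norm_num) Helper13.PLM.sumB_01377 (hI.low _)
    (join (join (join (pc_a6 ha) (pc_b82 hb)) (pc_d107 hd)) (pc_d135 he))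

end Pool.Agent.Helper31.SR.MilH
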