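import Pool.Agent.Helper73.MEI.MA3
import Pool.Agent.Helper97.MEI.AsmFin
import Pool.Agent.Helper31.SR.PcN

/-!
# Project MEI (M2), milestone A: the numbers of the pieces of the small range

For every piece `T0 ≤ Σ S ≤ T1`: the numbers of `face_fv` and the budget of the cost of the second
order term (form `WOKG` of helper73's `coreP_smallG`).
-/

set_option autoImplicit false

namespace Pool.Agent.Helper31.SR.PcS

open Set Metric MeasureTheory Helper80.CW Helper82.CW Helper14.CW Helper93.MEI Helper82.M2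
open Helper14.MEI2 Pool.Agent.Helper73.MEI Helper37.MEI Helper41.MEI
open Helper33.MEI (Wi)
open Helper78.MEI
open Helper13.PLM (StX stX)
open Pool.Agent.Helper73.MEI.ArCor
open Pool.Agent.Helper31.SR Pool.Agent.Helper31.SR.EndA Pool.Agent.Helper31.SR.PcN
open scoped RealInnerProductSpace ENNReal

/-- numbers of the range `Σ S ≤ 0.004` -/
theorem rng_a4 : Rng 0.004 0.04473 0.96837 0.06533 1.03267 0.0020654 0.0010711 0.000217 1.001 1.2272 1.22638 0.11519 where
  X1 := by norm_num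
  rm0 := by norm_num
  rmX := by norm_num
  qm0 := by norm_num
  qmr := by norm_num
  nb0 := by norm_num
  nbq := by norm_num
  nb3 := by norm_num
  ρq := by norm_num
  Rbq := by norm_num
  gg0 := by norm_num
  gR := by norm_num
  k1X := by norm_num
  k12X := by norm_num
  k12k := by norm_num
  t21 := by norm_num
  t2X := by norm_num
  δt := by norm_num
  hε := by norm_num
  ng := by norm_num

theorem apx_a4 : Apx 0.004 0.96837 0.13855 2.04 0.036 1.062074 0.115187 0.176258 0.239439 0.283226 0.50247 where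
  X3 := by norm_num
  Tm0 := by norm_num
  Tm2 := by norm_num
  TmX := by norm_num
  r0 := by norm_num
  rX := by norm_num
  V0 := by norm_num
  VX := by norm_num
  x00 := by norm_num
  x0r := by norm_num
  x1r := by norm_num
  xT := by norm_num
  phi := by norm_num
  line := by
    intro T h0 h1
    have hb : 0 ≤ 0.13855 - T := by linarith
    have b0 := pow_nonneg hb 5
    have b1 := mul_nonneg h0 (pow_nonneg hb 4)
    have b2 := mul_nonneg (pow_nonneg h0 2) (pow_nonneg hb 3)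
    have b3 := mul_nonneg (pow_nonneg h0 3) (pow_nonneg hb 2)
    have b4 := mul_nonneg (pow_nonneg h0 4) hb
    have b5 := pow_nonneg h0 5
    linarith

theorem sml_a4 : Sml 2.04 0.036 0.283226 0.50247 1.001 (1.2272 - 1.001) 0.000217 0.06533 0.13855 0 0.079418 0.25435 6.5084 2.0322 where
  A0 := by norm_num
  g10 := by norm_num
  k1g := by norm_num
  k2g := by norm_num
  ε0 := by norm_num
  nb1 := by norm_num
  w30 := by norm_num
  w3A := by norm_num
  hC1 := by norm_num
  C10 := by norm_num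
  hC2 := by norm_num
  hC2' := by norm_num
  C20 := by norm_num
  hK1 := by norm_num
  hK2 := by norm_num
  K20 := by norm_num
  K12 := by norm_num
  gT := by norm_num

/-- **the piece `0.002 ≤ Σ S ≤ 0.004`**: `w1 + 3 w2 + 4 w0 / 0.002 ≤ 0.1759` -/
theorem piece_a4 {X w0 w1 w2 : ℝ} (hM : MomP 0.036 X (fun S => StX X S ∧ 0.002 ≤ ∑ i, S i ∧ ∑ i, S i ≤ 0.004))
    (hW : WOKG 0.036 w0 w1 w2 0 0 0 X (fun S => StX X S ∧ 0.002 ≤ ∑ i, S i ∧ ∑ i, S i ≤ 0.004)) (hw0 : 0 ≤ w0)
    (hw : w1 + 3 * w2 + 4 * w0 / 0.002 ≤ 0.1759) :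
    CoreP (fun S => StX X S ∧ 0.002 ≤ ∑ i, S i ∧ ∑ i, S i ≤ 0.004) X 0.00001 := by
  have h0 : 4 * w0 / 0.002 * 0.002 = 4 * w0 := by
    rw [div_mul_cancel₀ _ (by norm_num)]
  have hd : 0 ≤ 4 * w0 / 0.002 := by positivity
  have e0 := mul_le_mul_of_nonneg_right hw (show (0 : ℝ) ≤ 0.002 by norm_num)
  have e1 := mul_le_mul_of_nonneg_right hw (show (0 : ℝ) ≤ 0.004 by norm_num)
  have e2 := mul_le_mul_of_nonneg_left (show (0.002 : ℝ) ≤ 0.004 by norm_num) hd
  exact coreP_smallG (c0 := 0.000185) (c1 := 0.0039) (c3 := 0.501) (T0 := 0.002)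
    (e := 5.386) asm_a (by norm_num) (by norm_num) (by norm_num) le_rfl le_rfl le_rfl
    (fun K σ hσ a c hC hX S hV hP => ⟨hP.2.1, hP.2.2, fun i => small_of_sum hV.nn hP.2.2 (by norm_num) i⟩)
    hM hW rng_a4 apx_a4 sml_a4 (by norm_num) (by norm_num) (by norm_num) (by norm_num)
    (by linarith) (by linarith)

/-- numbers of the range `Σ S ≤ 0.004` -/
theorem rng_a4r : Rng 0.004 0.04473 0.96837 0.06533 1.03267 0.0020654 0.0010711 0.000217 1.001 1.2272 1.22638 0.11519 where
  X1 := by norm_num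
  rm0 := by norm_num
  rmX := by norm_num
  qm0 := by norm_num
  qmr := by norm_num
  nb0 := by norm_num
  nbq := by norm_num
  nb3 := by norm_num
  ρq := by norm_num
  Rbq := by norm_num
  gg0 := by norm_num
  gR := by norm_num
  k1X := by norm_num
  k12X := by norm_num
  k12k := by norm_num
  t21 := by norm_num
  t2X := by norm_num
  δt := by norm_num
  hε := by norm_num
  ng := by norm_num

theorem apx_a4r : Apx 0.004 0.96837 0.13855 2.04 0.0355 1.062074 0.115187 0.176258 0.239439 0.284287 0.5023 where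
  X3 := by norm_num
  Tm0 := by norm_num
  Tm2 := by norm_num
  TmX := by norm_num
  r0 := by norm_num
  rX := by norm_num
  V0 := by norm_num
  VX := by norm_num
  x00 := by norm_num
  x0r := by norm_num
  x1r := by norm_num
  xT := by norm_num
  phi := by norm_num
  line := by
    intro T h0 h1
    have hb : 0 ≤ 0.13855 - T := by linarith
    have b0 := pow_nonneg hb 5
    have b1 := mul_nonneg h0 (pow_nonneg hb 4)
    have b2 := mul_nonneg (pow_nonneg h0 2) (pow_nonneg hb 3)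
    have b3 := mul_nonneg (pow_nonneg h0 3) (pow_nonneg hb 2)
    have b4 := mul_nonneg (pow_nonneg h0 4) hb
    have b5 := pow_nonneg h0 5
    linarith

theorem sml_a4r : Sml 2.04 0.0355 0.284287 0.5023 1.001 (1.2272 - 1.001) 0.000217 0.06533 0.13855 0 0.079356 0.255105 6.5135 2.0262 where
  A0 := by norm_num
  g10 := by norm_num
  k1g := by norm_num
  k2g := by norm_num
  ε0 := by norm_num
  nb1 := by norm_num
  w30 := by norm_num
  w3A := by norm_num
  hC1 := by norm_num
  C10 := by norm_num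
  hC2 := by norm_num
  hC2' := by norm_num
  C20 := by norm_num
  hK1 := by norm_num
  hK2 := by norm_num
  K20 := by norm_num
  K12 := by norm_num
  gT := by norm_num

/-- **the piece `0.002 ≤ Σ S ≤ 0.004`**: `w1 + 3 w2 + 4 w0 / 0.002 ≤ 0.177` -/
theorem piece_a4r {X w0 w1 w2 : ℝ} (hM : MomP 0.0355 X (fun S => StX X S ∧ 0.002 ≤ ∑ i, S i ∧ ∑ i, S i ≤ 0.004))
    (hW : WOKG 0.0355 w0 w1 w2 0 0 0 X (fun S => StX X S ∧ 0.002 ≤ ∑ i, S i ∧ ∑ i, S i ≤ 0.004)) (hw0 : 0 ≤ w0)
    (hw : w1 + 3 * w2 + 4 * w0 / 0.002 ≤ 0.177) :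
    CoreP (fun S => StX X S ∧ 0.002 ≤ ∑ i, S i ∧ ∑ i, S i ≤ 0.004) X 0.00001 := by
  have h0 : 4 * w0 / 0.002 * 0.002 = 4 * w0 := by
    rw [div_mul_cancel₀ _ (by norm_num)]
  have hd : 0 ≤ 4 * w0 / 0.002 := by positivity
  have e0 := mul_le_mul_of_nonneg_right hw (show (0 : ℝ) ≤ 0.002 by norm_num)
  have e1 := mul_le_mul_of_nonneg_right hw (show (0 : ℝ) ≤ 0.004 by norm_num)
  have e2 := mul_le_mul_of_nonneg_left (show (0.002 : ℝ) ≤ 0.004 by norm_num) hd
  exact coreP_smallG (c0 := 0.000185) (c1 := 0.0039) (c3 := 0.501) (T0 := 0.002)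
    (e := 5.383) asm_a (by norm_num) (by norm_num) (by norm_num) le_rfl le_rfl le_rfl
    (fun K σ hσ a c hC hX S hV hP => ⟨hP.2.1, hP.2.2, fun i => small_of_sum hV.nn hP.2.2 (by norm_num) i⟩)
    hM hW rng_a4r apx_a4r sml_a4r (by norm_num) (by norm_num) (by norm_num) (by norm_num)
    (by linarith) (by linarith)

/-- numbers of the range `Σ S ≤ 0.004` -/
theorem rng_a4s : Rng 0.004 0.04473 0.96837 0.06533 1.03267 0.0020654 0.0010711 0.000217 1.001 1.2272 1.22638 0.11519 where
  X1 := by norm_num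
  rm0 := by norm_num
  rmX := by norm_num
  qm0 := by norm_num
  qmr := by norm_num
  nb0 := by norm_num
  nbq := by norm_num
  nb3 := by norm_num
  ρq := by norm_num
  Rbq := by norm_num
  gg0 := by norm_num
  gR := by norm_num
  k1X := by norm_num
  k12X := by norm_num
  k12k := by norm_num
  t21 := by norm_num
  t2X := by norm_num
  δt := by norm_num
  hε := by norm_num
  ng := by norm_num

theorem apx_a4s : Apx 0.004 0.96837 0.13855 2.04 0.035 1.062074 0.115187 0.176258 0.239439 0.285347 0.5021 where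
  X3 := by norm_num
  Tm0 := by norm_num
  Tm2 := by norm_num
  TmX := by norm_num
  r0 := by norm_num
  rX := by norm_num
  V0 := by norm_num
  VX := by norm_num
  x00 := by norm_num
  x0r := by norm_num
  x1r := by norm_num
  xT := by norm_num
  phi := by norm_num
  line := by
    intro T h0 h1
    have hb : 0 ≤ 0.13855 - T := by linarith
    have b0 := pow_nonneg hb 5
    have b1 := mul_nonneg h0 (pow_nonneg hb 4)
    have b2 := mul_nonneg (pow_nonneg h0 2) (pow_nonneg hb 3)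
    have b3 := mul_nonneg (pow_nonneg h0 3) (pow_nonneg hb 2)
    have b4 := mul_nonneg (pow_nonneg h0 4) hb
    have b5 := pow_nonneg h0 5
    linarith

theorem sml_a4s : Sml 2.04 0.035 0.285347 0.5021 1.001 (1.2272 - 1.001) 0.000217 0.06533 0.13855 0 0.079295 0.255859 6.5185 2.0202 where
  A0 := by norm_num
  g10 := by norm_num
  k1g := by norm_num
  k2g := by norm_num
  ε0 := by norm_num
  nb1 := by norm_num
  w30 := by norm_num
  w3A := by norm_num
  hC1 := by norm_num
  C10 := by norm_num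
  hC2 := by norm_num
  hC2' := by norm_num
  C20 := by norm_num
  hK1 := by norm_num
  hK2 := by norm_num
  K20 := by norm_num
  K12 := by norm_num
  gT := by norm_num

/-- **the piece `0.002 ≤ Σ S ≤ 0.004`**: `w1 + 3 w2 + 4 w0 / 0.002 ≤ 0.178` -/
theorem piece_a4s {X w0 w1 w2 : ℝ} (hM : MomP 0.035 X (fun S => StX X S ∧ 0.002 ≤ ∑ i, S i ∧ ∑ i, S i ≤ 0.004))
    (hW : WOKG 0.035 w0 w1 w2 0 0 0 X (fun S => StX X S ∧ 0.002 ≤ ∑ i, S i ∧ ∑ i, S i ≤ 0.004)) (hw0 : 0 ≤ w0)
    (hw : w1 + 3 * w2 + 4 * w0 / 0.002 ≤ 0.178) :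
    CoreP (fun S => StX X S ∧ 0.002 ≤ ∑ i, S i ∧ ∑ i, S i ≤ 0.004) X 0.00001 := by
  have h0 : 4 * w0 / 0.002 * 0.002 = 4 * w0 := by
    rw [div_mul_cancel₀ _ (by norm_num)]
  have hd : 0 ≤ 4 * w0 / 0.002 := by positivity
  have e0 := mul_le_mul_of_nonneg_right hw (show (0 : ℝ) ≤ 0.002 by norm_num)
  have e1 := mul_le_mul_of_nonneg_right hw (show (0 : ℝ) ≤ 0.004 by norm_num)
  have e2 := mul_le_mul_of_nonneg_left (show (0.002 : ℝ) ≤ 0.004 by norm_num) hd
  exact coreP_smallG (c0 := 0.000185) (c1 := 0.0039) (c3 := 0.501) (T0 := 0.002)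
    (e := 5.379) asm_a (by norm_num) (by norm_num) (by norm_num) le_rfl le_rfl le_rfl
    (fun K σ hσ a c hC hX S hV hP => ⟨hP.2.1, hP.2.2, fun i => small_of_sum hV.nn hP.2.2 (by norm_num) i⟩)
    hM hW rng_a4s apx_a4s sml_a4s (by norm_num) (by norm_num) (by norm_num) (by norm_num)
    (by linarith) (by linarith)

/-- numbers of the range `Σ S ≤ 0.006` -/
theorem rng_m46 : Rng 0.006 0.05478 0.96126 0.0806 1.04031 0.003121 0.0016341 0.000367 1.0015 1.22842 1.2272 0.1166 where
  X1 := by norm_num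
  rm0 := by norm_num
  rmX := by norm_num
  qm0 := by norm_num
  qmr := by norm_num
  nb0 := by norm_num
  nbq := by norm_num
  nb3 := by norm_num
  ρq := by norm_num
  Rbq := by norm_num
  gg0 := by norm_num
  gR := by norm_num
  k1X := by norm_num
  k12X := by norm_num
  k12k := by norm_num
  t21 := by norm_num
  t2X := by norm_num
  δt := by norm_num
  hε := by norm_num
  ng := by norm_num

theorem apx_m46 : Apx 0.006 0.96126 0.17094 2.04 0.036 1.06278 0.116593 0.176141 0.2395 0.283038 0.5025 where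
  X3 := by norm_num
  Tm0 := by norm_num
  Tm2 := by norm_num
  TmX := by norm_num
  r0 := by norm_num
  rX := by norm_num
  V0 := by norm_num
  VX := by norm_num
  x00 := by norm_num
  x0r := by norm_num
  x1r := by norm_num
  xT := by norm_num
  phi := by norm_num
  line := by
    intro T h0 h1
    have hb : 0 ≤ 0.17094 - T := by linarith
    have b0 := pow_nonneg hb 5
    have b1 := mul_nonneg h0 (pow_nonneg hb 4)
    have b2 := mul_nonneg (pow_nonneg h0 2) (pow_nonneg hb 3)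
    have b3 := mul_nonneg (pow_nonneg h0 3) (pow_nonneg hb 2)
    have b4 := mul_nonneg (pow_nonneg h0 4) hb
    have b5 := pow_nonneg h0 5
    linarith

theorem sml_m46 : Sml 2.04 0.036 0.283038 0.5025 1.0015 (1.22842 - 1.0015) 0.000367 0.0806 0.17094 0 0.079465 0.243846 6.5563 2.1366 where
  A0 := by norm_num
  g10 := by norm_num
  k1g := by norm_num
  k2g := by norm_num
  ε0 := by norm_num
  nb1 := by norm_num
  w30 := by norm_num
  w3A := by norm_num
  hC1 := by norm_num
  C10 := by norm_num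
  hC2 := by norm_num
  hC2' := by norm_num
  C20 := by norm_num
  hK1 := by norm_num
  hK2 := by norm_num
  K20 := by norm_num
  K12 := by norm_num
  gT := by norm_num

/-- **the piece `0.004 ≤ Σ S ≤ 0.006`**: `w1 + 3 w2 + 4 w0 / 0.004 ≤ 0.2107` -/
theorem piece_m46 {X w0 w1 w2 : ℝ} (hM : MomP 0.036 X (fun S => StX X S ∧ 0.004 ≤ ∑ i, S i ∧ ∑ i, S i ≤ 0.006))
    (hW : WOKG 0.036 w0 w1 w2 0 0 0 X (fun S => StX X S ∧ 0.004 ≤ ∑ i, S i ∧ ∑ i, S i ≤ 0.006)) (hw0 : 0 ≤ w0)
    (hw : w1 + 3 * w2 + 4 * w0 / 0.004 ≤ 0.2107) :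
    CoreP (fun S => StX X S ∧ 0.004 ≤ ∑ i, S i ∧ ∑ i, S i ≤ 0.006) X 0.00001 := by
  have h0 : 4 * w0 / 0.004 * 0.004 = 4 * w0 := by
    rw [div_mul_cancel₀ _ (by norm_num)]
  have hd : 0 ≤ 4 * w0 / 0.004 := by positivity
  have e0 := mul_le_mul_of_nonneg_right hw (show (0 : ℝ) ≤ 0.004 by norm_num)
  have e1 := mul_le_mul_of_nonneg_right hw (show (0 : ℝ) ≤ 0.006 by norm_num)
  have e2 := mul_le_mul_of_nonneg_left (show (0.004 : ℝ) ≤ 0.006 by norm_num) hd
  exact coreP_smallG (c0 := 0.000185) (c1 := 0.0039) (c3 := 0.501) (T0 := 0.004)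
    (e := 5.49) asm_a (by norm_num) (by norm_num) (by norm_num) le_rfl le_rfl le_rfl
    (fun K σ hσ a c hC hX S hV hP => ⟨hP.2.1, hP.2.2, fun i => small_of_sum hV.nn hP.2.2 (by norm_num) i⟩)
    hM hW rng_m46 apx_m46 sml_m46 (by norm_num) (by norm_num) (by norm_num) (by norm_num)
    (by linarith) (by linarith)

/-- numbers of the range `Σ S ≤ 0.006` -/
theorem rng_m356 : Rng 0.006 0.05478 0.96126 0.0806 1.04031 0.003121 0.0016341 0.000367 1.0015 1.22842 1.2272 0.1166 where
  X1 := by norm_num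
  rm0 := by norm_num
  rmX := by norm_num
  qm0 := by norm_num
  qmr := by norm_num
  nb0 := by norm_num
  nbq := by norm_num
  nb3 := by norm_num
  ρq := by norm_num
  Rbq := by norm_num
  gg0 := by norm_num
  gR := by norm_num
  k1X := by norm_num
  k12X := by norm_num
  k12k := by norm_num
  t21 := by norm_num
  t2X := by norm_num
  δt := by norm_num
  hε := by norm_num
  ng := by norm_num

theorem apx_m356 : Apx 0.006 0.96126 0.17094 2.04 0.036 1.06278 0.116593 0.176141 0.2395 0.283038 0.5025 where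
  X3 := by norm_num
  Tm0 := by norm_num
  Tm2 := by norm_num
  TmX := by norm_num
  r0 := by norm_num
  rX := by norm_num
  V0 := by norm_num
  VX := by norm_num
  x00 := by norm_num
  x0r := by norm_num
  x1r := by norm_num
  xT := by norm_num
  phi := by norm_num
  line := by
    intro T h0 h1
    have hb : 0 ≤ 0.17094 - T := by linarith
    have b0 := pow_nonneg hb 5
    have b1 := mul_nonneg h0 (pow_nonneg hb 4)
    have b2 := mul_nonneg (pow_nonneg h0 2) (pow_nonneg hb 3)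
    have b3 := mul_nonneg (pow_nonneg h0 3) (pow_nonneg hb 2)
    have b4 := mul_nonneg (pow_nonneg h0 4) hb
    have b5 := pow_nonneg h0 5
    linarith

theorem sml_m356 : Sml 2.04 0.036 0.283038 0.5025 1.0015 (1.22842 - 1.0015) 0.000367 0.0806 0.17094 0 0.079465 0.243846 6.5563 2.1366 where
  A0 := by norm_num
  g10 := by norm_num
  k1g := by norm_num
  k2g := by norm_num
  ε0 := by norm_num
  nb1 := by norm_num
  w30 := by norm_num
  w3A := by norm_num
  hC1 := by norm_num
  C10 := by norm_num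
  hC2 := by norm_num
  hC2' := by norm_num
  C20 := by norm_num
  hK1 := by norm_num
  hK2 := by norm_num
  K20 := by norm_num
  K12 := by norm_num
  gT := by norm_num

/-- **the piece `0.0035 ≤ Σ S ≤ 0.006`**: `w1 + 3 w2 + 4 w0 / 0.0035 ≤ 0.2069` -/
theorem piece_m356 {X w0 w1 w2 : ℝ} (hM : MomP 0.036 X (fun S => StX X S ∧ 0.0035 ≤ ∑ i, S i ∧ ∑ i, S i ≤ 0.006))
    (hW : WOKG 0.036 w0 w1 w2 0 0 0 X (fun S => StX X S ∧ 0.0035 ≤ ∑ i, S i ∧ ∑ i, S i ≤ 0.006)) (hw0 : 0 ≤ w0)
    (hw : w1 + 3 * w2 + 4 * w0 / 0.0035 ≤ 0.2069) :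
    CoreP (fun S => StX X S ∧ 0.0035 ≤ ∑ i, S i ∧ ∑ i, S i ≤ 0.006) X 0.00001 := by
  have h0 : 4 * w0 / 0.0035 * 0.0035 = 4 * w0 := by
    rw [div_mul_cancel₀ _ (by norm_num)]
  have hd : 0 ≤ 4 * w0 / 0.0035 := by positivity
  have e0 := mul_le_mul_of_nonneg_right hw (show (0 : ℝ) ≤ 0.0035 by norm_num)
  have e1 := mul_le_mul_of_nonneg_right hw (show (0 : ℝ) ≤ 0.006 by norm_num)
  have e2 := mul_le_mul_of_nonneg_left (show (0.0035 : ℝ) ≤ 0.006 by norm_num) hd
  exact coreP_smallG (c0 := 0.000185) (c1 := 0.0039) (c3 := 0.501) (T0 := 0.0035)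
    (e := 5.49) asm_a (by norm_num) (by norm_num) (by norm_num) le_rfl le_rfl le_rfl
    (fun K σ hσ a c hC hX S hV hP => ⟨hP.2.1, hP.2.2, fun i => small_of_sum hV.nn hP.2.2 (by norm_num) i⟩)
    hM hW rng_m356 apx_m356 sml_m356 (by norm_num) (by norm_num) (by norm_num) (by norm_num)
    (by linarith) (by linarith)

/-- numbers of the range `Σ S ≤ 0.0068` -/
theorem rng_m468 : Rng 0.0068 0.05831 0.95876 0.08601 1.04302 0.0035463 0.0018633 0.000434 1.0017 1.22891 1.22752 0.11716 where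
  X1 := by norm_num
  rm0 := by norm_num
  rmX := by norm_num
  qm0 := by norm_num
  qmr := by norm_num
  nb0 := by norm_num
  nbq := by norm_num
  nb3 := by norm_num
  ρq := by norm_num
  Rbq := by norm_num
  gg0 := by norm_num
  gR := by norm_num
  k1X := by norm_num
  k12X := by norm_num
  k12k := by norm_num
  t21 := by norm_num
  t2X := by norm_num
  δt := by norm_num
  hε := by norm_num
  ng := by norm_num

theorem apx_m468 : Apx 0.0068 0.95876 0.18246 2.04 0.036 1.063062 0.117155 0.176095 0.239526 0.282964 0.50252 where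
  X3 := by norm_num
  Tm0 := by norm_num
  Tm2 := by norm_num
  TmX := by norm_num
  r0 := by norm_num
  rX := by norm_num
  V0 := by norm_num
  VX := by norm_num
  x00 := by norm_num
  x0r := by norm_num
  x1r := by norm_num
  xT := by norm_num
  phi := by norm_num
  line := by
    intro T h0 h1
    have hb : 0 ≤ 0.18246 - T := by linarith
    have b0 := pow_nonneg hb 5
    have b1 := mul_nonneg h0 (pow_nonneg hb 4)
    have b2 := mul_nonneg (pow_nonneg h0 2) (pow_nonneg hb 3)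
    have b3 := mul_nonneg (pow_nonneg h0 3) (pow_nonneg hb 2)
    have b4 := mul_nonneg (pow_nonneg h0 4) hb
    have b5 := pow_nonneg h0 5
    linarith

theorem sml_m468 : Sml 2.04 0.036 0.282964 0.50252 1.0017 (1.22891 - 1.0017) 0.000434 0.08601 0.18246 0 0.079482 0.240111 6.5735 2.176 where
  A0 := by norm_num
  g10 := by norm_num
  k1g := by norm_num
  k2g := by norm_num
  ε0 := by norm_num
  nb1 := by norm_num
  w30 := by norm_num
  w3A := by norm_num
  hC1 := by norm_num
  C10 := by norm_num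
  hC2 := by norm_num
  hC2' := by norm_num
  C20 := by norm_num
  hK1 := by norm_num
  hK2 := by norm_num
  K20 := by norm_num
  K12 := by norm_num
  gT := by norm_num

/-- **the piece `0.004 ≤ Σ S ≤ 0.0068`**: `w1 + 3 w2 + 4 w0 / 0.004 ≤ 0.2105` -/
theorem piece_m468 {X w0 w1 w2 : ℝ} (hM : MomP 0.036 X (fun S => StX X S ∧ 0.004 ≤ ∑ i, S i ∧ ∑ i, S i ≤ 0.0068))
    (hW : WOKG 0.036 w0 w1 w2 0 0 0 X (fun S => StX X S ∧ 0.004 ≤ ∑ i, S i ∧ ∑ i, S i ≤ 0.0068)) (hw0 : 0 ≤ w0)
    (hw : w1 + 3 * w2 + 4 * w0 / 0.004 ≤ 0.2105) :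
    CoreP (fun S => StX X S ∧ 0.004 ≤ ∑ i, S i ∧ ∑ i, S i ≤ 0.0068) X 0.00001 := by
  have h0 : 4 * w0 / 0.004 * 0.004 = 4 * w0 := by
    rw [div_mul_cancel₀ _ (by norm_num)]
  have hd : 0 ≤ 4 * w0 / 0.004 := by positivity
  have e0 := mul_le_mul_of_nonneg_right hw (show (0 : ℝ) ≤ 0.004 by norm_num)
  have e1 := mul_le_mul_of_nonneg_right hw (show (0 : ℝ) ≤ 0.0068 by norm_num)
  have e2 := mul_le_mul_of_nonneg_left (show (0.004 : ℝ) ≤ 0.0068 by norm_num) hd
  exact coreP_smallG (c0 := 0.000185) (c1 := 0.0039) (c3 := 0.501) (T0 := 0.004)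
    (e := 5.529) asm_a (by norm_num) (by norm_num) (by norm_num) le_rfl le_rfl le_rfl
    (fun K σ hσ a c hC hX S hV hP => ⟨hP.2.1, hP.2.2, fun i => small_of_sum hV.nn hP.2.2 (by norm_num) i⟩)
    hM hW rng_m468 apx_m468 sml_m468 (by norm_num) (by norm_num) (by norm_num) (by norm_num)
    (by linarith) (by linarith)

/-- numbers of the range `Σ S ≤ 0.0068` -/
theorem rng_e68 : Rng 0.0068 0.05831 0.95876 0.08601 1.04302 0.0035463 0.0018633 0.000434 1.0017 1.22891 1.22752 0.11716 where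
  X1 := by norm_num
  rm0 := by norm_num
  rmX := by norm_num
  qm0 := by norm_num
  qmr := by norm_num
  nb0 := by norm_num
  nbq := by norm_num
  nb3 := by norm_num
  ρq := by norm_num
  Rbq := by norm_num
  gg0 := by norm_num
  gR := by norm_num
  k1X := by norm_num
  k12X := by norm_num
  k12k := by norm_num
  t21 := by norm_num
  t2X := by norm_num
  δt := by norm_num
  hε := by norm_num
  ng := by norm_num

theorem apx_e68 : Apx 0.0068 0.95876 0.18246 2.04 0.036 1.063062 0.117155 0.176095 0.239526 0.282964 0.50252 where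
  X3 := by norm_num
  Tm0 := by norm_num
  Tm2 := by norm_num
  TmX := by norm_num
  r0 := by norm_num
  rX := by norm_num
  V0 := by norm_num
  VX := by norm_num
  x00 := by norm_num
  x0r := by norm_num
  x1r := by norm_num
  xT := by norm_num
  phi := by norm_num
  line := by
    intro T h0 h1
    have hb : 0 ≤ 0.18246 - T := by linarith
    have b0 := pow_nonneg hb 5
    have b1 := mul_nonneg h0 (pow_nonneg hb 4)
    have b2 := mul_nonneg (pow_nonneg h0 2) (pow_nonneg hb 3)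
    have b3 := mul_nonneg (pow_nonneg h0 3) (pow_nonneg hb 2)
    have b4 := mul_nonneg (pow_nonneg h0 4) hb
    have b5 := pow_nonneg h0 5
    linarith

theorem sml_e68 : Sml 2.04 0.036 0.282964 0.50252 1.0017 (1.22891 - 1.0017) 0.000434 0.08601 0.18246 0 0.079482 0.240111 6.5735 2.176 where
  A0 := by norm_num
  g10 := by norm_num
  k1g := by norm_num
  k2g := by norm_num
  ε0 := by norm_num
  nb1 := by norm_num
  w30 := by norm_num
  w3A := by norm_num
  hC1 := by norm_num
  C10 := by norm_num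
  hC2 := by norm_num
  hC2' := by norm_num
  C20 := by norm_num
  hK1 := by norm_num
  hK2 := by norm_num
  K20 := by norm_num
  K12 := by norm_num
  gT := by norm_num

/-- **the piece `0.006 ≤ Σ S ≤ 0.0068`**: `w1 + 3 w2 + 4 w0 / 0.006 ≤ 0.214` -/
theorem piece_e68 {X w0 w1 w2 : ℝ} (hM : MomP 0.036 X (fun S => StX X S ∧ 0.006 ≤ ∑ i, S i ∧ ∑ i, S i ≤ 0.0068))
    (hW : WOKG 0.036 w0 w1 w2 0 0 0 X (fun S => StX X S ∧ 0.006 ≤ ∑ i, S i ∧ ∑ i, S i ≤ 0.0068)) (hw0 : 0 ≤ w0)
    (hw : w1 + 3 * w2 + 4 * w0 / 0.006 ≤ 0.214) :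
    CoreP (fun S => StX X S ∧ 0.006 ≤ ∑ i, S i ∧ ∑ i, S i ≤ 0.0068) X 0.00001 := by
  have h0 : 4 * w0 / 0.006 * 0.006 = 4 * w0 := by
    rw [div_mul_cancel₀ _ (by norm_num)]
  have hd : 0 ≤ 4 * w0 / 0.006 := by positivity
  have e0 := mul_le_mul_of_nonneg_right hw (show (0 : ℝ) ≤ 0.006 by norm_num)
  have e1 := mul_le_mul_of_nonneg_right hw (show (0 : ℝ) ≤ 0.0068 by norm_num)
  have e2 := mul_le_mul_of_nonneg_left (show (0.006 : ℝ) ≤ 0.0068 by norm_num) hd
  exact coreP_smallG (c0 := 0.000185) (c1 := 0.0039) (c3 := 0.501) (T0 := 0.006)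
    (e := 5.529) asm_a (by norm_num) (by norm_num) (by norm_num) le_rfl le_rfl le_rfl
    (fun K σ hσ a c hC hX S hV hP => ⟨hP.2.1, hP.2.2, fun i => small_of_sum hV.nn hP.2.2 (by norm_num) i⟩)
    hM hW rng_e68 apx_e68 sml_e68 (by norm_num) (by norm_num) (by norm_num) (by norm_num)
    (by linarith) (by linarith)

/-- numbers of the range `Σ S ≤ 0.00742` -/
theorem rng_e742 : Rng 0.00742 0.06091 0.95693 0.09002 1.04501 0.003877 0.0020423 0.000488 1.00186 1.22929 1.22778 0.1176 where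
  X1 := by norm_num
  rm0 := by norm_num
  rmX := by norm_num
  qm0 := by norm_num
  qmr := by norm_num
  nb0 := by norm_num
  nbq := by norm_num
  nb3 := by norm_num
  ρq := by norm_num
  Rbq := by norm_num
  gg0 := by norm_num
  gR := by norm_num
  k1X := by norm_num
  k12X := by norm_num
  k12k := by norm_num
  t21 := by norm_num
  t2X := by norm_num
  δt := by norm_num
  hε := by norm_num
  ng := by norm_num

theorem apx_e742 : Apx 0.00742 0.95693 0.19096 2.04 0.0362 1.063281 0.11759 0.176058 0.239544 0.282481 0.5026 where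
  X3 := by norm_num
  Tm0 := by norm_num
  Tm2 := by norm_num
  TmX := by norm_num
  r0 := by norm_num
  rX := by norm_num
  V0 := by norm_num
  VX := by norm_num
  x00 := by norm_num
  x0r := by norm_num
  x1r := by norm_num
  xT := by norm_num
  phi := by norm_num
  line := by
    intro T h0 h1
    have hb : 0 ≤ 0.19096 - T := by linarith
    have b0 := pow_nonneg hb 5
    have b1 := mul_nonneg h0 (pow_nonneg hb 4)
    have b2 := mul_nonneg (pow_nonneg h0 2) (pow_nonneg hb 3)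
    have b3 := mul_nonneg (pow_nonneg h0 3) (pow_nonneg hb 2)
    have b4 := mul_nonneg (pow_nonneg h0 4) hb
    have b5 := pow_nonneg h0 5
    linarith

theorem sml_e742 : Sml 2.04 0.0362 0.282481 0.5026 1.00186 (1.22929 - 1.00186) 0.000488 0.09002 0.19096 0 0.079521 0.237057 6.584 2.2087 where
  A0 := by norm_num
  g10 := by norm_num
  k1g := by norm_num
  k2g := by norm_num
  ε0 := by norm_num
  nb1 := by norm_num
  w30 := by norm_num
  w3A := by norm_num
  hC1 := by norm_num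
  C10 := by norm_num
  hC2 := by norm_num
  hC2' := by norm_num
  C20 := by norm_num
  hK1 := by norm_num
  hK2 := by norm_num
  K20 := by norm_num
  K12 := by norm_num
  gT := by norm_num

/-- **the piece `0.006 ≤ Σ S ≤ 0.00742`**: `w1 + 3 w2 + 4 w0 / 0.006 ≤ 0.2121` -/
theorem piece_e742 {X w0 w1 w2 : ℝ} (hM : MomP 0.0362 X (fun S => StX X S ∧ 0.006 ≤ ∑ i, S i ∧ ∑ i, S i ≤ 0.00742))
    (hW : WOKG 0.0362 w0 w1 w2 0 0 0 X (fun S => StX X S ∧ 0.006 ≤ ∑ i, S i ∧ ∑ i, S i ≤ 0.00742)) (hw0 : 0 ≤ w0)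
    (hw : w1 + 3 * w2 + 4 * w0 / 0.006 ≤ 0.2121) :
    CoreP (fun S => StX X S ∧ 0.006 ≤ ∑ i, S i ∧ ∑ i, S i ≤ 0.00742) X 0.00001 := by
  have h0 : 4 * w0 / 0.006 * 0.006 = 4 * w0 := by
    rw [div_mul_cancel₀ _ (by norm_num)]
  have hd : 0 ≤ 4 * w0 / 0.006 := by positivity
  have e0 := mul_le_mul_of_nonneg_right hw (show (0 : ℝ) ≤ 0.006 by norm_num)
  have e1 := mul_le_mul_of_nonneg_right hw (show (0 : ℝ) ≤ 0.00742 by norm_num)
  have e2 := mul_le_mul_of_nonneg_left (show (0.006 : ℝ) ≤ 0.00742 by norm_num) hd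
  exact coreP_smallG (c0 := 0.000185) (c1 := 0.0039) (c3 := 0.501) (T0 := 0.006)
    (e := 5.56) asm_a (by norm_num) (by norm_num) (by norm_num) le_rfl le_rfl le_rfl
    (fun K σ hσ a c hC hX S hV hP => ⟨hP.2.1, hP.2.2, fun i => small_of_sum hV.nn hP.2.2 (by norm_num) i⟩)
    hM hW rng_e742 apx_e742 sml_e742 (by norm_num) (by norm_num) (by norm_num) (by norm_num)
    (by linarith) (by linarith)

/-- numbers of the range `Σ S ≤ 0.0075` -/
theorem rng_e75 : Rng 0.0075 0.06124 0.95669 0.09053 1.04528 0.0039198 0.0020656 0.000495 1.00188 1.22933 1.22781 0.11766 where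
  X1 := by norm_num
  rm0 := by norm_num
  rmX := by norm_num
  qm0 := by norm_num
  qmr := by norm_num
  nb0 := by norm_num
  nbq := by norm_num
  nb3 := by norm_num
  ρq := by norm_num
  Rbq := by norm_num
  gg0 := by norm_num
  gR := by norm_num
  k1X := by norm_num
  k12X := by norm_num
  k12k := by norm_num
  t21 := by norm_num
  t2X := by norm_num
  δt := by norm_num
  hε := by norm_num
  ng := by norm_num

theorem apx_e75 : Apx 0.0075 0.95669 0.19203 2.04 0.0362 1.063309 0.117646 0.176054 0.239547 0.282475 0.50261 where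
  X3 := by norm_num
  Tm0 := by norm_num
  Tm2 := by norm_num
  TmX := by norm_num
  r0 := by norm_num
  rX := by norm_num
  V0 := by norm_num
  VX := by norm_num
  x00 := by norm_num
  x0r := by norm_num
  x1r := by norm_num
  xT := by norm_num
  phi := by norm_num
  line := by
    intro T h0 h1
    have hb : 0 ≤ 0.19203 - T := by linarith
    have b0 := pow_nonneg hb 5
    have b1 := mul_nonneg h0 (pow_nonneg hb 4)
    have b2 := mul_nonneg (pow_nonneg h0 2) (pow_nonneg hb 3)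
    have b3 := mul_nonneg (pow_nonneg h0 3) (pow_nonneg hb 2)
    have b4 := mul_nonneg (pow_nonneg h0 4) hb
    have b5 := pow_nonneg h0 5
    linarith

theorem sml_e75 : Sml 2.04 0.0362 0.282475 0.50261 1.00188 (1.22933 - 1.00188) 0.000495 0.09053 0.19203 0 0.079521 0.236712 6.5858 2.2125 where
  A0 := by norm_num
  g10 := by norm_num
  k1g := by norm_num
  k2g := by norm_num
  ε0 := by norm_num
  nb1 := by norm_num
  w30 := by norm_num
  w3A := by norm_num
  hC1 := by norm_num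
  C10 := by norm_num
  hC2 := by norm_num
  hC2' := by norm_num
  C20 := by norm_num
  hK1 := by norm_num
  hK2 := by norm_num
  K20 := by norm_num
  K12 := by norm_num
  gT := by norm_num

/-- **the piece `0.006 ≤ Σ S ≤ 0.0075`**: `w1 + 3 w2 + 4 w0 / 0.006 ≤ 0.2119` -/
theorem piece_e75 {X w0 w1 w2 : ℝ} (hM : MomP 0.0362 X (fun S => StX X S ∧ 0.006 ≤ ∑ i, S i ∧ ∑ i, S i ≤ 0.0075))
    (hW : WOKG 0.0362 w0 w1 w2 0 0 0 X (fun S => StX X S ∧ 0.006 ≤ ∑ i, S i ∧ ∑ i, S i ≤ 0.0075)) (hw0 : 0 ≤ w0)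
    (hw : w1 + 3 * w2 + 4 * w0 / 0.006 ≤ 0.2119) :
    CoreP (fun S => StX X S ∧ 0.006 ≤ ∑ i, S i ∧ ∑ i, S i ≤ 0.0075) X 0.00001 := by
  have h0 : 4 * w0 / 0.006 * 0.006 = 4 * w0 := by
    rw [div_mul_cancel₀ _ (by norm_num)]
  have hd : 0 ≤ 4 * w0 / 0.006 := by positivity
  have e0 := mul_le_mul_of_nonneg_right hw (show (0 : ℝ) ≤ 0.006 by norm_num)
  have e1 := mul_le_mul_of_nonneg_right hw (show (0 : ℝ) ≤ 0.0075 by norm_num)
  have e2 := mul_le_mul_of_nonneg_left (show (0.006 : ℝ) ≤ 0.0075 by norm_num) hd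
  exact coreP_smallG (c0 := 0.000185) (c1 := 0.0039) (c3 := 0.501) (T0 := 0.006)
    (e := 5.564) asm_a (by norm_num) (by norm_num) (by norm_num) le_rfl le_rfl le_rfl
    (fun K σ hσ a c hC hX S hV hP => ⟨hP.2.1, hP.2.2, fun i => small_of_sum hV.nn hP.2.2 (by norm_num) i⟩)
    hM hW rng_e75 apx_e75 sml_e75 (by norm_num) (by norm_num) (by norm_num) (by norm_num)
    (by linarith) (by linarith)

/-- numbers of the range `Σ S ≤ 0.0082` -/
theorem rng_f82 : Rng 0.0082 0.06404 0.95471 0.09487 1.04744 0.0042945 0.0022696 0.000559 1.00205 1.22976 1.22809 0.11815 where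
  X1 := by norm_num
  rm0 := by norm_num
  rmX := by norm_num
  qm0 := by norm_num
  qmr := by norm_num
  nb0 := by norm_num
  nbq := by norm_num
  nb3 := by norm_num
  ρq := by norm_num
  Rbq := by norm_num
  gg0 := by norm_num
  gR := by norm_num
  k1X := by norm_num
  k12X := by norm_num
  k12k := by norm_num
  t21 := by norm_num
  t2X := by norm_num
  δt := by norm_num
  hε := by norm_num
  ng := by norm_num

theorem apx_f82 : Apx 0.0082 0.95471 0.20121 2.04 0.0366 1.063556 0.118138 0.176013 0.239568 0.281562 0.50277 where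
  X3 := by norm_num
  Tm0 := by norm_num
  Tm2 := by norm_num
  TmX := by norm_num
  r0 := by norm_num
  rX := by norm_num
  V0 := by norm_num
  VX := by norm_num
  x00 := by norm_num
  x0r := by norm_num
  x1r := by norm_num
  xT := by norm_num
  phi := by norm_num
  line := by
    intro T h0 h1
    have hb : 0 ≤ 0.20121 - T := by linarith
    have b0 := pow_nonneg hb 5
    have b1 := mul_nonneg h0 (pow_nonneg hb 4)
    have b2 := mul_nonneg (pow_nonneg h0 2) (pow_nonneg hb 3)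
    have b3 := mul_nonneg (pow_nonneg h0 3) (pow_nonneg hb 2)
    have b4 := mul_nonneg (pow_nonneg h0 4) hb
    have b5 := pow_nonneg h0 5
    linarith

theorem sml_f82 : Sml 2.04 0.0366 0.281562 0.50277 1.00205 (1.22976 - 1.00205) 0.000559 0.09487 0.20121 0 0.079588 0.233137 6.5952 2.2515 where
  A0 := by norm_num
  g10 := by norm_num
  k1g := by norm_num
  k2g := by norm_num
  ε0 := by norm_num
  nb1 := by norm_num
  w30 := by norm_num
  w3A := by norm_num
  hC1 := by norm_num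
  C10 := by norm_num
  hC2 := by norm_num
  hC2' := by norm_num
  C20 := by norm_num
  hK1 := by norm_num
  hK2 := by norm_num
  K20 := by norm_num
  K12 := by norm_num
  gT := by norm_num

/-- **the piece `0.0068 ≤ Σ S ≤ 0.0082`**: `w1 + 3 w2 + 4 w0 / 0.0068 ≤ 0.2089` -/
theorem piece_f82 {X w0 w1 w2 : ℝ} (hM : MomP 0.0366 X (fun S => StX X S ∧ 0.0068 ≤ ∑ i, S i ∧ ∑ i, S i ≤ 0.0082))
    (hW : WOKG 0.0366 w0 w1 w2 0 0 0 X (fun S => StX X S ∧ 0.0068 ≤ ∑ i, S i ∧ ∑ i, S i ≤ 0.0082)) (hw0 : 0 ≤ w0)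
    (hw : w1 + 3 * w2 + 4 * w0 / 0.0068 ≤ 0.2089) :
    CoreP (fun S => StX X S ∧ 0.0068 ≤ ∑ i, S i ∧ ∑ i, S i ≤ 0.0082) X 0.00001 := by
  have h0 : 4 * w0 / 0.0068 * 0.0068 = 4 * w0 := by
    rw [div_mul_cancel₀ _ (by norm_num)]
  have hd : 0 ≤ 4 * w0 / 0.0068 := by positivity
  have e0 := mul_le_mul_of_nonneg_right hw (show (0 : ℝ) ≤ 0.0068 by norm_num)
  have e1 := mul_le_mul_of_nonneg_right hw (show (0 : ℝ) ≤ 0.0082 by norm_num)
  have e2 := mul_le_mul_of_nonneg_left (show (0.0068 : ℝ) ≤ 0.0082 by norm_num) hd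
  exact coreP_smallG (c0 := 0.000185) (c1 := 0.0039) (c3 := 0.501) (T0 := 0.0068)
    (e := 5.6) asm_a (by norm_num) (by norm_num) (by norm_num) le_rfl le_rfl le_rfl
    (fun K σ hσ a c hC hX S hV hP => ⟨hP.2.1, hP.2.2, fun i => small_of_sum hV.nn hP.2.2 (by norm_num) i⟩)
    hM hW rng_f82 apx_f82 sml_f82 (by norm_num) (by norm_num) (by norm_num) (by norm_num)
    (by linarith) (by linarith)

/-- numbers of the range `Σ S ≤ 0.0087` -/
theorem rng_f87 : Rng 0.0087 0.06596 0.95335 0.09785 1.04894 0.0045629 0.0024163 0.000606 1.00218 1.23007 1.2283 0.1185 where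
  X1 := by norm_num
  rm0 := by norm_num
  rmX := by norm_num
  qm0 := by norm_num
  qmr := by norm_num
  nb0 := by norm_num
  nbq := by norm_num
  nb3 := by norm_num
  ρq := by norm_num
  Rbq := by norm_num
  gg0 := by norm_num
  gR := by norm_num
  k1X := by norm_num
  k12X := by norm_num
  k12k := by norm_num
  t21 := by norm_num
  t2X := by norm_num
  δt := by norm_num
  hε := by norm_num
  ng := by norm_num

theorem apx_f87 : Apx 0.0087 0.95335 0.20755 2.04 0.0366 1.063732 0.118489 0.175984 0.239583 0.281516 0.50279 where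
  X3 := by norm_num
  Tm0 := by norm_num
  Tm2 := by norm_num
  TmX := by norm_num
  r0 := by norm_num
  rX := by norm_num
  V0 := by norm_num
  VX := by norm_num
  x00 := by norm_num
  x0r := by norm_num
  x1r := by norm_num
  xT := by norm_num
  phi := by norm_num
  line := by
    intro T h0 h1
    have hb : 0 ≤ 0.20755 - T := by linarith
    have b0 := pow_nonneg hb 5
    have b1 := mul_nonneg h0 (pow_nonneg hb 4)
    have b2 := mul_nonneg (pow_nonneg h0 2) (pow_nonneg hb 3)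
    have b3 := mul_nonneg (pow_nonneg h0 3) (pow_nonneg hb 2)
    have b4 := mul_nonneg (pow_nonneg h0 4) hb
    have b5 := pow_nonneg h0 5
    linarith

theorem sml_f87 : Sml 2.04 0.0366 0.281516 0.50279 1.00218 (1.23007 - 1.00218) 0.000606 0.09785 0.20755 0 0.079598 0.231085 6.6047 2.2751 where
  A0 := by norm_num
  g10 := by norm_num
  k1g := by norm_num
  k2g := by norm_num
  ε0 := by norm_num
  nb1 := by norm_num
  w30 := by norm_num
  w3A := by norm_num
  hC1 := by norm_num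
  C10 := by norm_num
  hC2 := by norm_num
  hC2' := by norm_num
  C20 := by norm_num
  hK1 := by norm_num
  hK2 := by norm_num
  K20 := by norm_num
  K12 := by norm_num
  gT := by norm_num

/-- **the piece `0.0068 ≤ Σ S ≤ 0.0087`**: `w1 + 3 w2 + 4 w0 / 0.0068 ≤ 0.2071` -/
theorem piece_f87 {X w0 w1 w2 : ℝ} (hM : MomP 0.0366 X (fun S => StX X S ∧ 0.0068 ≤ ∑ i, S i ∧ ∑ i, S i ≤ 0.0087))
    (hW : WOKG 0.0366 w0 w1 w2 0 0 0 X (fun S => StX X S ∧ 0.0068 ≤ ∑ i, S i ∧ ∑ i, S i ≤ 0.0087)) (hw0 : 0 ≤ w0)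
    (hw : w1 + 3 * w2 + 4 * w0 / 0.0068 ≤ 0.2071) :
    CoreP (fun S => StX X S ∧ 0.0068 ≤ ∑ i, S i ∧ ∑ i, S i ≤ 0.0087) X 0.00001 := by
  have h0 : 4 * w0 / 0.0068 * 0.0068 = 4 * w0 := by
    rw [div_mul_cancel₀ _ (by norm_num)]
  have hd : 0 ≤ 4 * w0 / 0.0068 := by positivity
  have e0 := mul_le_mul_of_nonneg_right hw (show (0 : ℝ) ≤ 0.0068 by norm_num)
  have e1 := mul_le_mul_of_nonneg_right hw (show (0 : ℝ) ≤ 0.0087 by norm_num)
  have e2 := mul_le_mul_of_nonneg_left (show (0.0068 : ℝ) ≤ 0.0087 by norm_num) hd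
  exact coreP_smallG (c0 := 0.000185) (c1 := 0.0039) (c3 := 0.501) (T0 := 0.0068)
    (e := 5.623) asm_a (by norm_num) (by norm_num) (by norm_num) le_rfl le_rfl le_rfl
    (fun K σ hσ a c hC hX S hV hP => ⟨hP.2.1, hP.2.2, fun i => small_of_sum hV.nn hP.2.2 (by norm_num) i⟩)
    hM hW rng_f87 apx_f87 sml_f87 (by norm_num) (by norm_num) (by norm_num) (by norm_num)
    (by linarith) (by linarith)

end Pool.Agent.Helper31.SR.PcS
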