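import Pool.Agent.Helper31.SR.MilH
import Pool.Agent.Helper31.SR.PcS

/-!
# Project MEI (M2), track A: the window theorems from finer tables

Ranges `[.002, .004]`, `[.004, .006]`, `[.006, .0068]`, `[.006, .00742]`, ...
-/

set_option autoImplicit false

namespace Pool.Agent.Helper31.SR.MilI

open Set Metric MeasureTheory Helper80.CW Helper82.CW Helper14.CW Helper93.MEI Helper82.M2
open Helper14.MEI2 Pool.Agent.Helper73.MEI Helper37.MEI Helper41.MEI
open Helper33.MEI (Wi)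
open Helper78.MEI
open Helper13.PLM (StX stX SumB coreP_sumB)
open Pool.Agent.Helper73.MEI.ArCor
open Pool.Agent.Helper31.SR Pool.Agent.Helper31.SR.EndA Pool.Agent.Helper31.SR.PcN
open Pool.Agent.Helper31.SR.PcM Pool.Agent.Helper31.SR.MilF Pool.Agent.Helper31.SR.MilB
open Pool.Agent.Helper31.SR.PcS Pool.Agent.Helper31.SR.MomA Pool.Agent.Helper31.SR.MilG
open Pool.Agent.Helper31.SR.MilH
open scoped RealInnerProductSpace ENNReal

theorem pc_a4 {X : ℝ} (h : WR X 0.036 0.002 0.004 0.1759) :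
    CoreP (Pc X 0.002 0.004) X 0.00001 := by
  obtain ⟨a0, a1, a2, a3, a4, a5⟩ := h
  exact piece_a4 (momPr (by norm_num) (by norm_num)) a5 a3 a4

theorem pc_a4r {X : ℝ} (h : WR X 0.0355 0.002 0.004 0.177) :
    CoreP (Pc X 0.002 0.004) X 0.00001 := by
  obtain ⟨a0, a1, a2, a3, a4, a5⟩ := h
  exact piece_a4r (momPr (by norm_num) (by norm_num)) a5 a3 a4

theorem pc_a4s {X : ℝ} (h : WR X 0.035 0.002 0.004 0.178) :
    CoreP (Pc X 0.002 0.004) X 0.00001 := by
  obtain ⟨a0, a1, a2, a3, a4, a5⟩ := h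
  exact piece_a4s (momPr (by norm_num) (by norm_num)) a5 a3 a4

theorem pc_m46 {X : ℝ} (h : WR X 0.036 0.004 0.006 0.2107) :
    CoreP (Pc X 0.004 0.006) X 0.00001 := by
  obtain ⟨a0, a1, a2, a3, a4, a5⟩ := h
  exact piece_m46 (momPr (by norm_num) (by norm_num)) a5 a3 a4

theorem pc_m356 {X : ℝ} (h : WR X 0.036 0.0035 0.006 0.2069) :
    CoreP (Pc X 0.0035 0.006) X 0.00001 := by
  obtain ⟨a0, a1, a2, a3, a4, a5⟩ := h
  exact piece_m356 (momPr (by norm_num) (by norm_num)) a5 a3 a4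

theorem pc_m468 {X : ℝ} (h : WR X 0.036 0.004 0.0068 0.2105) :
    CoreP (Pc X 0.004 0.0068) X 0.00001 := by
  obtain ⟨a0, a1, a2, a3, a4, a5⟩ := h
  exact piece_m468 (momPr (by norm_num) (by norm_num)) a5 a3 a4

theorem pc_e68 {X : ℝ} (h : WR X 0.036 0.006 0.0068 0.214) :
    CoreP (Pc X 0.006 0.0068) X 0.00001 := by
  obtain ⟨a0, a1, a2, a3, a4, a5⟩ := h
  exact piece_e68 (momPr (by norm_num) (by norm_num)) a5 a3 a4

theorem pc_e742 {X : ℝ} (h : WR X 0.0362 0.006 0.00742 0.2121) :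
    CoreP (Pc X 0.006 0.00742) X 0.00001 := by
  obtain ⟨a0, a1, a2, a3, a4, a5⟩ := h
  exact piece_e742 (momPr (by norm_num) (by norm_num)) a5 a3 a4

theorem pc_e75 {X : ℝ} (h : WR X 0.0362 0.006 0.0075 0.2119) :
    CoreP (Pc X 0.006 0.0075) X 0.00001 := by
  obtain ⟨a0, a1, a2, a3, a4, a5⟩ := h
  exact piece_e75 (momPr (by norm_num) (by norm_num)) a5 a3 a4

theorem pc_f82 {X : ℝ} (h : WR X 0.0366 0.0068 0.0082 0.2089) :
    CoreP (Pc X 0.0068 0.0082) X 0.00001 := by
  obtain ⟨a0, a1, a2, a3, a4, a5⟩ := h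
  exact piece_f82 (momPr (by norm_num) (by norm_num)) a5 a3 a4

theorem pc_f87 {X : ℝ} (h : WR X 0.0366 0.0068 0.0087 0.2071) :
    CoreP (Pc X 0.0068 0.0087) X 0.00001 := by
  obtain ⟨a0, a1, a2, a3, a4, a5⟩ := h
  exact piece_f87 (momPr (by norm_num) (by norm_num)) a5 a3 a4

/-- a smaller range -/
theorem WR.mono {X ρ T0 T1 b T0' T1' b' : ℝ} (h : WR X ρ T0 T1 b) (h0 : 0 < T0) (h1 : T0 ≤ T0')
    (h2 : T1' ≤ T1) (h3 : b ≤ b') : WR X ρ T0' T1' b' := by
  obtain ⟨w0, w1, w2, a1, a2, a3⟩ := h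
  refine ⟨w0, w1, w2, a1, ?_, fun K σ hσ a c hC hX S hV hP => a3 K σ hσ a c hC hX S hV
    ⟨hP.1, h1.trans hP.2.1, hP.2.2.trans h2⟩⟩
  have : 4 * w0 / T0' ≤ 4 * w0 / T0 := div_le_div_of_nonneg_left (by positivity) h0 h1
  linarith

/-- **circumradius at least `.6121`** from the core statement on `[.002, .006]` -/
theorem winK_6121 (hI : WL) (h : CoreP (Pc 0.00608 0.002 0.006) 0.00608 0.00001) : Win 0.6121 :=
  window_B (R' := 0.612064) (κ := 0.00001) (by norm_num) (by norm_num) (by norm_num)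
    (by norm_num) (by norm_num) (by norm_num)
    (Helper13.PLM.sumB_00608.mono le_rfl (by norm_num)) (hI.low _) h

/-- **circumradius at least `.61204`** from the core statement on `[.002, .0068]` -/
theorem winK_61204 (hI : WL) (h : CoreP (Pc 0.0069 0.002 0.0068) 0.0069 0.00001) : Win 0.61204 :=
  window_B (R' := 0.61203) (κ := 0.00001) (by norm_num) (by norm_num) (by norm_num)
    (by norm_num) (by norm_num) (by norm_num) Helper13.PLM.sumB_0069 (hI.low _) h

/-- **circumradius at least `.612`** from the core statement on `[.002, .0082]` -/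
theorem winK_612 (hI : WL) (h : CoreP (Pc 0.00833 0.002 0.0082) 0.00833 0.00001) : Win 0.612 :=
  window_B (R' := 0.61195) (κ := 0.00001) (by norm_num) (by norm_num) (by norm_num)
    (by norm_num) (by norm_num) (by norm_num) Helper13.PLM.sumB_00833 (hI.low _) h

/-- **circumradius at least `.612`** from the core statement on `[.002, .00742]` -/
theorem winL_612 (hB : SumB 0.00752 0.00742) (hI : WL)
    (h : CoreP (Pc 0.00752 0.002 0.00742) 0.00752 0.00001) : Win 0.612 :=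
  window_B (R' := 0.611995) (κ := 0.00001) (by norm_num) (by norm_num) (by norm_num)
    (by norm_num) (by norm_num) (by norm_num) hB (hI.low _) h

/-- tables on `[.002, .004]` and `[.004, .006]` -/
theorem winA_6121 (hI : WL) (ha : WR 0.00608 0.0355 0.002 0.004 0.177)
    (hb : WR 0.00608 0.036 0.004 0.006 0.2107) : Win 0.6121 :=
  winK_6121 hI (join (pc_a4r ha) (pc_m46 hb))

/-- tables on `[.002, .004]`, `[.004, .006]` and `[.006, .0068]` -/
theorem winA_61204 (hI : WL) (ha : WR 0.0069 0.0355 0.002 0.004 0.177)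
    (hb : WR 0.0069 0.036 0.004 0.006 0.2107) (hc : WR 0.0069 0.036 0.006 0.0068 0.214) :
    Win 0.61204 :=
  winK_61204 hI (join (join (pc_a4r ha) (pc_m46 hb)) (pc_e68 hc))

/-- tables on `[.002, .004]`, `[.004, .006]` and `[.006, .00742]` -/
theorem winA_612 (hB : SumB 0.00752 0.00742) (hI : WL) (ha : WR 0.00752 0.0355 0.002 0.004 0.177)
    (hb : WR 0.00752 0.036 0.004 0.006 0.2107) (hc : WR 0.00752 0.0362 0.006 0.00742 0.2121) :
    Win 0.612 :=
  winL_612 hB hI (join (join (pc_a4r ha) (pc_m46 hb)) (pc_e742 hc))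

end Pool.Agent.Helper31.SR.MilI
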