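import Pool.Agent.Helper73.MEI.MA3
import Pool.Agent.Helper97.MEI.AsmFin
import Pool.Agent.Helper31.SR.PcN

/-!
# Project MEI (M2), milestone A: the numbers of the pieces of the small range

For every piece `T0 ≤ Σ S ≤ T1`: the numbers of `face_fv` and the budget of the cost of the second
order term (form `WOKG` of helper73's `coreP_smallG`).
-/

set_option autoImplicit false

namespace Pool.Agent.Helper31.SR.PcT

open Set Metric MeasureTheory Helper80.CW Helper82.CW Helper14.CW Helper93.MEI Helper82.M2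
open Helper14.MEI2 Pool.Agent.Helper73.MEI Helper37.MEI Helper41.MEI
open Helper33.MEI (Wi)
open Helper78.MEI
open Helper13.PLM (StX stX)
open Pool.Agent.Helper73.MEI.ArCor
open Pool.Agent.Helper31.SR Pool.Agent.Helper31.SR.EndA Pool.Agent.Helper31.SR.PcN
open scoped RealInnerProductSpace ENNReal

/-- numbers of the range `Σ S ≤ 0.0092` -/
theorem rng_g92 : Rng 0.0092 0.06783 0.95203 0.10076 1.05039 0.0048318 0.0025637 0.000655 1.0023 1.23037 1.2285 0.11885 where
  X1 := by norm_num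
  rm0 := by norm_num
  rmX := by norm_num
  qm0 := by norm_num
  qmr := by norm_num
  nb0 := by norm_num
  nbq := by norm_num
  nb3 := by norm_num
  ρq := by norm_num
  Rbq := by norm_num
  gg0 := by norm_num
  gR := by norm_num
  k1X := by norm_num
  k12X := by norm_num
  k12k := by norm_num
  t21 := by norm_num
  t2X := by norm_num
  δt := by norm_num
  hε := by norm_num
  ng := by norm_num

theorem apx_g92 : Apx 0.0092 0.95203 0.21373 2.04 0.0368 1.063908 0.118839 0.175955 0.239599 0.281046 0.50286 where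
  X3 := by norm_num
  Tm0 := by norm_num
  Tm2 := by norm_num
  TmX := by norm_num
  r0 := by norm_num
  rX := by norm_num
  V0 := by norm_num
  VX := by norm_num
  x00 := by norm_num
  x0r := by norm_num
  x1r := by norm_num
  xT := by norm_num
  phi := by norm_num
  line := by
    intro T h0 h1
    have hb : 0 ≤ 0.21373 - T := by linarith
    have b0 := pow_nonneg hb 5
    have b1 := mul_nonneg h0 (pow_nonneg hb 4)
    have b2 := mul_nonneg (pow_nonneg h0 2) (pow_nonneg hb 3)
    have b3 := mul_nonneg (pow_nonneg h0 3) (pow_nonneg hb 2)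
    have b4 := mul_nonneg (pow_nonneg h0 4) hb
    have b5 := pow_nonneg h0 5
    linarith

theorem sml_g92 : Sml 2.04 0.0368 0.281046 0.50286 1.0023 (1.23037 - 1.0023) 0.000655 0.10076 0.21373 0 0.079635 0.228784 6.6118 2.3015 where
  A0 := by norm_num
  g10 := by norm_num
  k1g := by norm_num
  k2g := by norm_num
  ε0 := by norm_num
  nb1 := by norm_num
  w30 := by norm_num
  w3A := by norm_num
  hC1 := by norm_num
  C10 := by norm_num
  hC2 := by norm_num
  hC2' := by norm_num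
  C20 := by norm_num
  hK1 := by norm_num
  hK2 := by norm_num
  K20 := by norm_num
  K12 := by norm_num
  gT := by norm_num

/-- **the piece `0.00742 ≤ Σ S ≤ 0.0092`**: `w1 + 3 w2 + 4 w0 / 0.00742 ≤ 0.2048` -/
theorem piece_g92 {X w0 w1 w2 : ℝ} (hM : MomP 0.0368 X (fun S => StX X S ∧ 0.00742 ≤ ∑ i, S i ∧ ∑ i, S i ≤ 0.0092))
    (hW : WOKG 0.0368 w0 w1 w2 0 0 0 X (fun S => StX X S ∧ 0.00742 ≤ ∑ i, S i ∧ ∑ i, S i ≤ 0.0092)) (hw0 : 0 ≤ w0)
    (hw : w1 + 3 * w2 + 4 * w0 / 0.00742 ≤ 0.2048) :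
    CoreP (fun S => StX X S ∧ 0.00742 ≤ ∑ i, S i ∧ ∑ i, S i ≤ 0.0092) X 0.00001 := by
  have h0 : 4 * w0 / 0.00742 * 0.00742 = 4 * w0 := by
    rw [div_mul_cancel₀ _ (by norm_num)]
  have hd : 0 ≤ 4 * w0 / 0.00742 := by positivity
  have e0 := mul_le_mul_of_nonneg_right hw (show (0 : ℝ) ≤ 0.00742 by norm_num)
  have e1 := mul_le_mul_of_nonneg_right hw (show (0 : ℝ) ≤ 0.0092 by norm_num)
  have e2 := mul_le_mul_of_nonneg_left (show (0.00742 : ℝ) ≤ 0.0092 by norm_num) hd
  exact coreP_smallG (c0 := 0.000185) (c1 := 0.0039) (c3 := 0.501) (T0 := 0.00742)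
    (e := 5.647) asm_a (by norm_num) (by norm_num) (by norm_num) le_rfl le_rfl le_rfl
    (fun K σ hσ a c hC hX S hV hP => ⟨hP.2.1, hP.2.2, fun i => small_of_sum hV.nn hP.2.2 (by norm_num) i⟩)
    hM hW rng_g92 apx_g92 sml_g92 (by norm_num) (by norm_num) (by norm_num) (by norm_num)
    (by linarith) (by linarith)

/-- numbers of the range `Σ S ≤ 0.0107` -/
theorem rng_g107 : Rng 0.0107 0.07315 0.94827 0.1091 1.05456 0.0056419 0.0030107 0.000808 1.00268 1.23128 1.22911 0.11991 where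
  X1 := by norm_num
  rm0 := by norm_num
  rmX := by norm_num
  qm0 := by norm_num
  qmr := by norm_num
  nb0 := by norm_num
  nbq := by norm_num
  nb3 := by norm_num
  ρq := by norm_num
  Rbq := by norm_num
  gg0 := by norm_num
  gR := by norm_num
  k1X := by norm_num
  k12X := by norm_num
  k12k := by norm_num
  t21 := by norm_num
  t2X := by norm_num
  δt := by norm_num
  hε := by norm_num
  ng := by norm_num

theorem apx_g107 : Apx 0.0107 0.94827 0.23141 2.04 0.0373 1.064437 0.119892 0.175867 0.239643 0.279848 0.50308 where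
  X3 := by norm_num
  Tm0 := by norm_num
  Tm2 := by norm_num
  TmX := by norm_num
  r0 := by norm_num
  rX := by norm_num
  V0 := by norm_num
  VX := by norm_num
  x00 := by norm_num
  x0r := by norm_num
  x1r := by norm_num
  xT := by norm_num
  phi := by norm_num
  line := by
    intro T h0 h1
    have hb : 0 ≤ 0.23141 - T := by linarith
    have b0 := pow_nonneg hb 5
    have b1 := mul_nonneg h0 (pow_nonneg hb 4)
    have b2 := mul_nonneg (pow_nonneg h0 2) (pow_nonneg hb 3)
    have b3 := mul_nonneg (pow_nonneg h0 3) (pow_nonneg hb 2)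
    have b4 := mul_nonneg (pow_nonneg h0 4) hb
    have b5 := pow_nonneg h0 5
    linarith

theorem sml_g107 : Sml 2.04 0.0373 0.279848 0.50308 1.00268 (1.23128 - 1.00268) 0.000808 0.1091 0.23141 0 0.07973 0.222321 6.633 2.3788 where
  A0 := by norm_num
  g10 := by norm_num
  k1g := by norm_num
  k2g := by norm_num
  ε0 := by norm_num
  nb1 := by norm_num
  w30 := by norm_num
  w3A := by norm_num
  hC1 := by norm_num
  C10 := by norm_num
  hC2 := by norm_num
  hC2' := by norm_num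
  C20 := by norm_num
  hK1 := by norm_num
  hK2 := by norm_num
  K20 := by norm_num
  K12 := by norm_num
  gT := by norm_num

/-- **the piece `0.00742 ≤ Σ S ≤ 0.0107`**: `w1 + 3 w2 + 4 w0 / 0.00742 ≤ 0.1971` -/
theorem piece_g107 {X w0 w1 w2 : ℝ} (hM : MomP 0.0373 X (fun S => StX X S ∧ 0.00742 ≤ ∑ i, S i ∧ ∑ i, S i ≤ 0.0107))
    (hW : WOKG 0.0373 w0 w1 w2 0 0 0 X (fun S => StX X S ∧ 0.00742 ≤ ∑ i, S i ∧ ∑ i, S i ≤ 0.0107)) (hw0 : 0 ≤ w0)
    (hw : w1 + 3 * w2 + 4 * w0 / 0.00742 ≤ 0.1971) :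
    CoreP (fun S => StX X S ∧ 0.00742 ≤ ∑ i, S i ∧ ∑ i, S i ≤ 0.0107) X 0.00001 := by
  have h0 : 4 * w0 / 0.00742 * 0.00742 = 4 * w0 := by
    rw [div_mul_cancel₀ _ (by norm_num)]
  have hd : 0 ≤ 4 * w0 / 0.00742 := by positivity
  have e0 := mul_le_mul_of_nonneg_right hw (show (0 : ℝ) ≤ 0.00742 by norm_num)
  have e1 := mul_le_mul_of_nonneg_right hw (show (0 : ℝ) ≤ 0.0107 by norm_num)
  have e2 := mul_le_mul_of_nonneg_left (show (0.00742 : ℝ) ≤ 0.0107 by norm_num) hd
  exact coreP_smallG (c0 := 0.000185) (c1 := 0.0039) (c3 := 0.501) (T0 := 0.00742)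
    (e := 5.718) asm_a (by norm_num) (by norm_num) (by norm_num) le_rfl le_rfl le_rfl
    (fun K σ hσ a c hC hX S hV hP => ⟨hP.2.1, hP.2.2, fun i => small_of_sum hV.nn hP.2.2 (by norm_num) i⟩)
    hM hW rng_g107 apx_g107 sml_g107 (by norm_num) (by norm_num) (by norm_num) (by norm_num)
    (by linarith) (by linarith)

/-- numbers of the range `Σ S ≤ 0.0107` -/
theorem rng_h107 : Rng 0.0107 0.07315 0.94827 0.1091 1.05456 0.0056419 0.0030107 0.000808 1.00268 1.23128 1.22911 0.11991 where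
  X1 := by norm_num
  rm0 := by norm_num
  rmX := by norm_num
  qm0 := by norm_num
  qmr := by norm_num
  nb0 := by norm_num
  nbq := by norm_num
  nb3 := by norm_num
  ρq := by norm_num
  Rbq := by norm_num
  gg0 := by norm_num
  gR := by norm_num
  k1X := by norm_num
  k12X := by norm_num
  k12k := by norm_num
  t21 := by norm_num
  t2X := by norm_num
  δt := by norm_num
  hε := by norm_num
  ng := by norm_num

theorem apx_h107 : Apx 0.0107 0.94827 0.23141 2.04 0.0373 1.064437 0.119892 0.175867 0.239643 0.279848 0.50308 where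
  X3 := by norm_num
  Tm0 := by norm_num
  Tm2 := by norm_num
  TmX := by norm_num
  r0 := by norm_num
  rX := by norm_num
  V0 := by norm_num
  VX := by norm_num
  x00 := by norm_num
  x0r := by norm_num
  x1r := by norm_num
  xT := by norm_num
  phi := by norm_num
  line := by
    intro T h0 h1
    have hb : 0 ≤ 0.23141 - T := by linarith
    have b0 := pow_nonneg hb 5
    have b1 := mul_nonneg h0 (pow_nonneg hb 4)
    have b2 := mul_nonneg (pow_nonneg h0 2) (pow_nonneg hb 3)
    have b3 := mul_nonneg (pow_nonneg h0 3) (pow_nonneg hb 2)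
    have b4 := mul_nonneg (pow_nonneg h0 4) hb
    have b5 := pow_nonneg h0 5
    linarith

theorem sml_h107 : Sml 2.04 0.0373 0.279848 0.50308 1.00268 (1.23128 - 1.00268) 0.000808 0.1091 0.23141 0 0.07973 0.222321 6.633 2.3788 where
  A0 := by norm_num
  g10 := by norm_num
  k1g := by norm_num
  k2g := by norm_num
  ε0 := by norm_num
  nb1 := by norm_num
  w30 := by norm_num
  w3A := by norm_num
  hC1 := by norm_num
  C10 := by norm_num
  hC2 := by norm_num
  hC2' := by norm_num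
  C20 := by norm_num
  hK1 := by norm_num
  hK2 := by norm_num
  K20 := by norm_num
  K12 := by norm_num
  gT := by norm_num

/-- **the piece `0.0092 ≤ Σ S ≤ 0.0107`**: `w1 + 3 w2 + 4 w0 / 0.0092 ≤ 0.1971` -/
theorem piece_h107 {X w0 w1 w2 : ℝ} (hM : MomP 0.0373 X (fun S => StX X S ∧ 0.0092 ≤ ∑ i, S i ∧ ∑ i, S i ≤ 0.0107))
    (hW : WOKG 0.0373 w0 w1 w2 0 0 0 X (fun S => StX X S ∧ 0.0092 ≤ ∑ i, S i ∧ ∑ i, S i ≤ 0.0107)) (hw0 : 0 ≤ w0)
    (hw : w1 + 3 * w2 + 4 * w0 / 0.0092 ≤ 0.1971) :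
    CoreP (fun S => StX X S ∧ 0.0092 ≤ ∑ i, S i ∧ ∑ i, S i ≤ 0.0107) X 0.00001 := by
  have h0 : 4 * w0 / 0.0092 * 0.0092 = 4 * w0 := by
    rw [div_mul_cancel₀ _ (by norm_num)]
  have hd : 0 ≤ 4 * w0 / 0.0092 := by positivity
  have e0 := mul_le_mul_of_nonneg_right hw (show (0 : ℝ) ≤ 0.0092 by norm_num)
  have e1 := mul_le_mul_of_nonneg_right hw (show (0 : ℝ) ≤ 0.0107 by norm_num)
  have e2 := mul_le_mul_of_nonneg_left (show (0.0092 : ℝ) ≤ 0.0107 by norm_num) hd
  exact coreP_smallG (c0 := 0.000185) (c1 := 0.0039) (c3 := 0.501) (T0 := 0.0092)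
    (e := 5.718) asm_a (by norm_num) (by norm_num) (by norm_num) le_rfl le_rfl le_rfl
    (fun K σ hσ a c hC hX S hV hP => ⟨hP.2.1, hP.2.2, fun i => small_of_sum hV.nn hP.2.2 (by norm_num) i⟩)
    hM hW rng_h107 apx_h107 sml_h107 (by norm_num) (by norm_num) (by norm_num) (by norm_num)
    (by linarith) (by linarith)

/-- numbers of the range `Σ S ≤ 0.0092` -/
theorem rng_e92 : Rng 0.0092 0.06783 0.95203 0.10076 1.05039 0.0048318 0.0025637 0.000655 1.0023 1.23037 1.2285 0.11885 where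
  X1 := by norm_num
  rm0 := by norm_num
  rmX := by norm_num
  qm0 := by norm_num
  qmr := by norm_num
  nb0 := by norm_num
  nbq := by norm_num
  nb3 := by norm_num
  ρq := by norm_num
  Rbq := by norm_num
  gg0 := by norm_num
  gR := by norm_num
  k1X := by norm_num
  k12X := by norm_num
  k12k := by norm_num
  t21 := by norm_num
  t2X := by norm_num
  δt := by norm_num
  hε := by norm_num
  ng := by norm_num

theorem apx_e92 : Apx 0.0092 0.95203 0.21373 2.04 0.0368 1.063908 0.118839 0.175955 0.239599 0.281046 0.50286 where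
  X3 := by norm_num
  Tm0 := by norm_num
  Tm2 := by norm_num
  TmX := by norm_num
  r0 := by norm_num
  rX := by norm_num
  V0 := by norm_num
  VX := by norm_num
  x00 := by norm_num
  x0r := by norm_num
  x1r := by norm_num
  xT := by norm_num
  phi := by norm_num
  line := by
    intro T h0 h1
    have hb : 0 ≤ 0.21373 - T := by linarith
    have b0 := pow_nonneg hb 5
    have b1 := mul_nonneg h0 (pow_nonneg hb 4)
    have b2 := mul_nonneg (pow_nonneg h0 2) (pow_nonneg hb 3)
    have b3 := mul_nonneg (pow_nonneg h0 3) (pow_nonneg hb 2)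
    have b4 := mul_nonneg (pow_nonneg h0 4) hb
    have b5 := pow_nonneg h0 5
    linarith

theorem sml_e92 : Sml 2.04 0.0368 0.281046 0.50286 1.0023 (1.23037 - 1.0023) 0.000655 0.10076 0.21373 0 0.079635 0.228784 6.6118 2.3015 where
  A0 := by norm_num
  g10 := by norm_num
  k1g := by norm_num
  k2g := by norm_num
  ε0 := by norm_num
  nb1 := by norm_num
  w30 := by norm_num
  w3A := by norm_num
  hC1 := by norm_num
  C10 := by norm_num
  hC2 := by norm_num
  hC2' := by norm_num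
  C20 := by norm_num
  hK1 := by norm_num
  hK2 := by norm_num
  K20 := by norm_num
  K12 := by norm_num
  gT := by norm_num

/-- **the piece `0.006 ≤ Σ S ≤ 0.0092`**: `w1 + 3 w2 + 4 w0 / 0.006 ≤ 0.2048` -/
theorem piece_e92 {X w0 w1 w2 : ℝ} (hM : MomP 0.0368 X (fun S => StX X S ∧ 0.006 ≤ ∑ i, S i ∧ ∑ i, S i ≤ 0.0092))
    (hW : WOKG 0.0368 w0 w1 w2 0 0 0 X (fun S => StX X S ∧ 0.006 ≤ ∑ i, S i ∧ ∑ i, S i ≤ 0.0092)) (hw0 : 0 ≤ w0)
    (hw : w1 + 3 * w2 + 4 * w0 / 0.006 ≤ 0.2048) :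
    CoreP (fun S => StX X S ∧ 0.006 ≤ ∑ i, S i ∧ ∑ i, S i ≤ 0.0092) X 0.00001 := by
  have h0 : 4 * w0 / 0.006 * 0.006 = 4 * w0 := by
    rw [div_mul_cancel₀ _ (by norm_num)]
  have hd : 0 ≤ 4 * w0 / 0.006 := by positivity
  have e0 := mul_le_mul_of_nonneg_right hw (show (0 : ℝ) ≤ 0.006 by norm_num)
  have e1 := mul_le_mul_of_nonneg_right hw (show (0 : ℝ) ≤ 0.0092 by norm_num)
  have e2 := mul_le_mul_of_nonneg_left (show (0.006 : ℝ) ≤ 0.0092 by norm_num) hd
  exact coreP_smallG (c0 := 0.000185) (c1 := 0.0039) (c3 := 0.501) (T0 := 0.006)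
    (e := 5.647) asm_a (by norm_num) (by norm_num) (by norm_num) le_rfl le_rfl le_rfl
    (fun K σ hσ a c hC hX S hV hP => ⟨hP.2.1, hP.2.2, fun i => small_of_sum hV.nn hP.2.2 (by norm_num) i⟩)
    hM hW rng_e92 apx_e92 sml_e92 (by norm_num) (by norm_num) (by norm_num) (by norm_num)
    (by linarith) (by linarith)

/-- numbers of the range `Σ S ≤ 0.0107` -/
theorem rng_e107 : Rng 0.0107 0.07315 0.94827 0.1091 1.05456 0.0056419 0.0030107 0.000808 1.00268 1.23128 1.22911 0.11991 where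
  X1 := by norm_num
  rm0 := by norm_num
  rmX := by norm_num
  qm0 := by norm_num
  qmr := by norm_num
  nb0 := by norm_num
  nbq := by norm_num
  nb3 := by norm_num
  ρq := by norm_num
  Rbq := by norm_num
  gg0 := by norm_num
  gR := by norm_num
  k1X := by norm_num
  k12X := by norm_num
  k12k := by norm_num
  t21 := by norm_num
  t2X := by norm_num
  δt := by norm_num
  hε := by norm_num
  ng := by norm_num

theorem apx_e107 : Apx 0.0107 0.94827 0.23141 2.04 0.0373 1.064437 0.119892 0.175867 0.239643 0.279848 0.50308 where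
  X3 := by norm_num
  Tm0 := by norm_num
  Tm2 := by norm_num
  TmX := by norm_num
  r0 := by norm_num
  rX := by norm_num
  V0 := by norm_num
  VX := by norm_num
  x00 := by norm_num
  x0r := by norm_num
  x1r := by norm_num
  xT := by norm_num
  phi := by norm_num
  line := by
    intro T h0 h1
    have hb : 0 ≤ 0.23141 - T := by linarith
    have b0 := pow_nonneg hb 5
    have b1 := mul_nonneg h0 (pow_nonneg hb 4)
    have b2 := mul_nonneg (pow_nonneg h0 2) (pow_nonneg hb 3)
    have b3 := mul_nonneg (pow_nonneg h0 3) (pow_nonneg hb 2)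
    have b4 := mul_nonneg (pow_nonneg h0 4) hb
    have b5 := pow_nonneg h0 5
    linarith

theorem sml_e107 : Sml 2.04 0.0373 0.279848 0.50308 1.00268 (1.23128 - 1.00268) 0.000808 0.1091 0.23141 0 0.07973 0.222321 6.633 2.3788 where
  A0 := by norm_num
  g10 := by norm_num
  k1g := by norm_num
  k2g := by norm_num
  ε0 := by norm_num
  nb1 := by norm_num
  w30 := by norm_num
  w3A := by norm_num
  hC1 := by norm_num
  C10 := by norm_num
  hC2 := by norm_num
  hC2' := by norm_num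
  C20 := by norm_num
  hK1 := by norm_num
  hK2 := by norm_num
  K20 := by norm_num
  K12 := by norm_num
  gT := by norm_num

/-- **the piece `0.006 ≤ Σ S ≤ 0.0107`**: `w1 + 3 w2 + 4 w0 / 0.006 ≤ 0.1971` -/
theorem piece_e107 {X w0 w1 w2 : ℝ} (hM : MomP 0.0373 X (fun S => StX X S ∧ 0.006 ≤ ∑ i, S i ∧ ∑ i, S i ≤ 0.0107))
    (hW : WOKG 0.0373 w0 w1 w2 0 0 0 X (fun S => StX X S ∧ 0.006 ≤ ∑ i, S i ∧ ∑ i, S i ≤ 0.0107)) (hw0 : 0 ≤ w0)
    (hw : w1 + 3 * w2 + 4 * w0 / 0.006 ≤ 0.1971) :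
    CoreP (fun S => StX X S ∧ 0.006 ≤ ∑ i, S i ∧ ∑ i, S i ≤ 0.0107) X 0.00001 := by
  have h0 : 4 * w0 / 0.006 * 0.006 = 4 * w0 := by
    rw [div_mul_cancel₀ _ (by norm_num)]
  have hd : 0 ≤ 4 * w0 / 0.006 := by positivity
  have e0 := mul_le_mul_of_nonneg_right hw (show (0 : ℝ) ≤ 0.006 by norm_num)
  have e1 := mul_le_mul_of_nonneg_right hw (show (0 : ℝ) ≤ 0.0107 by norm_num)
  have e2 := mul_le_mul_of_nonneg_left (show (0.006 : ℝ) ≤ 0.0107 by norm_num) hd
  exact coreP_smallG (c0 := 0.000185) (c1 := 0.0039) (c3 := 0.501) (T0 := 0.006)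
    (e := 5.718) asm_a (by norm_num) (by norm_num) (by norm_num) le_rfl le_rfl le_rfl
    (fun K σ hσ a c hC hX S hV hP => ⟨hP.2.1, hP.2.2, fun i => small_of_sum hV.nn hP.2.2 (by norm_num) i⟩)
    hM hW rng_e107 apx_e107 sml_e107 (by norm_num) (by norm_num) (by norm_num) (by norm_num)
    (by linarith) (by linarith)

end Pool.Agent.Helper31.SR.PcT
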