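import Pool.Agent.Helper31.SR.MilY
import Pool.Agent.Helper31.SR.PcT
import Pool.Agent.Helper31.SR.FinT
import Pool.Agent.Helper78.MEI.WS40
import Pool.Agent.Helper78.MEI.WS60
import Pool.Agent.Helper78.MEI.WS75

/-!
# Project MEI (M2): `Σ S ≤ .00742` is complete; windows from the remaining pieces

`base X` : the core statement on `[.002, .00742]`; `win_612`; `winJ_61183` (two tables up to
`.0107`); `winZ`, `winZ_61135`, `winZ_61085`, `winZ_6104`: only the core statement of track B is
left; `conclZ`: the whole theorem from a top range and the core statement.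
-/

set_option autoImplicit false

namespace Pool.Agent.Helper31.SR.MilJ

open Set Metric MeasureTheory Helper80.CW Helper82.CW Helper14.CW Helper93.MEI Helper82.M2
open Helper14.MEI2 Pool.Agent.Helper73.MEI Helper37.MEI Helper41.MEI
open Helper33.MEI (Wi)
open Helper78.MEI
open Helper13.PLM (StX stX StY SumB OneB coreP_sumB)
open Pool.Agent.Helper73.MEI.ArCor
open Pool.Agent.Helper31.SR Pool.Agent.Helper31.SR.EndA Pool.Agent.Helper31.SR.PcN
open Pool.Agent.Helper31.SR.PcM Pool.Agent.Helper31.SR.MilF Pool.Agent.Helper31.SR.MilB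
open Pool.Agent.Helper31.SR.PcS Pool.Agent.Helper31.SR.PcT Pool.Agent.Helper31.SR.MomA
open Pool.Agent.Helper31.SR.MilG Pool.Agent.Helper31.SR.MilH Pool.Agent.Helper31.SR.MilI
open Pool.Agent.Helper31.SR.MilW Pool.Agent.Helper31.SR.MilY Pool.Agent.Helper31.SR.PcB
open Pool.Agent.Helper31.SR.FinT
open scoped RealInnerProductSpace ENNReal

/-- **the middle range without hypotheses** -/
theorem base (X : ℝ) : CoreP (Pc X 0.002 0.00742) X 0.00001 := mid3 WS40.ws WS60.ws WS75.ws X

/-- **circumradius at least `.612`** -/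
theorem win_612 : Win 0.612 := win612 WS40.ws WS60.ws WS75.ws

theorem pc_g92 {X : ℝ} (h : WR X 0.0368 0.00742 0.0092 0.2048) :
    CoreP (Pc X 0.00742 0.0092) X 0.00001 := by
  obtain ⟨a0, a1, a2, a3, a4, a5⟩ := h
  exact piece_g92 (momPr (by norm_num) (by norm_num)) a5 a3 a4

theorem pc_g107 {X : ℝ} (h : WR X 0.0373 0.00742 0.0107 0.1971) :
    CoreP (Pc X 0.00742 0.0107) X 0.00001 := by
  obtain ⟨a0, a1, a2, a3, a4, a5⟩ := h
  exact piece_g107 (momPr (by norm_num) (by norm_num)) a5 a3 a4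

theorem pc_h107 {X : ℝ} (h : WR X 0.0373 0.0092 0.0107 0.1971) :
    CoreP (Pc X 0.0092 0.0107) X 0.00001 := by
  obtain ⟨a0, a1, a2, a3, a4, a5⟩ := h
  exact piece_h107 (momPr (by norm_num) (by norm_num)) a5 a3 a4

/-- the middle range up to `.0107` -/
theorem base107 (hg : WS 0.0368 0.00742 0.0092 0.2048) (hh : WS 0.0373 0.0092 0.0107 0.1971)
    (X : ℝ) : CoreP (Pc X 0.002 0.0107) X 0.00001 :=
  join (join (base X) (pc_g92 (hg.wr X))) (pc_h107 (hh.wr X))

theorem base107' (hg : WS 0.0373 0.00742 0.0107 0.1971) (X : ℝ) :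
    CoreP (Pc X 0.002 0.0107) X 0.00001 :=
  join (base X) (pc_g107 (hg.wr X))

/-- **circumradius at least `.61183`** from the core statement on `[.002, .0107]` -/
theorem winJ (h : CoreP (Pc 0.01089 0.002 0.0107) 0.01089 0.00001) : Win 0.61183 :=
  window_B (R' := 0.61182) (κ := 0.00001) (by norm_num) (by norm_num) (by norm_num)
    (by norm_num) (by norm_num) (by norm_num) Helper13.PLM.sumB_01089 (low _) h

theorem winJ_61183 (hg : WS 0.0368 0.00742 0.0092 0.2048) (hh : WS 0.0373 0.0092 0.0107 0.1971) :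
    Win 0.61183 := winJ (base107 hg hh _)

theorem winJ_61183' (hg : WS 0.0373 0.00742 0.0107 0.1971) : Win 0.61183 := winJ (base107' hg _)

/-- **the window theorem from the core statement of track B alone** -/
theorem winZ {R R' X T1 B β : ℝ} (h60 : 0.6026 ≤ R') (hRR : R' < R) (hX : 0 ≤ X)
    (hX1 : X ≤ 0.1774) (hRX : 1 / 4 + 1 / (4 * (2 + X)) ≤ R' ^ 2) (hB : SumB X B) (hO : OneB X β)
    (hT : T1 ≤ 0.00742) (h : CoreP (fun S => StY X B β S ∧ T1 ≤ ∑ i, S i) X 0.00001) : Win R :=
  window_Y (by norm_num) h60 hRR hX hX1 hRX hB hO (low _) (base X)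
    (h.mono le_rfl fun _ hS => ⟨hS.1, hT.trans hS.2⟩)

/-- **circumradius at least `.61135`**: `X = .0204` -/
theorem winZ_61135 (h : CoreP (fun S => StY 0.0204 0.02 0.0172 S ∧ 0.0059 ≤ ∑ i, S i) 0.0204
    0.00001) : Win 0.61135 :=
  winZ (R' := 0.611342) (by norm_num) (by norm_num) (by norm_num) (by norm_num) (by norm_num)
    (Helper13.PLM.sumB_0204.mono le_rfl (by norm_num)) Helper13.PLM.oneB_0204 (by norm_num) h

/-- **circumradius at least `.61085`**: `X = .0304` -/
theorem winZ_61085 (h : CoreP (fun S => StY 0.0304 0.0296 0.025 S ∧ 0.0059 ≤ ∑ i, S i) 0.0304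
    0.00001) : Win 0.61085 :=
  winZ (R' := 0.610844) (by norm_num) (by norm_num) (by norm_num) (by norm_num) (by norm_num)
    Helper13.PLM.sumB_0304 Helper13.PLM.oneB_0304 (by norm_num) h

/-- **circumradius at least `.6104`**: `X = .0404` -/
theorem winZ_6104 (h : CoreP (fun S => StY 0.0404 0.0393 0.0327 S ∧ 0.0059 ≤ ∑ i, S i) 0.0404
    0.00001) : Win 0.6104 :=
  winZ (R' := 0.61035) (by norm_num) (by norm_num) (by norm_num) (by norm_num) (by norm_num)
    (Helper13.PLM.sumB_0404.mono le_rfl (by norm_num)) Helper13.PLM.oneB_0404 (by norm_num) h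

/-- **the whole theorem** from the top range up to `.61085` and the core statement -/
theorem conclZ_61085 (hT : Top 0.6042 0.61085)
    (h : CoreP (fun S => StY 0.0304 0.0296 0.025 S ∧ 0.0059 ≤ ∑ i, S i) 0.0304 0.00001) :
    Helper96.MEI.Concl := concl_of_top hT (winZ_61085 h)

theorem conclZ_61135 (hT : Top 0.6042 0.61135)
    (h : CoreP (fun S => StY 0.0204 0.02 0.0172 S ∧ 0.0059 ≤ ∑ i, S i) 0.0204 0.00001) :
    Helper96.MEI.Concl := concl_of_top hT (winZ_61135 h)

end Pool.Agent.Helper31.SR.MilJ
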