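import Pool.Agent.Helper73.MEI.MA3
import Pool.Agent.Helper97.MEI.AsmFin
import Pool.Agent.Helper31.SR.PcN

/-!
# Project MEI (M2), milestone A: the numbers of the pieces of the small range

For every piece `T0 ≤ Σ S ≤ T1`: the numbers of `face_fv` and the budget of the cost of the second
order term (form `WOKG` of helper73's `coreP_smallG`).
-/

set_option autoImplicit false

namespace Pool.Agent.Helper31.SR.PcU

open Set Metric MeasureTheory Helper80.CW Helper82.CW Helper14.CW Helper93.MEI Helper82.M2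
open Helper14.MEI2 Pool.Agent.Helper73.MEI Helper37.MEI Helper41.MEI
open Helper33.MEI (Wi)
open Helper78.MEI
open Helper13.PLM (StX stX)
open Pool.Agent.Helper73.MEI.ArCor
open Pool.Agent.Helper31.SR Pool.Agent.Helper31.SR.EndA Pool.Agent.Helper31.SR.PcN
open scoped RealInnerProductSpace ENNReal

/-- numbers of the range `Σ S ≤ 0.0107` -/
theorem rng_h107s : Rng 0.0107 0.07315 0.94827 0.1091 1.05456 0.0056419 0.0030107 0.000808 1.00268 1.23128 1.22911 0.11991 where
  X1 := by norm_num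
  rm0 := by norm_num
  rmX := by norm_num
  qm0 := by norm_num
  qmr := by norm_num
  nb0 := by norm_num
  nbq := by norm_num
  nb3 := by norm_num
  ρq := by norm_num
  Rbq := by norm_num
  gg0 := by norm_num
  gR := by norm_num
  k1X := by norm_num
  k12X := by norm_num
  k12k := by norm_num
  t21 := by norm_num
  t2X := by norm_num
  δt := by norm_num
  hε := by norm_num
  ng := by norm_num

theorem apx_h107s : Apx 0.0107 0.94827 0.23141 2.04 0.0353 1.064437 0.119892 0.175867 0.239643 0.284079 0.5023 where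
  X3 := by norm_num
  Tm0 := by norm_num
  Tm2 := by norm_num
  TmX := by norm_num
  r0 := by norm_num
  rX := by norm_num
  V0 := by norm_num
  VX := by norm_num
  x00 := by norm_num
  x0r := by norm_num
  x1r := by norm_num
  xT := by norm_num
  phi := by norm_num
  line := by
    intro T h0 h1
    have hb : 0 ≤ 0.23141 - T := by linarith
    have b0 := pow_nonneg hb 5
    have b1 := mul_nonneg h0 (pow_nonneg hb 4)
    have b2 := mul_nonneg (pow_nonneg h0 2) (pow_nonneg hb 3)
    have b3 := mul_nonneg (pow_nonneg h0 3) (pow_nonneg hb 2)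
    have b4 := mul_nonneg (pow_nonneg h0 4) hb
    have b5 := pow_nonneg h0 5
    linarith

theorem sml_h107s : Sml 2.04 0.0353 0.284079 0.5023 1.00268 (1.23128 - 1.00268) 0.000808 0.1091 0.23141 0 0.079487 0.225312 6.6533 2.3472 where
  A0 := by norm_num
  g10 := by norm_num
  k1g := by norm_num
  k2g := by norm_num
  ε0 := by norm_num
  nb1 := by norm_num
  w30 := by norm_num
  w3A := by norm_num
  hC1 := by norm_num
  C10 := by norm_num
  hC2 := by norm_num
  hC2' := by norm_num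
  C20 := by norm_num
  hK1 := by norm_num
  hK2 := by norm_num
  K20 := by norm_num
  K12 := by norm_num
  gT := by norm_num

/-- **the piece `0.0092 ≤ Σ S ≤ 0.0107`**: `w1 + 3 w2 + 4 w0 / 0.0092 ≤ 0.2015` -/
theorem piece_h107s {X w0 w1 w2 : ℝ} (hM : MomP 0.0353 X (fun S => StX X S ∧ 0.0092 ≤ ∑ i, S i ∧ ∑ i, S i ≤ 0.0107))
    (hW : WOKG 0.0353 w0 w1 w2 0 0 0 X (fun S => StX X S ∧ 0.0092 ≤ ∑ i, S i ∧ ∑ i, S i ≤ 0.0107)) (hw0 : 0 ≤ w0)
    (hw : w1 + 3 * w2 + 4 * w0 / 0.0092 ≤ 0.2015) :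
    CoreP (fun S => StX X S ∧ 0.0092 ≤ ∑ i, S i ∧ ∑ i, S i ≤ 0.0107) X 0.00001 := by
  have h0 : 4 * w0 / 0.0092 * 0.0092 = 4 * w0 := by
    rw [div_mul_cancel₀ _ (by norm_num)]
  have hd : 0 ≤ 4 * w0 / 0.0092 := by positivity
  have e0 := mul_le_mul_of_nonneg_right hw (show (0 : ℝ) ≤ 0.0092 by norm_num)
  have e1 := mul_le_mul_of_nonneg_right hw (show (0 : ℝ) ≤ 0.0107 by norm_num)
  have e2 := mul_le_mul_of_nonneg_left (show (0.0092 : ℝ) ≤ 0.0107 by norm_num) hd
  exact coreP_smallG (c0 := 0.000185) (c1 := 0.0039) (c3 := 0.501) (T0 := 0.0092)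
    (e := 5.699) asm_a (by norm_num) (by norm_num) (by norm_num) le_rfl le_rfl le_rfl
    (fun K σ hσ a c hC hX S hV hP => ⟨hP.2.1, hP.2.2, fun i => small_of_sum hV.nn hP.2.2 (by norm_num) i⟩)
    hM hW rng_h107s apx_h107s sml_h107s (by norm_num) (by norm_num) (by norm_num) (by norm_num)
    (by linarith) (by linarith)

/-- numbers of the range `Σ S ≤ 0.0107` -/
theorem rng_g107s : Rng 0.0107 0.07315 0.94827 0.1091 1.05456 0.0056419 0.0030107 0.000808 1.00268 1.23128 1.22911 0.11991 where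
  X1 := by norm_num
  rm0 := by norm_num
  rmX := by norm_num
  qm0 := by norm_num
  qmr := by norm_num
  nb0 := by norm_num
  nbq := by norm_num
  nb3 := by norm_num
  ρq := by norm_num
  Rbq := by norm_num
  gg0 := by norm_num
  gR := by norm_num
  k1X := by norm_num
  k12X := by norm_num
  k12k := by norm_num
  t21 := by norm_num
  t2X := by norm_num
  δt := by norm_num
  hε := by norm_num
  ng := by norm_num

theorem apx_g107s : Apx 0.0107 0.94827 0.23141 2.04 0.0353 1.064437 0.119892 0.175867 0.239643 0.284079 0.5023 where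
  X3 := by norm_num
  Tm0 := by norm_num
  Tm2 := by norm_num
  TmX := by norm_num
  r0 := by norm_num
  rX := by norm_num
  V0 := by norm_num
  VX := by norm_num
  x00 := by norm_num
  x0r := by norm_num
  x1r := by norm_num
  xT := by norm_num
  phi := by norm_num
  line := by
    intro T h0 h1
    have hb : 0 ≤ 0.23141 - T := by linarith
    have b0 := pow_nonneg hb 5
    have b1 := mul_nonneg h0 (pow_nonneg hb 4)
    have b2 := mul_nonneg (pow_nonneg h0 2) (pow_nonneg hb 3)
    have b3 := mul_nonneg (pow_nonneg h0 3) (pow_nonneg hb 2)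
    have b4 := mul_nonneg (pow_nonneg h0 4) hb
    have b5 := pow_nonneg h0 5
    linarith

theorem sml_g107s : Sml 2.04 0.0353 0.284079 0.5023 1.00268 (1.23128 - 1.00268) 0.000808 0.1091 0.23141 0 0.079487 0.225312 6.6533 2.3472 where
  A0 := by norm_num
  g10 := by norm_num
  k1g := by norm_num
  k2g := by norm_num
  ε0 := by norm_num
  nb1 := by norm_num
  w30 := by norm_num
  w3A := by norm_num
  hC1 := by norm_num
  C10 := by norm_num
  hC2 := by norm_num
  hC2' := by norm_num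
  C20 := by norm_num
  hK1 := by norm_num
  hK2 := by norm_num
  K20 := by norm_num
  K12 := by norm_num
  gT := by norm_num

/-- **the piece `0.00742 ≤ Σ S ≤ 0.0107`**: `w1 + 3 w2 + 4 w0 / 0.00742 ≤ 0.2015` -/
theorem piece_g107s {X w0 w1 w2 : ℝ} (hM : MomP 0.0353 X (fun S => StX X S ∧ 0.00742 ≤ ∑ i, S i ∧ ∑ i, S i ≤ 0.0107))
    (hW : WOKG 0.0353 w0 w1 w2 0 0 0 X (fun S => StX X S ∧ 0.00742 ≤ ∑ i, S i ∧ ∑ i, S i ≤ 0.0107)) (hw0 : 0 ≤ w0)
    (hw : w1 + 3 * w2 + 4 * w0 / 0.00742 ≤ 0.2015) :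
    CoreP (fun S => StX X S ∧ 0.00742 ≤ ∑ i, S i ∧ ∑ i, S i ≤ 0.0107) X 0.00001 := by
  have h0 : 4 * w0 / 0.00742 * 0.00742 = 4 * w0 := by
    rw [div_mul_cancel₀ _ (by norm_num)]
  have hd : 0 ≤ 4 * w0 / 0.00742 := by positivity
  have e0 := mul_le_mul_of_nonneg_right hw (show (0 : ℝ) ≤ 0.00742 by norm_num)
  have e1 := mul_le_mul_of_nonneg_right hw (show (0 : ℝ) ≤ 0.0107 by norm_num)
  have e2 := mul_le_mul_of_nonneg_left (show (0.00742 : ℝ) ≤ 0.0107 by norm_num) hd
  exact coreP_smallG (c0 := 0.000185) (c1 := 0.0039) (c3 := 0.501) (T0 := 0.00742)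
    (e := 5.699) asm_a (by norm_num) (by norm_num) (by norm_num) le_rfl le_rfl le_rfl
    (fun K σ hσ a c hC hX S hV hP => ⟨hP.2.1, hP.2.2, fun i => small_of_sum hV.nn hP.2.2 (by norm_num) i⟩)
    hM hW rng_g107s apx_g107s sml_g107s (by norm_num) (by norm_num) (by norm_num) (by norm_num)
    (by linarith) (by linarith)

/-- numbers of the range `Σ S ≤ 0.012` -/
theorem rng_j120s : Rng 0.012 0.07746 0.94522 0.1159 1.05796 0.0063478 0.0034036 0.00095 1.003 1.23208 1.22964 0.12082 where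
  X1 := by norm_num
  rm0 := by norm_num
  rmX := by norm_num
  qm0 := by norm_num
  qmr := by norm_num
  nb0 := by norm_num
  nbq := by norm_num
  nb3 := by norm_num
  ρq := by norm_num
  Rbq := by norm_num
  gg0 := by norm_num
  gR := by norm_num
  k1X := by norm_num
  k12X := by norm_num
  k12k := by norm_num
  t21 := by norm_num
  t2X := by norm_num
  δt := by norm_num
  hε := by norm_num
  ng := by norm_num

theorem apx_j120s : Apx 0.012 0.94522 0.24585 2.04 0.0357 1.064895 0.120803 0.175791 0.239681 0.28311 0.50246 where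
  X3 := by norm_num
  Tm0 := by norm_num
  Tm2 := by norm_num
  TmX := by norm_num
  r0 := by norm_num
  rX := by norm_num
  V0 := by norm_num
  VX := by norm_num
  x00 := by norm_num
  x0r := by norm_num
  x1r := by norm_num
  xT := by norm_num
  phi := by norm_num
  line := by
    intro T h0 h1
    have hb : 0 ≤ 0.24585 - T := by linarith
    have b0 := pow_nonneg hb 5
    have b1 := mul_nonneg h0 (pow_nonneg hb 4)
    have b2 := mul_nonneg (pow_nonneg h0 2) (pow_nonneg hb 3)
    have b3 := mul_nonneg (pow_nonneg h0 3) (pow_nonneg hb 2)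
    have b4 := mul_nonneg (pow_nonneg h0 4) hb
    have b5 := pow_nonneg h0 5
    linarith

theorem sml_j120s : Sml 2.04 0.0357 0.28311 0.50246 1.003 (1.23208 - 1.003) 0.00095 0.1159 0.24585 0 0.079568 0.220044 6.6705 2.4121 where
  A0 := by norm_num
  g10 := by norm_num
  k1g := by norm_num
  k2g := by norm_num
  ε0 := by norm_num
  nb1 := by norm_num
  w30 := by norm_num
  w3A := by norm_num
  hC1 := by norm_num
  C10 := by norm_num
  hC2 := by norm_num
  hC2' := by norm_num
  C20 := by norm_num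
  hK1 := by norm_num
  hK2 := by norm_num
  K20 := by norm_num
  K12 := by norm_num
  gT := by norm_num

/-- **the piece `0.0107 ≤ Σ S ≤ 0.012`**: `w1 + 3 w2 + 4 w0 / 0.0107 ≤ 0.1943` -/
theorem piece_j120s {X w0 w1 w2 : ℝ} (hM : MomP 0.0357 X (fun S => StX X S ∧ 0.0107 ≤ ∑ i, S i ∧ ∑ i, S i ≤ 0.012))
    (hW : WOKG 0.0357 w0 w1 w2 0 0 0 X (fun S => StX X S ∧ 0.0107 ≤ ∑ i, S i ∧ ∑ i, S i ≤ 0.012)) (hw0 : 0 ≤ w0)
    (hw : w1 + 3 * w2 + 4 * w0 / 0.0107 ≤ 0.1943) :
    CoreP (fun S => StX X S ∧ 0.0107 ≤ ∑ i, S i ∧ ∑ i, S i ≤ 0.012) X 0.00001 := by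
  have h0 : 4 * w0 / 0.0107 * 0.0107 = 4 * w0 := by
    rw [div_mul_cancel₀ _ (by norm_num)]
  have hd : 0 ≤ 4 * w0 / 0.0107 := by positivity
  have e0 := mul_le_mul_of_nonneg_right hw (show (0 : ℝ) ≤ 0.0107 by norm_num)
  have e1 := mul_le_mul_of_nonneg_right hw (show (0 : ℝ) ≤ 0.012 by norm_num)
  have e2 := mul_le_mul_of_nonneg_left (show (0.0107 : ℝ) ≤ 0.012 by norm_num) hd
  exact coreP_smallG (c0 := 0.000185) (c1 := 0.0039) (c3 := 0.501) (T0 := 0.0107)
    (e := 5.758) asm_a (by norm_num) (by norm_num) (by norm_num) le_rfl le_rfl le_rfl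
    (fun K σ hσ a c hC hX S hV hP => ⟨hP.2.1, hP.2.2, fun i => small_of_sum hV.nn hP.2.2 (by norm_num) i⟩)
    hM hW rng_j120s apx_j120s sml_j120s (by norm_num) (by norm_num) (by norm_num) (by norm_num)
    (by linarith) (by linarith)

/-- numbers of the range `Σ S ≤ 0.0135` -/
theorem rng_j135s : Rng 0.0135 0.08216 0.9419 0.12336 1.06169 0.0071664 0.0038631 0.001125 1.00338 1.23299 1.23025 0.12188 where
  X1 := by norm_num
  rm0 := by norm_num
  rmX := by norm_num
  qm0 := by norm_num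
  qmr := by norm_num
  nb0 := by norm_num
  nbq := by norm_num
  nb3 := by norm_num
  ρq := by norm_num
  Rbq := by norm_num
  gg0 := by norm_num
  gR := by norm_num
  k1X := by norm_num
  k12X := by norm_num
  k12k := by norm_num
  t21 := by norm_num
  t2X := by norm_num
  δt := by norm_num
  hε := by norm_num
  ng := by norm_num

theorem apx_j135s : Apx 0.0135 0.9419 0.26168 2.04 0.0362 1.065423 0.121854 0.175704 0.239726 0.281913 0.50267 where
  X3 := by norm_num
  Tm0 := by norm_num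
  Tm2 := by norm_num
  TmX := by norm_num
  r0 := by norm_num
  rX := by norm_num
  V0 := by norm_num
  VX := by norm_num
  x00 := by norm_num
  x0r := by norm_num
  x1r := by norm_num
  xT := by norm_num
  phi := by norm_num
  line := by
    intro T h0 h1
    have hb : 0 ≤ 0.26168 - T := by linarith
    have b0 := pow_nonneg hb 5
    have b1 := mul_nonneg h0 (pow_nonneg hb 4)
    have b2 := mul_nonneg (pow_nonneg h0 2) (pow_nonneg hb 3)
    have b3 := mul_nonneg (pow_nonneg h0 3) (pow_nonneg hb 2)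
    have b4 := mul_nonneg (pow_nonneg h0 4) hb
    have b5 := pow_nonneg h0 5
    linarith

theorem sml_j135s : Sml 2.04 0.0362 0.281913 0.50267 1.00338 (1.23299 - 1.00338) 0.001125 0.12336 0.26168 0 0.079662 0.214188 6.6892 2.4879 where
  A0 := by norm_num
  g10 := by norm_num
  k1g := by norm_num
  k2g := by norm_num
  ε0 := by norm_num
  nb1 := by norm_num
  w30 := by norm_num
  w3A := by norm_num
  hC1 := by norm_num
  C10 := by norm_num
  hC2 := by norm_num
  hC2' := by norm_num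
  C20 := by norm_num
  hK1 := by norm_num
  hK2 := by norm_num
  K20 := by norm_num
  K12 := by norm_num
  gT := by norm_num

/-- **the piece `0.0107 ≤ Σ S ≤ 0.0135`**: `w1 + 3 w2 + 4 w0 / 0.0107 ≤ 0.1852` -/
theorem piece_j135s {X w0 w1 w2 : ℝ} (hM : MomP 0.0362 X (fun S => StX X S ∧ 0.0107 ≤ ∑ i, S i ∧ ∑ i, S i ≤ 0.0135))
    (hW : WOKG 0.0362 w0 w1 w2 0 0 0 X (fun S => StX X S ∧ 0.0107 ≤ ∑ i, S i ∧ ∑ i, S i ≤ 0.0135)) (hw0 : 0 ≤ w0)
    (hw : w1 + 3 * w2 + 4 * w0 / 0.0107 ≤ 0.1852) :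
    CoreP (fun S => StX X S ∧ 0.0107 ≤ ∑ i, S i ∧ ∑ i, S i ≤ 0.0135) X 0.00001 := by
  have h0 : 4 * w0 / 0.0107 * 0.0107 = 4 * w0 := by
    rw [div_mul_cancel₀ _ (by norm_num)]
  have hd : 0 ≤ 4 * w0 / 0.0107 := by positivity
  have e0 := mul_le_mul_of_nonneg_right hw (show (0 : ℝ) ≤ 0.0107 by norm_num)
  have e1 := mul_le_mul_of_nonneg_right hw (show (0 : ℝ) ≤ 0.0135 by norm_num)
  have e2 := mul_le_mul_of_nonneg_left (show (0.0107 : ℝ) ≤ 0.0135 by norm_num) hd
  exact coreP_smallG (c0 := 0.000185) (c1 := 0.0039) (c3 := 0.501) (T0 := 0.0107)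
    (e := 5.826) asm_a (by norm_num) (by norm_num) (by norm_num) le_rfl le_rfl le_rfl
    (fun K σ hσ a c hC hX S hV hP => ⟨hP.2.1, hP.2.2, fun i => small_of_sum hV.nn hP.2.2 (by norm_num) i⟩)
    hM hW rng_j135s apx_j135s sml_j135s (by norm_num) (by norm_num) (by norm_num) (by norm_num)
    (by linarith) (by linarith)

end Pool.Agent.Helper31.SR.PcU
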