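import Pool.Agent.Helper31.SR.PcN
import Pool.Agent.Helper41.MEI.ArcMA

/-!
# Project MEI (M2): the moments of the arcs on a piece, and the glue of the pieces
-/

set_option autoImplicit false

namespace Pool.Agent.Helper31.SR.PcM

open Set Metric MeasureTheory Helper80.CW Helper82.CW Helper14.CW Helper93.MEI Helper82.M2
open Helper14.MEI2 Pool.Agent.Helper73.MEI Helper37.MEI Helper41.MEI
open Helper33.MEI (Wi)
open Helper78.MEI
open Helper13.PLM (StX stX)
open Pool.Agent.Helper73.MEI.ArCor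
open Pool.Agent.Helper31.SR Pool.Agent.Helper31.SR.EndA Pool.Agent.Helper31.SR.PcN
open scoped RealInnerProductSpace ENNReal

/-- **the moments of the arcs on the range `Σ S ≤ T`**, `T ≤ .0604` -/
theorem momP {ρ T X : ℝ} {P : (Fin 4 → ℝ) → Prop} (hP : ∀ S, P S → ∑ i, S i ≤ T)
    (hT : T ≤ 0.0604) (hρ : 0.03772 + 0.3652 * T ≤ ρ) : MomP ρ X P := by
  intro K σ hσ a c hC hX S hV hS τ p k hk
  obtain ⟨B, hB⟩ := frames hC.ha
  have hs := hP S hS
  rw [Fin.sum_univ_four] at hs
  exact (Helper41.ArcT.MA_rho hC.ha (l2_ok hC.ha) hC.pm hC.hull hC.hp hB hV.nn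
    (fun i q hq => hV.le i q hq) hs hT τ hk).trans hρ

end Pool.Agent.Helper31.SR.PcM
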