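import Pool.Agent.Helper31.SR.MilJ
import Pool.Agent.Helper31.SR.PcU
import Pool.Agent.Helper93.MEI.Neg5c

/-!
# Project MEI (M2), track A: the pieces with the small moments (helper93's `momP_small`)
-/

set_option autoImplicit false

namespace Pool.Agent.Helper31.SR.MilL

open Set Metric MeasureTheory Helper80.CW Helper82.CW Helper14.CW Helper93.MEI Helper82.M2
open Helper14.MEI2 Pool.Agent.Helper73.MEI Helper37.MEI Helper41.MEI
open Helper33.MEI (Wi)
open Helper78.MEI
open Helper13.PLM (StX stX StY SumB OneB coreP_sumB)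
open Pool.Agent.Helper73.MEI.ArCor
open Pool.Agent.Helper31.SR Pool.Agent.Helper31.SR.EndA Pool.Agent.Helper31.SR.PcN
open Pool.Agent.Helper31.SR.MilF Pool.Agent.Helper31.SR.MilB Pool.Agent.Helper31.SR.PcU
open Pool.Agent.Helper31.SR.MilG Pool.Agent.Helper31.SR.MilH Pool.Agent.Helper31.SR.MilI
open Pool.Agent.Helper31.SR.MilW Pool.Agent.Helper31.SR.MilJ
open scoped RealInnerProductSpace ENNReal

theorem momPs {X ρ T0 T1 : ℝ} (hT : T1 ≤ 0.0135) (hρ : 0.0316123 + 0.3383 * T1 ≤ ρ) :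
    MomP ρ X (Pc X T0 T1) := Helper93.Neg5.momP_small (T := T1) (fun _ h => h.2.2) hT hρ

theorem pc_h107s {X : ℝ} (h : WR X 0.0353 0.0092 0.0107 0.2015) :
    CoreP (Pc X 0.0092 0.0107) X 0.00001 := by
  obtain ⟨a0, a1, a2, a3, a4, a5⟩ := h
  exact piece_h107s (momPs (by norm_num) (by norm_num)) a5 a3 a4

theorem pc_g107s {X : ℝ} (h : WR X 0.0353 0.00742 0.0107 0.2015) :
    CoreP (Pc X 0.00742 0.0107) X 0.00001 := by
  obtain ⟨a0, a1, a2, a3, a4, a5⟩ := h
  exact piece_g107s (momPs (by norm_num) (by norm_num)) a5 a3 a4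

theorem pc_j120s {X : ℝ} (h : WR X 0.0357 0.0107 0.012 0.1943) :
    CoreP (Pc X 0.0107 0.012) X 0.00001 := by
  obtain ⟨a0, a1, a2, a3, a4, a5⟩ := h
  exact piece_j120s (momPs (by norm_num) (by norm_num)) a5 a3 a4

theorem pc_j135s {X : ℝ} (h : WR X 0.0362 0.0107 0.0135 0.1852) :
    CoreP (Pc X 0.0107 0.0135) X 0.00001 := by
  obtain ⟨a0, a1, a2, a3, a4, a5⟩ := h
  exact piece_j135s (momPs (by norm_num) (by norm_num)) a5 a3 a4

/-- **circumradius at least `.61183`** -/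
theorem winL_61183 (hg : WS 0.0368 0.00742 0.0092 0.2048) (hh : WS 0.0353 0.0092 0.0107 0.2015) :
    Win 0.61183 := winJ (join (join (base _) (pc_g92 (hg.wr _))) (pc_h107s (hh.wr _)))

theorem winL_61183' (hg : WS 0.0353 0.00742 0.0107 0.2015) : Win 0.61183 :=
  winJ (join (base _) (pc_g107s (hg.wr _)))

/-- **circumradius at least `.6117`** -/
theorem winL_6117 (hg : WS 0.0368 0.00742 0.0092 0.2048) (hh : WS 0.0353 0.0092 0.0107 0.2015)
    (hj : WS 0.0362 0.0107 0.0135 0.1852) : Win 0.6117 :=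
  window_B (R' := 0.61168) (κ := 0.00001) (by norm_num) (by norm_num) (by norm_num)
    (by norm_num) (by norm_num) (by norm_num) Helper13.PLM.sumB_01377 (low _)
    (join (join (join (base _) (pc_g92 (hg.wr _))) (pc_h107s (hh.wr _))) (pc_j135s (hj.wr _)))

end Pool.Agent.Helper31.SR.MilL
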