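import Pool.Agent.Helper31.SR.MilJ

/-!
# Project MEI (M2): the windows of track B with free margin `κ` and free low level `T1`
-/

set_option autoImplicit false

namespace Pool.Agent.Helper31.SR.MilM

open Helper78.MEI
open Helper13.PLM (StX stX StY SumB OneB)
open Pool.Agent.Helper31.SR.MilG Pool.Agent.Helper31.SR.MilJ Pool.Agent.Helper31.SR.FinT

/-- **circumradius at least `.61135`** from the core statement on `[T1, .02]`, `T1 ≤ .00742` -/
theorem winM_61135 {κ T1 : ℝ} (hκ : 0.00001 ≤ κ) (hT : T1 ≤ 0.00742)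
    (h : CoreP (fun S => StY 0.0204 0.02 0.0172 S ∧ T1 ≤ ∑ i, S i) 0.0204 κ) : Win 0.61135 :=
  winZ (R' := 0.611342) (by norm_num) (by norm_num) (by norm_num) (by norm_num) (by norm_num)
    (Helper13.PLM.sumB_0204.mono le_rfl (by norm_num)) Helper13.PLM.oneB_0204 hT
    (h.mono hκ fun _ hS => hS)

/-- **circumradius at least `.61085`** from the core statement on `[T1, .0296]` -/
theorem winM_61085 {κ T1 : ℝ} (hκ : 0.00001 ≤ κ) (hT : T1 ≤ 0.00742)
    (h : CoreP (fun S => StY 0.0304 0.0296 0.025 S ∧ T1 ≤ ∑ i, S i) 0.0304 κ) : Win 0.61085 :=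
  winZ (R' := 0.610844) (by norm_num) (by norm_num) (by norm_num) (by norm_num) (by norm_num)
    Helper13.PLM.sumB_0304 Helper13.PLM.oneB_0304 hT (h.mono hκ fun _ hS => hS)

/-- **the whole theorem** from a top range up to `.61135` and the core statement -/
theorem conclM_61135 {κ T1 : ℝ} (hT : Top 0.6042 0.61135) (hκ : 0.00001 ≤ κ)
    (hT1 : T1 ≤ 0.00742)
    (h : CoreP (fun S => StY 0.0204 0.02 0.0172 S ∧ T1 ≤ ∑ i, S i) 0.0204 κ) :
    Helper96.MEI.Concl := concl_of_top hT (winM_61135 hκ hT1 h)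

end Pool.Agent.Helper31.SR.MilM
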