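import Pool.Agent.Helper13.PLM.SumZ

/-!
# Project MEI (M2): the bound of `Σ S` for `X = .0093`
-/

set_option autoImplicit false

namespace Helper13.PLM

open Set Metric MeasureTheory Helper80.CW Helper82.CW Helper14.CW Helper93.MEI Helper82.M2
open Pool.Agent.Helper73.MEI Helper78.MEI Helper37.MEI

section near
variable {K : Set E3} {a c : Fin 4 → E3} (N : Near K a c)
include N
variable (hK : IsCompact K) (hw : Width1 K)
include hK hw

/-- `∑ S ≤ 0.0092` for `X = 0.0093` -/
theorem Near.sum_0093 (hE : Eps c ≤ 0.0093) {z : Fin 4 → E3} (hz : ∀ i, z i ∈ K) :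
    ∑ i, max (Qv a i (z i)) 0 ≤ 0.0092 := by
  have hs := N.A_sum_1115 hK hw (hE.trans (by norm_num))
  have hAm := N.A_sum_le_of (Am := 0.004803) (by norm_num) hE (by norm_num) (by norm_num)
    (by norm_num) hs
  have h := N.sum_t (t := 0.9745) (p := 1.94665) (q := 0.0000202) (by norm_num) hE hAm
    (by norm_num) (N.hv_of hK hw hAm fun A d r h1 h2 h3 h4 h5 => vt0095 h1 h2 h3 h4 h5) hz
  linarith

end near

theorem sumB_0093 : SumB 0.0093 0.0092 := fun _ _ _ _ _ hC hE hV =>
  sumS_le hC hV fun _ hz => hC.near.sum_0093 hC.cpt hC.w1 (eps_of_epsLe hE) hz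

end Helper13.PLM
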