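import Pool.Agent.Helper31.SR.MilL
import Pool.Agent.Helper31.SR.MilM
import Pool.Agent.Helper31.SR.SumW

/-!
# Project MEI (M2), track A: the window `.6119` from the table on `[.00742, .0092]`
-/

set_option autoImplicit false

namespace Pool.Agent.Helper31.SR.MilP

open Helper78.MEI
open Helper13.PLM (StX stX StY SumB OneB)
open Pool.Agent.Helper31.SR.MilF Pool.Agent.Helper31.SR.MilB
open Pool.Agent.Helper31.SR.MilG Pool.Agent.Helper31.SR.MilH Pool.Agent.Helper31.SR.MilI
open Pool.Agent.Helper31.SR.MilW Pool.Agent.Helper31.SR.MilJ Pool.Agent.Helper31.SR.FinT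

/-- the middle range up to `.0092` -/
theorem base92 (hg : WS 0.0368 0.00742 0.0092 0.2048) (X : ℝ) :
    CoreP (Pc X 0.002 0.0092) X 0.00001 := join (base X) (pc_g92 (hg.wr X))

/-- **circumradius at least `.6119`** -/
theorem win_6119 (hg : WS 0.0368 0.00742 0.0092 0.2048) : Win 0.6119 :=
  window_B (R' := 0.6118999) (κ := 0.00001) (by norm_num) (by norm_num) (by norm_num)
    (by norm_num) (by norm_num) (by norm_num) Helper13.PLM.sumB_0093 (low _) (base92 hg _)

/-- **circumradius at least `.61135`** from the core statement on `[T1, .02]`, `T1 ≤ .0092` -/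
theorem win_61135 {κ T1 : ℝ} (hg : WS 0.0368 0.00742 0.0092 0.2048) (hκ : 0.00001 ≤ κ)
    (hT : T1 ≤ 0.0092)
    (h : CoreP (fun S => StY 0.0204 0.02 0.0172 S ∧ T1 ≤ ∑ i, S i) 0.0204 κ) : Win 0.61135 :=
  PcB.window_Y (R' := 0.611342) (by norm_num) (by norm_num) (by norm_num) (by norm_num)
    (by norm_num) (by norm_num) (Helper13.PLM.sumB_0204.mono le_rfl (by norm_num))
    Helper13.PLM.oneB_0204 (low _) (base92 hg _) (h.mono hκ fun _ hS => ⟨hS.1, hT.trans hS.2⟩)

end Pool.Agent.Helper31.SR.MilP
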