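import Pool.Agent.Helper73.MEI.MA3
import Pool.Agent.Helper97.MEI.AsmFin
import Pool.Agent.Helper31.SR.PcN

/-!
# Project MEI (M2), milestone A: the numbers of the pieces of the small range

For every piece `T0 ≤ Σ S ≤ T1`: the numbers of `face_fv` and the budget of the cost of the second
order term (form `WOKG` of helper73's `coreP_smallG`).
-/

set_option autoImplicit false

namespace Pool.Agent.Helper31.SR.PcV

open Set Metric MeasureTheory Helper80.CW Helper82.CW Helper14.CW Helper93.MEI Helper82.M2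
open Helper14.MEI2 Pool.Agent.Helper73.MEI Helper37.MEI Helper41.MEI
open Helper33.MEI (Wi)
open Helper78.MEI
open Helper13.PLM (StX stX)
open Pool.Agent.Helper73.MEI.ArCor
open Pool.Agent.Helper31.SR Pool.Agent.Helper31.SR.EndA Pool.Agent.Helper31.SR.PcN
open scoped RealInnerProductSpace ENNReal

/-- numbers of the range `Σ S ≤ 0.01` -/
theorem rng_k100s : Rng 0.01 0.07072 0.94999 0.10528 1.05265 0.0052633 0.0028013 0.000735 1.0025 1.23086 1.22883 0.11942 where
  X1 := by norm_num
  rm0 := by norm_num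
  rmX := by norm_num
  qm0 := by norm_num
  qmr := by norm_num
  nb0 := by norm_num
  nbq := by norm_num
  nb3 := by norm_num
  ρq := by norm_num
  Rbq := by norm_num
  gg0 := by norm_num
  gR := by norm_num
  k1X := by norm_num
  k12X := by norm_num
  k12k := by norm_num
  t21 := by norm_num
  t2X := by norm_num
  δt := by norm_num
  hε := by norm_num
  ng := by norm_num

theorem apx_k100s : Apx 0.01 0.94999 0.2233 2.04 0.035 1.06419 0.119401 0.175908 0.239622 0.28478 0.50218 where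
  X3 := by norm_num
  Tm0 := by norm_num
  Tm2 := by norm_num
  TmX := by norm_num
  r0 := by norm_num
  rX := by norm_num
  V0 := by norm_num
  VX := by norm_num
  x00 := by norm_num
  x0r := by norm_num
  x1r := by norm_num
  xT := by norm_num
  phi := by norm_num
  line := by
    intro T h0 h1
    have hb : 0 ≤ 0.2233 - T := by linarith
    have b0 := pow_nonneg hb 5
    have b1 := mul_nonneg h0 (pow_nonneg hb 4)
    have b2 := mul_nonneg (pow_nonneg h0 2) (pow_nonneg hb 3)
    have b3 := mul_nonneg (pow_nonneg h0 3) (pow_nonneg hb 2)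
    have b4 := mul_nonneg (pow_nonneg h0 4) hb
    have b5 := pow_nonneg h0 5
    linarith

theorem sml_k100s : Sml 2.04 0.035 0.28478 0.50218 1.0025 (1.23086 - 1.0025) 0.000735 0.10528 0.2233 0 0.079436 0.228383 6.6442 2.311 where
  A0 := by norm_num
  g10 := by norm_num
  k1g := by norm_num
  k2g := by norm_num
  ε0 := by norm_num
  nb1 := by norm_num
  w30 := by norm_num
  w3A := by norm_num
  hC1 := by norm_num
  C10 := by norm_num
  hC2 := by norm_num
  hC2' := by norm_num
  C20 := by norm_num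
  hK1 := by norm_num
  hK2 := by norm_num
  K20 := by norm_num
  K12 := by norm_num
  gT := by norm_num

/-- **the piece `0.0092 ≤ Σ S ≤ 0.01`**: `w1 + 3 w2 + 4 w0 / 0.0092 ≤ 0.2054` -/
theorem piece_k100s {X w0 w1 w2 : ℝ} (hM : MomP 0.035 X (fun S => StX X S ∧ 0.0092 ≤ ∑ i, S i ∧ ∑ i, S i ≤ 0.01))
    (hW : WOKG 0.035 w0 w1 w2 0 0 0 X (fun S => StX X S ∧ 0.0092 ≤ ∑ i, S i ∧ ∑ i, S i ≤ 0.01)) (hw0 : 0 ≤ w0)
    (hw : w1 + 3 * w2 + 4 * w0 / 0.0092 ≤ 0.2054) :
    CoreP (fun S => StX X S ∧ 0.0092 ≤ ∑ i, S i ∧ ∑ i, S i ≤ 0.01) X 0.00001 := by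
  have h0 : 4 * w0 / 0.0092 * 0.0092 = 4 * w0 := by
    rw [div_mul_cancel₀ _ (by norm_num)]
  have hd : 0 ≤ 4 * w0 / 0.0092 := by positivity
  have e0 := mul_le_mul_of_nonneg_right hw (show (0 : ℝ) ≤ 0.0092 by norm_num)
  have e1 := mul_le_mul_of_nonneg_right hw (show (0 : ℝ) ≤ 0.01 by norm_num)
  have e2 := mul_le_mul_of_nonneg_left (show (0.0092 : ℝ) ≤ 0.01 by norm_num) hd
  exact coreP_smallG (c0 := 0.000185) (c1 := 0.0039) (c3 := 0.501) (T0 := 0.0092)
    (e := 5.666) asm_a (by norm_num) (by norm_num) (by norm_num) le_rfl le_rfl le_rfl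
    (fun K σ hσ a c hC hX S hV hP => ⟨hP.2.1, hP.2.2, fun i => small_of_sum hV.nn hP.2.2 (by norm_num) i⟩)
    hM hW rng_k100s apx_k100s sml_k100s (by norm_num) (by norm_num) (by norm_num) (by norm_num)
    (by linarith) (by linarith)

/-- numbers of the range `Σ S ≤ 0.0104` -/
theorem rng_k104s : Rng 0.0104 0.07212 0.949 0.10748 1.05375 0.0054795 0.0029208 0.000776 1.0026 1.2311 1.22899 0.1197 where
  X1 := by norm_num
  rm0 := by norm_num
  rmX := by norm_num
  qm0 := by norm_num
  qmr := by norm_num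
  nb0 := by norm_num
  nbq := by norm_num
  nb3 := by norm_num
  ρq := by norm_num
  Rbq := by norm_num
  gg0 := by norm_num
  gR := by norm_num
  k1X := by norm_num
  k12X := by norm_num
  k12k := by norm_num
  t21 := by norm_num
  t2X := by norm_num
  δt := by norm_num
  hε := by norm_num
  ng := by norm_num

theorem apx_k104s : Apx 0.0104 0.949 0.22796 2.04 0.0352 1.064331 0.119681 0.175885 0.239635 0.28432 0.50227 where
  X3 := by norm_num
  Tm0 := by norm_num
  Tm2 := by norm_num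
  TmX := by norm_num
  r0 := by norm_num
  rX := by norm_num
  V0 := by norm_num
  VX := by norm_num
  x00 := by norm_num
  x0r := by norm_num
  x1r := by norm_num
  xT := by norm_num
  phi := by norm_num
  line := by
    intro T h0 h1
    have hb : 0 ≤ 0.22796 - T := by linarith
    have b0 := pow_nonneg hb 5
    have b1 := mul_nonneg h0 (pow_nonneg hb 4)
    have b2 := mul_nonneg (pow_nonneg h0 2) (pow_nonneg hb 3)
    have b3 := mul_nonneg (pow_nonneg h0 3) (pow_nonneg hb 2)
    have b4 := mul_nonneg (pow_nonneg h0 4) hb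
    have b5 := pow_nonneg h0 5
    linarith

theorem sml_k104s : Sml 2.04 0.0352 0.28432 0.50227 1.0026 (1.2311 - 1.0026) 0.000776 0.10748 0.22796 0 0.079468 0.226577 6.6492 2.3321 where
  A0 := by norm_num
  g10 := by norm_num
  k1g := by norm_num
  k2g := by norm_num
  ε0 := by norm_num
  nb1 := by norm_num
  w30 := by norm_num
  w3A := by norm_num
  hC1 := by norm_num
  C10 := by norm_num
  hC2 := by norm_num
  hC2' := by norm_num
  C20 := by norm_num
  hK1 := by norm_num
  hK2 := by norm_num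
  K20 := by norm_num
  K12 := by norm_num
  gT := by norm_num

/-- **the piece `0.0092 ≤ Σ S ≤ 0.0104`**: `w1 + 3 w2 + 4 w0 / 0.0092 ≤ 0.2031` -/
theorem piece_k104s {X w0 w1 w2 : ℝ} (hM : MomP 0.0352 X (fun S => StX X S ∧ 0.0092 ≤ ∑ i, S i ∧ ∑ i, S i ≤ 0.0104))
    (hW : WOKG 0.0352 w0 w1 w2 0 0 0 X (fun S => StX X S ∧ 0.0092 ≤ ∑ i, S i ∧ ∑ i, S i ≤ 0.0104)) (hw0 : 0 ≤ w0)
    (hw : w1 + 3 * w2 + 4 * w0 / 0.0092 ≤ 0.2031) :
    CoreP (fun S => StX X S ∧ 0.0092 ≤ ∑ i, S i ∧ ∑ i, S i ≤ 0.0104) X 0.00001 := by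
  have h0 : 4 * w0 / 0.0092 * 0.0092 = 4 * w0 := by
    rw [div_mul_cancel₀ _ (by norm_num)]
  have hd : 0 ≤ 4 * w0 / 0.0092 := by positivity
  have e0 := mul_le_mul_of_nonneg_right hw (show (0 : ℝ) ≤ 0.0092 by norm_num)
  have e1 := mul_le_mul_of_nonneg_right hw (show (0 : ℝ) ≤ 0.0104 by norm_num)
  have e2 := mul_le_mul_of_nonneg_left (show (0.0092 : ℝ) ≤ 0.0104 by norm_num) hd
  exact coreP_smallG (c0 := 0.000185) (c1 := 0.0039) (c3 := 0.501) (T0 := 0.0092)
    (e := 5.685) asm_a (by norm_num) (by norm_num) (by norm_num) le_rfl le_rfl le_rfl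
    (fun K σ hσ a c hC hX S hV hP => ⟨hP.2.1, hP.2.2, fun i => small_of_sum hV.nn hP.2.2 (by norm_num) i⟩)
    hM hW rng_k104s apx_k104s sml_k104s (by norm_num) (by norm_num) (by norm_num) (by norm_num)
    (by linarith) (by linarith)

end Pool.Agent.Helper31.SR.PcV
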