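import Pool.Agent.Helper31.SR.MilP
import Pool.Agent.Helper31.SR.PcV
import Pool.Agent.Helper31.SR.SumW2

/-!
# Project MEI (M2), track A: the window `.61186` from the table on `[.0092, .01]`
-/

set_option autoImplicit false

namespace Pool.Agent.Helper31.SR.MilQ

open Set Metric MeasureTheory Helper80.CW Helper82.CW Helper14.CW Helper93.MEI Helper82.M2
open Helper14.MEI2 Pool.Agent.Helper73.MEI Helper37.MEI Helper41.MEI
open Helper33.MEI (Wi)
open Helper78.MEI
open Helper13.PLM (StX stX StY SumB OneB coreP_sumB)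
open Pool.Agent.Helper73.MEI.ArCor
open Pool.Agent.Helper31.SR Pool.Agent.Helper31.SR.EndA Pool.Agent.Helper31.SR.PcN
open Pool.Agent.Helper31.SR.MilF Pool.Agent.Helper31.SR.MilB Pool.Agent.Helper31.SR.PcV
open Pool.Agent.Helper31.SR.MilG Pool.Agent.Helper31.SR.MilH Pool.Agent.Helper31.SR.MilI
open Pool.Agent.Helper31.SR.MilW Pool.Agent.Helper31.SR.MilJ Pool.Agent.Helper31.SR.MilL
open Pool.Agent.Helper31.SR.MilP
open scoped RealInnerProductSpace ENNReal

theorem pc_k100s {X : ℝ} (h : WR X 0.035 0.0092 0.01 0.2054) :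
    CoreP (Pc X 0.0092 0.01) X 0.00001 := by
  obtain ⟨a0, a1, a2, a3, a4, a5⟩ := h
  exact piece_k100s (momPs (by norm_num) (by norm_num)) a5 a3 a4

/-- **circumradius at least `.61186`** -/
theorem win_61186 (hg : WS 0.0368 0.00742 0.0092 0.2048) (hk : WS 0.035 0.0092 0.01 0.2054) :
    Win 0.61186 :=
  window_B (R' := 0.611857) (κ := 0.00001) (by norm_num) (by norm_num) (by norm_num)
    (by norm_num) (by norm_num) (by norm_num) Helper13.PLM.sumB_01015 (low _)
    (join (base92 hg _) (pc_k100s (hk.wr _)))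

end Pool.Agent.Helper31.SR.MilQ
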