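import Pool.Agent.Helper31.SR.MilP
import Pool.Agent.Helper78.MEI.WS92

/-!
# Project MEI (M2), track A: the window `.6119`, complete

`win6119` = bodies in no ball of radius `.6119`; `win_of_top`, `concl6119` = the window `.61135` and
the whole theorem from top ranges.
-/

set_option autoImplicit false

namespace Pool.Agent.Helper31.SR.MilR

open Pool.Agent.Helper31.SR.MilG (Win)
open Pool.Agent.Helper31.SR.FinT

/-- **circumradius at least `.6119`** -/
theorem win6119 : Win 0.6119 := MilP.win_6119 Helper78.MEI.WS92.ws

/-- **circumradius at least `R`** from the top range `[R, .6119]` -/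
theorem win_of_top {R : ℝ} (h : Top R 0.6119) : Win R := Win.top win6119 h

/-- **the whole theorem** from the top range `[.6042, .6119]` -/
theorem concl6119 (hT : Top 0.6042 0.6119) : Helper96.MEI.Concl := concl_of_top hT win6119

end Pool.Agent.Helper31.SR.MilR
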