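import Pool.Agent.Helper31.SR.MilI
import Pool.Agent.Helper23.MEI.WJ6
import Pool.Agent.Helper13.PLM.SumZ

/-!
# Project MEI (M2): the low range `Σ S ≤ .002` is complete

`wl` (helper23's `wj_T1`, tables of helper75), `low X`; window theorems from the middle range only.
-/

set_option autoImplicit false

namespace Pool.Agent.Helper31.SR.MilW

open Pool.Agent.Helper31.SR Pool.Agent.Helper31.SR.MilF
open Pool.Agent.Helper31.SR.MilG Pool.Agent.Helper31.SR.MilH Pool.Agent.Helper31.SR.MilI
open Helper13.PLM (StX SumB)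

/-- **the cost of the second order term in regime I** -/
theorem wl : WL := ⟨0.0559, 0.0226, by norm_num, Pool.Agent.Helper23.MEI.J.wj_T1 _⟩

theorem low (X : ℝ) : LowI X := wl.low X

/-- **circumradius at least `.6121`** from the two tables `[.002, .004]` and `[.004, .006]` -/
theorem win6121 (ha : WS 0.0355 0.002 0.004 0.177) (hb : WS 0.036 0.004 0.006 0.2107) :
    Win 0.6121 := winA_6121 wl (ha.wr _) (hb.wr _)

/-- **circumradius at least `.61204`** from three tables -/
theorem win61204 (ha : WS 0.0355 0.002 0.004 0.177) (hb : WS 0.036 0.004 0.006 0.2107)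
    (hc : WS 0.036 0.006 0.0068 0.214) : Win 0.61204 :=
  winA_61204 wl (ha.wr _) (hb.wr _) (hc.wr _)

/-- **circumradius at least `.612`** from three tables -/
theorem win612 (ha : WS 0.0355 0.002 0.004 0.177) (hb : WS 0.036 0.004 0.006 0.2107)
    (hc : WS 0.0362 0.006 0.00742 0.2121) : Win 0.612 :=
  winA_612 Helper13.PLM.sumB_00752 wl (ha.wr _) (hb.wr _) (hc.wr _)

end Pool.Agent.Helper31.SR.MilW
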