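import Pool.Agent.Helper31.SR.MilW
import Pool.Agent.Helper31.SR.PcB

/-!
# Project MEI (M2): window theorems from track A (`Σ S ≤ .006`) and track B (`Σ S ≥ .0059`)
-/

set_option autoImplicit false

namespace Pool.Agent.Helper31.SR.MilY

open Set Metric MeasureTheory Helper80.CW Helper82.CW Helper14.CW Helper93.MEI Helper82.M2
open Pool.Agent.Helper73.MEI Helper78.MEI
open Pool.Agent.Helper31.SR Pool.Agent.Helper31.SR.MilF Pool.Agent.Helper31.SR.MilB
open Pool.Agent.Helper31.SR.MilG Pool.Agent.Helper31.SR.MilH Pool.Agent.Helper31.SR.MilI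
open Pool.Agent.Helper31.SR.MilW Pool.Agent.Helper31.SR.PcB
open Helper13.PLM (StX StY SumB OneB)

/-- the middle range from the two tables -/
theorem mid (ha : WS 0.0355 0.002 0.004 0.177) (hb : WS 0.036 0.004 0.006 0.2107) (X : ℝ) :
    CoreP (Pc X 0.002 0.006) X 0.00001 :=
  join (pc_a4r (ha.wr X)) (pc_m46 (hb.wr X))

theorem mid' (ha : WS 0.0355 0.002 0.004 0.177) (hb : WS 0.036 0.004 0.006 0.2107) (X : ℝ) :
    CoreP (Pc X 0.002 0.0059) X 0.00001 :=
  (mid ha hb X).mono le_rfl fun _ hS => ⟨hS.1, hS.2.1, hS.2.2.trans (by norm_num)⟩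

/-- the middle range from three tables -/
theorem mid3 (ha : WS 0.0355 0.002 0.004 0.177) (hb : WS 0.036 0.004 0.006 0.2107)
    (hc : WS 0.0362 0.006 0.00742 0.2121) (X : ℝ) :
    CoreP (Pc X 0.002 0.00742) X 0.00001 :=
  join (mid ha hb X) (pc_e742 (hc.wr X))

/-- **circumradius at least `.61135`**: `X = .0204`, `Σ S ≤ .02`, `S i ≤ .0172` -/
theorem winY_61135 (ha : WS 0.0355 0.002 0.004 0.177) (hb : WS 0.036 0.004 0.006 0.2107)
    (h : CoreP (fun S => StY 0.0204 0.02 0.0172 S ∧ 0.0059 ≤ ∑ i, S i) 0.0204 0.00001) :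
    Win 0.61135 :=
  window_Y (R' := 0.611342) (by norm_num) (by norm_num) (by norm_num) (by norm_num)
    (by norm_num) (by norm_num) (Helper13.PLM.sumB_0204.mono le_rfl (by norm_num))
    Helper13.PLM.oneB_0204 (low _) (mid' ha hb _) h

/-- **circumradius at least `.6111`**: `X = .0254`, `Σ S ≤ .0248`, bound `β` of the `S i` -/
theorem winY_6111 {β : ℝ} (hO : OneB 0.0254 β) (ha : WS 0.0355 0.002 0.004 0.177)
    (hb : WS 0.036 0.004 0.006 0.2107)
    (h : CoreP (fun S => StY 0.0254 0.0248 β S ∧ 0.0059 ≤ ∑ i, S i) 0.0254 0.00001) :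
    Win 0.6111 :=
  window_Y (R' := 0.611092) (by norm_num) (by norm_num) (by norm_num) (by norm_num)
    (by norm_num) (by norm_num) Helper13.PLM.sumB_0254 hO (low _) (mid' ha hb _) h

/-- **circumradius at least `.61085`**: `X = .0304`, `Σ S ≤ .0296`, `S i ≤ .025` -/
theorem winY_61085 (ha : WS 0.0355 0.002 0.004 0.177) (hb : WS 0.036 0.004 0.006 0.2107)
    (h : CoreP (fun S => StY 0.0304 0.0296 0.025 S ∧ 0.0059 ≤ ∑ i, S i) 0.0304 0.00001) :
    Win 0.61085 :=
  win_6109 (by norm_num) (low _) (mid' ha hb _) h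

end Pool.Agent.Helper31.SR.MilY
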