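import Pool.Agent.Helper31.SR.PcB
import Pool.Agent.Helper73.MEI.FW6
import Pool.Agent.Helper73.MEI.FN2
import Pool.Agent.Helper41.MEI.ArcY

/-!
# Project MEI (M2), track B: the data of the faces of a piece

`FK` = the data of a face of a piece, `FK.Ok` = the numeric hypotheses (at the vertices of the
piece only) with the certificates, `FK.W` = the cost of the second order term; `FK.row` = the row
of the face (helper73's `row_faceK`); `coreP_FK` = the core statement on the piece.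
-/

set_option autoImplicit false

namespace Pool.Agent.Helper31.SR.PcK

open Set Metric MeasureTheory Filter Topology Helper93.MEI Helper80.CW Helper14.CW
open Helper14.MEI2 Pool.Agent.Helper73.MEI Helper82.M2 Helper82.CW Helper41.MEI
open Pool.Agent.Helper31.SR Helper37.MEI
open Helper33.MEI (Wi)
open Helper78.MEI
open Helper13.PLM (StX stX StY SumB OneB coreP_stY)
open Pool.Agent.Helper31.SR.Sort
open Pool.Agent.Helper31.SR.IntB Pool.Agent.Helper31.SR.IntC Pool.Agent.Helper31.SR.IntD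
open Pool.Agent.Helper31.SR.PcB
open Pool.Agent.Helper55.Apex (nc)
open Pool.Agent.Helper73.MEI.SideP
open Pool.Agent.Helper73.MEI.ArCor
open scoped RealInnerProductSpace

variable {ι : Type} [Fintype ι]

/-- an affine bound of the columns of the arcs for `Σ S ≤ T` -/
def MomB (T c cj ck c0 cp : ℝ) : Prop :=
  ∀ (K : Set E3) (σ : Measure (E3 × E3)), IsFiniteMeasure σ →
    ∀ a c' : Fin 4 → E3, CN K σ a c' → ∀ S : Fin 4 → ℝ, Viol K a S → ∑ i, S i ≤ T →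
    ∀ (τ : Equiv.Perm (Fin 4)) (p k j : Fin 3), k ≠ p → j ≠ p → j ≠ k →
    MA σ a (l2 a) τ p k ≤ c + cj * S (τ j.succ) + ck * S (τ k.succ) + c0 * S (τ 0)
      + cp * S (τ p.succ)

/-- `Σ S ≤ .0604` (helper41, slab `0`, bulk `1`) -/
theorem momB_6 : MomB 0.0604 0.03318 0.3358 0.0484 0.13072 0.11064 := by
  intro K σ hσ a c' hC S hV hT τ p k j hk hj hjk
  obtain ⟨B, hB⟩ := frames hC.ha
  rw [Fin.sum_univ_four] at hT
  have h1 := Helper41.ArcY.MA_6 hC.ha hC.pm hC.hull hC.hp hB hV.nn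
    (fun i q hq => hV.le i q hq) (l2_ok hC.ha) (t := 0) (θ := 1) hT le_rfl (by norm_num)
    (by norm_num) le_rfl τ hk hj hjk
  unfold Helper41.ArcY.c93 at h1
  norm_num at h1 ⊢
  linarith

/-- a larger slab: `t = 1 / 20` -/
theorem momB_6t : MomB 0.0604 0.03322 0.30681 0.0484 0.13072 0.11064 := by
  intro K σ hσ a c' hC S hV hT τ p k j hk hj hjk
  obtain ⟨B, hB⟩ := frames hC.ha
  rw [Fin.sum_univ_four] at hT
  have h1 := Helper41.ArcY.MA_6 hC.ha hC.pm hC.hull hC.hp hB hV.nn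
    (fun i q hq => hV.le i q hq) (l2_ok hC.ha) (t := 1 / 20) (θ := 1) hT (by norm_num)
    (by norm_num) (by norm_num) le_rfl τ hk hj hjk
  unfold Helper41.ArcY.c93 at h1
  norm_num at h1 ⊢
  linarith

/-- the data of a face of a piece -/
structure FK (ι : Type) where
  τ : Equiv.Perm (Fin 4)
  ρ : Fin 3 → ℝ
  rb : ℝ
  q : ℝ
  γc : ℝ
  γs : Fin 3 → ℝ
  D : Fin 3 → ℝ
  tt : Fin 3 → ℝ
  sg : ℝ
  mx : Fin 3 → Fin 4
  μ : Fin 3 → ℝ
  gc : (Fin 3 → Fin 3 → ℝ) → ℝ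
  gs : Fin 3 → (Fin 3 → Fin 3 → ℝ) → ℝ
  cost : ι → Option (Fin 3) → Fin 3 → Fin 3 → (Fin 3 → Fin 3 → ℝ) → ℝ
  m : ι → ℝ

/-- the numeric hypotheses of a face, at the vertices of the piece, and the certificates -/
structure FK.Ok (F : FK ι) (V : ι → Fin 4 → ℝ) (i : Fin 4)
    (c cj ck c0 cp X' qm nb ε k1 k12 K0 K1 e r U : ℝ) : Prop where
  τi : F.τ 0 = i
  ρ0 : ∀ p, 0 < F.ρ p
  ρM : ∀ v, ∀ p k j : Fin 3, k ≠ p → j ≠ p → j ≠ k →
    c + cj * V v (F.τ j.succ) + ck * V v (F.τ k.succ) + c0 * V v (F.τ 0)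
      + cp * V v (F.τ p.succ) ≤ F.ρ p
  T : StN X' qm nb K0 K1 e r U F.D F.tt
  mx : ∀ k : Fin 3, F.mx k = F.τ 0 ∨ F.mx k = F.τ k.succ
  D : ∀ v k, V v (F.mx k) ≤ F.D k
  sg : ∀ v, V v (F.mx 0) + V v (F.mx 1) + V v (F.mx 2) ≤ F.sg
  apx : ApxN 2.04 F.rb F.q r U F.γc F.γs F.gc F.gs (DomN F.D F.tt F.sg)
  rb : ∀ p, F.ρ p ≤ F.rb
  tt3 : ∀ k, F.tt k ≤ 3 / 4
  q : ∀ v, 1 + V v (F.τ 0) ≤ F.q ^ 2
  sum : 2.04 * (K0 * (F.tt 0 + F.tt 1 + F.tt 2)) < F.ρ 0 + F.ρ 1 + F.ρ 2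
  μ0 : ∀ k, 0 ≤ F.μ k
  C : ∀ v, CertG 2.04 ε k1 (k12 - k1) K0 K1 F.tt F.ρ (DomS F.D F.tt F.sg)
    (famG 2.04 F.rb K0 K1 F.ρ F.gc F.gs F.γc F.γs) F.μ (V v (F.τ 0))
    (fun k => V v (F.τ k.succ)) (fun k => V v (F.mx k)) (F.cost v) (F.m v)

/-- **the cost of the second order term of a face on a piece** -/
def FK.W (F : FK ι) (V : ι → Fin 4 → ℝ) (X : ℝ) (P : (Fin 4 → ℝ) → Prop)
    (ε k1 k12 K0 K1 : ℝ) : Prop :=
  ∀ (K : Set E3) (σ : Measure (E3 × E3)), IsFiniteMeasure σ →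
    ∀ a c : Fin 4 → E3, CN K σ a c → EpsLe c X → ∀ S : Fin 4 → ℝ, Viol K a S → P S →
    ∀ lam, Dc V S lam → ∀ z : Fin 4 → Fin 4 → E3, CV a K z →
    (∀ p k : Fin 3, k ≠ p → MA σ a (l2 a) F.τ p k ≤ F.ρ p) →
    (∀ p : Fin 3, MA σ a (l2 a) F.τ p p ≤ 0) →
    ∀ x ∈ K, (Qv a (F.τ 0) x = S (F.τ 0) ∨ S (F.τ 0) = 0) → ∀ N : Fin 3 → Fin 3 → ℝ,
      N = NM (fun i => a (F.τ i)) (fun i j => z (F.τ i) (F.τ j)) → (∀ k, nc N k ≤ F.tt k) →
      DomS F.D F.tt F.sg N → ∀ i j : Fin 3, i ≠ j →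
      PosB a F.τ x N F.tt k1 k12 ε (S (F.τ 0)) i j → ∀ cl, ClsB a F.τ x N cl →
      ∀ φ, 0 < φ → φ ≤ phiN 2.04 F.rb (TN N) (QN N) →
      WCF 2.04 σ a K (l2 a) F.τ z S x N (Rv F.tt N) φ
        (bt 2.04 (kv K0 K1 N) F.ρ) (fun _ => 0) (fun _ => 0) (∑ v, lam v * F.cost v cl i j N)

/-- **the row of a face** -/
theorem FK.row {F : FK ι} {V : ι → Fin 4 → ℝ} {i : Fin 4}
    {T c cj ck c0 cp X X' rm qm nb ρ1 Rb gg ε k1 k12 t2 δ K0 K1 e r U : ℝ}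
    {P : (Fin 4 → ℝ) → Prop} (hM : MomB T c cj ck c0 cp)
    (R : Rn X' rm qm nb ρ1 Rb gg ε k1 k12 t2 δ) (hX' : X' ≤ T)
    (hV : ∀ v, ∑ i, V v i ≤ X') (hP : ∀ S, P S → ∀ i, S i ≤ 0.026)
    (h : F.Ok V i c cj ck c0 cp X' qm nb ε k1 k12 K0 K1 e r U)
    (hW : F.W V X P ε k1 k12 K0 K1) : RowP X P V i F.m := by
  intro K σ hσ a c' hC hX S hVi hS lam hl
  obtain ⟨z, hz⟩ := cv_exists hC
  have hsum : ∑ i, S i ≤ X' := by
    have e1 : ∑ i, S i = ∑ v, lam v * ∑ i, V v i := by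
      simp only [Finset.mul_sum]
      rw [Finset.sum_comm]
      exact Finset.sum_congr rfl fun i _ => hl.eq i
    rw [e1]
    calc ∑ v, lam v * ∑ i, V v i ≤ ∑ v, lam v * X' :=
          Finset.sum_le_sum fun v _ => mul_le_mul_of_nonneg_left (hV v) (hl.nn v)
      _ = X' := by rw [← Finset.sum_mul, hl.one, one_mul]
  have hsum' : S (F.τ 0) + (S (F.τ 1) + S (F.τ 2) + S (F.τ 3)) ≤ X' := by
    have e1 : ∑ k, S k = S (F.τ 0) + S (F.τ 1) + S (F.τ 2) + S (F.τ 3) := by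
      rw [← Equiv.sum_comp F.τ S, Fin.sum_univ_four]
    linarith
  have avg : ∀ (f : ι → ℝ) (C : ℝ), (∀ v, f v ≤ C) → ∑ v, lam v * f v ≤ C := by
    intro f C hf
    calc ∑ v, lam v * f v ≤ ∑ v, lam v * C :=
          Finset.sum_le_sum fun v _ => mul_le_mul_of_nonneg_left (hf v) (hl.nn v)
      _ = C := by rw [← Finset.sum_mul, hl.one, one_mul]
  have hMρ : ∀ p k : Fin 3, k ≠ p → MA σ a (l2 a) F.τ p k ≤ F.ρ p := by
    intro p k hk
    obtain ⟨j, hj, hjk⟩ : ∃ j : Fin 3, j ≠ p ∧ j ≠ k := by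
      revert hk
      fin_cases p <;> fin_cases k <;> decide
    refine (hM K σ hσ a c' hC S hVi (hsum.trans hX') F.τ p k j hk hj hjk).trans ?_
    have e1 : c + cj * S (F.τ j.succ) + ck * S (F.τ k.succ) + c0 * S (F.τ 0)
        + cp * S (F.τ p.succ) = ∑ v, lam v * (c + cj * V v (F.τ j.succ)
          + ck * V v (F.τ k.succ) + c0 * V v (F.τ 0) + cp * V v (F.τ p.succ)) := by
      have e2 : ∀ v, lam v * (c + cj * V v (F.τ j.succ) + ck * V v (F.τ k.succ)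
          + c0 * V v (F.τ 0) + cp * V v (F.τ p.succ)) = lam v * c
          + cj * (lam v * V v (F.τ j.succ)) + ck * (lam v * V v (F.τ k.succ))
          + c0 * (lam v * V v (F.τ 0)) + cp * (lam v * V v (F.τ p.succ)) := fun v => by ring
      simp only [e2, Finset.sum_add_distrib, ← Finset.mul_sum, ← Finset.sum_mul, hl.one,
        ← hl.eq]
      ring
    rw [e1]
    exact avg _ _ fun v => h.ρM v p k j hk hj hjk
  have hδ : ∀ p : Fin 3, MA σ a (l2 a) F.τ p p ≤ 0 := fun p =>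
    (MA_third hC.ha hC.cpt hC.pm.mem hC.hp F.τ
      (fun y hy => (hVi.le _ y hy).trans (hP S hS _)) p).le
  have key := row_faceK R hC hVi hz F.τ hsum' (l2_ok hC.ha) hδ h.ρ0 hMρ h.T (mx := F.mx) h.mx
    (fun k => by rw [hl.eq]; exact avg _ _ fun v => h.D v k) (sg := F.sg)
    (by
      have e1 : S (F.mx 0) + S (F.mx 1) + S (F.mx 2) =
          ∑ v, lam v * (V v (F.mx 0) + V v (F.mx 1) + V v (F.mx 2)) := by
        simp only [mul_add, Finset.sum_add_distrib, ← hl.eq]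
      rw [e1]
      exact avg _ _ h.sg) h.apx h.rb h.tt3
    (by
      have e1 : 1 + S (F.τ 0) = ∑ v, lam v * (1 + V v (F.τ 0)) := by
        simp only [mul_add, Finset.sum_add_distrib, ← hl.eq, mul_one, hl.one]
      rw [e1]
      exact avg _ _ h.q) h.sum hl.nn hl.one hl.eq h.μ0 h.C
    (fun x hx hxs N hN hnc hDom i j hij hU cl hcl φ hφ0 hφ =>
      hW K σ hσ a c' hC hX S hVi hS lam hl z hz hMρ hδ x hx hxs N hN hnc hDom i j hij hU cl hcl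
        φ hφ0 hφ)
  rw [h.τi] at key
  exact key

/-- **the core statement on a piece from the data of the four faces** -/
theorem coreP_FK {κ d0 d1 T c cj ck c0 cp X X' rm qm nb ρ1 Rb gg ε k1 k12 t2 δ K0 K1 e r U : ℝ}
    {P : (Fin 4 → ℝ) → Prop} (hκ : 0 ≤ κ) (V : ι → Fin 4 → ℝ) (F : Fin 4 → FK ι)
    (hM : MomB T c cj ck c0 cp) (R : Rn X' rm qm nb ρ1 Rb gg ε k1 k12 t2 δ) (hX' : X' ≤ T)
    (hV0 : ∀ v i, 0 ≤ V v i) (hV : ∀ v, ∑ i, V v i ≤ X')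
    (hP : ∀ S : Fin 4 → ℝ, P S → ∃ lam, Dc V S lam) (hP26 : ∀ S, P S → ∀ i, S i ≤ 0.026)
    (hc : ∀ S : Fin 4 → ℝ, P S →
      1.85e-4 + (0.0039 + 4.08 * κ) * ∑ i, S i ≤ d0 + d1 * ∑ i, S i)
    (hnum : ∀ v, nd d0 d1 (V v) ≤ ∑ i, (F i).m v)
    (h : ∀ i, (F i).Ok V i c cj ck c0 cp X' qm nb ε k1 k12 K0 K1 e r U)
    (hW : ∀ i, (F i).W V X P ε k1 k12 K0 K1) : CoreP P X κ :=
  coreP_rows hκ V hV0 hP hc (fun i => (F i).m) hnum fun i =>
    FK.row hM R hX' hV hP26 (h i) (hW i)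

end Pool.Agent.Helper31.SR.PcK
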